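import Pool.Agent.Lib.MP_55041d_an.h32b.Stm

set_option autoImplicit false

/-!
# Definitions for MP_55041d_an (C^2-smooth bumps and C^2-smooth norms), helper32, papers 371
-/

namespace C2N

open Filter Topology Set

/-- `X` contains an isomorphic copy of `c_0`: some sequence `u` satisfies
`c max |a_i| <= ‖sum a_i u_i‖ <= C max |a_i|` for all finitely supported `a`. -/
def ContainsC0 (X : Type*) [NormedAddCommGroup X] [NormedSpace ℝ X] : Prop :=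
  ∃ (u : ℕ → X) (c C : ℝ), 0 < c ∧ 0 < C ∧
    (∀ (s : Finset ℕ) (a : ℕ → ℝ) (M : ℝ), 0 ≤ M → (∀ i ∈ s, |a i| ≤ M) →
      ‖∑ i ∈ s, a i • u i‖ ≤ C * M) ∧
    (∀ (s : Finset ℕ) (a : ℕ → ℝ), ∀ i ∈ s, c * |a i| ≤ ‖∑ j ∈ s, a j • u j‖)

/-- `X` contains an isomorphic copy of `l_2`: some sequence `u` satisfies
`c sum a_i^2 <= ‖sum a_i u_i‖^2 <= C sum a_i^2` for all finitely supported `a`. -/
def ContainsL2 (X : Type*) [NormedAddCommGroup X] [NormedSpace ℝ X] : Prop :=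
  ∃ (u : ℕ → X) (c C : ℝ), 0 < c ∧ 0 < C ∧ ∀ (s : Finset ℕ) (a : ℕ → ℝ),
    c * ∑ i ∈ s, (a i) ^ 2 ≤ ‖∑ i ∈ s, a i • u i‖ ^ 2 ∧
    ‖∑ i ∈ s, a i • u i‖ ^ 2 ≤ C * ∑ i ∈ s, (a i) ^ 2

/-- The norm of `X` is `2`-smooth: quadratic upper Taylor estimate with derivative `P`. -/
structure TwoS {X : Type*} [NormedAddCommGroup X] [NormedSpace ℝ X] (C : ℝ)
    (P : X → X →L[ℝ] ℝ) : Prop where
  one_le : 1 ≤ C
  lower : ∀ x y, 0 ≤ ‖x + y‖ ^ 2 - ‖x‖ ^ 2 - P x y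
  upper : ∀ x y, ‖x + y‖ ^ 2 - ‖x‖ ^ 2 - P x y ≤ C * ‖y‖ ^ 2

/-- norm of the restriction of a functional to a subspace -/
noncomputable def resN {X : Type*} [NormedAddCommGroup X] [NormedSpace ℝ X] (Z : Submodule ℝ X)
    (f : X →L[ℝ] ℝ) : ℝ := ‖f.comp Z.subtypeL‖

/-- the tail subspaces: intersection of the kernels of `g 0, ..., g (m-1)` -/
def tail {X : Type*} [NormedAddCommGroup X] [NormedSpace ℝ X] (g : ℕ → X →L[ℝ] ℝ) (m : ℕ) :
    Submodule ℝ X := ⨅ i ∈ Finset.range m, LinearMap.ker (g i : X →ₗ[ℝ] ℝ)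

/-- every functional has vanishing norm on the tails -/
def TailsVanish {X : Type*} [NormedAddCommGroup X] [NormedSpace ℝ X] (g : ℕ → X →L[ℝ] ℝ) : Prop :=
  ∀ f : X →L[ℝ] ℝ, Tendsto (fun m => resN (tail g m) f) atTop (𝓝 0)

/-- `a` is the weak ultralimit of the sequence `x` along `U` -/
def WLim {X : Type*} [NormedAddCommGroup X] [NormedSpace ℝ X] (U : Ultrafilter ℕ) (x : ℕ → X)
    (a : X) : Prop :=
  ∀ f : X →L[ℝ] ℝ, Tendsto (fun k => f (x k)) U (𝓝 (f a))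

/-- bounded sequences have weak ultralimits (a form of reflexivity) -/
def WLimExists (X : Type*) [NormedAddCommGroup X] [NormedSpace ℝ X] : Prop :=
  ∀ (U : Ultrafilter ℕ) (x : ℕ → X) (R : ℝ), (∀ k, ‖x k‖ ≤ R) → ∃ a, WLim U x a

/-- A Kadec norm: an equivalent norm, weakly lower semicontinuous along ultrafilters, such that
weak ultralimits with convergence of norms are norm limits. -/
structure Kadec {X : Type*} [NormedAddCommGroup X] [NormedSpace ℝ X] (A : X → ℝ) : Prop where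
  add_le : ∀ x y, A (x + y) ≤ A x + A y
  smul : ∀ (r : ℝ) (x : X), A (r • x) = |r| * A x
  le : ∀ x, ‖x‖ ≤ A x
  ge : ∀ x, A x ^ 2 ≤ 2 * ‖x‖ ^ 2
  lsc : ∀ (U : Ultrafilter ℕ) (u : ℕ → X) (a : X) (r : ℝ), WLim U u a →
    Tendsto (fun k => A (u k)) U (𝓝 r) → A a ≤ r
  kad : ∀ (U : Ultrafilter ℕ) (u : ℕ → X) (a : X), WLim U u a →
    Tendsto (fun k => A (u k)) U (𝓝 (A a)) → Tendsto u U (𝓝 a)

end C2N
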