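import Mathlib
import Pool.Agent.Lib.MP_55041d_an.h32b.Defs

section

set_option autoImplicit false

/-!
Elementary facts on the norm `resN Z f` of the restriction of a functional to a subspace.
-/

namespace C2N

open Filter Topology Set

variable {X : Type*} [NormedAddCommGroup X] [NormedSpace ℝ X]

theorem resN_nonneg (Z : Submodule ℝ X) (f : X →L[ℝ] ℝ) : 0 ≤ resN Z f := by
  unfold resN
  exact norm_nonneg (f.comp Z.subtypeL)

theorem resN_le_norm (Z : Submodule ℝ X) (f : X →L[ℝ] ℝ) : resN Z f ≤ ‖f‖ := by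
  refine ContinuousLinearMap.opNorm_le_bound _ (norm_nonneg _) fun z => ?_
  exact f.le_opNorm (z : X)

theorem abs_le_resN {Z : Submodule ℝ X} (f : X →L[ℝ] ℝ) {z : X} (hz : z ∈ Z) :
    |f z| ≤ resN Z f * ‖z‖ :=
  (f.comp Z.subtypeL).le_opNorm ⟨z, hz⟩

theorem resN_mono {Z Z' : Submodule ℝ X} (h : Z ≤ Z') (f : X →L[ℝ] ℝ) : resN Z f ≤ resN Z' f := by
  refine ContinuousLinearMap.opNorm_le_bound _ (resN_nonneg _ _) fun z => ?_
  exact abs_le_resN f (h z.2)

theorem resN_add_le (Z : Submodule ℝ X) (f g : X →L[ℝ] ℝ) : resN Z (f + g) ≤ resN Z f + resN Z g := by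
  unfold resN
  rw [ContinuousLinearMap.add_comp]
  exact norm_add_le (f.comp Z.subtypeL) (g.comp Z.subtypeL)

theorem resN_smul (Z : Submodule ℝ X) (r : ℝ) (f : X →L[ℝ] ℝ) : resN Z (r • f) = |r| * resN Z f := by
  have key : ∀ (r : ℝ) (f : X →L[ℝ] ℝ), resN Z (r • f) ≤ |r| * resN Z f := by
    intro r f
    refine ContinuousLinearMap.opNorm_le_bound _ (mul_nonneg (abs_nonneg r) (resN_nonneg Z f))
      fun z => ?_
    change |r * f (z : X)| ≤ |r| * resN Z f * ‖(z : X)‖
    rw [abs_mul, mul_assoc]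
    exact mul_le_mul_of_nonneg_left (abs_le_resN f z.2) (abs_nonneg r)
  refine le_antisymm (key r f) ?_
  rcases eq_or_ne r 0 with rfl | hr
  · rw [abs_zero, zero_mul]; exact resN_nonneg Z _
  have h := key r⁻¹ (r • f)
  rw [inv_smul_smul₀ hr, abs_inv] at h
  have h2 := mul_le_mul_of_nonneg_left h (abs_nonneg r)
  rwa [← mul_assoc, mul_inv_cancel₀ (abs_pos.2 hr).ne', one_mul] at h2

theorem abs_resN_sub_le (Z : Submodule ℝ X) (f g : X →L[ℝ] ℝ) : |resN Z f - resN Z g| ≤ ‖f - g‖ := by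
  have h1 : resN Z f - resN Z g ≤ ‖f - g‖ := by
    have h := resN_add_le Z g (f - g)
    rw [add_sub_cancel] at h
    have h' := resN_le_norm Z (f - g)
    linarith
  have h2 : resN Z g - resN Z f ≤ ‖f - g‖ := by
    have h := resN_add_le Z f (g - f)
    rw [add_sub_cancel] at h
    have h' := resN_le_norm Z (g - f)
    rw [norm_sub_rev] at h'
    linarith
  exact abs_sub_le_iff.2 ⟨h1, h2⟩

/-- almost norming vectors -/
theorem exists_norming (Z : Submodule ℝ X) (f : X →L[ℝ] ℝ) {e : ℝ} (he : 0 < e) :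
    ∃ z ∈ Z, ‖z‖ ≤ 1 ∧ resN Z f - e ≤ f z := by
  by_contra hcon
  push Not at hcon
  have h0 : 0 < resN Z f - e := by
    have h := hcon 0 Z.zero_mem (by simp)
    rwa [map_zero] at h
  have hb : resN Z f ≤ resN Z f - e := by
    refine ContinuousLinearMap.opNorm_le_bound _ h0.le fun z => ?_
    change |f (z : X)| ≤ (resN Z f - e) * ‖(z : X)‖
    rcases eq_or_ne (z : X) 0 with hz | hz
    · rw [hz]; simp
    have hn : 0 < ‖(z : X)‖ := norm_pos_iff.2 hz
    have hu : ∀ r : ℝ, |r| = 1 → r * f (z : X) ≤ (resN Z f - e) * ‖(z : X)‖ := by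
      intro r hr
      have h := hcon ((r * ‖(z : X)‖⁻¹) • (z : X)) (Z.smul_mem _ z.2) (by
        rw [norm_smul, norm_mul, norm_inv, norm_norm, Real.norm_eq_abs, hr, one_mul,
          inv_mul_cancel₀ hn.ne'])
      rw [map_smul, smul_eq_mul] at h
      have h2 : r * ‖(z : X)‖⁻¹ * f (z : X) * ‖(z : X)‖ ≤ (resN Z f - e) * ‖(z : X)‖ :=
        mul_le_mul_of_nonneg_right h.le hn.le
      have h3 : r * ‖(z : X)‖⁻¹ * f (z : X) * ‖(z : X)‖ = r * f (z : X) := by
        field_simp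
      rwa [h3] at h2
    have h1 := hu 1 (by simp)
    have h2 := hu (-1) (by simp)
    exact abs_le.2 ⟨by linarith, by linarith⟩
  linarith

end C2N
end

section

section

set_option autoImplicit false

/-!
Elementary facts on the tails (finite intersections of kernels).
-/

namespace C2N

open Filter Topology Set

variable {X : Type*} [NormedAddCommGroup X] [NormedSpace ℝ X]

theorem mem_tail_iff {g : ℕ → X →L[ℝ] ℝ} {m : ℕ} {z : X} :
    z ∈ tail g m ↔ ∀ i < m, g i z = 0 := by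
  simp [tail, Submodule.mem_iInf]

theorem tail_anti {g : ℕ → X →L[ℝ] ℝ} {m n : ℕ} (h : m ≤ n) : tail g n ≤ tail g m := by
  intro z hz
  rw [mem_tail_iff] at hz ⊢
  exact fun i hi => hz i (lt_of_lt_of_le hi h)

theorem tail_closed {g : ℕ → X →L[ℝ] ℝ} {m : ℕ} : IsClosed (tail g m : Set X) := by
  have h : (tail g m : Set X) = ⋂ i ∈ Set.Iio m, {z | g i z = 0} := by
    ext z
    simp only [SetLike.mem_coe, mem_tail_iff, Set.mem_Iio, Set.mem_iInter, Set.mem_setOf_eq]
  rw [h]
  refine isClosed_biInter (fun i _ => ?_)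
  exact isClosed_eq (g i).continuous continuous_const

end C2N
end

section

set_option autoImplicit false

/-!
`exists_near_tail`: the map `x ↦ (g i x)_{i<m}` into `Fin m → ℝ` (or `EuclideanSpace`) has a finite
dimensional range, choose a linear (hence bounded) right inverse `s` on the range, `z = x - s (g · x)`.
(Or induction on `m`: if `g m` vanishes on `tail g m` nothing to do, otherwise pick `e ∈ tail g m` with
`g m e = 1` and correct `z` by `- (g m z) • e`.)
`wlim_zero_near_tail`: apply it to `x k`, `g i (x k) → 0` for each `i < m`.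
-/

namespace C2N

open Filter Topology Set

variable {X : Type*} [NormedAddCommGroup X] [NormedSpace ℝ X]

private theorem tail_mem_iff (g : ℕ → X →L[ℝ] ℝ) (m : ℕ) (x : X) :
    x ∈ tail g m ↔ ∀ i < m, g i x = 0 := by
  unfold tail
  simp [Submodule.mem_iInf]

/-- finite codimension, quantitative: distance to the tail is controlled by finitely many
functionals. -/
theorem exists_near_tail (g : ℕ → X →L[ℝ] ℝ) (m : ℕ) :
    ∃ K : ℝ, 0 ≤ K ∧ ∀ x : X, ∃ z ∈ tail g m, ‖x - z‖ ≤ K * ∑ i ∈ Finset.range m, |g i x| := by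
  induction m with
  | zero =>
    refine ⟨0, le_rfl, fun x => ⟨x, ?_, by simp⟩⟩
    rw [tail_mem_iff]
    intro i hi
    exact absurd hi (Nat.not_lt_zero i)
  | succ m ih =>
    obtain ⟨K, hK, h⟩ := ih
    by_cases hv : ∀ z ∈ tail g m, g m z = 0
    · refine ⟨K, hK, fun x => ?_⟩
      obtain ⟨z, hz, hxz⟩ := h x
      refine ⟨z, ?_, hxz.trans ?_⟩
      · rw [tail_mem_iff] at hz ⊢
        intro i hi
        rcases Nat.lt_succ_iff_lt_or_eq.1 hi with h1 | h1
        · exact hz i h1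
        · rw [h1]
          exact hv z ((tail_mem_iff g m z).2 hz)
      · refine mul_le_mul_of_nonneg_left ?_ hK
        rw [Finset.sum_range_succ]
        linarith [abs_nonneg (g m x)]
    · push Not at hv
      obtain ⟨e₀, he₀, hne⟩ := hv
      set e : X := (g m e₀)⁻¹ • e₀ with he
      have he1 : e ∈ tail g m := (tail g m).smul_mem _ he₀
      have he2 : g m e = 1 := by
        rw [he, map_smul, smul_eq_mul, inv_mul_cancel₀ hne]
      refine ⟨K + ‖e‖ * (1 + ‖g m‖ * K), by positivity, fun x => ?_⟩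
      obtain ⟨z, hz, hxz⟩ := h x
      refine ⟨z - g m z • e, ?_, ?_⟩
      · have h3 : z - g m z • e ∈ tail g m := (tail g m).sub_mem hz ((tail g m).smul_mem _ he1)
        rw [tail_mem_iff] at h3 ⊢
        intro i hi
        rcases Nat.lt_succ_iff_lt_or_eq.1 hi with h1 | h1
        · exact h3 i h1
        · rw [h1, map_sub, map_smul, he2, smul_eq_mul, mul_one, sub_self]
      · have hS : 0 ≤ ∑ i ∈ Finset.range m, |g i x| := Finset.sum_nonneg fun i _ => abs_nonneg _
        have h4 : |g m z| ≤ |g m x| + ‖g m‖ * (K * ∑ i ∈ Finset.range m, |g i x|) := by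
          have h5 : g m z = g m x - g m (x - z) := by
            rw [map_sub]
            ring
          rw [h5]
          refine (abs_sub _ _).trans ?_
          have h6 : |g m (x - z)| ≤ ‖g m‖ * ‖x - z‖ := (g m).le_opNorm _
          have h7 := mul_le_mul_of_nonneg_left hxz (norm_nonneg (g m))
          linarith
        have h8 : ‖x - (z - g m z • e)‖ ≤ ‖x - z‖ + |g m z| * ‖e‖ := by
          have h9 : x - (z - g m z • e) = (x - z) + g m z • e := by abel
          rw [h9]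
          refine (norm_add_le _ _).trans ?_
          rw [norm_smul, Real.norm_eq_abs]
        rw [Finset.sum_range_succ]
        have h10 := mul_le_mul_of_nonneg_right h4 (norm_nonneg e)
        set S := ∑ i ∈ Finset.range m, |g i x| with hSdef
        have a1 : 0 ≤ |g m x| := abs_nonneg _
        have a2 : 0 ≤ ‖e‖ := norm_nonneg e
        have a3 : 0 ≤ ‖g m‖ := norm_nonneg _
        nlinarith [mul_nonneg hK a1, mul_nonneg a2 hS, mul_nonneg (mul_nonneg a2 (mul_nonneg a3 hK)) a1]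

/-- weak ultralimits of bounded sequences are, up to a norm null sequence, in every tail -/
theorem wlim_zero_near_tail {U : Ultrafilter ℕ} {x : ℕ → X} (hx : WLim U x 0)
    (g : ℕ → X →L[ℝ] ℝ) (m : ℕ) :
    ∃ z : ℕ → X, (∀ k, z k ∈ tail g m) ∧ Tendsto (fun k => ‖x k - z k‖) U (𝓝 0) := by
  obtain ⟨K, hK, h⟩ := exists_near_tail g m
  choose z hz hxz using fun k => h (x k)
  refine ⟨z, hz, ?_⟩
  have h1 : Tendsto (fun k => K * ∑ i ∈ Finset.range m, |g i (x k)|) U (𝓝 0) := by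
    have h2 : Tendsto (fun k => ∑ i ∈ Finset.range m, |g i (x k)|) U (𝓝 (∑ i ∈ Finset.range m, 0)) := by
      refine tendsto_finset_sum _ fun i _ => ?_
      have h3 := (hx (g i)).abs
      simpa using h3
    have h4 := h2.const_mul K
    simpa using h4
  exact squeeze_zero (fun k => norm_nonneg _) hxz h1

end C2N
end

section

set_option autoImplicit false

namespace C2N

open Filter Topology Set

variable {X : Type*} [NormedAddCommGroup X] [NormedSpace ℝ X]

end C2N
end
end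

section

section

set_option autoImplicit false

/-!
ROSENTHAL's lemma.  Induction on a bound `k` with `R ≤ k ε`, for the statement about all infinite
subsets / all strictly monotone reindexings of `ℕ` (or restate with an infinite set `N ⊆ ℕ` where all
row sums over finite subsets of `N` are `≤ R`, conclusion: an infinite `M ⊆ N`).  Split `N` into
infinitely many disjoint infinite sets `N_p`.  If for some `p` all rows `n ∈ N_p` have off diagonal
mass `≤ ε` on `N_p` (all finite subsets of `N_p \ {n}`), done.  Otherwise choose `n_p ∈ N_p` and a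
finite `s_p ⊆ N_p \ {n_p}` with `∑_{m ∈ s_p} a n_p m > ε`.  On the infinite set `{n_p : p}` the rows
have mass `≤ R - ε` (a finite `s ⊆ {n_q}` and `s_p` are disjoint apart from nothing: `s_p ⊆ N_p`
contains only `n_q` with `q = p`, which is excluded).  For `R ≤ 0`... the rows are zero.
-/

namespace C2N

open Filter Topology Set

theorem rosenthal_aux (a : ℕ → ℕ → ℝ) (ε : ℝ) (hε : 0 < ε) (k : ℕ) :
    ∀ N : Set ℕ, N.Infinite →
      (∀ n ∈ N, ∀ s : Finset ℕ, (s : Set ℕ) ⊆ N → ∑ m ∈ s, a n m ≤ k * ε) →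
      ∃ M : Set ℕ, M.Infinite ∧ M ⊆ N ∧
        ∀ n ∈ M, ∀ s : Finset ℕ, (s : Set ℕ) ⊆ M → n ∉ s → ∑ m ∈ s, a n m ≤ ε := by
  induction k with
  | zero =>
    intro N hN h
    refine ⟨N, hN, subset_rfl, fun n hn s hs _ => ?_⟩
    have := h n hn s hs
    simp only [Nat.cast_zero, zero_mul] at this
    linarith
  | succ k ih =>
    intro N hN h
    classical
    have : Infinite N := hN.to_subtype
    let e : ℕ → ℕ := fun i => (Nat.orderEmbeddingOfSet N i : ℕ)
    have einj : Function.Injective e := (Nat.orderEmbeddingOfSet N).injective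
    have eN : ∀ i, e i ∈ N := fun i => by
      have := Nat.orderEmbeddingOfSet_range N
      rw [← this]; exact ⟨i, rfl⟩
    let P : ℕ → Set ℕ := fun p => range (fun q => e (Nat.pair p q))
    have Pinf : ∀ p, (P p).Infinite := fun p => by
      apply infinite_range_of_injective
      intro q q' hq
      have := einj hq
      have := (Nat.pair_eq_pair.1 this).2
      exact this
    have Pdisj : ∀ p q m, m ∈ P p → m ∈ P q → p = q := by
      rintro p q m ⟨i, rfl⟩ ⟨j, hj⟩
      exact ((Nat.pair_eq_pair.1 (einj hj)).1).symm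
    have PN : ∀ p, P p ⊆ N := by
      rintro p m ⟨i, rfl⟩
      exact eN _
    by_cases hc : ∃ p, ∀ n ∈ P p, ∀ s : Finset ℕ, (s : Set ℕ) ⊆ P p → n ∉ s →
        ∑ m ∈ s, a n m ≤ ε
    · obtain ⟨p, hp⟩ := hc
      exact ⟨P p, Pinf p, PN p, hp⟩
    · push Not at hc
      choose ν hν σ hσ hνσ hsum using hc
      have νinj : Function.Injective ν := fun p q hpq =>
        Pdisj p q (ν p) (hν p) (hpq ▸ hν q)
      obtain ⟨M, hM, hMN, hMs⟩ := ih (range ν) (infinite_range_of_injective νinj) (by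
        rintro n ⟨p, rfl⟩ s hs
        have hdis : Disjoint s (σ p) := by
          rw [Finset.disjoint_left]
          intro m hms hmσ
          obtain ⟨q, hq⟩ := hs hms
          have h1 : m ∈ P p := hσ p hmσ
          have h2 : m ∈ P q := hq ▸ hν q
          have := Pdisj p q m h1 h2
          subst this
          exact hνσ p (hq ▸ hmσ)
        have hU := h (ν p) (PN p (hν p)) (s ∪ σ p) (by
          intro m hm
          rcases Finset.mem_union.1 (Finset.mem_coe.1 hm) with h1 | h1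
          · obtain ⟨q, hq⟩ := hs h1
            exact hq ▸ PN q (hν q)
          · exact PN p (hσ p h1))
        rw [Finset.sum_union hdis] at hU
        have := hsum p
        push_cast at hU
        linarith)
      refine ⟨M, hM, fun m hm => ?_, hMs⟩
      obtain ⟨q, hq⟩ := hMN hm
      exact hq ▸ PN q (hν q)

/-- ROSENTHAL's lemma. Induction on `⌈R/ε⌉`: split `ℕ` into infinitely many infinite sets `N_p`;
either some `N_p` works, or choose `n_p ∈ N_p` whose row has mass `> ε` on `N_p \ {n_p}`; on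
`{n_p : p}` all rows have mass `≤ R - ε`. -/
theorem rosenthal (a : ℕ → ℕ → ℝ) (h0 : ∀ n m, 0 ≤ a n m) (R : ℝ)
    (hR : ∀ n (s : Finset ℕ), ∑ m ∈ s, a n m ≤ R) (ε : ℝ) (hε : 0 < ε) :
    ∃ φ : ℕ → ℕ, StrictMono φ ∧
      ∀ n (s : Finset ℕ), n ∉ s → ∑ m ∈ s, a (φ n) (φ m) ≤ ε := by
  classical
  obtain ⟨M, hM, -, hMs⟩ := rosenthal_aux a ε hε ⌈R / ε⌉₊ univ infinite_univ (by
    intro n _ s _
    refine (hR n s).trans ?_
    have := Nat.le_ceil (R / ε)
    rwa [div_le_iff₀ hε] at this)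
  have : Infinite M := hM.to_subtype
  have hmem : ∀ i, (Nat.orderEmbeddingOfSet M i : ℕ) ∈ M := fun i =>
    (Nat.orderEmbeddingOfSet_range M).subset ⟨i, rfl⟩
  refine ⟨Nat.orderEmbeddingOfSet M, (Nat.orderEmbeddingOfSet M).strictMono, fun n s hns => ?_⟩
  have := hMs _ (hmem n) (s.map (Nat.orderEmbeddingOfSet M).toEmbedding) (by
    intro m hm
    simp only [Finset.coe_map, Set.mem_image, Finset.mem_coe] at hm
    obtain ⟨i, _, rfl⟩ := hm
    exact hmem i) (by
    intro hm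
    rw [Finset.mem_map] at hm
    obtain ⟨i, hi, hie⟩ := hm
    exact hns ((Nat.orderEmbeddingOfSet M).injective hie ▸ hi))
  rw [Finset.sum_map] at this
  exact this

end C2N
end

section

set_option autoImplicit false

/-!
`sum_abs`: signs `θ i = sign (f (u i))` (with `1` where it vanishes).  `coeff`: norming functional
`f` of the sum: `f (∑ a i u i) ≤ ∑ |a i| |f (u i)| ≤ M R`.
-/

namespace C2N

open Filter Topology Set

variable {X : Type*} [NormedAddCommGroup X] [NormedSpace ℝ X]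

/-- all finite sign sums of `u` are bounded by `R` -/
def SignBdd (u : ℕ → X) (R : ℝ) : Prop :=
  ∀ (s : Finset ℕ) (θ : ℕ → ℝ), (∀ i, |θ i| = 1) → ‖∑ i ∈ s, θ i • u i‖ ≤ R

/-- test with the signs of `f (u i)` -/
theorem SignBdd.sum_abs {u : ℕ → X} {R : ℝ} (h : SignBdd u R) (f : X →L[ℝ] ℝ) (s : Finset ℕ) :
    ∑ i ∈ s, |f (u i)| ≤ ‖f‖ * R := by
  set θ : ℕ → ℝ := fun i => if 0 ≤ f (u i) then 1 else -1 with hθ
  have h1 : ∀ i, |θ i| = 1 := by
    intro i
    simp only [hθ]
    split_ifs <;> simp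
  have h2 : ∀ i, θ i * f (u i) = |f (u i)| := by
    intro i
    simp only [hθ]
    split_ifs with h
    · rw [one_mul, abs_of_nonneg h]
    · rw [abs_of_neg (not_le.mp h)]
      ring
  have h3 : ∑ i ∈ s, |f (u i)| = f (∑ i ∈ s, θ i • u i) := by
    rw [map_sum]
    refine Finset.sum_congr rfl fun i _ => ?_
    rw [map_smul, smul_eq_mul, h2]
  rw [h3]
  calc f (∑ i ∈ s, θ i • u i) ≤ ‖f (∑ i ∈ s, θ i • u i)‖ := Real.le_norm_self _
    _ ≤ ‖f‖ * ‖∑ i ∈ s, θ i • u i‖ := f.le_opNorm _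
    _ ≤ ‖f‖ * R := mul_le_mul_of_nonneg_left (h s θ h1) (norm_nonneg _)

/-- norming functional and the previous lemma -/
theorem SignBdd.coeff {u : ℕ → X} {R : ℝ} (h : SignBdd u R) (s : Finset ℕ) (a : ℕ → ℝ) (M : ℝ)
    (hM : 0 ≤ M) (ha : ∀ i ∈ s, |a i| ≤ M) : ‖∑ i ∈ s, a i • u i‖ ≤ R * M := by
  have hR : 0 ≤ R := le_trans (norm_nonneg _) (h ∅ (fun _ => 1) (fun _ => by simp))
  by_cases h0 : ∑ i ∈ s, a i • u i = 0
  · rw [h0, norm_zero]
    exact mul_nonneg hR hM
  obtain ⟨f, hf1, hf⟩ := exists_dual_vector ℝ (∑ i ∈ s, a i • u i) (norm_ne_zero_iff.mpr h0)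
  have h2 : ‖∑ i ∈ s, a i • u i‖ = f (∑ i ∈ s, a i • u i) := by simpa using hf.symm
  rw [h2, map_sum]
  calc ∑ i ∈ s, f (a i • u i) ≤ ∑ i ∈ s, M * |f (u i)| := by
        refine Finset.sum_le_sum fun i hi => ?_
        rw [map_smul, smul_eq_mul]
        calc a i * f (u i) ≤ |a i * f (u i)| := le_abs_self _
          _ = |a i| * |f (u i)| := abs_mul _ _
          _ ≤ M * |f (u i)| := mul_le_mul_of_nonneg_right (ha i hi) (abs_nonneg _)
    _ = M * ∑ i ∈ s, |f (u i)| := by rw [Finset.mul_sum]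
    _ ≤ M * (‖f‖ * R) := mul_le_mul_of_nonneg_left (h.sum_abs f s) hM
    _ = R * M := by rw [hf1]; ring

end C2N
end

section

set_option autoImplicit false

/-!
Translate (`b (x + x0)`, `b x0 ≠ 0`) and scale by `1 / b x0`.
-/

namespace C2N

open Filter Topology Set

variable {X : Type*} [NormedAddCommGroup X] [NormedSpace ℝ X]

/-- translate and scale a bump -/
theorem bump_normalize (h : HasC2Bump X) :
    ∃ b : X → ℝ, ContDiff ℝ 2 b ∧ b 0 = 1 ∧ ∃ R : ℝ, 0 < R ∧ ∀ x, R ≤ ‖x‖ → b x = 0 := by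
  obtain ⟨b, hb, hbd, hne⟩ := h
  have h1 : ∃ x0, b x0 ≠ 0 := by
    by_contra hcon
    push Not at hcon
    have : b = 0 := funext hcon
    rw [this] at hne
    simp [tsupport] at hne
  obtain ⟨x0, hx0⟩ := h1
  obtain ⟨R0, hR0⟩ := hbd.exists_norm_le
  refine ⟨fun x => b (x + x0) / b x0, ?_, ?_, |R0| + ‖x0‖ + 1, by positivity, ?_⟩
  · exact (hb.comp (contDiff_id.add contDiff_const)).div_const _
  · simp only [zero_add]
    exact div_self hx0
  · intro x hx
    have h2 : b (x + x0) = 0 := by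
      by_contra hcon
      have h3 : x + x0 ∈ tsupport b := subset_closure hcon
      have h4 := hR0 _ h3
      have h5 : ‖x‖ ≤ ‖x + x0‖ + ‖x0‖ := by
        have h6 := norm_sub_le (x + x0) x0
        rwa [add_sub_cancel_right] at h6
      linarith [le_abs_self R0]
    simp only [h2, zero_div]

end C2N
end

section

set_option autoImplicit false

/-!
2.1 of paper 371.  Recursive choice.  Given `h 0, ..., h (n-1)` with (1) for `n`, the set `C` of all `z`
satisfying the condition in (2) contains `0` and is bounded by `R` (`b ≥ 1/2 > 0` at `v + z` and `v - z`,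
so `‖v+z‖ < R`, `‖v-z‖ < R`).  Choose `h n ∈ C` with `‖h n‖ ≥ (sup)/2`.  Only `h 0..h(n-1)` matter in the
condition for `n`, so this is a recursion on finite initial segments (e.g. build functions
`ℕ → X` by `Function.update`, or lists, or use a strong-recursion choice lemma).
-/

namespace C2N

open Filter Topology Set

variable {X : Type*} [NormedAddCommGroup X] [NormedSpace ℝ X]

/-- the admissible set of step `n` -/
private def B2b_C (b : X → ℝ) (n : ℕ) (g : ℕ → X) : Set X :=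
  {z | ∀ θ : ℕ → ℝ, (∀ i, |θ i| = 1) →
        1 / 2 + (1 / 2 : ℝ) ^ (n + 2) ≤ b (∑ i ∈ Finset.range n, θ i • g i + z) ∧
        1 / 2 + (1 / 2 : ℝ) ^ (n + 2) ≤ b (∑ i ∈ Finset.range n, θ i • g i - z)}

open Classical in
/-- one step of the choice -/
private noncomputable def B2b_step (b : X → ℝ) (n : ℕ) (g : ℕ → X) : X :=
  if h : ∃ z ∈ B2b_C b n g, ∀ z' ∈ B2b_C b n g, ‖z'‖ ≤ 2 * ‖z‖ then h.choose else 0

/-- the finite approximations -/
private noncomputable def B2b_G (b : X → ℝ) : ℕ → ℕ → X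
  | 0 => fun _ => 0
  | n + 1 => Function.update (B2b_G b n) n (B2b_step b n (B2b_G b n))

private theorem B2b_exists (b : X → ℝ) (R : ℝ) (hR : ∀ x, R ≤ ‖x‖ → b x = 0) (n : ℕ)
    (g : ℕ → X)
    (h1 : ∀ θ : ℕ → ℝ, (∀ i, |θ i| = 1) →
        1 / 2 + (1 / 2 : ℝ) ^ (n + 1) ≤ b (∑ i ∈ Finset.range n, θ i • g i)) :
    ∃ z ∈ B2b_C b n g, ∀ z' ∈ B2b_C b n g, ‖z'‖ ≤ 2 * ‖z‖ := by
  have h0mem : (0 : X) ∈ B2b_C b n g := by
    intro θ hθ
    have h2 := h1 θ hθ
    have h3 : (1 / 2 : ℝ) ^ (n + 2) ≤ (1 / 2 : ℝ) ^ (n + 1) :=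
      pow_le_pow_of_le_one (by norm_num) (by norm_num) (by omega)
    constructor
    · rw [add_zero]; linarith
    · rw [sub_zero]; linarith
  have hbd : ∀ z ∈ B2b_C b n g, ‖z‖ ≤ R := by
    intro z hz
    obtain ⟨h2, h3⟩ := hz (fun _ => 1) (fun _ => by simp)
    set v := ∑ i ∈ Finset.range n, (1 : ℝ) • g i with hv
    have hpos : (0 : ℝ) < 1 / 2 + (1 / 2 : ℝ) ^ (n + 2) := by positivity
    have h4 : ‖v + z‖ < R := by
      by_contra hc
      rw [hR _ (not_lt.mp hc)] at h2
      linarith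
    have h5 : ‖v - z‖ < R := by
      by_contra hc
      rw [hR _ (not_lt.mp hc)] at h3
      linarith
    have h6 : (2 : ℝ) • z = (v + z) - (v - z) := by
      rw [two_smul]; abel
    have h7 : 2 * ‖z‖ ≤ ‖v + z‖ + ‖v - z‖ := by
      have : ‖(2 : ℝ) • z‖ = 2 * ‖z‖ := by rw [norm_smul]; norm_num
      rw [← this, h6]
      exact norm_sub_le _ _
    linarith
  set S : Set ℝ := (fun z : X => ‖z‖) '' B2b_C b n g with hS
  have hSne : S.Nonempty := ⟨‖(0 : X)‖, 0, h0mem, rfl⟩
  have hSbd : BddAbove S := ⟨R, by rintro _ ⟨z, hz, rfl⟩; exact hbd z hz⟩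
  by_cases hs : sSup S ≤ 0
  · refine ⟨0, h0mem, fun z' hz' => ?_⟩
    have : ‖z'‖ ≤ sSup S := le_csSup hSbd ⟨z', hz', rfl⟩
    simp only [norm_zero, mul_zero]
    linarith
  · push Not at hs
    obtain ⟨_, ⟨z, hz, rfl⟩, hlt⟩ := exists_lt_of_lt_csSup hSne (show sSup S / 2 < sSup S by linarith)
    refine ⟨z, hz, fun z' hz' => ?_⟩
    have : ‖z'‖ ≤ sSup S := le_csSup hSbd ⟨z', hz', rfl⟩
    have h8 : sSup S / 2 < ‖z‖ := hlt
    linarith

private theorem B2b_stable (b : X → ℝ) (n : ℕ) : ∀ i, i < n → B2b_G b n i = B2b_G b (i + 1) i := by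
  induction n with
  | zero => intro i hi; omega
  | succ n ih =>
    intro i hi
    by_cases h : i = n
    · rw [h]
    · have h2 : i < n := by omega
      have : B2b_G b (n + 1) i = B2b_G b n i := by
        show Function.update (B2b_G b n) n (B2b_step b n (B2b_G b n)) i = B2b_G b n i
        rw [Function.update_of_ne h]
      rw [this, ih i h2]

/-- the greedy process of 2.1: `h n` is chosen, given `h 0, ..., h (n-1)`, in the bounded set of all
`z` with `b ≥ 1/2 + 2^{-n-2}` at all points (sign sum of the first `n`) `± z`, with norm at least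
half the supremum of the norms of this set. -/
theorem greedy (b : X → ℝ) (h0 : b 0 = 1) (R : ℝ) (hR : ∀ x, R ≤ ‖x‖ → b x = 0) :
    ∃ h : ℕ → X,
      (∀ n (θ : ℕ → ℝ), (∀ i, |θ i| = 1) →
        1 / 2 + (1 / 2 : ℝ) ^ (n + 1) ≤ b (∑ i ∈ Finset.range n, θ i • h i)) ∧
      (∀ n (z : X), (∀ θ : ℕ → ℝ, (∀ i, |θ i| = 1) →
        1 / 2 + (1 / 2 : ℝ) ^ (n + 2) ≤ b (∑ i ∈ Finset.range n, θ i • h i + z) ∧
        1 / 2 + (1 / 2 : ℝ) ^ (n + 2) ≤ b (∑ i ∈ Finset.range n, θ i • h i - z)) →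
        ‖z‖ ≤ 2 * ‖h n‖) := by
  classical
  set h : ℕ → X := fun n => B2b_G b (n + 1) n with hh
  have hsum : ∀ n (θ : ℕ → ℝ), ∑ i ∈ Finset.range n, θ i • B2b_G b n i =
      ∑ i ∈ Finset.range n, θ i • h i := by
    intro n θ
    apply Finset.sum_congr rfl
    intro i hi
    rw [B2b_stable b n i (Finset.mem_range.mp hi)]
  have hC : ∀ n, B2b_C b n (B2b_G b n) = B2b_C b n h := by
    intro n
    ext z
    unfold B2b_C
    simp only [Set.mem_ofPred_eq, hsum]
  have hhn : ∀ n, h n = B2b_step b n (B2b_G b n) := by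
    intro n
    show Function.update (B2b_G b n) n (B2b_step b n (B2b_G b n)) n = _
    rw [Function.update_self]
  have key : ∀ n, (∀ θ : ℕ → ℝ, (∀ i, |θ i| = 1) →
        1 / 2 + (1 / 2 : ℝ) ^ (n + 1) ≤ b (∑ i ∈ Finset.range n, θ i • h i)) →
      h n ∈ B2b_C b n h ∧ ∀ z' ∈ B2b_C b n h, ‖z'‖ ≤ 2 * ‖h n‖ := by
    intro n hn
    have hex := B2b_exists b R hR n (B2b_G b n) (by
      intro θ hθ
      rw [hsum]
      exact hn θ hθ)
    have e : h n = hex.choose := by
      rw [hhn n]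
      unfold B2b_step
      rw [dif_pos hex]
    have hs := hex.choose_spec
    rw [← e, hC n] at hs
    exact hs
  have h1 : ∀ n, (∀ θ : ℕ → ℝ, (∀ i, |θ i| = 1) →
        1 / 2 + (1 / 2 : ℝ) ^ (n + 1) ≤ b (∑ i ∈ Finset.range n, θ i • h i)) := by
    intro n
    induction n with
    | zero =>
      intro θ _
      simp only [Finset.range_zero, Finset.sum_empty, h0]
      norm_num
    | succ n ih =>
      intro θ hθ
      obtain ⟨hmem, _⟩ := key n ih
      obtain ⟨ha, hb⟩ := hmem θ hθ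
      rw [Finset.sum_range_succ]
      rcases (abs_eq (zero_le_one)).mp (hθ n) with h2 | h2
      · rw [h2, one_smul]; exact ha
      · rw [h2, neg_one_smul, ← sub_eq_add_neg]; exact hb
  refine ⟨h, h1, ?_⟩
  intro n z hz
  exact (key n (h1 n)).2 z hz

end C2N
end

section

set_option autoImplicit false

/-!
The closure `K` of the set of all initial sign sums is compact: it is totally bounded, since for
`e > 0` with `N` from `ht` every initial sign sum is within `e` of the finite set of sign sums over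
`range N`.  `D` is continuous so every point of `K` has a ball where `‖D‖` is bounded; finitely many
half balls cover `K`.  (Or by contradiction with sequences: `v_k` with `‖v_k - S_k‖ → 0`,
`‖D v_k‖ → ∞`, a subsequence of `S_k` converges.)
-/

namespace C2N

open Filter Topology Set

variable {X : Type*} [NormedAddCommGroup X] [NormedSpace ℝ X]

/-- the set of all initial sign sums -/
private def signSums (u : ℕ → X) : Set X :=
  {S | ∃ (n : ℕ) (θ : ℕ → ℝ), (∀ i, |θ i| = 1) ∧ ∑ i ∈ Finset.range n, θ i • u i = S}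

private theorem totallyBounded_signSums {u : ℕ → X}
    (ht : ∀ e : ℝ, 0 < e → ∃ N : ℕ, ∀ (s : Finset ℕ) (θ : ℕ → ℝ), (∀ i ∈ s, N ≤ i) →
      (∀ i, |θ i| = 1) → ‖∑ i ∈ s, θ i • u i‖ ≤ e) : TotallyBounded (signSums u) := by
  classical
  rw [Metric.totallyBounded_iff]
  intro ε hε
  obtain ⟨N, hN⟩ := ht (ε / 2) (half_pos hε)
  let F : Fin (N + 1) × (Fin N → Bool) → X := fun a =>
    ∑ i ∈ Finset.range a.1, (if h : i < N then (if a.2 ⟨i, h⟩ then (1 : ℝ) else -1) else 1) • u i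
  refine ⟨Set.range F, Set.finite_range F, ?_⟩
  rintro S ⟨n, θ, hθ, rfl⟩
  have hsgn : ∀ i, θ i = 1 ∨ θ i = -1 := by
    intro i
    exact (abs_eq zero_le_one).1 (hθ i)
  rw [Set.mem_iUnion₂]
  refine ⟨F (⟨min n N, Nat.lt_succ_of_le (min_le_right _ _)⟩, fun i => decide (θ i = 1)),
    ⟨_, rfl⟩, ?_⟩
  have h1 : F (⟨min n N, Nat.lt_succ_of_le (min_le_right _ _)⟩, fun i => decide (θ i = 1)) =
      ∑ i ∈ Finset.range (min n N), θ i • u i := by
    apply Finset.sum_congr rfl
    intro i hi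
    have hiN : i < N := lt_of_lt_of_le (Finset.mem_range.1 hi) (min_le_right _ _)
    congr 1
    rw [dif_pos hiN]
    rcases hsgn i with h | h
    · rw [if_pos (by simp [h]), h]
    · rw [if_neg (by simp [h]; norm_num), h]
  rw [Metric.mem_ball, dist_eq_norm, h1]
  have h2 : ∑ i ∈ Finset.range n, θ i • u i - ∑ i ∈ Finset.range (min n N), θ i • u i =
      ∑ i ∈ Finset.Ico (min n N) n, θ i • u i :=
    (Finset.sum_Ico_eq_sub _ (min_le_left n N)).symm
  rw [h2]
  refine lt_of_le_of_lt ?_ (half_lt_self hε)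
  rcases le_total n N with h3 | h3
  · rw [min_eq_left h3, Finset.Ico_self, Finset.sum_empty, norm_zero]
    exact (half_pos hε).le
  · rw [min_eq_right h3]
    exact hN _ θ (fun i hi => (Finset.mem_Ico.1 hi).1) hθ

/-- compactness: if the sign tails are small then a continuous map is bounded on a uniform
neighbourhood of all initial sign sums. -/
theorem nbhd_bound [CompleteSpace X] {E : Type*} [NormedAddCommGroup E] {u : ℕ → X}
    (ht : ∀ e : ℝ, 0 < e → ∃ N : ℕ, ∀ (s : Finset ℕ) (θ : ℕ → ℝ), (∀ i ∈ s, N ≤ i) →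
      (∀ i, |θ i| = 1) → ‖∑ i ∈ s, θ i • u i‖ ≤ e)
    (D : X → E) (hD : Continuous D) :
    ∃ δ M : ℝ, 0 < δ ∧ ∀ n (θ : ℕ → ℝ), (∀ i, |θ i| = 1) →
      ∀ v : X, ‖v - ∑ i ∈ Finset.range n, θ i • u i‖ ≤ δ → ‖D v‖ ≤ M := by
  set K : Set X := closure (signSums u) with hK
  have hc : IsCompact K :=
    isCompact_iff_totallyBounded_isComplete.2 ⟨(totallyBounded_signSums ht).closure,
      isClosed_closure.isComplete⟩
  obtain ⟨C, hC⟩ := hc.exists_bound_of_continuousOn hD.continuousOn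
  have hU : IsOpen {x : X | ‖D x‖ < C + 1} := isOpen_lt hD.norm continuous_const
  have hKU : K ⊆ {x : X | ‖D x‖ < C + 1} := fun x hx => lt_of_le_of_lt (hC x hx) (lt_add_one C)
  obtain ⟨δ, hδ, hδU⟩ := hc.exists_cthickening_subset_open hU hKU
  refine ⟨δ, C + 1, hδ, ?_⟩
  intro n θ hθ v hv
  have h1 : v ∈ Metric.cthickening δ K := by
    apply Metric.mem_cthickening_of_dist_le v _ δ K (subset_closure ⟨n, θ, hθ, rfl⟩)
    rw [dist_eq_norm]
    exact hv
  exact (show ‖D v‖ < C + 1 from hδU h1).le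

end C2N
end

section

set_option autoImplicit false

/-!
2.1 of paper 371.  `ζ` smooth, `ζ = 1` on `(-∞, t0]`, `0` on `[t1', ∞)` with `t1' = (t0+t1)/2`,
`0 ≤ ζ ≤ 1`; `φ h = ∑_{x ∈ S} (ζ (b (x+h)) + ζ (b (x-h)))`; `φ = 0` near `0`; `φ ≥ 1` for
`δ/2 ≤ ‖h‖ ≤ δ`; `χ` smooth, `χ = 1` near `(-∞,0]`, `χ = 0` on `[1,∞)`; `β h = χ (φ h)` for `‖h‖ ≤ δ` and `0`
otherwise.  `β` is `C^2` (on `‖h‖ < δ` and on `‖h‖ > δ/2` where it vanishes), with bounded first and
second derivative on `‖h‖ ≤ δ`; the second difference estimate follows (`‖D^2 β‖ ≤ K`).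
Suggestion: prove that `β` is `C^2` with `‖fderiv (fderiv β)‖ ≤ K` everywhere.  Instead of Mathlib
derivative computations one may also argue with Lipschitz derivative: a function whose derivative is
`K`-Lipschitz satisfies the second difference estimate; compositions and sums of bounded `C^{1,1}`
functions are `C^{1,1}`.
-/

namespace C2N

open Filter Topology Set

variable {X : Type*} [NormedAddCommGroup X] [NormedSpace ℝ X]

/-- a `C^2` function on the line that is constant on both sides of `[0,1]` has bounded derivatives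
up to order two -/
lemma B2e_bdd (f : ℝ → ℝ) (hf : ContDiff ℝ 2 f) (c d : ℝ) (h1 : ∀ x < 0, f x = c)
    (h2 : ∀ x, 1 < x → f x = d) :
    ∃ C : ℝ, 0 < C ∧ ∀ i : ℕ, i ≤ 2 → ∀ y, ‖iteratedFDeriv ℝ i f y‖ ≤ C := by
  have hconst : ∀ (i : ℕ) (e y : ℝ), ‖iteratedFDeriv ℝ i (fun _ : ℝ => e) y‖ ≤ |e| := by
    intro i e y
    rcases Nat.eq_zero_or_pos i with rfl | hi
    · simp
    · rw [iteratedFDeriv_const_of_ne hi.ne']; simp
  have hK : ∀ i : ℕ, i ≤ 2 → ∃ C : ℝ, ∀ y ∈ Set.Icc (0:ℝ) 1, ‖iteratedFDeriv ℝ i f y‖ ≤ C := by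
    intro i hi
    have hc : Continuous (fun y => iteratedFDeriv ℝ i f y) :=
      hf.continuous_iteratedFDeriv (by exact_mod_cast hi)
    exact (isCompact_Icc).exists_bound_of_continuousOn hc.continuousOn
  obtain ⟨C0, h0⟩ := hK 0 (by norm_num)
  obtain ⟨C1, h1'⟩ := hK 1 (by norm_num)
  obtain ⟨C2, h2'⟩ := hK 2 le_rfl
  refine ⟨|C0| + |C1| + |C2| + |c| + |d| + 1, by positivity, ?_⟩
  intro i hi y
  have e0 := le_abs_self C0
  have e1 := le_abs_self C1
  have e2 := le_abs_self C2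
  have a0 := abs_nonneg C0
  have a1 := abs_nonneg C1
  have a2 := abs_nonneg C2
  have a3 := abs_nonneg c
  have a4 := abs_nonneg d
  by_cases hy0 : y < 0
  · have he : f =ᶠ[𝓝 y] (fun _ => c) := by
      filter_upwards [Iio_mem_nhds hy0] with z hz using h1 z hz
    have := (he.iteratedFDeriv ℝ i).eq_of_nhds
    rw [this]
    have := hconst i c y
    linarith
  · by_cases hy1 : 1 < y
    · have he : f =ᶠ[𝓝 y] (fun _ => d) := by
        filter_upwards [Ioi_mem_nhds hy1] with z hz using h2 z hz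
      have := (he.iteratedFDeriv ℝ i).eq_of_nhds
      rw [this]
      have := hconst i d y
      linarith
    · have hy : y ∈ Set.Icc (0:ℝ) 1 := ⟨not_lt.1 hy0, not_lt.1 hy1⟩
      interval_cases i
      · have := h0 y hy; linarith
      · have := h1' y hy; linarith
      · have := h2' y hy; linarith

/-- a `C^2` function with bounded second derivative satisfies the second difference estimate -/
lemma B2e_sdiff (β : X → ℝ) (hβ : ContDiff ℝ 2 β) (K : ℝ)
    (hK : ∀ x, ‖iteratedFDeriv ℝ 2 β x‖ ≤ K) (x h : X) :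
    |β (x + h) + β (x - h) - 2 * β x| ≤ 2 * K * ‖h‖ ^ 2 := by
  have hK0 : 0 ≤ K := le_trans (norm_nonneg _) (hK 0)
  have hd : Differentiable ℝ β := hβ.differentiable (by norm_num)
  have hd1 : ContDiff ℝ 1 (fderiv ℝ β) := hβ.fderiv_right (by norm_num)
  have hd2 : Differentiable ℝ (fderiv ℝ β) := hd1.differentiable (by norm_num)
  have hbd : ∀ y, ‖fderiv ℝ (fderiv ℝ β) y‖ ≤ K := by
    intro y
    have : ‖iteratedFDeriv ℝ 2 β y‖ = ‖fderiv ℝ (fderiv ℝ β) y‖ := by
      rw [← norm_iteratedFDeriv_one, norm_iteratedFDeriv_fderiv]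
    rw [← this]; exact hK y
  have hlip : ∀ y z : X, ‖fderiv ℝ β z - fderiv ℝ β y‖ ≤ K * ‖z - y‖ := by
    intro y z
    exact (convex_univ).norm_image_sub_le_of_norm_fderiv_le
      (fun w _ => (hd2 w)) (fun w _ => hbd w) (mem_univ y) (mem_univ z)
  let g : X → ℝ := fun y => β (x + y) + β (x - y)
  have hg : ∀ y, HasFDerivAt g (fderiv ℝ β (x + y) - fderiv ℝ β (x - y)) y := by
    intro y
    have h1 : HasFDerivAt (fun y => β (x + y)) (fderiv ℝ β (x + y)) y := by
      have := (hd (x + y)).hasFDerivAt.comp y ((hasFDerivAt_id y).const_add x)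
      simpa [Function.comp_def] using this
    have h2 : HasFDerivAt (fun y => β (x - y)) (- fderiv ℝ β (x - y)) y := by
      have := (hd (x - y)).hasFDerivAt.comp y ((hasFDerivAt_id y).const_sub x)
      simpa [Function.comp_def] using this
    have h3 := h1.fun_add h2
    rw [← sub_eq_add_neg] at h3
    exact h3
  have hconv : Convex ℝ (Metric.closedBall (0:X) ‖h‖) := convex_closedBall _ _
  have key := hconv.norm_image_sub_le_of_norm_hasFDerivWithin_le (f := g)
    (f' := fun y => fderiv ℝ β (x + y) - fderiv ℝ β (x - y)) (C := 2 * K * ‖h‖)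
    (fun y _ => (hg y).hasFDerivWithinAt)
    (fun y hy => by
      have h1 := hlip (x - y) (x + y)
      have h2 : ‖(x + y) - (x - y)‖ ≤ 2 * ‖h‖ := by
        have : (x + y) - (x - y) = (2:ℝ) • y := by rw [two_smul]; abel
        rw [this, norm_smul]
        have : ‖y‖ ≤ ‖h‖ := by simpa using hy
        simpa using this
      calc _ ≤ K * ‖(x + y) - (x - y)‖ := h1
        _ ≤ K * (2 * ‖h‖) := by gcongr
        _ = 2 * K * ‖h‖ := by ring)
    (show (0:X) ∈ Metric.closedBall (0:X) ‖h‖ by simp)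
    (show h ∈ Metric.closedBall (0:X) ‖h‖ by simp)
  have e : g h - g 0 = β (x + h) + β (x - h) - 2 * β x := by simp [g]; ring
  rw [e, sub_zero, Real.norm_eq_abs] at key
  calc _ ≤ 2 * K * ‖h‖ * ‖h‖ := key
    _ = 2 * K * ‖h‖ ^ 2 := by ring

/-- pointwise bound for compositions with functions of the line with bounded derivatives -/
lemma B2e_comp (g : ℝ → ℝ) (hg : ContDiff ℝ 2 g) (f : X → ℝ) (hf : ContDiff ℝ 2 f) (C D : ℝ)
    (hC : ∀ i : ℕ, i ≤ 2 → ∀ y, ‖iteratedFDeriv ℝ i g y‖ ≤ C) (hC0 : 0 ≤ C) (hD : 1 ≤ D) (x : X)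
    (hf1 : ∀ i : ℕ, 1 ≤ i → i ≤ 2 → ‖iteratedFDeriv ℝ i f x‖ ≤ D) :
    ∀ i : ℕ, 1 ≤ i → i ≤ 2 → ‖iteratedFDeriv ℝ i (fun x => g (f x)) x‖ ≤ 2 * C * D ^ 2 := by
  intro i hi1 hi2
  have h := norm_iteratedFDeriv_comp_le (𝕜 := ℝ) (n := i) (N := 2) hg hf (by exact_mod_cast hi2) x
    (C := C) (D := D) (fun j hj => hC j (hj.trans hi2) _)
    (fun j hj1 hj2 => (hf1 j hj1 (hj2.trans hi2)).trans (le_self_pow₀ hD (by omega)))
  refine h.trans ?_
  have h1 : (i.factorial : ℝ) ≤ 2 := by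
    interval_cases i <;> norm_num [Nat.factorial]
  have h2 : D ^ i ≤ D ^ 2 := pow_le_pow_right₀ hD hi2
  have h3 : 0 ≤ D ^ i := by positivity
  gcongr

/-- the final cut-off construction of 2.1, in abstract form: `S` is a finite set of points
(the sign sums), `b` is `C^2` with bounded first and second derivatives on the `δ`-neighbourhood of
`S`, `b ≥ t1` on `S` and for `δ/2 ≤ ‖h‖ ≤ δ` one of the values `b (x ± h)`, `x ∈ S` is `≤ t0 < t1`. -/
theorem cutoff_bump (b : X → ℝ) (hb : ContDiff ℝ 2 b) (S : Finset X) (δ t0 t1 M : ℝ) (hδ : 0 < δ)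
    (ht : t0 < t1) (hS : ∀ x ∈ S, t1 ≤ b x)
    (hM : ∀ x ∈ S, ∀ v : X, ‖v - x‖ ≤ δ → ‖fderiv ℝ b v‖ ≤ M ∧ ‖fderiv ℝ (fderiv ℝ b) v‖ ≤ M)
    (hsep : ∀ h : X, δ / 2 ≤ ‖h‖ → ‖h‖ ≤ δ → ∃ x ∈ S, b (x + h) ≤ t0 ∨ b (x - h) ≤ t0) :
    ∃ β : X → ℝ, Continuous β ∧ (∀ x, 0 ≤ β x ∧ β x ≤ 1) ∧ β 0 = 1 ∧
      (∀ x, δ / 2 ≤ ‖x‖ → β x = 0) ∧
      ∃ K : ℝ, 0 < K ∧ ∀ x h, |β (x + h) + β (x - h) - 2 * β x| ≤ K * ‖h‖ ^ 2 := by
  classical
  -- the smooth transition on the line
  let χ : ℝ → ℝ := fun s => Real.smoothTransition (1 - s)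
  have hχ : ContDiff ℝ 2 χ := Real.smoothTransition.contDiff.comp (contDiff_const.sub contDiff_id)
  have hχ0 : ∀ s, s ≤ 0 → χ s = 1 := fun s hs =>
    Real.smoothTransition.one_of_one_le (by linarith)
  have hχ1 : ∀ s, 1 ≤ s → χ s = 0 := fun s hs =>
    Real.smoothTransition.zero_of_nonpos (by linarith)
  have hχn : ∀ s, 0 ≤ χ s := fun s => Real.smoothTransition.nonneg _
  have hχl : ∀ s, χ s ≤ 1 := fun s => Real.smoothTransition.le_one _
  obtain ⟨C, hC0, hC⟩ := B2e_bdd χ hχ 1 0 (fun x hx => hχ0 x hx.le) (fun x hx => hχ1 x hx.le)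
  -- the inner affine rescaling
  have hr : 0 < t1 - t0 := by linarith
  let r : ℝ := (t1 - t0)⁻¹
  have hr0 : 0 < r := inv_pos.2 hr
  let u : X → ℝ := fun v => r * (b v - t0)
  have hu : ContDiff ℝ 2 u := contDiff_const.mul (hb.sub contDiff_const)
  let D : ℝ := max 1 (r * M)
  have hD1 : 1 ≤ D := le_max_left _ _
  have hub : ∀ x ∈ S, ∀ v : X, ‖v - x‖ ≤ δ → ∀ i : ℕ, 1 ≤ i → i ≤ 2 →
      ‖iteratedFDeriv ℝ i u v‖ ≤ D := by
    intro x hx v hv i hi1 hi2
    obtain ⟨m1, m2⟩ := hM x hx v hv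
    have hfu : fderiv ℝ u = fun v => r • fderiv ℝ b v := by
      funext w
      have hbd : DifferentiableAt ℝ b w := (hb.differentiable (by norm_num)) w
      have : HasFDerivAt u (r • fderiv ℝ b w) w := by
        have := (hbd.hasFDerivAt.sub_const t0).const_mul r
        simpa [u] using this
      exact this.fderiv
    have hrM : r * M ≤ D := le_max_right _ _
    interval_cases i
    · rw [norm_iteratedFDeriv_one, hfu]
      simp only
      rw [norm_smul, Real.norm_eq_abs, abs_of_pos hr0]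
      exact (by gcongr : r * ‖fderiv ℝ b v‖ ≤ r * M).trans hrM
    · have h2 : ‖iteratedFDeriv ℝ 2 u v‖ = ‖fderiv ℝ (fderiv ℝ u) v‖ := by
        rw [← norm_iteratedFDeriv_one, norm_iteratedFDeriv_fderiv]
      rw [h2, hfu]
      have hd1 : ContDiff ℝ 1 (fderiv ℝ b) := hb.fderiv_right (by norm_num)
      have hd2 : DifferentiableAt ℝ (fderiv ℝ b) v := (hd1.differentiable (by norm_num)) v
      have : HasFDerivAt (fun v => r • fderiv ℝ b v) (r • fderiv ℝ (fderiv ℝ b) v) v :=
        hd2.hasFDerivAt.const_smul r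
      rw [this.fderiv]
      refine (ContinuousLinearMap.opNorm_smul_le r _).trans ?_
      rw [Real.norm_eq_abs, abs_of_pos hr0]
      exact (by gcongr : r * ‖fderiv ℝ (fderiv ℝ b) v‖ ≤ r * M).trans hrM
  let w : X → ℝ := fun v => χ (u v)
  have hw : ContDiff ℝ 2 w := hχ.comp hu
  have hwb : ∀ x ∈ S, ∀ v : X, ‖v - x‖ ≤ δ → ∀ i : ℕ, 1 ≤ i → i ≤ 2 →
      ‖iteratedFDeriv ℝ i w v‖ ≤ 2 * C * D ^ 2 := by
    intro x hx v hv
    exact B2e_comp χ hχ u hu C D hC hC0.le hD1 v (hub x hx v hv)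
  have hw0 : ∀ v, 0 ≤ w v := fun v => hχn _
  have hw1 : ∀ v, b v ≤ t0 → w v = 1 := by
    intro v hv
    apply hχ0
    exact mul_nonpos_of_nonneg_of_nonpos hr0.le (by linarith)
  have hw2 : ∀ v, t1 ≤ b v → w v = 0 := by
    intro v hv
    apply hχ1
    have : r * (t1 - t0) = 1 := inv_mul_cancel₀ hr.ne'
    calc (1:ℝ) = r * (t1 - t0) := this.symm
      _ ≤ r * (b v - t0) := by gcongr
  -- the sum
  let A : X → X → ℝ := fun x h => w (x + h)
  let B : X → X → ℝ := fun x h => w (x - h)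
  have hA : ∀ x, ContDiff ℝ 2 (A x) := fun x => hw.comp (contDiff_const.add contDiff_id)
  have hB : ∀ x, ContDiff ℝ 2 (B x) := fun x => hw.comp (contDiff_const.sub contDiff_id)
  have hAb : ∀ x ∈ S, ∀ h : X, ‖h‖ ≤ δ → ∀ i : ℕ, 1 ≤ i → i ≤ 2 →
      ‖iteratedFDeriv ℝ i (A x) h‖ ≤ 2 * C * D ^ 2 := by
    intro x hx h hh i hi1 hi2
    have : iteratedFDeriv ℝ i (A x) h = iteratedFDeriv ℝ i w (x + h) :=
      iteratedFDeriv_comp_add_left i x h
    rw [this]
    exact hwb x hx (x + h) (by simpa using hh) i hi1 hi2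
  have hBb : ∀ x ∈ S, ∀ h : X, ‖h‖ ≤ δ → ∀ i : ℕ, 1 ≤ i → i ≤ 2 →
      ‖iteratedFDeriv ℝ i (B x) h‖ ≤ 2 * C * D ^ 2 := by
    intro x hx h hh i hi1 hi2
    have e1 : B x = A x ∘ (LinearIsometryEquiv.neg ℝ (E := X)) := by
      funext h
      simp [A, B, sub_eq_add_neg]
    rw [e1, LinearIsometryEquiv.norm_iteratedFDeriv_comp_right]
    exact hAb x hx _ (by simpa using hh) i hi1 hi2
  let φ : X → ℝ := fun h => ∑ x ∈ S, (A x h + B x h)
  have hφ : ContDiff ℝ 2 φ := ContDiff.sum (fun x _ => (hA x).add (hB x))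
  let L : ℝ := max 1 (S.card * (2 * C * D ^ 2 + 2 * C * D ^ 2))
  have hL1 : 1 ≤ L := le_max_left _ _
  have hφb : ∀ h : X, ‖h‖ ≤ δ → ∀ i : ℕ, 1 ≤ i → i ≤ 2 → ‖iteratedFDeriv ℝ i φ h‖ ≤ L := by
    intro h hh i hi1 hi2
    have hi2' : (i : WithTop ℕ∞) ≤ 2 := by exact_mod_cast hi2
    have e1 : iteratedFDeriv ℝ i φ h
        = ∑ x ∈ S, iteratedFDeriv ℝ i (fun h => A x h + B x h) h := by
      have := iteratedFDeriv_sum (𝕜 := ℝ) (i := i) (u := S) (f := fun x h => A x h + B x h)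
        (fun x _ => ((hA x).add (hB x)).of_le hi2')
      have h2 := congrFun this h
      rw [Finset.sum_apply] at h2
      exact h2
    rw [e1]
    refine (norm_sum_le _ _).trans ?_
    refine le_trans ?_ (le_max_right _ _)
    rw [← nsmul_eq_mul]
    refine Finset.sum_le_card_nsmul _ _ _ ?_
    intro x hx
    have e2 : iteratedFDeriv ℝ i (fun h => A x h + B x h) h
        = iteratedFDeriv ℝ i (A x) h + iteratedFDeriv ℝ i (B x) h :=
      iteratedFDeriv_add_apply ((hA x).of_le hi2').contDiffAt ((hB x).of_le hi2').contDiffAt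
    rw [e2]
    exact (norm_add_le _ _).trans (add_le_add (hAb x hx h hh i hi1 hi2) (hBb x hx h hh i hi1 hi2))
  have hφ0 : φ 0 = 0 := by
    apply Finset.sum_eq_zero
    intro x hx
    have : w x = 0 := hw2 x (hS x hx)
    simp [A, B, this]
  have hφ1 : ∀ h, δ / 2 ≤ ‖h‖ → ‖h‖ ≤ δ → 1 ≤ φ h := by
    intro h h1 h2
    obtain ⟨x, hx, hxx⟩ := hsep h h1 h2
    have hs : A x h + B x h ≤ φ h :=
      Finset.single_le_sum (f := fun x => A x h + B x h)
        (fun y _ => add_nonneg (hw0 _) (hw0 _)) hx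
    refine le_trans ?_ hs
    rcases hxx with hxx | hxx
    · have : A x h = 1 := hw1 _ hxx
      have : 0 ≤ B x h := hw0 _
      linarith
    · have : B x h = 1 := hw1 _ hxx
      have : 0 ≤ A x h := hw0 _
      linarith
  let F : X → ℝ := fun h => χ (φ h)
  have hF : ContDiff ℝ 2 F := hχ.comp hφ
  have hFb : ∀ h : X, ‖h‖ ≤ δ → ‖iteratedFDeriv ℝ 2 F h‖ ≤ 2 * C * L ^ 2 := by
    intro h hh
    exact B2e_comp χ hχ φ hφ C L hC hC0.le hL1 h (hφb h hh) 2 (by norm_num) le_rfl
  let β : X → ℝ := fun h => if ‖h‖ < δ then F h else 0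
  have hβ0 : ∀ x, δ / 2 ≤ ‖x‖ → β x = 0 := by
    intro x hx
    by_cases hx2 : ‖x‖ < δ
    · simp only [β, if_pos hx2]
      exact hχ1 _ (hφ1 x hx hx2.le)
    · simp only [β, if_neg hx2]
  have hloc1 : ∀ x, ‖x‖ < δ → β =ᶠ[𝓝 x] F := by
    intro x hx
    have : {y : X | ‖y‖ < δ} ∈ 𝓝 x := (isOpen_lt continuous_norm continuous_const).mem_nhds hx
    filter_upwards [this] with y hy
    exact if_pos hy
  have hloc2 : ∀ x, δ / 2 < ‖x‖ → β =ᶠ[𝓝 x] (fun _ => 0) := by
    intro x hx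
    have : {y : X | δ / 2 < ‖y‖} ∈ 𝓝 x := (isOpen_lt continuous_const continuous_norm).mem_nhds hx
    filter_upwards [this] with y hy
    exact hβ0 y (le_of_lt hy)
  have hcases : ∀ x : X, ‖x‖ < δ ∨ δ / 2 < ‖x‖ := by
    intro x
    by_cases hx : ‖x‖ < δ
    · exact Or.inl hx
    · right; have := not_lt.1 hx; linarith
  have hβc : ContDiff ℝ 2 β := by
    rw [contDiff_iff_contDiffAt]
    intro x
    rcases hcases x with hx | hx
    · exact hF.contDiffAt.congr_of_eventuallyEq (hloc1 x hx)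
    · exact contDiffAt_const.congr_of_eventuallyEq (hloc2 x hx)
  have hβb : ∀ x, ‖iteratedFDeriv ℝ 2 β x‖ ≤ 2 * C * L ^ 2 := by
    intro x
    rcases hcases x with hx | hx
    · rw [((hloc1 x hx).iteratedFDeriv ℝ 2).eq_of_nhds]
      exact hFb x hx.le
    · rw [((hloc2 x hx).iteratedFDeriv ℝ 2).eq_of_nhds, iteratedFDeriv_const_of_ne two_ne_zero]
      simp only [Pi.zero_apply, norm_zero]
      positivity
  refine ⟨β, hβc.continuous, ?_, ?_, hβ0, 2 * (2 * C * L ^ 2), by positivity, ?_⟩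
  · intro x
    by_cases hx2 : ‖x‖ < δ
    · simp only [β, if_pos hx2]
      exact ⟨hχn _, hχl _⟩
    · simp only [β, if_neg hx2]
      exact ⟨le_rfl, zero_le_one⟩
  · have : ‖(0:X)‖ < δ := by simpa using hδ
    simp only [β, if_pos this]
    exact hχ0 _ (by rw [hφ0])
  · intro x h
    exact B2e_sdiff β hβc _ hβb x h

end C2N
end

section

set_option autoImplicit false

/-!
`∑_{i ∈ s} θ i u i` for `s ⊆ range n` is the average of the two sign sums over `range n` with signs
`θ` on `s` and `±1` off `s`.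
-/

namespace C2N

open Filter Topology Set

variable {X : Type*} [NormedAddCommGroup X] [NormedSpace ℝ X]

/-- sign sums over arbitrary finite sets are differences/averages of initial sign sums, so they are
bounded. -/
theorem signBdd_of_range {u : ℕ → X} {R : ℝ}
    (h : ∀ n (θ : ℕ → ℝ), (∀ i, |θ i| = 1) → ‖∑ i ∈ Finset.range n, θ i • u i‖ ≤ R) :
    SignBdd u R := by
  classical
  intro s θ hθ
  obtain ⟨n, hn⟩ := s.exists_nat_subset_range
  have h1 := h n (fun i => if i ∈ s then θ i else 1) (fun i => by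
    by_cases hi : i ∈ s
    · simp only [hi, if_true, hθ]
    · simp only [hi, if_false, abs_one])
  have h2 := h n (fun i => if i ∈ s then θ i else -1) (fun i => by
    by_cases hi : i ∈ s
    · simp only [hi, if_true, hθ]
    · simp only [hi, if_false, abs_neg, abs_one])
  have h3 : (2 : ℝ) • ∑ i ∈ s, θ i • u i =
      (∑ i ∈ Finset.range n, (if i ∈ s then θ i else 1) • u i) +
        ∑ i ∈ Finset.range n, (if i ∈ s then θ i else -1) • u i := by
    rw [← Finset.sum_add_distrib, Finset.smul_sum, ← Finset.sum_subset hn]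
    · refine Finset.sum_congr rfl fun i hi => ?_
      simp only [hi, if_true]
      rw [two_smul]
    · intro i _ hi
      simp only [hi, if_false]
      rw [← add_smul, add_neg_cancel, zero_smul]
  have h4 : ‖(2 : ℝ) • ∑ i ∈ s, θ i • u i‖ ≤ R + R := by
    rw [h3]
    exact (norm_add_le _ _).trans (add_le_add h1 h2)
  rw [norm_smul, Real.norm_of_nonneg (by norm_num : (0 : ℝ) ≤ 2)] at h4
  linarith

end C2N
end

section

set_option autoImplicit false

/-!
2.0 of paper 371.  Choose a subsequence with `‖u n‖ ≥ c`; norming functionals `f n` (norm 1,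
`f n (u n) = ‖u n‖`); `∑_{m ∈ s} |f n (u m)| ≤ R` by `sum_abs`; `rosenthal` with `ε = c/2`.  For the
resulting subsequence `v`: `‖∑ a j v j‖ ≥ |f_i (∑ ..)| ≥ c|a i| - max|a| c/2`; take `i` with `|a i|`
maximal, then `‖∑‖ ≥ (c/2) max|a|`.  Upper estimate: `SignBdd.coeff` (use constant `max R 1` so that it
is positive; `SignBdd` passes to subsequences).
-/

namespace C2N

open Filter Topology Set

variable {X : Type*} [NormedAddCommGroup X] [NormedSpace ℝ X]

private theorem SignBdd.comp {u : ℕ → X} {R : ℝ} (h : SignBdd u R) {ψ : ℕ → ℕ}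
    (hψ : StrictMono ψ) : SignBdd (fun n => u (ψ n)) R := by
  intro s θ hθ
  have h1 := h (s.map ⟨ψ, hψ.injective⟩) (Function.extend ψ θ (fun _ => 1)) (by
    intro i
    by_cases hi : ∃ a, ψ a = i
    · obtain ⟨a, rfl⟩ := hi
      rw [hψ.injective.extend_apply]
      exact hθ a
    · rw [Function.extend_apply' _ _ _ hi]
      exact abs_one)
  rw [Finset.sum_map] at h1
  simpa [hψ.injective.extend_apply] using h1

/-- 2.0 of paper 371 -/
theorem containsC0_of_signBdd {u : ℕ → X} {R c : ℝ} (h : SignBdd u R) (hc : 0 < c)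
    (hu : ∀ N, ∃ n ≥ N, c ≤ ‖u n‖) : ContainsC0 X := by
  obtain ⟨ψ, hψ, hψc⟩ := Filter.extraction_of_frequently_atTop (Filter.frequently_atTop.mpr hu)
  have hv : SignBdd (fun n => u (ψ n)) R := h.comp hψ
  have hne : ∀ n, u (ψ n) ≠ 0 := fun n h0 => by
    have := hψc n
    rw [h0, norm_zero] at this
    linarith
  have hf : ∀ n, ∃ f : X →L[ℝ] ℝ, ‖f‖ = 1 ∧ f (u (ψ n)) = ‖u (ψ n)‖ := fun n => by
    obtain ⟨f, hf1, hf2⟩ := exists_dual_vector ℝ (u (ψ n)) (norm_ne_zero_iff.mpr (hne n))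
    exact ⟨f, hf1, by simpa using hf2⟩
  choose f hf1 hf2 using hf
  obtain ⟨φ, hφ, hφs⟩ := rosenthal (fun n m => |f n (u (ψ m))|) (fun _ _ => abs_nonneg _) R
    (fun n s => by
      have := hv.sum_abs (f n) s
      rwa [hf1, one_mul] at this) (c / 2) (by positivity)
  have hw : SignBdd (fun n => u (ψ (φ n))) R := hv.comp hφ
  refine ⟨fun n => u (ψ (φ n)), c / 2, max R 1, by positivity, by positivity, ?_, ?_⟩
  · intro s a M hM ha
    exact (hw.coeff s a M hM ha).trans (mul_le_mul_of_nonneg_right (le_max_left _ _) hM)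
  · intro s a i hi
    obtain ⟨i0, hi0, hmax⟩ := Finset.exists_max_image s (fun j => |a j|) ⟨i, hi⟩
    have h1 : |f (φ i0) (∑ j ∈ s, a j • u (ψ (φ j)))| ≤ ‖∑ j ∈ s, a j • u (ψ (φ j))‖ := by
      have := (f (φ i0)).le_opNorm (∑ j ∈ s, a j • u (ψ (φ j)))
      rwa [hf1, one_mul, Real.norm_eq_abs] at this
    have h2 : f (φ i0) (∑ j ∈ s, a j • u (ψ (φ j)))
        = a i0 * ‖u (ψ (φ i0))‖ + ∑ j ∈ s.erase i0, a j * f (φ i0) (u (ψ (φ j))) := by
      rw [map_sum, ← Finset.add_sum_erase s _ hi0]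
      simp only [map_smul, smul_eq_mul]
      rw [hf2]
    have h3 : |∑ j ∈ s.erase i0, a j * f (φ i0) (u (ψ (φ j)))| ≤ |a i0| * (c / 2) := by
      calc |∑ j ∈ s.erase i0, a j * f (φ i0) (u (ψ (φ j)))|
          ≤ ∑ j ∈ s.erase i0, |a j * f (φ i0) (u (ψ (φ j)))| := Finset.abs_sum_le_sum_abs _ _
        _ ≤ ∑ j ∈ s.erase i0, |a i0| * |f (φ i0) (u (ψ (φ j)))| := by
            refine Finset.sum_le_sum fun j hj => ?_
            rw [abs_mul]
            exact mul_le_mul_of_nonneg_right (hmax j (Finset.mem_of_mem_erase hj)) (abs_nonneg _)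
        _ = |a i0| * ∑ j ∈ s.erase i0, |f (φ i0) (u (ψ (φ j)))| := by rw [Finset.mul_sum]
        _ ≤ |a i0| * (c / 2) :=
            mul_le_mul_of_nonneg_left (hφs i0 (s.erase i0) (Finset.notMem_erase _ _))
              (abs_nonneg _)
    have h4 : |a i0| * c ≤ |a i0 * ‖u (ψ (φ i0))‖| := by
      rw [abs_mul, abs_norm]
      exact mul_le_mul_of_nonneg_left (hψc _) (abs_nonneg _)
    have h5 : |a i0 * ‖u (ψ (φ i0))‖| ≤ |f (φ i0) (∑ j ∈ s, a j • u (ψ (φ j)))|
        + |∑ j ∈ s.erase i0, a j * f (φ i0) (u (ψ (φ j)))| := by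
      have : a i0 * ‖u (ψ (φ i0))‖ = f (φ i0) (∑ j ∈ s, a j • u (ψ (φ j)))
          - ∑ j ∈ s.erase i0, a j * f (φ i0) (u (ψ (φ j))) := by
        rw [h2]
        ring
      rw [this]
      exact abs_sub _ _
    have h6 : c / 2 * |a i| ≤ c / 2 * |a i0| :=
      mul_le_mul_of_nonneg_left (hmax i hi) (by positivity)
    linarith

end C2N
end

section

set_option autoImplicit false

/-!
2.1 of paper 371.  If the claim fails there are successive finite sets `s_1 < s_2 < ...` (disjoint)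
and signs `θ` with `‖∑_{i ∈ s_p} θ i u i‖ > e`; the blocks `v p = ∑_{i ∈ s_p} θ i u i` are again
`SignBdd` with the same `R` (signs times signs), so `containsC0_of_signBdd` gives `c_0`.
-/

namespace C2N

open Filter Topology Set

variable {X : Type*} [NormedAddCommGroup X] [NormedSpace ℝ X]

/-- 2.1 of paper 371, first part: no `c_0` implies that the tails of sign bounded series are small
(apply the previous theorem to successive blocks). -/
theorem SignBdd.tails {u : ℕ → X} {R : ℝ} (h : SignBdd u R) (hX : ¬ ContainsC0 X) (e : ℝ)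
    (he : 0 < e) : ∃ N : ℕ, ∀ (s : Finset ℕ) (θ : ℕ → ℝ), (∀ i ∈ s, N ≤ i) → (∀ i, |θ i| = 1) →
      ‖∑ i ∈ s, θ i • u i‖ ≤ e := by
  classical
  by_contra hcon
  push Not at hcon
  choose S Θ hS hΘ hlt using hcon
  -- the starting points of the blocks
  let M : ℕ → ℕ := fun p => Nat.rec 0 (fun _ m => max m ((S m).sup id + 1)) p
  have hM1 : ∀ p, M p ≤ M (p + 1) := fun p => le_max_left _ _
  have hM2 : ∀ p, ∀ i ∈ S (M p), i < M (p + 1) := by
    intro p i hi
    have h1 : i ≤ (S (M p)).sup id := Finset.le_sup (f := id) hi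
    exact lt_of_lt_of_le (Nat.lt_succ_of_le h1) (le_max_right _ _)
  have hMm : Monotone M := monotone_nat_of_le_succ hM1
  have hdis : ∀ p q i, i ∈ S (M p) → i ∈ S (M q) → p = q := by
    intro p q i hp hq
    by_contra hne
    rcases lt_or_gt_of_ne hne with hpq | hpq
    · have h1 := hM2 p i hp
      have h2 := hS (M q) i hq
      have h3 : M (p + 1) ≤ M q := hMm hpq
      omega
    · have h1 := hM2 q i hq
      have h2 := hS (M p) i hp
      have h3 : M (q + 1) ≤ M p := hMm hpq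
      omega
  let v : ℕ → X := fun p => ∑ i ∈ S (M p), Θ (M p) i • u i
  have hv : SignBdd v R := by
    intro T σ hσ
    let b : ℕ → ℕ := fun i => if hi : ∃ p, i ∈ S (M p) then hi.choose else 0
    have hb : ∀ p i, i ∈ S (M p) → b i = p := by
      intro p i hi
      have hex : ∃ p, i ∈ S (M p) := ⟨p, hi⟩
      have h1 : b i = hex.choose := by simp only [b]; rw [dif_pos hex]
      rw [h1]
      exact hdis _ _ i hex.choose_spec hi
    have h1 := h (T.biUnion fun p => S (M p)) (fun i => σ (b i) * Θ (M (b i)) i) (fun i => by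
      rw [abs_mul, hσ, hΘ, one_mul])
    rw [Finset.sum_biUnion] at h1
    · have h2 : ∑ p ∈ T, σ p • v p = ∑ p ∈ T, ∑ i ∈ S (M p), (σ (b i) * Θ (M (b i)) i) • u i := by
        refine Finset.sum_congr rfl fun p _ => ?_
        simp only [v]
        rw [Finset.smul_sum]
        refine Finset.sum_congr rfl fun i hi => ?_
        rw [hb p i hi, smul_smul]
      rw [h2]
      exact h1
    · intro p _ q _ hne
      rw [Function.onFun, Finset.disjoint_left]
      intro i hi hi'
      exact hne (hdis p q i hi hi')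
  exact hX (containsC0_of_signBdd hv he fun N => ⟨N, le_rfl, (hlt (M N)).le⟩)

end C2N
end

section

set_option autoImplicit false

namespace C2N

open Filter Topology Set

variable {X : Type*} [NormedAddCommGroup X] [NormedSpace ℝ X]

end C2N
end

section

set_option autoImplicit false

/-!
Section 2 of paper 371, assembly: `bump_normalize`, `greedy`; all initial sign sums lie in
`{b ≥ 1/2}`, so `‖·‖ < R`; `signBdd_of_range`; `SignBdd.tails`; `h n → 0`.  `nbhd_bound` for
`D v = (fderiv b v, fderiv (fderiv b) v)` (continuous) gives `δ, M`.  Take `n` with `2‖h n‖ < δ/2`,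
`S = ` the finite set of sign sums over `range n`, `t1 = 1/2 + (1/2)^(n+1)`,
`t0 = 1/2 + (1/2)^(n+2)`; by (2) of `greedy`, for `‖z‖ ≥ δ/2 > 2‖h n‖` one of the values
`b (x ± z)`, `x ∈ S`, is `< t0`.  Apply `cutoff_bump` (with this `δ`).
-/

namespace C2N

open Filter Topology Set

variable {X : Type*} [NormedAddCommGroup X] [NormedSpace ℝ X]

/-- Section 2 of paper 371: a bump with bounded second differences. -/
theorem exists_bounded_bump [CompleteSpace X] (hb : HasC2Bump X) (hX : ¬ ContainsC0 X) :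
    ∃ β : X → ℝ, Continuous β ∧ (∀ x, 0 ≤ β x ∧ β x ≤ 1) ∧ β 0 = 1 ∧
      (∃ R : ℝ, 0 < R ∧ ∀ x, R ≤ ‖x‖ → β x = 0) ∧
      ∃ K : ℝ, 0 < K ∧ ∀ x h, |β (x + h) + β (x - h) - 2 * β x| ≤ K * ‖h‖ ^ 2 := by
  classical
  obtain ⟨b, hbC, hb0, R, hR0, hR⟩ := bump_normalize hb
  obtain ⟨h, g1, g2⟩ := greedy b hb0 R hR
  have hbd : ∀ n (θ : ℕ → ℝ), (∀ i, |θ i| = 1) → ‖∑ i ∈ Finset.range n, θ i • h i‖ ≤ R := by
    intro n θ hθ
    by_contra hcon
    push Not at hcon
    have h1 := g1 n θ hθ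
    rw [hR _ hcon.le] at h1
    have h2 : (0 : ℝ) < (1 / 2 : ℝ) ^ (n + 1) := by positivity
    linarith
  have hsb : SignBdd h R := signBdd_of_range hbd
  have ht := hsb.tails hX
  -- the derivatives
  have hd1 : ContDiff ℝ 1 (fderiv ℝ b) := hbC.fderiv_right (m := 1) (by norm_num)
  have hc1 : Continuous (fderiv ℝ b) := hd1.continuous
  have hc2 : Continuous (fderiv ℝ (fderiv ℝ b)) := hd1.continuous_fderiv (by norm_num)
  obtain ⟨δ, M, hδ, hM⟩ := nbhd_bound ht
    (fun v => (fderiv ℝ b v, fderiv ℝ (fderiv ℝ b) v)) (hc1.prodMk hc2)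
  obtain ⟨n, hn⟩ := ht (δ / 8) (by linarith)
  have hhn : ‖h n‖ ≤ δ / 8 := by
    have := hn {n} (fun _ => 1) (by simp) (by simp)
    simpa using this
  let σ : Finset ℕ → ℕ → ℝ := fun s i => if i ∈ s then 1 else -1
  have hσ : ∀ s i, |σ s i| = 1 := by
    intro s i
    by_cases hi : i ∈ s <;> simp [σ, hi]
  let S : Finset X := (Finset.range n).powerset.image (fun s => ∑ i ∈ Finset.range n, σ s i • h i)
  have hmem : ∀ θ : ℕ → ℝ, (∀ i, |θ i| = 1) → ∑ i ∈ Finset.range n, θ i • h i ∈ S := by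
    intro θ hθ
    refine Finset.mem_image.2 ⟨(Finset.range n).filter (fun i => θ i = 1), ?_, ?_⟩
    · exact Finset.mem_powerset.2 (Finset.filter_subset _ _)
    · refine Finset.sum_congr rfl fun i hi => ?_
      congr 1
      by_cases h1 : θ i = 1
      · simp [σ, h1, Finset.mem_range.1 hi]
      · have h2 : θ i = -1 := by
          rcases eq_or_eq_neg_of_abs_eq (hθ i) with h3 | h3
          · exact absurd h3 h1
          · exact h3
        simp [σ, h2]
        norm_num
  have hmem' : ∀ x ∈ S, ∃ θ : ℕ → ℝ, (∀ i, |θ i| = 1) ∧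
      ∑ i ∈ Finset.range n, θ i • h i = x := by
    intro x hx
    obtain ⟨s, -, hs⟩ := Finset.mem_image.1 hx
    exact ⟨σ s, hσ s, hs⟩
  have key := cutoff_bump b hbC S δ (1 / 2 + (1 / 2 : ℝ) ^ (n + 2)) (1 / 2 + (1 / 2 : ℝ) ^ (n + 1))
    M hδ ?_ ?_ ?_ ?_
  · obtain ⟨β, k1, k2, k3, k4, k5⟩ := key
    exact ⟨β, k1, k2, k3, ⟨δ / 2, by linarith, k4⟩, k5⟩
  · have h2 : (0 : ℝ) < (1 / 2 : ℝ) ^ (n + 1) := by positivity
    have h3 : (1 / 2 : ℝ) ^ (n + 2) = (1 / 2 : ℝ) ^ (n + 1) * (1 / 2) := by ring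
    rw [h3]
    linarith
  · intro x hx
    obtain ⟨θ, hθ, rfl⟩ := hmem' x hx
    exact g1 n θ hθ
  · intro x hx v hv
    obtain ⟨θ, hθ, rfl⟩ := hmem' x hx
    have h4 := hM n θ hθ v hv
    rw [Prod.norm_def] at h4
    exact ⟨(le_max_left _ _).trans h4, (le_max_right _ _).trans h4⟩
  · intro z hz _
    by_contra hcon
    push Not at hcon
    have h5 := g2 n z fun θ hθ => by
      have h6 := hcon _ (hmem θ hθ)
      exact ⟨h6.1.le, h6.2.le⟩
    linarith

end C2N
end
end
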