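import Pool.Agent.Lib.MP_55041d_an.h32b.Defs
import Pool.Agent.Lib.MP_55041d_an.h32b.B2

section

set_option autoImplicit false

namespace C2N

open Filter Topology Set

variable {X : Type*} [NormedAddCommGroup X] [NormedSpace ℝ X]

/-- L1 of paper 371. A function with a quadratic two sided Taylor estimate is differentiable with
Lipschitz derivative. -/
theorem quad_fderiv {φ : X → ℝ} {p : X → X →L[ℝ] ℝ} {C : ℝ} (hC : 0 ≤ C)
    (h1 : ∀ x y, 0 ≤ φ (x + y) - φ x - p x y)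
    (h2 : ∀ x y, φ (x + y) - φ x - p x y ≤ C * ‖y‖ ^ 2) :
    (∀ x, HasFDerivAt φ (p x) x) ∧ ∀ x z, ‖p x - p z‖ ≤ 2 * C * ‖x - z‖ := by
  constructor
  · intro x
    rw [hasFDerivAt_iff_isLittleO_nhds_zero, Asymptotics.isLittleO_iff]
    intro c hc
    have hev : ∀ᶠ y : X in 𝓝 0, C * ‖y‖ ≤ c := by
      have ht : Tendsto (fun y : X => C * ‖y‖) (𝓝 0) (𝓝 (C * ‖(0 : X)‖)) :=
        (continuous_const.mul continuous_norm).tendsto 0
      rw [norm_zero, mul_zero] at ht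
      exact (ht.eventually_lt_const hc).mono fun y hy => hy.le
    filter_upwards [hev] with y hy
    rw [Real.norm_eq_abs, abs_of_nonneg (h1 x y)]
    calc φ (x + y) - φ x - p x y ≤ C * ‖y‖ ^ 2 := h2 x y
      _ = (C * ‖y‖) * ‖y‖ := by ring
      _ ≤ c * ‖y‖ := by gcongr
  · intro x z
    have key : ∀ y, (p x - p z) y ≤ C * ‖x - z‖ ^ 2 + C * ‖y‖ ^ 2 := by
      intro y
      have e1 := h1 x (z - x + y)
      have e2 := h2 z y
      have e3 := h2 x (z - x)
      have e4 : x + (z - x + y) = z + y := by abel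
      have e5 : x + (z - x) = z := by abel
      rw [e4, map_add] at e1
      rw [e5] at e3
      have e6 : ‖z - x‖ = ‖x - z‖ := norm_sub_rev _ _
      rw [e6] at e3
      have e7 := h1 z (x - z)
      have e8 : z + (x - z) = x := by abel
      rw [e8] at e7
      simp only [sub_apply]
      have e9 := h2 z (x - z)
      rw [e8] at e9
      have e10 : p x (z - x) = - p x (x - z) := by rw [← map_neg, neg_sub]
      have e11 := h1 x (z - x)
      rw [e5] at e11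
      linarith
    by_cases hxz : ‖x - z‖ = 0
    · have hxz' : x = z := by rwa [norm_eq_zero, sub_eq_zero] at hxz
      rw [hxz']; simp
    have hr : 0 < ‖x - z‖ := lt_of_le_of_ne (norm_nonneg _) (Ne.symm hxz)
    refine ContinuousLinearMap.opNorm_le_bound _ (by positivity) (fun y => ?_)
    rcases eq_or_ne y 0 with rfl | hy
    · simp
    have hy' : 0 < ‖y‖ := norm_pos_iff.mpr hy
    set t : ℝ := ‖x - z‖ / ‖y‖ with ht
    have ht0 : 0 < t := by positivity
    have hty : ‖t • y‖ = ‖x - z‖ := by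
      rw [norm_smul, Real.norm_eq_abs, abs_of_pos ht0, ht]
      field_simp
    have k1 := key (t • y)
    have k2 := key (t • (-y))
    have hty' : ‖t • (-y)‖ = ‖x - z‖ := by rw [smul_neg, norm_neg]; exact hty
    rw [hty, map_smul, smul_eq_mul] at k1
    rw [hty', map_smul, smul_eq_mul, map_neg] at k2
    have k3 : t * |(p x - p z) y| ≤ 2 * C * ‖x - z‖ ^ 2 := by
      rcases abs_cases ((p x - p z) y) with ⟨h, _⟩ | ⟨h, _⟩
      · rw [h]; linarith
      · rw [h]; linarith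
    rw [Real.norm_eq_abs]
    have k4 : t * ‖y‖ = ‖x - z‖ := by rw [ht]; field_simp
    have k5 : t * |(p x - p z) y| ≤ t * (2 * C * ‖x - z‖ * ‖y‖) := by
      calc t * |(p x - p z) y| ≤ 2 * C * ‖x - z‖ ^ 2 := k3
        _ = 2 * C * ‖x - z‖ * (t * ‖y‖) := by rw [k4]; ring
        _ = t * (2 * C * ‖x - z‖ * ‖y‖) := by ring
    exact le_of_mul_le_mul_left k5 ht0

/-- L1 of paper 371, convexity. -/
theorem quad_convex {φ : X → ℝ} {p : X → X →L[ℝ] ℝ}
    (h1 : ∀ x y, 0 ≤ φ (x + y) - φ x - p x y) : ConvexOn ℝ univ φ := by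
  refine ⟨convex_univ, fun x _ z _ a b ha hb hab => ?_⟩
  set w : X := a • x + b • z with hw
  have e1 := h1 w (x - w)
  have e2 := h1 w (z - w)
  rw [add_sub_cancel] at e1 e2
  have e3 : a * p w (x - w) + b * p w (z - w) = 0 := by
    rw [← smul_eq_mul, ← smul_eq_mul, ← map_smul, ← map_smul, ← map_add]
    have : a • (x - w) + b • (z - w) = 0 := by
      rw [smul_sub, smul_sub]
      have hw2 : a • w + b • w = w := by rw [← add_smul, hab, one_smul]
      calc a • x - a • w + (b • z - b • w) = (a • x + b • z) - (a • w + b • w) := by abel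
        _ = 0 := by rw [hw2, ← hw, sub_self]
    rw [this, map_zero]
  have e4 : φ w = a * φ w + b * φ w := by rw [← add_mul, hab, one_mul]
  simp only [smul_eq_mul]
  nlinarith [mul_nonneg ha e1, mul_nonneg hb e2]

end C2N
end

section

section

set_option autoImplicit false

/-!
L2 of paper 371.  `v f = f x - Φ f` satisfies `v ((f+g)/2) ≥ (v f + v g)/2 + c‖f-g‖^2` on `W`.
A maximising sequence is Cauchy (`c‖f-g‖^2 ≤ sup v - (v f + v g)/2`), the dual is complete, `W` is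
closed, lower semicontinuity gives a maximiser `F x`.  With `g = F x`:
`v (F x) ≥ v ((f+F x)/2) ≥ (v f + v (F x))/2 + c‖f-F x‖^2`, i.e. the claim.
-/

namespace C2N

open Filter Topology Set

variable {X : Type*} [NormedAddCommGroup X] [NormedSpace ℝ X]

/-- One point: the maximiser exists. -/
private theorem conj_point {W : Set (X →L[ℝ] ℝ)} {Φ : (X →L[ℝ] ℝ) → ℝ} {c : ℝ} (hc : 0 < c)
    (hWc : Convex ℝ W) (hWcl : IsClosed W) (hWne : W.Nonempty)
    (hlsc : LowerSemicontinuousOn Φ W)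
    (hconv : ∀ f ∈ W, ∀ g ∈ W, Φ ((1 / 2 : ℝ) • (f + g)) ≤ (Φ f + Φ g) / 2 - c * ‖f - g‖ ^ 2)
    (x : X) (hbdd : ∃ M : ℝ, ∀ f ∈ W, f x - Φ f ≤ M) :
    ∃ F : X →L[ℝ] ℝ, F ∈ W ∧
      ∀ f ∈ W, f x - Φ f + 2 * c * ‖f - F‖ ^ 2 ≤ F x - Φ F := by
  obtain ⟨M, hM⟩ := hbdd
  set V : Set ℝ := (fun f : X →L[ℝ] ℝ => f x - Φ f) '' W with hV
  have hVne : V.Nonempty := hWne.image _
  have hVbdd : BddAbove V := ⟨M, by rintro _ ⟨f, hf, rfl⟩; exact hM f hf⟩
  set S : ℝ := sSup V with hS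
  have hle : ∀ f ∈ W, f x - Φ f ≤ S := fun f hf => le_csSup hVbdd ⟨f, hf, rfl⟩
  have hmid : ∀ f ∈ W, ∀ g ∈ W, (1 / 2 : ℝ) • (f + g) ∈ W := by
    intro f hf g hg
    rw [smul_add]
    exact hWc hf hg (by norm_num) (by norm_num) (by norm_num)
  have key : ∀ f ∈ W, ∀ g ∈ W, c * ‖f - g‖ ^ 2 ≤
      ((1 / 2 : ℝ) • (f + g)) x - Φ ((1 / 2 : ℝ) • (f + g)) - (f x - Φ f + (g x - Φ g)) / 2 := by
    intro f hf g hg
    have h1 := hconv f hf g hg
    have h2 : ((1 / 2 : ℝ) • (f + g)) x = (f x + g x) / 2 := by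
      simp only [ContinuousLinearMap.smul_apply, ContinuousLinearMap.add_apply, smul_eq_mul]
      ring
    rw [h2]
    linarith
  have key2 : ∀ f ∈ W, ∀ g ∈ W, c * ‖f - g‖ ^ 2 ≤ S - (f x - Φ f + (g x - Φ g)) / 2 := by
    intro f hf g hg
    have h1 := key f hf g hg
    have h2 := hle _ (hmid f hf g hg)
    linarith
  -- a maximising sequence
  have hex : ∀ n : ℕ, ∃ f ∈ W, S - 1 / ((n : ℝ) + 1) < f x - Φ f := by
    intro n
    have hpos : (0 : ℝ) < 1 / ((n : ℝ) + 1) := by positivity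
    obtain ⟨y, ⟨f, hf, rfl⟩, hy⟩ := exists_lt_of_lt_csSup hVne (show S - 1 / ((n : ℝ) + 1) < sSup V by
      rw [← hS]; linarith)
    exact ⟨f, hf, hy⟩
  choose u huW hu using hex
  have hcau : CauchySeq u := by
    rw [Metric.cauchySeq_iff]
    intro ε hε
    obtain ⟨N, hN⟩ := exists_nat_one_div_lt (show 0 < c * ε ^ 2 by positivity)
    refine ⟨N, fun m hm n hn => ?_⟩
    have h1 := key2 (u m) (huW m) (u n) (huW n)
    have h2 := hu m
    have h3 := hu n
    have h4 : (1 : ℝ) / ((m : ℝ) + 1) ≤ 1 / ((N : ℝ) + 1) :=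
      one_div_le_one_div_of_le (by positivity) (by have : (N : ℝ) ≤ m := by exact_mod_cast hm
                                                   linarith)
    have h5 : (1 : ℝ) / ((n : ℝ) + 1) ≤ 1 / ((N : ℝ) + 1) :=
      one_div_le_one_div_of_le (by positivity) (by have : (N : ℝ) ≤ n := by exact_mod_cast hn
                                                   linarith)
    have h6 : c * ‖u m - u n‖ ^ 2 < c * ε ^ 2 := by linarith
    have h7 : ‖u m - u n‖ ^ 2 < ε ^ 2 := lt_of_mul_lt_mul_left h6 hc.le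
    rw [dist_eq_norm]
    exact lt_of_pow_lt_pow_left₀ 2 hε.le h7
  obtain ⟨F, hF⟩ := cauchySeq_tendsto_of_complete hcau
  have hFW : F ∈ W := hWcl.mem_of_tendsto hF (Eventually.of_forall huW)
  have hFS : S ≤ F x - Φ F := by
    by_contra hlt
    push Not at hlt
    set ε : ℝ := (S - (F x - Φ F)) / 2 with hε
    have hεpos : 0 < ε := by rw [hε]; linarith
    have h1 : ∀ᶠ n in atTop, Φ F - ε < Φ (u n) := by
      have h2 := hlsc F hFW (Φ F - ε) (by linarith)
      have h3 : Tendsto u atTop (𝓝[W] F) :=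
        tendsto_nhdsWithin_iff.2 ⟨hF, Eventually.of_forall huW⟩
      exact h3.eventually h2
    have h4 : Tendsto (fun n => u n x) atTop (𝓝 (F x)) :=
      ((ContinuousLinearMap.apply ℝ ℝ x).continuous.tendsto F).comp hF
    have h5 : Tendsto (fun n : ℕ => S - 1 / ((n : ℝ) + 1)) atTop (𝓝 (S - 0)) :=
      tendsto_const_nhds.sub tendsto_one_div_add_atTop_nhds_zero_nat
    have h6 : Tendsto (fun n => u n x - (Φ F - ε)) atTop (𝓝 (F x - (Φ F - ε))) :=
      h4.sub tendsto_const_nhds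
    have h7 : S - 0 ≤ F x - (Φ F - ε) := by
      refine le_of_tendsto_of_tendsto h5 h6 ?_
      filter_upwards [h1] with n hn
      have := hu n
      linarith
    have h8 : 2 * ε = S - (F x - Φ F) := by rw [hε]; ring
    linarith
  refine ⟨F, hFW, fun f hf => ?_⟩
  have h1 := key2 f hf F hFW
  linarith

/-- L2 of paper 371: maximisers of `f x - Φ f` exist for a uniformly convex (power 2) lower
semicontinuous `Φ` on a closed convex set (maximising sequences are Cauchy), and the deficit is at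
least `2 c ‖f - F x‖^2`. -/
theorem conj_exists {W : Set (X →L[ℝ] ℝ)} {Φ : (X →L[ℝ] ℝ) → ℝ} {c : ℝ} (hc : 0 < c)
    (hWc : Convex ℝ W) (hWcl : IsClosed W) (hWne : W.Nonempty)
    (hlsc : LowerSemicontinuousOn Φ W)
    (hconv : ∀ f ∈ W, ∀ g ∈ W, Φ ((1 / 2 : ℝ) • (f + g)) ≤ (Φ f + Φ g) / 2 - c * ‖f - g‖ ^ 2)
    (hbdd : ∀ x : X, ∃ M : ℝ, ∀ f ∈ W, f x - Φ f ≤ M) :
    ∃ F : X → X →L[ℝ] ℝ, (∀ x, F x ∈ W) ∧
      ∀ x, ∀ f ∈ W, f x - Φ f + 2 * c * ‖f - F x‖ ^ 2 ≤ F x x - Φ (F x) := by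
  choose F hF1 hF2 using fun x => conj_point hc hWc hWcl hWne hlsc hconv x (hbdd x)
  exact ⟨F, hF1, hF2⟩

end C2N
end

section

set_option autoImplicit false

/-!
L2 of paper 371, second part. Use `hF (x+y) (F x)` (drop the square) for the lower estimate, and
`hF x (F (x+y))` for the upper one: the difference is `≤ (F (x+y) - F x) y - 2c‖F (x+y) - F x‖^2 ≤
t‖y‖ - 2ct^2 ≤ ‖y‖^2/(8c)` with `t = ‖F (x+y) - F x‖`.
-/

namespace C2N

open Filter Topology Set

variable {X : Type*} [NormedAddCommGroup X] [NormedSpace ℝ X]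

/-- L2 of paper 371, second part: the conjugate has a quadratic Taylor estimate with derivative the
maximiser `F`. -/
theorem conj_quad {W : Set (X →L[ℝ] ℝ)} {Φ : (X →L[ℝ] ℝ) → ℝ} {c : ℝ} (hc : 0 < c)
    {F : X → X →L[ℝ] ℝ} (hFW : ∀ x, F x ∈ W)
    (hF : ∀ x, ∀ f ∈ W, f x - Φ f + 2 * c * ‖f - F x‖ ^ 2 ≤ F x x - Φ (F x)) (x y : X) :
    0 ≤ (F (x + y) (x + y) - Φ (F (x + y))) - (F x x - Φ (F x)) - F x y ∧
    (F (x + y) (x + y) - Φ (F (x + y))) - (F x x - Φ (F x)) - F x y ≤ 1 / (8 * c) * ‖y‖ ^ 2 := by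
  have h1 := hF (x + y) (F x) (hFW x)
  have h2 := hF x (F (x + y)) (hFW (x + y))
  have h3 : (F (x + y) - F x) y ≤ ‖F (x + y) - F x‖ * ‖y‖ :=
    (le_abs_self _).trans ((F (x + y) - F x).le_opNorm y)
  rw [map_add] at h1
  have e1 : F (x + y) (x + y) = F (x + y) x + F (x + y) y := map_add _ _ _
  have h3' : F (x + y) y - F x y ≤ ‖F (x + y) - F x‖ * ‖y‖ := h3
  constructor
  · have : 0 ≤ 2 * c * ‖F x - F (x + y)‖ ^ 2 := by positivity
    linarith
  · set t := ‖F (x + y) - F x‖ with ht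
    have h4 : t * ‖y‖ - 2 * c * t ^ 2 ≤ 1 / (8 * c) * ‖y‖ ^ 2 := by
      have h5 : 1 / (8 * c) * ‖y‖ ^ 2 - (t * ‖y‖ - 2 * c * t ^ 2) =
          (‖y‖ - 4 * c * t) ^ 2 / (8 * c) := by
        field_simp
        ring
      have h6 : 0 ≤ (‖y‖ - 4 * c * t) ^ 2 / (8 * c) := by positivity
      linarith
    rw [e1]
    linarith

end C2N
end

section

set_option autoImplicit false

namespace C2N

open Filter Topology Set

variable {X : Type*} [NormedAddCommGroup X] [NormedSpace ℝ X]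

end C2N
end
end

section

section

set_option autoImplicit false

/-!
L3(a) of paper 371: `quad_fderiv` with `φ x = ‖x‖^2`.  `TwoS.self`: `‖x + t x‖^2 = (1+t)^2‖x‖^2`,
so `0 ≤ 2t‖x‖^2 + t^2‖x‖^2 - t P x x ≤ C t^2‖x‖^2` for all real `t` near `0`.  `P 0 = 0`: `lower 0 (±t y)`.
-/

namespace C2N

open Filter Topology Set

variable {X : Type*} [NormedAddCommGroup X] [NormedSpace ℝ X]

/-- L3(a): `P` is Lipschitz. Use `quad_fderiv` with `φ x = ‖x‖^2`. -/
theorem TwoS.lip {C : ℝ} {P : X → X →L[ℝ] ℝ} (h : TwoS C P) (x z : X) :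
    ‖P x - P z‖ ≤ 2 * C * ‖x - z‖ := by
  have hC : (0 : ℝ) ≤ C := by linarith [h.one_le]
  exact (quad_fderiv (φ := fun x : X => ‖x‖ ^ 2) (p := P) hC h.lower h.upper).2 x z

/-- L3(a): take `y = t x`, `t -> 0`. -/
theorem TwoS.self {C : ℝ} {P : X → X →L[ℝ] ℝ} (h : TwoS C P) (x : X) : P x x = 2 * ‖x‖ ^ 2 := by
  have key : ∀ t : ℝ, 0 ≤ 2 * t * ‖x‖ ^ 2 + t ^ 2 * ‖x‖ ^ 2 - t * P x x := by
    intro t
    have h1 := h.lower x (t • x)
    have h2 : ‖x + t • x‖ ^ 2 = (1 + t) ^ 2 * ‖x‖ ^ 2 := by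
      have : x + t • x = (1 + t) • x := by rw [add_smul, one_smul]
      rw [this, norm_smul, mul_pow, Real.norm_eq_abs, sq_abs]
    rw [h2, map_smul, smul_eq_mul] at h1
    nlinarith [h1]
  have hN : 0 ≤ ‖x‖ ^ 2 := by positivity
  apply le_antisymm
  · apply le_of_forall_pos_le_add
    intro ε hε
    set N := ‖x‖ ^ 2
    have hs : 0 < ε / (N + 1) := by positivity
    have h1 := key (ε / (N + 1))
    have h3 : 0 ≤ (ε / (N + 1)) * (2 * N + (ε / (N + 1)) * N - P x x) := by nlinarith [h1]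
    have h4 : 0 ≤ 2 * N + (ε / (N + 1)) * N - P x x := nonneg_of_mul_nonneg_right h3 hs
    have h5 : (ε / (N + 1)) * N ≤ ε := by
      rw [div_mul_eq_mul_div, div_le_iff₀ (by positivity)]
      nlinarith
    linarith
  · apply le_of_forall_pos_le_add
    intro ε hε
    set N := ‖x‖ ^ 2
    have hs : 0 < ε / (N + 1) := by positivity
    have h1 := key (-(ε / (N + 1)))
    have h3 : 0 ≤ (ε / (N + 1)) * (-(2 * N) + (ε / (N + 1)) * N + P x x) := by nlinarith [h1]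
    have h4 : 0 ≤ -(2 * N) + (ε / (N + 1)) * N + P x x := nonneg_of_mul_nonneg_right h3 hs
    have h5 : (ε / (N + 1)) * N ≤ ε := by
      rw [div_mul_eq_mul_div, div_le_iff₀ (by positivity)]
      nlinarith
    linarith

theorem TwoS.zero {C : ℝ} {P : X → X →L[ℝ] ℝ} (h : TwoS C P) : P 0 = 0 := by
  have key : ∀ y : X, P 0 y ≤ 0 := by
    intro y
    apply le_of_forall_pos_le_add
    intro ε hε
    set N := ‖y‖ ^ 2 with hNdef
    have hN : 0 ≤ N := by positivity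
    have hs : 0 < ε / (N + 1) := by positivity
    have h1 := h.lower 0 ((ε / (N + 1)) • y)
    rw [zero_add, norm_zero, norm_smul, mul_pow, Real.norm_eq_abs, sq_abs, map_smul,
      smul_eq_mul, ← hNdef] at h1
    have h3 : 0 ≤ (ε / (N + 1)) * ((ε / (N + 1)) * N - P 0 y) := by nlinarith [h1]
    have h4 : 0 ≤ (ε / (N + 1)) * N - P 0 y := nonneg_of_mul_nonneg_right h3 hs
    have h5 : (ε / (N + 1)) * N ≤ ε := by
      rw [div_mul_eq_mul_div, div_le_iff₀ (by positivity)]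
      nlinarith
    linarith
  ext y
  have h1 := key y
  have h2 := key (-y)
  rw [map_neg] at h2
  show P 0 y = 0
  linarith

theorem TwoS.norm_le {C : ℝ} {P : X → X →L[ℝ] ℝ} (h : TwoS C P) (x : X) :
    ‖P x‖ ≤ 2 * C * ‖x‖ := by
  have h1 := h.lip x 0
  rwa [h.zero, sub_zero, sub_zero] at h1

end C2N
end

section

set_option autoImplicit false

/-!
L3(b) of paper 371.  `‖f‖^2/4 = sup_x (f x - ‖x‖^2)`.  For all `x, h`:
`‖f‖^2/4 + ‖g‖^2/4 ≥ f (x+h) - ‖x+h‖^2 + g (x-h) - ‖x-h‖^2 ≥ (f+g) x - 2‖x‖^2 + (f-g) h - 2C‖h‖^2`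
(upper estimate for `y = ±h`).  Supremum over `x`: `2 ‖(f+g)/2‖^2/4`; over `h`: `‖f-g‖^2/(8C)`.
Multiply by 2.
-/

namespace C2N

open Filter Topology Set

variable {X : Type*} [NormedAddCommGroup X] [NormedSpace ℝ X]

private theorem norm_sq_le_of_le_quad (F : X →L[ℝ] ℝ) (R a : ℝ) (ha : 0 < a)
    (hF : ∀ x, F x ≤ R + a * ‖x‖ ^ 2) : ‖F‖ ^ 2 ≤ 4 * a * R := by
  have hR : 0 ≤ R := by simpa using hF 0
  have h1 : ∀ x, (F x) ^ 2 ≤ 4 * a * R * ‖x‖ ^ 2 := by
    intro x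
    have h2 : ∀ t : ℝ, 0 ≤ (a * ‖x‖ ^ 2) * (t * t) + (-(F x)) * t + R := by
      intro t
      have := hF (t • x)
      rw [map_smul, smul_eq_mul, norm_smul, mul_pow, Real.norm_eq_abs, sq_abs] at this
      nlinarith
    have h3 := discrim_le_zero h2
    unfold discrim at h3
    nlinarith
  have h4 : ‖F‖ ≤ Real.sqrt (4 * a * R) := by
    refine ContinuousLinearMap.opNorm_le_bound _ (Real.sqrt_nonneg _) (fun x => ?_)
    rw [Real.norm_eq_abs]
    refine abs_le_of_sq_le_sq ?_ (by positivity)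
    rw [mul_pow, Real.sq_sqrt (by positivity)]
    exact h1 x
  calc ‖F‖ ^ 2 ≤ (Real.sqrt (4 * a * R)) ^ 2 := pow_le_pow_left₀ (norm_nonneg _) h4 2
    _ = 4 * a * R := Real.sq_sqrt (by positivity)

private theorem sub_le_quarter (f : X →L[ℝ] ℝ) (y : X) : f y - ‖y‖ ^ 2 ≤ ‖f‖ ^ 2 / 4 := by
  have h1 : f y ≤ ‖f‖ * ‖y‖ := (le_abs_self _).trans (f.le_opNorm y)
  nlinarith [sq_nonneg (‖f‖ / 2 - ‖y‖)]

/-- L3(b): dual uniform convexity of power type 2. Proof: `‖f‖^2/4 = sup_x (f x - ‖x‖^2)`. -/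
theorem TwoS.dual_convex {C : ℝ} {P : X → X →L[ℝ] ℝ} (h : TwoS C P) (f g : X →L[ℝ] ℝ) :
    ‖(1 / 2 : ℝ) • (f + g)‖ ^ 2 ≤ (‖f‖ ^ 2 + ‖g‖ ^ 2) / 2 - ‖f - g‖ ^ 2 / (4 * C) := by
  have hC : 0 < C := lt_of_lt_of_le one_pos h.one_le
  have key : ∀ x y : X, (f + g) x - 2 * ‖x‖ ^ 2 + ((f - g) y - 2 * C * ‖y‖ ^ 2) ≤
      ‖f‖ ^ 2 / 4 + ‖g‖ ^ 2 / 4 := by
    intro x y
    have h1 := sub_le_quarter f (x + y)
    have h2 := sub_le_quarter g (x + -y)
    have h3 := h.upper x y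
    have h4 := h.upper x (-y)
    rw [map_neg, norm_neg] at h4
    simp only [map_add, map_neg, ContinuousLinearMap.add_apply,
      ContinuousLinearMap.sub_apply] at h1 h2 ⊢
    linarith
  have s1 : ∀ y : X, ‖f + g‖ ^ 2 ≤ 4 * 2 * (‖f‖ ^ 2 / 4 + ‖g‖ ^ 2 / 4 -
      ((f - g) y - 2 * C * ‖y‖ ^ 2)) := by
    intro y
    refine norm_sq_le_of_le_quad (f + g) _ 2 (by norm_num) (fun x => ?_)
    have := key x y
    linarith
  have s2 : ‖f - g‖ ^ 2 ≤ 4 * (2 * C) * (‖f‖ ^ 2 / 4 + ‖g‖ ^ 2 / 4 - ‖f + g‖ ^ 2 / 8) := by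
    refine norm_sq_le_of_le_quad (f - g) _ (2 * C) (by positivity) (fun y => ?_)
    have := s1 y
    linarith
  have s3 : ‖f - g‖ ^ 2 / (4 * C) ≤ 2 * (‖f‖ ^ 2 / 4 + ‖g‖ ^ 2 / 4 - ‖f + g‖ ^ 2 / 8) := by
    rw [div_le_iff₀ (by positivity)]
    linarith
  have s4 : ‖(1 / 2 : ℝ) • (f + g)‖ ^ 2 = ‖f + g‖ ^ 2 / 4 := by
    rw [norm_smul, mul_pow]; norm_num; ring
  rw [s4]
  linarith

end C2N
end

section

set_option autoImplicit false

/-!
L3(c) of paper 371: restrict to the subspace and apply `TwoS.dual_convex` there (`resN Z f` is by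
definition the norm of the restriction).
-/

namespace C2N

open Filter Topology Set

variable {X : Type*} [NormedAddCommGroup X] [NormedSpace ℝ X]

/-- L3(c): `(2S)` passes to subspaces. -/
theorem TwoS.restrict {C : ℝ} {P : X → X →L[ℝ] ℝ} (h : TwoS C P) (Z : Submodule ℝ X) :
    TwoS (X := Z) C (fun z => (P (z : X)).comp Z.subtypeL) where
  one_le := h.one_le
  lower x y := h.lower (x : X) (y : X)
  upper x y := h.upper (x : X) (y : X)

/-- L3(c): dual convexity for the restricted norms. -/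
theorem TwoS.resN_convex {C : ℝ} {P : X → X →L[ℝ] ℝ} (h : TwoS C P) (Z : Submodule ℝ X)
    (f g : X →L[ℝ] ℝ) :
    resN Z ((1 / 2 : ℝ) • (f + g)) ^ 2 ≤
      (resN Z f ^ 2 + resN Z g ^ 2) / 2 - resN Z (f - g) ^ 2 / (4 * C) :=
  (h.restrict Z).dual_convex (f.comp Z.subtypeL) (g.comp Z.subtypeL)

end C2N
end

section

set_option autoImplicit false

namespace C2N

open Filter Topology Set

variable {X : Type*} [NormedAddCommGroup X] [NormedSpace ℝ X]

end C2N
end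
end
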