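import Pool.Agent.Lib.MP_55041d_an.h32b.A3
import Pool.Agent.Lib.MP_55041d_an.h32b.Defs

section

set_option autoImplicit false

/-!
Section 10 of paper 371.  `conj_exists`, `conj_quad` with `W = univ`, `c = 1/(4C)`: `F x = f_x x - Φ f_x`, `p x = f_x`, `L = C/2`
(or larger).  `F ≥ 0` (`Φ 0 = 0`); `F x ≤ sup (f x - ‖f‖^2) ≤ ‖x‖^2/4`; `F x ≥ s‖x‖ - s^2 - s/4` with `s = (‖x‖-1/4)/2` and a norming
functional.  `‖f_x‖ ≤ ‖x‖` since `F x ≥ 0`.  (TS) at `x0`, `e`: `h5` at `f_{x0}` with `K = 1/(8e)`; `x ↦ f_x` is Lipschitz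
(`quad_fderiv`); with `f, f'` the maximisers at `x ± h` and `a = resN (tail g M) (f-f')`:
`F (x+h) + F (x-h) - 2 F x ≤ (f-f') h - (Φ f + Φ f' - 2 Φ ((f+f')/2)) ≤ a‖h‖ - 2 K a^2 ≤ ‖h‖^2/(8K)`.
-/

namespace C2N

open Filter Topology Set

variable {X : Type*} [NormedAddCommGroup X] [NormedSpace ℝ X]

/-- Property (TS) of section 10: second differences in tail directions are locally uniformly small
at all points of the ball of radius `r`. -/
def TS (g : ℕ → X →L[ℝ] ℝ) (F : X → ℝ) (r : ℝ) : Prop :=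
  ∀ x0 : X, ‖x0‖ < r → ∀ e : ℝ, 0 < e → ∃ (M : ℕ) (δ : ℝ), 0 < δ ∧
    ∀ x, ‖x - x0‖ < δ → ∀ h ∈ tail g M, ‖h‖ ≤ δ → F (x + h) + F (x - h) - 2 * F x ≤ e * ‖h‖ ^ 2

private lemma F_le_aux (f : X →L[ℝ] ℝ) (x : X) : f x ≤ ‖f‖ * ‖x‖ :=
  le_trans (le_abs_self _) (f.le_opNorm x)

/-- Section 10: the function `F` (conjugate of `Φ`). -/
theorem exists_F {C : ℝ} (hC : 1 ≤ C) {g : ℕ → X →L[ℝ] ℝ} (Φ : (X →L[ℝ] ℝ) → ℝ)
    (hcont : Continuous Φ) (h1 : ∀ f, ‖f‖ ^ 2 ≤ Φ f) (h3 : ∀ f, Φ f ≤ ‖f‖ ^ 2 + ‖f‖ / 4)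
    (h4 : ∀ f f', Φ ((1 / 2 : ℝ) • (f + f')) ≤ (Φ f + Φ f') / 2 - 1 / (4 * C) * ‖f - f'‖ ^ 2)
    (h5 : ∀ f0 : X →L[ℝ] ℝ, ‖f0‖ < 4 → ∀ K : ℝ, ∃ (M : ℕ) (δ : ℝ), 0 < δ ∧
      ∀ f f' : X →L[ℝ] ℝ, ‖f - f0‖ < δ → ‖f' - f0‖ < δ →
        Φ ((1 / 2 : ℝ) • (f + f')) ≤ (Φ f + Φ f') / 2 - K * resN (tail g M) (f - f') ^ 2) :
    ∃ (F : X → ℝ) (p : X → X →L[ℝ] ℝ) (L : ℝ), 0 < L ∧
      (∀ x y, 0 ≤ F (x + y) - F x - p x y) ∧ (∀ x y, F (x + y) - F x - p x y ≤ L * ‖y‖ ^ 2) ∧
      (∀ x, F x ≤ ‖x‖ ^ 2 / 4) ∧ (∀ x, 1 / 4 ≤ ‖x‖ → (‖x‖ - 1 / 4) ^ 2 / 4 ≤ F x) ∧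
      (∀ x, 0 ≤ F x) ∧ TS g F 4 := by
  have hCpos : 0 < C := by linarith
  have hc : 0 < 1 / (4 * C) := by positivity
  obtain ⟨Fm, -, hF⟩ := conj_exists (X := X) (W := univ) (Φ := Φ) (c := 1 / (4 * C)) hc
    convex_univ isClosed_univ univ_nonempty (hcont.lowerSemicontinuous.lowerSemicontinuousOn univ)
    (fun f _ g _ => h4 f g)
    (fun x => ⟨‖x‖ ^ 2 / 4, fun f _ => by
      have a1 := F_le_aux f x
      have a2 := h1 f
      nlinarith [sq_nonneg (‖f‖ - ‖x‖ / 2)]⟩)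
  have hF' : ∀ x, ∀ f : X →L[ℝ] ℝ, f x - Φ f + 2 * (1 / (4 * C)) * ‖f - Fm x‖ ^ 2
      ≤ Fm x x - Φ (Fm x) := fun x f => hF x f (mem_univ _)
  have hquad := fun x y => conj_quad (X := X) (W := univ) (Φ := Φ) hc (F := Fm)
    (fun _ => mem_univ _) hF x y
  have hweak : ∀ x, ∀ f : X →L[ℝ] ℝ, f x - Φ f ≤ Fm x x - Φ (Fm x) := by
    intro x f
    have := hF' x f
    have h0 : 0 ≤ 2 * (1 / (4 * C)) * ‖f - Fm x‖ ^ 2 := by positivity
    linarith
  have hΦ0 : Φ 0 = 0 := by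
    have a1 := h1 0
    have a2 := h3 0
    simp at a1 a2
    linarith
  have hFnn : ∀ x, 0 ≤ Fm x x - Φ (Fm x) := by
    intro x
    have := hweak x 0
    simpa [hΦ0] using this
  have hnorm : ∀ x, ‖Fm x‖ ≤ ‖x‖ := by
    intro x
    have a1 := hFnn x
    have a2 := F_le_aux (Fm x) x
    have a3 := h1 (Fm x)
    by_contra hcon
    push Not at hcon
    have : 0 ≤ ‖x‖ := norm_nonneg x
    nlinarith
  have hconst : 1 / (8 * (1 / (4 * C))) = C / 2 := by field_simp; norm_num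
  refine ⟨fun x => Fm x x - Φ (Fm x), Fm, C / 2, by positivity, fun x y => (hquad x y).1,
    fun x y => ?_, fun x => ?_, fun x hx => ?_, hFnn, ?_⟩
  · have := (hquad x y).2
    rw [hconst] at this
    exact this
  · have a2 := F_le_aux (Fm x) x
    have a3 := h1 (Fm x)
    show Fm x x - Φ (Fm x) ≤ _
    nlinarith [sq_nonneg (‖Fm x‖ - ‖x‖ / 2)]
  · show _ ≤ Fm x x - Φ (Fm x)
    have hx0 : x ≠ 0 := by
      intro h0
      rw [h0, norm_zero] at hx
      norm_num at hx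
    obtain ⟨u, hu1, hu2⟩ := exists_dual_vector ℝ x (by simpa using hx0)
    have hux : u x = ‖x‖ := by simpa using hu2
    set s : ℝ := (‖x‖ - 1 / 4) / 2 with hs
    have hs0 : 0 ≤ s := by rw [hs]; linarith
    have b1 := hweak x (s • u)
    have b2 := h3 (s • u)
    have b3 : ‖s • u‖ = s := by
      rw [norm_smul, hu1, mul_one, Real.norm_eq_abs, abs_of_nonneg hs0]
    rw [b3] at b2
    have b4 : (s • u) x = s * ‖x‖ := by
      simp [hux]
    rw [b4] at b1
    have : (‖x‖ - 1 / 4) ^ 2 / 4 = s ^ 2 := by rw [hs]; ring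
    rw [this]
    have h5 : ‖x‖ = 2 * s + 1 / 4 := by rw [hs]; ring
    have : s * ‖x‖ = 2 * s ^ 2 + s / 4 := by rw [h5]; ring
    linarith
  · intro x0 hx0 e he
    obtain ⟨M, δ, hδ, hM⟩ := h5 (Fm x0) (lt_of_le_of_lt (hnorm x0) hx0) (1 / (8 * e))
    have hlip : ∀ x z, ‖Fm x - Fm z‖ ≤ 2 * (C / 2) * ‖x - z‖ :=
      (quad_fderiv (φ := fun x => Fm x x - Φ (Fm x)) (p := Fm) (C := C / 2) (by positivity)
        (fun x y => (hquad x y).1) (fun x y => by
          have := (hquad x y).2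
          rw [hconst] at this
          exact this)).2
    refine ⟨M, δ / (4 * C), by positivity, fun x hx h hh hhn => ?_⟩
    show (Fm (x + h) (x + h) - Φ (Fm (x + h))) + (Fm (x - h) (x - h) - Φ (Fm (x - h)))
      - 2 * (Fm x x - Φ (Fm x)) ≤ e * ‖h‖ ^ 2
    set f := Fm (x + h) with hf
    set f' := Fm (x - h) with hf'
    have hδC : 2 * (C / 2) * (δ / (4 * C) + δ / (4 * C)) < δ := by
      have : 2 * (C / 2) * (δ / (4 * C) + δ / (4 * C)) = δ / 2 := by field_simp; norm_num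
      rw [this]; linarith
    have n1 : ‖f - Fm x0‖ < δ := by
      refine lt_of_le_of_lt (hlip _ _) (lt_of_le_of_lt ?_ hδC)
      refine mul_le_mul_of_nonneg_left ?_ (by positivity)
      have : x + h - x0 = (x - x0) + h := by abel
      rw [this]
      exact le_trans (norm_add_le _ _) (add_le_add hx.le hhn)
    have n2 : ‖f' - Fm x0‖ < δ := by
      refine lt_of_le_of_lt (hlip _ _) (lt_of_le_of_lt ?_ hδC)
      refine mul_le_mul_of_nonneg_left ?_ (by positivity)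
      have : x - h - x0 = (x - x0) - h := by abel
      rw [this]
      exact le_trans (norm_sub_le _ _) (add_le_add hx.le hhn)
    have key := hM f f' n1 n2
    set a := resN (tail g M) (f - f') with ha
    have hab : |(f - f') h| ≤ a * ‖h‖ := abs_le_resN (f - f') hh
    have hle : (f - f') h ≤ a * ‖h‖ := le_trans (le_abs_self _) hab
    have hw := hweak x ((1 / 2 : ℝ) • (f + f'))
    have e1 : ((1 / 2 : ℝ) • (f + f')) x = (f x + f' x) / 2 := by
      simp; ring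
    rw [e1] at hw
    have e2 : f (x + h) = f x + f h := map_add f x h
    have e3 : f' (x - h) = f' x - f' h := map_sub f' x h
    have e4 : (f - f') h = f h - f' h := by simp
    rw [e2, e3]
    rw [e4] at hle
    have e5 : a * ‖h‖ - 2 * (1 / (8 * e)) * a ^ 2 ≤ e * ‖h‖ ^ 2 := by
      have e6 : e * ‖h‖ ^ 2 - (a * ‖h‖ - 2 * (1 / (8 * e)) * a ^ 2)
          = e * (‖h‖ - a / (2 * e)) ^ 2 := by
        field_simp
        ring
      have e7 : 0 ≤ e * (‖h‖ - a / (2 * e)) ^ 2 := by positivity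
      linarith
    linarith

end C2N
end

section

set_option autoImplicit false

namespace C2N

open Filter Topology Set MeasureTheory

variable {X : Type*} [NormedAddCommGroup X] [NormedSpace ℝ X]
variable {E : Type*} [NormedAddCommGroup E] [NormedSpace ℝ E]

/-- average along a segment -/
noncomputable def avg (v : X) (H : X → E) (x : X) : E :=
  (1 / 2 : ℝ) • ∫ t in (-1 : ℝ)..1, H (x + t • v)

/-- iterated averages -/
noncomputable def avgs (v : ℕ → X) : ℕ → (X → E) → X → E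
  | 0, H => H
  | n + 1, H => avgs v n (avg (v n) H)

/-- quadratic estimates: `F` is convex with derivative `p` and quadratic upper estimate -/
structure Quad (L : ℝ) (F : X → ℝ) (p : X → X →L[ℝ] ℝ) : Prop where
  lower : ∀ x y, 0 ≤ F (x + y) - F x - p x y
  upper : ∀ x y, F (x + y) - F x - p x y ≤ L * ‖y‖ ^ 2

theorem Quad.lip {L : ℝ} {F : X → ℝ} {p : X → X →L[ℝ] ℝ} (h : Quad L F p) (hL : 0 ≤ L) (x z : X) :
    ‖p x - p z‖ ≤ 2 * L * ‖x - z‖ :=
  (quad_fderiv hL h.lower h.upper).2 x z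

theorem Quad.hasFDerivAt {L : ℝ} {F : X → ℝ} {p : X → X →L[ℝ] ℝ} (h : Quad L F p) (hL : 0 ≤ L)
    (x : X) : HasFDerivAt F (p x) x :=
  (quad_fderiv hL h.lower h.upper).1 x

theorem Quad.continuous {L : ℝ} {F : X → ℝ} {p : X → X →L[ℝ] ℝ} (h : Quad L F p) (hL : 0 ≤ L) :
    Continuous F :=
  continuous_iff_continuousAt.mpr fun x => (h.hasFDerivAt hL x).continuousAt

/-- directional Lipschitz condition for the increments -/
def DirLip (K : ℝ) (q : X → E) (e : X) : Prop :=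
  ∀ (x z : X) (s : ℝ), ‖q (x + s • e) - q x - (q (z + s • e) - q z)‖ ≤ K * |s| * ‖x - z‖

end C2N
end

section

section

set_option autoImplicit false

/-!
Section 3 of paper 371: `u x = ∑' n, 2^n (1 - β (2^{-n} x))`.  Convergence: `β ≤ 1 = β 0` and `h2` at `0`
give `1 - β z ≤ K‖z‖^2`, so the `n`-th term is `≤ K 2^{-n}‖x‖^2`.  Second differences: each term
contributes `≤ 2^n K 4^{-n}‖h‖^2`.  Growth: for `‖x‖ ≥ R` take `k` with `2^{-k}‖x‖ ∈ [R, 2R)`: the `k`-th
term is `2^k ≥ ‖x‖/(2R)`; for `‖x‖ < R` the left side is negative.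
-/

namespace C2N

open Filter Topology Set

variable {X : Type*} [NormedAddCommGroup X] [NormedSpace ℝ X]

/-- Section 3: `u x = ∑ 2^n (1 - β (2^{-n} x))`. -/
theorem exists_growth (β : X → ℝ) (h01 : ∀ x, 0 ≤ β x ∧ β x ≤ 1) (h0 : β 0 = 1)
    (R : ℝ) (hR : 0 < R) (hβ : ∀ x, R ≤ ‖x‖ → β x = 0) (K : ℝ) (hK : 0 < K)
    (h2 : ∀ x h, |β (x + h) + β (x - h) - 2 * β x| ≤ K * ‖h‖ ^ 2) :
    ∃ u : X → ℝ, (∀ x, 0 ≤ u x) ∧ u 0 = 0 ∧
      (∀ x h, u (x + h) + u (x - h) - 2 * u x ≤ 2 * K * ‖h‖ ^ 2) ∧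
      ∀ x, (‖x‖ - R) / (2 * R) ≤ u x := by
  have hz : ∀ z : X, 1 - β z ≤ K * ‖z‖ ^ 2 := by
    intro z
    have h3 := h2 0 z
    rw [zero_add, zero_sub, h0] at h3
    have h4 := (abs_le.1 h3).1
    linarith [(h01 (-z)).2]
  set a : ℕ → X → ℝ := fun n x => 2 ^ n * (1 - β ((1 / 2 : ℝ) ^ n • x)) with ha
  have hpow : ∀ n : ℕ, (2 : ℝ) ^ n * ((1 / 2 : ℝ) ^ n) ^ 2 = (1 / 2) ^ n := by
    intro n
    have : (2 : ℝ) ^ n * (1 / 2 : ℝ) ^ n = 1 := by
      rw [← mul_pow]
      norm_num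
    calc (2 : ℝ) ^ n * ((1 / 2 : ℝ) ^ n) ^ 2 = (2 ^ n * (1 / 2 : ℝ) ^ n) * (1 / 2) ^ n := by ring
      _ = _ := by rw [this, one_mul]
  have hn : ∀ (n : ℕ) (z : X), ‖(1 / 2 : ℝ) ^ n • z‖ ^ 2 = ((1 / 2 : ℝ) ^ n) ^ 2 * ‖z‖ ^ 2 := by
    intro n z
    rw [norm_smul, mul_pow, Real.norm_of_nonneg (by positivity)]
  have ha0 : ∀ n x, 0 ≤ a n x := fun n x =>
    mul_nonneg (by positivity) (by linarith [(h01 ((1 / 2 : ℝ) ^ n • x)).2])
  have ha1 : ∀ n x, a n x ≤ K * ‖x‖ ^ 2 * (1 / 2) ^ n := by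
    intro n x
    have h3 := mul_le_mul_of_nonneg_left (hz ((1 / 2 : ℝ) ^ n • x)) (by positivity : (0 : ℝ) ≤ 2 ^ n)
    refine h3.trans (le_of_eq ?_)
    rw [hn]
    calc (2 : ℝ) ^ n * (K * (((1 / 2 : ℝ) ^ n) ^ 2 * ‖x‖ ^ 2)) =
        K * ‖x‖ ^ 2 * (2 ^ n * ((1 / 2 : ℝ) ^ n) ^ 2) := by ring
      _ = _ := by rw [hpow]
  have hgeo : Summable (fun n : ℕ => (1 / 2 : ℝ) ^ n) :=
    summable_geometric_of_lt_one (by norm_num) (by norm_num)
  have hsum : ∀ x, Summable (fun n => a n x) := fun x =>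
    Summable.of_nonneg_of_le (fun n => ha0 n x) (fun n => ha1 n x) (hgeo.mul_left _)
  refine ⟨fun x => ∑' n, a n x, fun x => tsum_nonneg fun n => ha0 n x, ?_, ?_, ?_⟩
  · have : ∀ n, a n 0 = 0 := by
      intro n
      simp [ha, h0]
    simp [this]
  · intro x h
    have e1 : (∑' n, a n (x + h)) + (∑' n, a n (x - h)) - 2 * ∑' n, a n x =
        ∑' n, (a n (x + h) + a n (x - h) - 2 * a n x) := by
      rw [← (hsum (x + h)).tsum_add (hsum (x - h)), ← tsum_mul_left,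
        ← ((hsum (x + h)).add (hsum (x - h))).tsum_sub ((hsum x).mul_left 2)]
    have e2 : ∀ n, a n (x + h) + a n (x - h) - 2 * a n x ≤ K * ‖h‖ ^ 2 * (1 / 2) ^ n := by
      intro n
      have h3 := (abs_le.1 (h2 ((1 / 2 : ℝ) ^ n • x) ((1 / 2 : ℝ) ^ n • h))).1
      rw [← smul_add, ← smul_sub, hn] at h3
      have h4 : a n (x + h) + a n (x - h) - 2 * a n x =
          2 ^ n * -(β ((1 / 2 : ℝ) ^ n • (x + h)) + β ((1 / 2 : ℝ) ^ n • (x - h)) -
            2 * β ((1 / 2 : ℝ) ^ n • x)) := by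
        simp only [ha]
        ring
      rw [h4]
      have h5 := mul_le_mul_of_nonneg_left (neg_le_neg h3) (by positivity : (0 : ℝ) ≤ 2 ^ n)
      refine h5.trans (le_of_eq ?_)
      calc (2 : ℝ) ^ n * - -(K * (((1 / 2 : ℝ) ^ n) ^ 2 * ‖h‖ ^ 2)) =
          K * ‖h‖ ^ 2 * (2 ^ n * ((1 / 2 : ℝ) ^ n) ^ 2) := by ring
        _ = _ := by rw [hpow]
    show (∑' n, a n (x + h)) + (∑' n, a n (x - h)) - 2 * ∑' n, a n x ≤ _
    rw [e1]
    have e3 : Summable (fun n => a n (x + h) + a n (x - h) - 2 * a n x) :=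
      ((hsum (x + h)).add (hsum (x - h))).sub ((hsum x).mul_left 2)
    refine (e3.tsum_le_tsum e2 (hgeo.mul_left _)).trans (le_of_eq ?_)
    rw [tsum_mul_left, tsum_geometric_of_lt_one (by norm_num) (by norm_num)]
    ring
  · intro x
    show _ ≤ ∑' n, a n x
    by_cases hx : R ≤ ‖x‖
    · obtain ⟨k, hk1, hk2⟩ := exists_nat_pow_near (x := ‖x‖ / R) (y := 2)
        ((one_le_div hR).2 hx) (by norm_num)
      have h3 : a k x ≤ ∑' n, a n x := (hsum x).le_tsum k fun n _ => ha0 n x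
      refine le_trans ?_ h3
      have h4 : β ((1 / 2 : ℝ) ^ k • x) = 0 := by
        apply hβ
        rw [norm_smul, Real.norm_of_nonneg (by positivity), one_div, inv_pow]
        rw [le_div_iff₀ hR] at hk1
        rw [inv_mul_eq_div, le_div_iff₀ (by positivity)]
        linarith
      have h5 : a k x = 2 ^ k := by
        simp only [ha, h4]
        ring
      rw [h5, div_le_iff₀ (by positivity)]
      rw [div_lt_iff₀ hR, pow_succ] at hk2
      linarith
    · push Not at hx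
      have h3 : 0 ≤ ∑' n, a n x := tsum_nonneg fun n => ha0 n x
      have h4 : (‖x‖ - R) / (2 * R) ≤ 0 := div_nonpos_of_nonpos_of_nonneg (by linarith) (by positivity)
      linarith

end C2N
end

section

set_option autoImplicit false

/-!
Section 3 of paper 371, homogeneity.  For `x ≠ 0` let `P x = 2 (N x) • q_{x/N x}`, `P 0 = 0`.
With `a = N x`, `q = q_{x/a}`: `N (x+y) ≤ a + q y + (Cq/a)‖y‖^2`, `N (x+y) ≥ a + q y`.
Lower: if `a + q y ≥ 0` square; else `a^2 + 2a q y ≤ 0`.  Upper: if `‖y‖ ≤ a` square the upper estimate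
(`|q y| ≤ N y ≤ C‖y‖`); if `‖y‖ > a` use `N (x+y) ≤ a + N y`.
-/

namespace C2N

open Filter Topology Set

variable {X : Type*} [NormedAddCommGroup X] [NormedSpace ℝ X]

/-- Section 3, homogeneity: from the sphere to `(2S)`. -/
theorem twoS_of_sphere (N : X → ℝ) (hN : EquivNorm N) (Cq : ℝ) (hC : 0 < Cq)
    (h : ∀ x : X, N x = 1 → ∃ q : X →L[ℝ] ℝ, q x = 1 ∧ (∀ y, q y ≤ N y) ∧
      ∀ y, N (x + y) ≤ 1 + q y + Cq * ‖y‖ ^ 2) :
    ∃ (C : ℝ) (P : X → X →L[ℝ] ℝ), 1 ≤ C ∧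
      (∀ x y, 0 ≤ N (x + y) ^ 2 - N x ^ 2 - P x y) ∧
      (∀ x y, N (x + y) ^ 2 - N x ^ 2 - P x y ≤ C * N y ^ 2) := by
  obtain ⟨hadd, hsmul, c, C, hc, hCC, hequiv⟩ := hN
  have hN0 : N 0 = 0 := by
    have := hsmul 0 0
    simpa using this
  have hNnn : ∀ x, 0 ≤ N x := fun x => (mul_nonneg hc.le (norm_nonneg x)).trans (hequiv x).1
  have hNpos : ∀ x, x ≠ 0 → 0 < N x := fun x hx =>
    (mul_pos hc (norm_pos_iff.2 hx)).trans_le (hequiv x).1
  have hNneg : ∀ x, N (-x) = N x := by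
    intro x
    have := hsmul (-1) x
    simpa using this
  have hunit : ∀ x, x ≠ 0 → N ((N x)⁻¹ • x) = 1 := by
    intro x hx
    have h1 := hNpos x hx
    rw [hsmul, abs_of_pos (inv_pos.2 h1), inv_mul_cancel₀ h1.ne']
  -- the functional at `x ≠ 0`
  have key : ∀ x : X, x ≠ 0 → ∃ q : X →L[ℝ] ℝ, (∀ y, q y ≤ N y) ∧ q x = N x ∧
      ∀ y, N (x + y) ≤ N x + q y + Cq / N x * ‖y‖ ^ 2 := by
    intro x hx
    have ha := hNpos x hx
    obtain ⟨q, hq1, hq2, hq3⟩ := h _ (hunit x hx)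
    refine ⟨q, hq2, ?_, fun y => ?_⟩
    · rw [map_smul, smul_eq_mul] at hq1
      field_simp at hq1
      exact hq1
    · have h3 := hq3 ((N x)⁻¹ • y)
      have h4 : N (x + y) = N x * N ((N x)⁻¹ • x + (N x)⁻¹ • y) := by
        rw [← smul_add, hsmul, abs_of_pos (inv_pos.2 ha), ← mul_assoc, mul_inv_cancel₀ ha.ne',
          one_mul]
      rw [h4]
      have h5 := mul_le_mul_of_nonneg_left h3 ha.le
      refine h5.trans (le_of_eq ?_)
      rw [map_smul, smul_eq_mul, norm_smul, Real.norm_of_nonneg (inv_pos.2 ha).le]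
      field_simp
  choose! q hq1 hq2 hq3 using key
  classical
  set D : ℝ := Cq / c ^ 2 with hD
  have hD0 : 0 < D := by positivity
  refine ⟨5 + 4 * D + D ^ 2, fun x => if x = 0 then 0 else (2 * N x) • q x, by nlinarith, ?_, ?_⟩
  · intro x y
    by_cases hx : x = 0
    · simp only [hx, if_true, hN0, zero_add]
      simp only [ContinuousLinearMap.zero_apply]
      nlinarith [hNnn y]
    · simp only [if_neg hx, ContinuousLinearMap.smul_apply, smul_eq_mul]
      have ha := hNpos x hx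
      have h3 : N x + q x y ≤ N (x + y) := by
        have := hq1 x hx (x + y)
        rwa [map_add, hq2 x hx] at this
      have h4 := hNnn (x + y)
      by_cases h5 : 0 ≤ N x + q x y
      · nlinarith [sq_nonneg (q x y)]
      · push Not at h5
        nlinarith [sq_nonneg (N (x + y))]
  · intro x y
    have ht := hNnn y
    by_cases hx : x = 0
    · simp only [hx, if_true, hN0, zero_add]
      simp only [ContinuousLinearMap.zero_apply]
      have : 0 ≤ N y ^ 2 := sq_nonneg _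
      nlinarith
    · simp only [if_neg hx, ContinuousLinearMap.smul_apply, smul_eq_mul]
      have ha := hNpos x hx
      have h4 := hNnn (x + y)
      have hs1 : q x y ≤ N y := hq1 x hx y
      have hs2 : -N y ≤ q x y := by
        have := hq1 x hx (-y)
        rw [map_neg, hNneg] at this
        linarith
      by_cases hta : N y ≤ N x
      · have h5 : N (x + y) ≤ N x + q x y + D / N x * N y ^ 2 := by
          refine (hq3 x hx y).trans ?_
          have h6 : Cq / N x * ‖y‖ ^ 2 ≤ D / N x * N y ^ 2 := by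
            have h7 : c * ‖y‖ ≤ N y := (hequiv y).1
            have h8 : (c * ‖y‖) ^ 2 ≤ N y ^ 2 := by
              have : 0 ≤ c * ‖y‖ := by positivity
              nlinarith
            have h9 : Cq / N x * ‖y‖ ^ 2 = D / N x * (c * ‖y‖) ^ 2 := by
              rw [hD]
              field_simp
            rw [h9]
            exact mul_le_mul_of_nonneg_left h8 (by positivity)
          linarith
        set w : ℝ := D / N x * N y ^ 2 with hw
        have hw0 : 0 ≤ w := by positivity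
        have hw1 : N x * w = D * N y ^ 2 := by
          rw [hw]
          field_simp
        have hw2 : w ≤ D * N y := by
          have : w * N x ≤ D * N y * N x := by
            rw [mul_comm w, hw1]
            nlinarith [mul_nonneg hD0.le ht]
          exact le_of_mul_le_mul_right this ha
        have h6 : N (x + y) ^ 2 ≤ (N x + q x y + w) ^ 2 := by
          nlinarith
        have h7 : (N x + q x y + w) ^ 2 = N x ^ 2 + 2 * N x * q x y + (q x y) ^ 2 +
            2 * (N x * w) + 2 * (q x y * w) + w ^ 2 := by ring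
        have h8 : (q x y) ^ 2 ≤ N y ^ 2 := by nlinarith
        have h9 : q x y * w ≤ D * N y ^ 2 := by
          have : q x y * w ≤ N y * w := mul_le_mul_of_nonneg_right hs1 hw0
          have : N y * w ≤ N y * (D * N y) := mul_le_mul_of_nonneg_left hw2 ht
          nlinarith
        have h10 : w ^ 2 ≤ D ^ 2 * N y ^ 2 := by
          have : w ^ 2 ≤ (D * N y) ^ 2 := by nlinarith
          linarith [mul_pow D (N y) 2]
        rw [h7, hw1] at h6
        nlinarith [sq_nonneg (N y)]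
      · push Not at hta
        have h5 : N (x + y) ≤ N x + N y := hadd x y
        have h6 : N (x + y) ^ 2 ≤ (N x + N y) ^ 2 := by nlinarith
        have h7 : N x * q x y ≥ -(N x * N y) := by nlinarith
        have h8 : N x * N y ≤ N y ^ 2 := by nlinarith
        have h9 : 0 ≤ D * N y ^ 2 := by positivity
        have h10 : 0 ≤ D ^ 2 * N y ^ 2 := by positivity
        nlinarith

end C2N
end

section

set_option autoImplicit false

/-!
Type synonym of `X` with the norm `N` (e.g. through `Seminorm`/`AddGroupNorm.toNormedAddCommGroup`,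
then `NormedSpace` from `smul`), identity map is a continuous linear equivalence by `equiv`.
-/

namespace C2N

open Filter Topology Set

universe u

/-- type synonym -/
private def Syn (X : Type u) : Type u := X

private instance (X : Type u) [NormedAddCommGroup X] : AddCommGroup (Syn X) :=
  inferInstanceAs (AddCommGroup X)

private instance (X : Type u) [NormedAddCommGroup X] [NormedSpace ℝ X] : Module ℝ (Syn X) :=
  inferInstanceAs (Module ℝ X)

/-- every equivalent norm is the norm of an isomorphic normed space -/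
theorem exists_renorm {X : Type u} [NormedAddCommGroup X] [NormedSpace ℝ X] (N : X → ℝ)
    (hN : EquivNorm N) :
    ∃ (Y : Type u) (_ : NormedAddCommGroup Y) (_ : NormedSpace ℝ Y) (e : X ≃L[ℝ] Y),
      ∀ x, ‖e x‖ = N x := by
  obtain ⟨hadd, hsmul, c, C, hc, hCC, hequiv⟩ := hN
  have hN0 : N 0 = 0 := by
    have := hsmul 0 0
    simpa using this
  have hNneg : ∀ x, N (-x) = N x := by
    intro x
    have := hsmul (-1) x
    simpa using this
  have hpos : ∀ x : X, x ≠ 0 → N x ≠ 0 := by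
    intro x hx
    have h1 : 0 < c * ‖x‖ := mul_pos hc (norm_pos_iff.2 hx)
    exact (h1.trans_le (hequiv x).1).ne'
  let G : AddGroupNorm (Syn X) :=
    { toFun := fun x => N (x : X)
      map_zero' := hN0
      add_le' := fun x y => hadd x y
      neg' := fun x => hNneg x
      eq_zero_of_map_eq_zero' := by
        intro x hx
        by_contra hne
        exact hpos x hne hx }
  letI i1 : NormedAddCommGroup (Syn X) := G.toNormedAddCommGroup
  letI i2 : NormedSpace ℝ (Syn X) :=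
    { toModule := (inferInstanceAs (Module ℝ X) : Module ℝ (Syn X))
      norm_smul_le := fun r x => (hsmul r x).le }
  let e : X ≃ₗ[ℝ] Syn X :=
    { toFun := fun x => x
      invFun := fun x => x
      map_add' := fun _ _ => rfl
      map_smul' := fun _ _ => rfl
      left_inv := fun _ => rfl
      right_inv := fun _ => rfl }
  refine ⟨Syn X, i1, i2, e.toContinuousLinearEquivOfBounds C c⁻¹ ?_ ?_, fun x => rfl⟩
  · intro x
    exact (hequiv x).2
  · intro x
    have h := (hequiv (x : X)).1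
    rw [inv_mul_eq_div, le_div_iff₀ hc, mul_comm]
    exact h

end C2N
end

section

set_option autoImplicit false

/-!
Section 3 of paper 371: `W = {‖f‖ ≤ 1/(2R)}`, `Φ f = sup_x (f x - u x) ∈ [0, 1/2]` on `W`.
`Φ` is `c`-convex with `c = 1/(16K)`: `Φ f + Φ g ≥ f (x+h) - u (x+h) + g (x-h) - u (x-h) ≥
(f+g) x - 2 u x + (f-g) h - 2K‖h‖^2`, supremum over `x` and `h`.  `Φ` is a supremum of continuous
functions, so lower semicontinuous.  `conj_exists`, `conj_quad` give `ψ0 x = max_{W} (f x - Φ f)` with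
constant `1/(8c) = 2K`; `ψ0 0 = 0` (`Φ 0 = 0`, `Φ ≥ 0`), `ψ0 x ≥ ‖x‖/(2R) - 1/2` (choose `f` norming, `‖f‖ = 1/(2R)`).
`ψ x = ψ0 x + ψ0 (-x)`, `p x = F x - F (-x)`.
-/

namespace C2N

open Filter Topology Set

variable {X : Type*} [NormedAddCommGroup X] [NormedSpace ℝ X]

/-- a functional with `e h ≤ 2D + 2K‖h‖^2` has `‖e‖^2 ≤ 16KD`. -/
private lemma sq_norm_le_of_quad (e : X →L[ℝ] ℝ) (K D : ℝ) (hK : 0 < K)
    (h : ∀ x, e x ≤ 2 * D + 2 * K * ‖x‖ ^ 2) : ‖e‖ ^ 2 ≤ 16 * K * D := by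
  have hD : 0 ≤ D := by
    have := h 0
    simp at this
    linarith
  have h0 : 0 ≤ 16 * K * D := by positivity
  have hb : ‖e‖ ≤ Real.sqrt (16 * K * D) := by
    refine ContinuousLinearMap.opNorm_le_bound _ (Real.sqrt_nonneg _) (fun x => ?_)
    have hd : discrim (2 * K * ‖x‖ ^ 2) (-(e x)) (2 * D) ≤ 0 := by
      refine discrim_le_zero (fun s => ?_)
      have := h (s • x)
      rw [map_smul, smul_eq_mul, norm_smul, mul_pow, Real.norm_eq_abs, sq_abs] at this
      nlinarith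
    have h1 : (e x) ^ 2 ≤ 16 * K * D * ‖x‖ ^ 2 := by
      rw [discrim] at hd
      nlinarith
    rw [Real.norm_eq_abs]
    refine abs_le_of_sq_le_sq ?_ (by positivity)
    rw [mul_pow, Real.sq_sqrt h0]
    exact h1
  calc ‖e‖ ^ 2 ≤ (Real.sqrt (16 * K * D)) ^ 2 := by gcongr
    _ = 16 * K * D := Real.sq_sqrt h0

/-- Section 3: `W` = ball of radius `1/(2R)`, `Φ f = sup_x (f x - u x)`; `conj_exists`,
`conj_quad`; symmetrise. -/
theorem exists_psi (u : X → ℝ) (hu : ∀ x, 0 ≤ u x) (hu0 : u 0 = 0) (K R : ℝ) (hK : 0 < K)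
    (hR : 0 < R) (h2 : ∀ x h, u (x + h) + u (x - h) - 2 * u x ≤ 2 * K * ‖h‖ ^ 2)
    (hg : ∀ x, (‖x‖ - R) / (2 * R) ≤ u x) :
    ∃ (ψ : X → ℝ) (p : X → X →L[ℝ] ℝ),
      (∀ x y, 0 ≤ ψ (x + y) - ψ x - p x y) ∧
      (∀ x y, ψ (x + y) - ψ x - p x y ≤ 4 * K * ‖y‖ ^ 2) ∧
      (∀ x, ψ (-x) = ψ x) ∧ ψ 0 = 0 ∧ ∀ x, ‖x‖ / R - 1 ≤ ψ x := by
  set r : ℝ := 1 / (2 * R) with hr
  have hr0 : 0 < r := by positivity
  have hrR : r * R = 1 / 2 := by rw [hr]; field_simp
  have hg' : ∀ x, r * ‖x‖ - 1 / 2 ≤ u x := by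
    intro x
    have := hg x
    have e : (‖x‖ - R) / (2 * R) = r * ‖x‖ - r * R := by rw [hr]; field_simp
    rw [e, hrR] at this
    exact this
  set W : Set (X →L[ℝ] ℝ) := Metric.closedBall 0 r with hW
  set Φ : (X →L[ℝ] ℝ) → ℝ := fun f => ⨆ x, (f x - u x) with hΦ
  have memW : ∀ f : X →L[ℝ] ℝ, f ∈ W ↔ ‖f‖ ≤ r := by
    intro f; simp [hW]
  have hle : ∀ f ∈ W, ∀ x, f x ≤ r * ‖x‖ := by
    intro f hf x
    have h1 : f x ≤ ‖f‖ * ‖x‖ := (le_abs_self _).trans (f.le_opNorm x)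
    exact h1.trans (by gcongr; exact (memW f).1 hf)
  have hpt : ∀ f ∈ W, ∀ x, f x - u x ≤ 1 / 2 := by
    intro f hf x
    have := hle f hf x
    have := hg' x
    linarith
  have hbd : ∀ f ∈ W, BddAbove (range fun x => f x - u x) := by
    intro f hf
    exact ⟨1 / 2, by rintro _ ⟨x, rfl⟩; exact hpt f hf x⟩
  have hleΦ : ∀ f ∈ W, ∀ x, f x - u x ≤ Φ f := fun f hf x => le_ciSup (hbd f hf) x
  have hΦle : ∀ f ∈ W, Φ f ≤ 1 / 2 := fun f hf => ciSup_le (hpt f hf)
  have hΦ0 : ∀ f ∈ W, 0 ≤ Φ f := by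
    intro f hf
    have := hleΦ f hf 0
    simpa [hu0] using this
  have hzero : (0 : X →L[ℝ] ℝ) ∈ W := by rw [memW]; simpa using hr0.le
  have hΦz : Φ 0 = 0 := by
    refine le_antisymm (ciSup_le (fun x => ?_)) (hΦ0 0 hzero)
    have := hu x
    simp
    exact this
  have hc : (0 : ℝ) < 1 / (16 * K) := by positivity
  have hWc : Convex ℝ W := convex_closedBall _ _
  have hWcl : IsClosed W := Metric.isClosed_closedBall
  have hlsc : LowerSemicontinuousOn Φ W := by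
    refine lowerSemicontinuousOn_ciSup hbd (fun x => ?_)
    refine ContinuousOn.lowerSemicontinuousOn (Continuous.continuousOn ?_)
    exact ((ContinuousLinearMap.apply ℝ ℝ x).continuous).sub continuous_const
  have hconv : ∀ f ∈ W, ∀ g ∈ W, Φ ((1 / 2 : ℝ) • (f + g)) ≤
      (Φ f + Φ g) / 2 - 1 / (16 * K) * ‖f - g‖ ^ 2 := by
    intro f hf g hg1
    have key : ∀ h : X, Φ ((1 / 2 : ℝ) • (f + g)) ≤
        (Φ f + Φ g) / 2 - (f - g) h / 2 + K * ‖h‖ ^ 2 := by
      intro h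
      refine ciSup_le (fun x => ?_)
      have e1 := hleΦ f hf (x + h)
      have e2 := hleΦ g hg1 (x - h)
      have e3 := h2 x h
      simp only [smul_apply, add_apply, smul_eq_mul,
        sub_apply]
      rw [map_add] at e1
      rw [map_sub] at e2
      linarith
    have hq := sq_norm_le_of_quad (f - g) K ((Φ f + Φ g) / 2 - Φ ((1 / 2 : ℝ) • (f + g))) hK
      (fun x => by have := key x; linarith)
    have : 1 / (16 * K) * ‖f - g‖ ^ 2 ≤ (Φ f + Φ g) / 2 - Φ ((1 / 2 : ℝ) • (f + g)) := by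
      rw [one_div, inv_mul_le_iff₀ (by positivity)]
      exact hq
    linarith
  have hbdd : ∀ x : X, ∃ M : ℝ, ∀ f ∈ W, f x - Φ f ≤ M := by
    intro x
    refine ⟨r * ‖x‖, fun f hf => ?_⟩
    have := hle f hf x
    have := hΦ0 f hf
    linarith
  obtain ⟨F, hFW, hF⟩ := conj_exists hc hWc hWcl ⟨0, hzero⟩ hlsc hconv hbdd
  have hq := conj_quad hc hFW hF
  have hcc : 1 / (8 * (1 / (16 * K))) = 2 * K := by field_simp; norm_num
  rw [hcc] at hq
  set ψ0 : X → ℝ := fun x => F x x - Φ (F x) with hψ0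
  have hq' : ∀ x y, 0 ≤ ψ0 (x + y) - ψ0 x - F x y ∧ ψ0 (x + y) - ψ0 x - F x y ≤ 2 * K * ‖y‖ ^ 2 :=
    fun x y => hq x y
  have hψz : ψ0 0 = 0 := by
    refine le_antisymm ?_ ?_
    · have := hΦ0 (F 0) (hFW 0)
      simp only [hψ0, map_zero]
      linarith
    · have := hF 0 0 hzero
      rw [hΦz] at this
      have h3 : 0 ≤ 2 * (1 / (16 * K)) * ‖(0 : X →L[ℝ] ℝ) - F 0‖ ^ 2 := by positivity
      simp only [zero_apply] at this
      simp only [hψ0]
      linarith
  have hψg : ∀ x, r * ‖x‖ - 1 / 2 ≤ ψ0 x := by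
    intro x
    obtain ⟨g, hg1, hg2⟩ := exists_dual_vector'' ℝ x
    have hmem : r • g ∈ W := by
      rw [memW, norm_smul, Real.norm_eq_abs, abs_of_pos hr0]
      calc r * ‖g‖ ≤ r * 1 := by gcongr
        _ = r := mul_one r
    have h4 := hF x (r • g) hmem
    have h5 := hΦle _ hmem
    have h6 : (r • g) x = r * ‖x‖ := by
      rw [smul_apply, hg2]
      simp
    have h7 : 0 ≤ 2 * (1 / (16 * K)) * ‖r • g - F x‖ ^ 2 := by positivity
    simp only [hψ0]
    rw [h6] at h4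
    linarith
  refine ⟨fun x => ψ0 x + ψ0 (-x), fun x => F x - F (-x), ?_, ?_, ?_, ?_, ?_⟩
  · intro x y
    have h8 := (hq' x y).1
    have h9 := (hq' (-x) (-y)).1
    have e : -x + -y = -(x + y) := by abel
    rw [e, map_neg] at h9
    simp only [sub_apply]
    linarith
  · intro x y
    have h8 := (hq' x y).2
    have h9 := (hq' (-x) (-y)).2
    have e : -x + -y = -(x + y) := by abel
    rw [e, map_neg, norm_neg] at h9
    simp only [sub_apply]
    linarith
  · intro x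
    simp only [neg_neg]
    ring
  · simp [hψz]
  · intro x
    have h8 := hψg x
    have h9 := hψg (-x)
    rw [norm_neg] at h9
    have e : ‖x‖ / R - 1 = 2 * (r * ‖x‖ - 1 / 2) := by rw [hr]; field_simp
    rw [e]
    linarith

end C2N
end

section

set_option autoImplicit false

namespace C2N

open Filter Topology Set

variable {X : Type*} [NormedAddCommGroup X] [NormedSpace ℝ X]

/-- Section 3, the gauge `N x = inf {t > 0 : ψ (x/t) ≤ 1}` is an equivalent norm; on the unit sphere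
`N x = 1` it satisfies a quadratic estimate. -/
theorem gauge_sphere (ψ : X → ℝ) (p : X → X →L[ℝ] ℝ) (K R : ℝ) (hK : 0 < K) (hR : 0 < R)
    (h1 : ∀ x y, 0 ≤ ψ (x + y) - ψ x - p x y)
    (h2 : ∀ x y, ψ (x + y) - ψ x - p x y ≤ 4 * K * ‖y‖ ^ 2)
    (he : ∀ x, ψ (-x) = ψ x) (h0 : ψ 0 = 0) (hg : ∀ x, ‖x‖ / R - 1 ≤ ψ x) :
    ∃ N : X → ℝ, EquivNorm N ∧ ∃ Cq : ℝ, 0 < Cq ∧ ∀ x : X, N x = 1 →
      ∃ q : X →L[ℝ] ℝ, q x = 1 ∧ (∀ y, q y ≤ N y) ∧ ∀ y, N (x + y) ≤ 1 + q y + Cq * ‖y‖ ^ 2 := by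
  have hconv : ConvexOn ℝ univ ψ := quad_convex h1
  have hcont : Continuous ψ := continuous_iff_continuousAt.mpr fun x =>
    ((quad_fderiv (by positivity) h1 h2).1 x).continuousAt
  have hup : ∀ y, ψ y ≤ 4 * K * ‖y‖ ^ 2 := by
    intro y
    have a := h2 0 y
    have b := h2 0 (-y)
    simp only [zero_add, h0, sub_zero, map_neg, he, norm_neg] at a b
    linarith
  set s : Set X := {x | ψ x ≤ 1} with hsdef
  have hsc : Convex ℝ s := by
    have := hconv.convex_le 1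
    simpa [hsdef] using this
  have hscl : IsClosed s := isClosed_le hcont continuous_const
  have hs0 : s ∈ 𝓝 (0 : X) := by
    have : {x | ψ x < 1} ∈ 𝓝 (0 : X) :=
      (isOpen_lt hcont continuous_const).mem_nhds (by simp [h0])
    exact mem_of_superset this (fun x hx => by
      have hx' : ψ x < 1 := hx
      exact hx'.le)
  have hsa : Absorbent ℝ s := absorbent_nhds_zero hs0
  have hssymm : ∀ x ∈ s, -x ∈ s := by
    intro x hx
    simp only [hsdef, mem_ofPred_eq, he] at hx ⊢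
    exact hx
  have hbal : Balanced ℝ s := by
    rw [balanced_iff_smul_mem]
    intro a ha x hx
    have hz : (0 : X) ∈ s := mem_of_mem_nhds hs0
    rw [Real.norm_eq_abs] at ha
    rcases le_total 0 a with h | h
    · rw [abs_of_nonneg h] at ha
      have := hsc.add_smul_mem (x := 0) (y := x) hz (by simpa using hx) ⟨h, ha⟩
      simpa using this
    · rw [abs_of_nonpos h] at ha
      have := hsc.add_smul_mem (x := 0) (y := -x) hz (by simpa using hssymm x hx)
        (t := -a) ⟨by linarith, ha⟩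
      simpa using this
  set N : X → ℝ := gauge s with hNdef
  have hNadd : ∀ x y, N (x + y) ≤ N x + N y := gauge_add_le hsc hsa
  have hNsmul : ∀ (r : ℝ) (x : X), N (r • x) = |r| * N x := fun r x => by
    rw [hNdef, gauge_smul hbal, Real.norm_eq_abs]
  have hA : (0 : ℝ) < 4 * K + 1 := by positivity
  have hNup : ∀ x, N x ≤ (4 * K + 1) * ‖x‖ := by
    intro x
    have hb : Metric.ball (0 : X) (1 / (4 * K + 1)) ⊆ s := by
      intro z hz
      rw [mem_ball_zero_iff, lt_div_iff₀ hA] at hz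
      have h3 := hup z
      have h4 : 4 * K * ‖z‖ ^ 2 ≤ (‖z‖ * (4 * K + 1)) ^ 2 := by
        have h5 : 0 ≤ ‖z‖ ^ 2 := sq_nonneg _
        have h6 : 4 * K ≤ (4 * K + 1) ^ 2 := by nlinarith
        calc 4 * K * ‖z‖ ^ 2 ≤ (4 * K + 1) ^ 2 * ‖z‖ ^ 2 := by gcongr
          _ = (‖z‖ * (4 * K + 1)) ^ 2 := by ring
      have h5 : (‖z‖ * (4 * K + 1)) ^ 2 ≤ 1 := by
        have : 0 ≤ ‖z‖ * (4 * K + 1) := by positivity
        nlinarith
      exact h3.trans (h4.trans h5)
    have := mul_gauge_le_norm (x := x) hb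
    rw [one_div, inv_mul_le_iff₀ hA] at this
    exact this
  have hsub : s ⊆ Metric.closedBall (0 : X) (2 * R) := by
    intro z hz
    rw [mem_closedBall_zero_iff]
    have h3 := (hg z).trans hz
    have h4 : ‖z‖ / R ≤ 2 := by linarith
    rwa [div_le_iff₀ hR] at h4
  have hNlow : ∀ x, ‖x‖ / (2 * R) ≤ N x := fun x =>
    le_gauge_of_subset_closedBall hsa (by positivity) hsub
  have hN0 : ∀ x, 0 ≤ N x := fun x => gauge_nonneg x
  have hNneg : ∀ x, N (-x) = N x := fun x => gauge_neg hssymm x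
  refine ⟨N, ⟨hNadd, hNsmul, 1 / (2 * R), 4 * K + 1, by positivity, hA, fun x => ⟨?_, hNup x⟩⟩, ?_⟩
  · have := hNlow x
    rw [one_div, inv_mul_eq_div]
    exact this
  -- constants
  set A : ℝ := 4 * K + 1 with hAdef
  set E : ℝ := 2 * (1 + 2 * R * (A + 1)) with hEdef
  have hE : 0 < E := by positivity
  set C1 : ℝ := 8 * K * E ^ 2 with hC1def
  have hC1 : 0 < C1 := by positivity
  set η : ℝ := 1 / (C1 + 2 * (A + 1)) with hηdef
  have hη : 0 < η := by positivity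
  refine ⟨C1 + 2 * A / η, by positivity, fun x hx => ?_⟩
  -- the point x
  have hψx : ψ x = 1 := by
    have hxs : x ∈ closure s := (gauge_le_one_iff_mem_closure hsc hs0).mp hx.le
    rw [hscl.closure_eq] at hxs
    refine le_antisymm hxs (not_lt.mp fun hlt => ?_)
    have hint : x ∈ interior s := by
      refine mem_interior.mpr ⟨{z | ψ z < 1}, fun z hz => ?_,
        isOpen_lt hcont continuous_const, hlt⟩
      have hz' : ψ z < 1 := hz
      exact hz'.le
    have := interior_subset_gauge_lt_one s hint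
    simp only [mem_ofPred_eq] at this
    linarith
  have hxn : ‖x‖ ≤ 2 * R := by
    have := hNlow x
    rw [hx, div_le_iff₀ (by positivity)] at this
    linarith
  set c0 : ℝ := p x x with hc0def
  have hc0 : 1 ≤ c0 := by
    have h3 := h1 x (-x)
    simp only [add_neg_cancel, h0, map_neg, hψx] at h3
    linarith
  have hc0' : c0 ≠ 0 := by positivity
  have hqN : ∀ y, c0⁻¹ * p x y ≤ N y := by
    intro y
    refine le_of_forall_gt fun t ht => ?_
    obtain ⟨b, hb0, hbt, hyb⟩ := exists_lt_of_gauge_lt hsa ht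
    obtain ⟨z, hz, rfl⟩ := hyb
    have h3 := h1 x (z - x)
    rw [add_sub_cancel, hψx, map_sub] at h3
    have hz' : ψ z ≤ 1 := hz
    have h4 : p x z ≤ c0 := by linarith
    simp only [map_smul, smul_eq_mul]
    calc c0⁻¹ * (b * p x z) ≤ c0⁻¹ * (b * c0) := by gcongr
      _ = b := by field_simp
      _ < t := hbt
  refine ⟨c0⁻¹ • p x, ?_, hqN, fun y => ?_⟩
  · simp only [smul_apply, smul_eq_mul]
    exact inv_mul_cancel₀ hc0'
  have hqabs : |c0⁻¹ * p x y| ≤ A * ‖y‖ := by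
    rw [abs_le]
    constructor
    · have h3 := hqN (-y)
      rw [hNneg, map_neg] at h3
      have h4 := hNup y
      linarith
    · exact (hqN y).trans (hNup y)
  simp only [smul_apply, smul_eq_mul]
  set qy : ℝ := c0⁻¹ * p x y with hqy
  have hpy : p x y = c0 * qy := by rw [hqy]; field_simp
  rcases le_or_gt ‖y‖ η with hy | hy
  · -- small y
    have hden : 0 < C1 + 2 * (A + 1) := by positivity
    have hy1 : ‖y‖ * (C1 + 2 * (A + 1)) ≤ 1 := by
      rw [hηdef, le_div_iff₀ hden] at hy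
      exact hy
    have hny := norm_nonneg y
    have hCy : C1 * ‖y‖ ≤ 1 := by nlinarith [mul_nonneg hny hA.le]
    have hAy : (A + 1) * ‖y‖ ≤ 1 / 2 := by nlinarith [mul_nonneg hny hC1.le]
    set σ : ℝ := qy + C1 * ‖y‖ ^ 2 with hσ
    have hσabs : |σ| ≤ (A + 1) * ‖y‖ := by
      have h3 : |σ| ≤ |qy| + |C1 * ‖y‖ ^ 2| := abs_add_le _ _
      have h4 : |C1 * ‖y‖ ^ 2| = C1 * ‖y‖ * ‖y‖ := by
        rw [abs_of_nonneg (by positivity)]; ring
      have h5 : C1 * ‖y‖ * ‖y‖ ≤ 1 * ‖y‖ := by gcongr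
      linarith
    have hσ1 : |σ| ≤ 1 / 2 := hσabs.trans hAy
    have h1σ : 1 / 2 ≤ 1 + σ := by linarith [(abs_le.mp hσ1).1]
    have h1σ' : 1 + σ ≤ 2 := by linarith [(abs_le.mp hσ1).2]
    have hpos : 0 < 1 + σ := by linarith
    set y' : X := (1 + σ)⁻¹ • (y - σ • x) with hy'
    have hxy : x + y' = (1 + σ)⁻¹ • (x + y) := by
      rw [hy', smul_sub, smul_smul, smul_add]
      have : x = (1 + σ)⁻¹ • x + ((1 + σ)⁻¹ * σ) • x := by
        rw [← add_smul, ← mul_one_add]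
        rw [inv_mul_cancel₀ hpos.ne', one_smul]
      nth_rewrite 1 [this]
      abel
    have hy'n : ‖y'‖ ≤ E * ‖y‖ := by
      rw [hy', norm_smul, norm_inv, Real.norm_eq_abs, abs_of_pos hpos]
      have h3 : (1 + σ)⁻¹ ≤ 2 := by
        rw [inv_le_comm₀ hpos (by norm_num)]
        linarith
      have h4 : ‖y - σ • x‖ ≤ ‖y‖ + |σ| * ‖x‖ := by
        refine (norm_sub_le _ _).trans ?_
        rw [norm_smul, Real.norm_eq_abs]
      have h5 : |σ| * ‖x‖ ≤ (A + 1) * ‖y‖ * (2 * R) := by gcongr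
      calc (1 + σ)⁻¹ * ‖y - σ • x‖ ≤ 2 * (‖y‖ + (A + 1) * ‖y‖ * (2 * R)) := by
            gcongr
            linarith
        _ = E * ‖y‖ := by rw [hEdef]; ring
    have hψ : ψ (x + y') ≤ 1 := by
      have h3 := h2 x y'
      have h4 : p x y' = -((1 + σ)⁻¹ * (c0 * (C1 * ‖y‖ ^ 2))) := by
        rw [hy', map_smul, map_sub, map_smul, smul_eq_mul, smul_eq_mul, ← hc0def, hpy, hσ]
        ring
      have h5 : 4 * K * ‖y'‖ ^ 2 ≤ 4 * K * (E * ‖y‖) ^ 2 := by gcongr
      have h6 : 4 * K * (E * ‖y‖) ^ 2 ≤ (1 + σ)⁻¹ * (c0 * (C1 * ‖y‖ ^ 2)) := by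
        have h7 : (1 / 2 : ℝ) ≤ (1 + σ)⁻¹ := by
          rw [le_inv_comm₀ (by norm_num) hpos]
          linarith
        calc 4 * K * (E * ‖y‖) ^ 2 = (1 / 2) * (1 * (C1 * ‖y‖ ^ 2)) := by rw [hC1def]; ring
          _ ≤ (1 + σ)⁻¹ * (c0 * (C1 * ‖y‖ ^ 2)) := by gcongr
      linarith
    have hN1 : N (x + y') ≤ 1 := gauge_le_one_of_mem hψ
    rw [hxy, hNsmul, abs_of_pos (inv_pos.mpr hpos), inv_mul_le_iff₀ hpos, mul_one] at hN1
    have h8 : 0 ≤ 2 * A / η * ‖y‖ ^ 2 := by positivity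
    calc N (x + y) ≤ 1 + σ := hN1
      _ ≤ 1 + qy + (C1 + 2 * A / η) * ‖y‖ ^ 2 := by rw [hσ]; linarith
  · -- large y
    have h3 := hNadd x y
    rw [hx] at h3
    have h4 := hNup y
    have h5 := (abs_le.mp hqabs).1
    have h6 : 2 * A * ‖y‖ ≤ 2 * A / η * ‖y‖ ^ 2 := by
      have h7 : 2 * A / η * ‖y‖ ^ 2 = 2 * A * ‖y‖ * (‖y‖ / η) := by ring
      rw [h7]
      have h8 : 1 ≤ ‖y‖ / η := by rw [le_div_iff₀ hη]; linarith
      have h9 : 0 ≤ 2 * A * ‖y‖ := by positivity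
      nlinarith
    have h7 : 0 ≤ C1 * ‖y‖ ^ 2 := by positivity
    linarith

end C2N
end

section

set_option autoImplicit false

namespace C2N

open Filter Topology Set

universe u

variable {X : Type*} [NormedAddCommGroup X] [NormedSpace ℝ X]

/-- Section 3, summary: a complete space with a `C^2` bump and without `c_0` is isomorphic to a
space with `(2S)`. -/
theorem exists_twoS_model {X : Type u} [NormedAddCommGroup X] [NormedSpace ℝ X] 
    (β : X → ℝ) (h01 : ∀ x, 0 ≤ β x ∧ β x ≤ 1) (h0 : β 0 = 1)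
    (R : ℝ) (hR : 0 < R) (hβ : ∀ x, R ≤ ‖x‖ → β x = 0) (K : ℝ) (hK : 0 < K)
    (h2 : ∀ x h, |β (x + h) + β (x - h) - 2 * β x| ≤ K * ‖h‖ ^ 2) :
    ∃ (Y : Type u) (_ : NormedAddCommGroup Y) (_ : NormedSpace ℝ Y) (_ : X ≃L[ℝ] Y)
      (C : ℝ) (P : Y → Y →L[ℝ] ℝ), TwoS C P := by
  obtain ⟨u, hu0, hu1, hu2, hu3⟩ := exists_growth β h01 h0 R hR hβ K hK h2
  obtain ⟨ψ, p, h1, h2', he, hz, hg⟩ := exists_psi u hu0 hu1 K R hK hR hu2 hu3
  obtain ⟨N, hN, Cq, hCq, hsph⟩ := gauge_sphere ψ p K R hK hR h1 h2' he hz hg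
  obtain ⟨C, P, hC, hP1, hP2⟩ := twoS_of_sphere N hN Cq hCq hsph
  obtain ⟨Y, i1, i2, e, heN⟩ := exists_renorm N hN
  refine ⟨Y, i1, i2, e, C, fun y => (P (e.symm y)).comp (e.symm : Y →L[ℝ] X), hC, ?_, ?_⟩
  · intro x y
    have h := hP1 (e.symm x) (e.symm y)
    rw [← map_add, ← heN, ← heN] at h
    simpa using h
  · intro x y
    have h := hP2 (e.symm x) (e.symm y)
    rw [← map_add, ← heN, ← heN, ← heN] at h
    simpa using h

end C2N
end

section

set_option autoImplicit false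

/-!
4.1 of paper 371.  The image `K` of the closed unit ball of the dual under `f ↦ (M f, f x) ∈ ℝ × ℝ` is
convex; if `(Φ M, 0)` is not in its closure separate (`geometric_hahn_banach_closed_point`, in
`ℝ × ℝ`): there are `a, b` with `a Φ M > sup_{‖f‖≤1} (a M f + b f x) = ‖a M + b x‖ ≥ Φ (a M + b x) = a Φ M`.
-/

namespace C2N

open Filter Topology Set

variable {X : Type*} [NormedAddCommGroup X] [NormedSpace ℝ X]

/-- approximate Helly/Goldstine for two functionals: for `Φ` in the third dual vanishing on `X`,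
`M` in the bidual and `x ∈ X` there is `f` in the unit ball of the dual with `M f` close to `Φ M`
and `f x` close to `0`. Separation in `ℝ × ℝ`. -/
theorem helly_two (Φ : ((X →L[ℝ] ℝ) →L[ℝ] ℝ) →L[ℝ] ℝ) (hΦ : ∀ M, |Φ M| ≤ ‖M‖)
    (hX : ∀ x : X, Φ (NormedSpace.inclusionInDoubleDual ℝ X x) = 0)
    (M : (X →L[ℝ] ℝ) →L[ℝ] ℝ) (x : X) (e : ℝ) (he : 0 < e) :
    ∃ f : X →L[ℝ] ℝ, ‖f‖ ≤ 1 ∧ |M f - Φ M| ≤ e ∧ |f x| ≤ e := by
  by_contra hcon
  push Not at hcon
  -- the evaluation map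
  let J : (X →L[ℝ] ℝ) →L[ℝ] ℝ := NormedSpace.inclusionInDoubleDual ℝ X x
  have hJ : ∀ f : X →L[ℝ] ℝ, J f = f x := fun f => rfl
  let L : (X →L[ℝ] ℝ) →ₗ[ℝ] ℝ × ℝ :=
    LinearMap.prod (M : (X →L[ℝ] ℝ) →ₗ[ℝ] ℝ) (J : (X →L[ℝ] ℝ) →ₗ[ℝ] ℝ)
  have hL : ∀ f : X →L[ℝ] ℝ, L f = (M f, f x) := fun f => rfl
  let K : Set (ℝ × ℝ) := L '' Metric.closedBall (0 : X →L[ℝ] ℝ) 1
  have hKc : Convex ℝ K := (convex_closedBall _ _).linear_image L
  have hnot : (Φ M, (0 : ℝ)) ∉ closure K := by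
    intro hmem
    rw [Metric.mem_closure_iff] at hmem
    obtain ⟨p, hpK, hp⟩ := hmem e he
    obtain ⟨f, hf, rfl⟩ := hpK
    rw [mem_closedBall_zero_iff] at hf
    rw [hL, Prod.dist_eq, max_lt_iff, Real.dist_eq, Real.dist_eq] at hp
    have h1 : |M f - Φ M| ≤ e := by rw [abs_sub_comm]; exact hp.1.le
    have h2 : |f x| ≤ e := by
      have := hp.2.le
      rwa [zero_sub, abs_neg] at this
    exact absurd h2 (not_le.mpr (hcon f hf h1))
  obtain ⟨g, u, hg1, hg2⟩ := geometric_hahn_banach_closed_point hKc.closure isClosed_closure hnot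
  set a : ℝ := g (1, 0) with ha
  set b : ℝ := g (0, 1) with hb
  have hg : ∀ s t : ℝ, g (s, t) = a * s + b * t := by
    intro s t
    have h1 : ((s, t) : ℝ × ℝ) = s • (1, 0) + t • (0, 1) := by simp
    rw [h1, map_add, map_smul, map_smul, smul_eq_mul, smul_eq_mul]
    ring
  -- the bidual element
  let N : (X →L[ℝ] ℝ) →L[ℝ] ℝ := a • M + b • J
  have hN : ∀ f : X →L[ℝ] ℝ, N f = a * M f + b * f x := fun f => rfl
  have hball : ∀ f : X →L[ℝ] ℝ, ‖f‖ ≤ 1 → N f < u := by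
    intro f hf
    have h1 := hg1 (L f) (subset_closure ⟨f, by rwa [mem_closedBall_zero_iff], rfl⟩)
    rw [hL, hg] at h1
    rw [hN]
    exact h1
  have hu : 0 < u := by
    have := hball 0 (by simp)
    simpa using this
  have hnorm : ‖N‖ ≤ u := by
    refine ContinuousLinearMap.opNorm_le_bound _ hu.le fun f => ?_
    rcases eq_or_ne f 0 with rfl | hf
    · simp
    · have hpos : 0 < ‖f‖ := norm_pos_iff.mpr hf
      have hn1 : ‖(‖f‖⁻¹) • f‖ ≤ 1 := by
        rw [norm_smul, norm_inv, norm_norm, inv_mul_cancel₀ hpos.ne']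
      have h1 := hball ((‖f‖⁻¹) • f) hn1
      have h2 := hball (-((‖f‖⁻¹) • f)) (by rwa [norm_neg])
      rw [map_neg] at h2
      rw [map_smul, smul_eq_mul] at h1 h2
      rw [Real.norm_eq_abs, abs_le]
      have h3 : N f = ‖f‖ * (‖f‖⁻¹ * N f) := by
        rw [← mul_assoc, mul_inv_cancel₀ hpos.ne', one_mul]
      constructor
      · rw [h3]
        nlinarith
      · rw [h3]
        nlinarith
  have hΦN : Φ N = a * Φ M := by
    have : Φ N = a * Φ M + b * Φ J := by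
      change Φ (a • M + b • J) = _
      rw [map_add, map_smul, map_smul, smul_eq_mul, smul_eq_mul]
    rw [this, hX x, mul_zero, add_zero]
  have h4 : Φ N ≤ u := (le_abs_self _).trans ((hΦ N).trans hnorm)
  rw [hg, mul_zero, add_zero, ← hΦN] at hg2
  linarith

end C2N
end

section

set_option autoImplicit false

/-!
4.1 of paper 371.  The image of `X` in the bidual is closed (complete); if `Λ` is not in it there is
`Φ` in the third dual, vanishing on `X`, `Φ Λ ≠ 0`; normalise `‖Φ‖ = 1`.  For small `e` take `M`,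
`‖M‖ ≤ 1`, `Φ M ≥ 1-e`; `f1` (by `helly_two` with `x = 0`, or norming) with `M f1 ≥ 1-2e`, `‖f1‖ ≤ 1`; so `‖f1‖ ≥ 1-2e`
and there is `x`, `‖x‖ ≤ 1`, `f1 x ≥ 1-3e`; `f2` by `helly_two` with `M f2 ≥ 1-2e`, `|f2 x| ≤ e`.
`‖f1-f2‖ ≥ 1-4e`, `‖(f1+f2)/2‖ ≥ 1-2e`; `TwoS.dual_convex` gives `(1-4e)^2/(4C) ≤ 1 - (1-2e)^2`:
contradiction for `e` small (`e = 1/(64 C)`, say).
-/

namespace C2N

open Filter Topology Set

variable {X : Type*} [NormedAddCommGroup X] [NormedSpace ℝ X]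

/-- a normalised functional vanishing on a closed subspace -/
private theorem aux_functional {E : Type*} [NormedAddCommGroup E] [NormedSpace ℝ E]
    (J : X →L[ℝ] E) (hclosed : IsClosed (Set.range J)) (Λ : E) (hΛ : Λ ∉ Set.range J) :
    ∃ Φ : E →L[ℝ] ℝ, (∀ M, |Φ M| ≤ ‖M‖) ∧ (∀ x, Φ (J x) = 0) ∧
      ∀ e : ℝ, 0 < e → ∃ M : E, ‖M‖ ≤ 1 ∧ 1 - e ≤ Φ M := by
  have hconv : Convex ℝ (Set.range J) := by
    rintro _ ⟨x, rfl⟩ _ ⟨y, rfl⟩ a b _ _ _
    exact ⟨a • x + b • y, by simp⟩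
  obtain ⟨F, u, hF1, hF2⟩ := geometric_hahn_banach_closed_point hconv hclosed hΛ
  have hu : 0 < u := by
    have := hF1 (J 0) ⟨0, rfl⟩
    simpa using this
  have hFX : ∀ x : X, F (J x) = 0 := by
    intro x
    by_contra hne
    have h1 := hF1 (J ((u / F (J x)) • x)) ⟨_, rfl⟩
    rw [map_smul, map_smul, smul_eq_mul, div_mul_cancel₀ _ hne] at h1
    exact lt_irrefl _ h1
  have hFne : F ≠ 0 := by
    rintro rfl
    simp only [_root_.zero_apply] at hF2
    linarith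
  have hFn : 0 < ‖F‖ := norm_pos_iff.2 hFne
  set Φ : E →L[ℝ] ℝ := (‖F‖)⁻¹ • F with hΦdef
  have hΦn : ‖Φ‖ = 1 := by
    rw [hΦdef, norm_smul, norm_inv, norm_norm, inv_mul_cancel₀ hFn.ne']
  refine ⟨Φ, fun M => ?_, fun x => ?_, fun e he0 => ?_⟩
  · have := Φ.le_opNorm M
    rwa [hΦn, one_mul, Real.norm_eq_abs] at this
  · rw [hΦdef, _root_.smul_apply, hFX, smul_zero]
  · obtain ⟨M, hM1, hM2⟩ := Φ.exists_lt_apply_of_lt_opNorm (r := 1 - e) (by rw [hΦn]; linarith)
    rw [Real.norm_eq_abs] at hM2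
    rcases le_total 0 (Φ M) with hs | hs
    · exact ⟨M, hM1.le, by rw [abs_of_nonneg hs] at hM2; exact hM2.le⟩
    · refine ⟨-M, by rw [norm_neg]; exact hM1.le, ?_⟩
      rw [abs_of_nonpos hs] at hM2
      rw [map_neg]
      exact hM2.le

/-- 4.1: a complete space with `(2S)` is reflexive. -/
theorem reflexive_of_twoS [CompleteSpace X] {C : ℝ} {P : X → X →L[ℝ] ℝ} (h : TwoS C P)
    (Λ : (X →L[ℝ] ℝ) →L[ℝ] ℝ) : ∃ x : X, ∀ f : X →L[ℝ] ℝ, Λ f = f x := by
  have hC := h.one_le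
  have hC0 : (0 : ℝ) < C := by linarith
  by_contra hcon
  set J := NormedSpace.inclusionInDoubleDual ℝ X with hJ
  have hJiso : Isometry J := (NormedSpace.inclusionInDoubleDualLi ℝ (E := X)).isometry
  have hclosed : IsClosed (Set.range J) := hJiso.isClosedEmbedding.isClosed_range
  have hΛ : Λ ∉ Set.range J := by
    rintro ⟨x, hx⟩
    exact hcon ⟨x, fun f => by rw [← hx]; rfl⟩
  obtain ⟨Φ, hΦ1, hΦX, hΦM⟩ := aux_functional J hclosed Λ hΛ
  set e : ℝ := 1 / (64 * C) with he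
  have he0 : 0 < e := by positivity
  have he1 : e ≤ 1 / 64 := by
    rw [he]
    exact one_div_le_one_div_of_le (by norm_num) (by linarith)
  -- `M` almost norming `Φ`
  obtain ⟨M, hM1, hM2⟩ := hΦM e he0
  obtain ⟨f1, hf1, hf1M, _⟩ := helly_two Φ hΦ1 hΦX M 0 e he0
  have hMf1 : 1 - 2 * e ≤ M f1 := by
    have := (abs_le.1 hf1M).1
    linarith
  have hMle : ∀ f : X →L[ℝ] ℝ, M f ≤ ‖f‖ := by
    intro f
    have h1 := M.le_opNorm f
    rw [Real.norm_eq_abs] at h1
    have h2 : ‖M‖ * ‖f‖ ≤ 1 * ‖f‖ := mul_le_mul_of_nonneg_right hM1 (norm_nonneg f)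
    have h3 := le_abs_self (M f)
    linarith
  have hf1n : 1 - 3 * e < ‖f1‖ := by
    have := hMle f1
    linarith
  obtain ⟨x, hx1, hx2⟩ : ∃ x : X, ‖x‖ ≤ 1 ∧ 1 - 3 * e ≤ f1 x := by
    obtain ⟨x, hx1, hx2⟩ := f1.exists_lt_apply_of_lt_opNorm (r := 1 - 3 * e) hf1n
    rw [Real.norm_eq_abs] at hx2
    rcases le_total 0 (f1 x) with hs | hs
    · exact ⟨x, hx1.le, by rw [abs_of_nonneg hs] at hx2; exact hx2.le⟩
    · refine ⟨-x, by rw [norm_neg]; exact hx1.le, ?_⟩
      rw [abs_of_nonpos hs] at hx2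
      rw [map_neg]
      exact hx2.le
  obtain ⟨f2, hf2, hf2M, hf2x⟩ := helly_two Φ hΦ1 hΦX M x e he0
  have hMf2 : 1 - 2 * e ≤ M f2 := by
    have := (abs_le.1 hf2M).1
    linarith
  have hdiff : 1 - 4 * e ≤ ‖f1 - f2‖ := by
    have h1 := (f1 - f2).le_opNorm x
    have h2 : ‖f1 - f2‖ * ‖x‖ ≤ ‖f1 - f2‖ * 1 := mul_le_mul_of_nonneg_left hx1 (norm_nonneg _)
    rw [Real.norm_eq_abs] at h1
    have h3 := le_abs_self ((f1 - f2) x)
    rw [ContinuousLinearMap.sub_apply] at h1 h3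
    have h4 := (abs_le.1 hf2x).2
    linarith
  have hsum : 1 - 2 * e ≤ ‖(1 / 2 : ℝ) • (f1 + f2)‖ := by
    have h1 := hMle ((1 / 2 : ℝ) • (f1 + f2))
    rw [map_smul, map_add, smul_eq_mul] at h1
    linarith
  have hdc := h.dual_convex f1 f2
  have h1 : (1 - 2 * e) ^ 2 ≤ ‖(1 / 2 : ℝ) • (f1 + f2)‖ ^ 2 :=
    pow_le_pow_left₀ (by linarith) hsum 2
  have h2 : (1 - 4 * e) ^ 2 ≤ ‖f1 - f2‖ ^ 2 := pow_le_pow_left₀ (by linarith) hdiff 2
  have h3 : ‖f1‖ ^ 2 ≤ 1 := by nlinarith [norm_nonneg f1]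
  have h4 : ‖f2‖ ^ 2 ≤ 1 := by nlinarith [norm_nonneg f2]
  have h5 : (1 - 4 * e) ^ 2 / (4 * C) ≤ ‖f1 - f2‖ ^ 2 / (4 * C) := by gcongr
  have h6 : (1 - 4 * e) ^ 2 / (4 * C) ≤ 4 * e := by nlinarith
  have h7 : (1 / 2 : ℝ) / (4 * C) ≤ (1 - 4 * e) ^ 2 / (4 * C) := by
    gcongr
    nlinarith
  have h8 : 4 * e = (1 / 4 : ℝ) / (4 * C) := by
    rw [he]
    field_simp
    norm_num
  have h9 : (1 / 4 : ℝ) / (4 * C) < (1 / 2 : ℝ) / (4 * C) := by
    gcongr
    norm_num
  linarith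

end C2N
end

section

set_option autoImplicit false

/-!
4.2: `f ↦ lim_U f (x k)` is a bounded linear functional on the dual, bounded by `R`; `reflexive_of_twoS`.
-/

namespace C2N

open Filter Topology Set

variable {X : Type*} [NormedAddCommGroup X] [NormedSpace ℝ X]

/-- 4.2: `f ↦ lim_U f (x k)` is a bounded functional on the dual. -/
theorem wlimExists_of_twoS [CompleteSpace X] {C : ℝ} {P : X → X →L[ℝ] ℝ} (h : TwoS C P) :
    WLimExists X := by
  intro U x R hR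
  have hR0 : 0 ≤ R := (norm_nonneg (x 0)).trans (hR 0)
  have hlim : ∀ f : X →L[ℝ] ℝ, ∃ l : ℝ, |l| ≤ ‖f‖ * R ∧
      Tendsto (fun k => f (x k)) (U : Filter ℕ) (𝓝 l) := by
    intro f
    have hK : IsCompact (Set.Icc (-(‖f‖ * R)) (‖f‖ * R)) := isCompact_Icc
    have hmem : ((U.map (fun k => f (x k)) : Ultrafilter ℝ) : Filter ℝ) ≤
        𝓟 (Set.Icc (-(‖f‖ * R)) (‖f‖ * R)) := by
      rw [le_principal_iff, Ultrafilter.coe_map, mem_map]
      refine Filter.univ_mem' fun k => ?_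
      have h1 : |f (x k)| ≤ ‖f‖ * R :=
        (f.le_opNorm (x k)).trans (mul_le_mul_of_nonneg_left (hR k) (norm_nonneg _))
      exact abs_le.mp h1
    obtain ⟨l, hl, hle⟩ := hK.ultrafilter_le_nhds _ hmem
    exact ⟨l, abs_le.mpr hl, hle⟩
  choose L hL1 hL2 using hlim
  let Λ : (X →L[ℝ] ℝ) →L[ℝ] ℝ := LinearMap.mkContinuous
    { toFun := L
      map_add' := by
        intro f g
        refine tendsto_nhds_unique (hL2 (f + g)) ?_
        exact (hL2 f).add (hL2 g)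
      map_smul' := by
        intro c f
        refine tendsto_nhds_unique (hL2 (c • f)) ?_
        exact (hL2 f).const_mul c } R (by
        intro f
        change ‖L f‖ ≤ R * ‖f‖
        rw [Real.norm_eq_abs, mul_comm]
        exact hL1 f)
  obtain ⟨a, ha⟩ := reflexive_of_twoS h Λ
  refine ⟨a, fun f => ?_⟩
  rw [← ha f]
  exact hL2 f

end C2N
end

section

set_option autoImplicit false

/-!
4.3: the span of `{P (y j)}` is dense in the dual (otherwise Hahn-Banach gives a nonzero functional on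
the dual vanishing on it, by reflexivity it is some `z ∈ X`, `z ≠ 0`, `P (y j) z = 0` for all `j`; `P` is
continuous, `y` dense, so `P z z = 0 = 2‖z‖^2`).  If `‖f - ∑_{j<m} c_j P (y j)‖ ≤ e` then
`resN (tail _ n) f ≤ e` for `n ≥ m`.
-/

namespace C2N

open Filter Topology Set

variable {X : Type*} [NormedAddCommGroup X] [NormedSpace ℝ X]

private theorem tail_iff (g : ℕ → X →L[ℝ] ℝ) (m : ℕ) (x : X) :
    x ∈ tail g m ↔ ∀ i < m, g i x = 0 := by
  unfold tail
  simp [Submodule.mem_iInf]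

private theorem span_vanish (g : ℕ → X →L[ℝ] ℝ) (s : X →L[ℝ] ℝ)
    (hs : s ∈ Submodule.span ℝ (Set.range g)) : ∃ m, ∀ z ∈ tail g m, s z = 0 := by
  induction hs using Submodule.span_induction with
  | mem s hs =>
    obtain ⟨j, rfl⟩ := hs
    refine ⟨j + 1, fun z hz => ?_⟩
    exact (tail_iff g (j + 1) z).mp hz j (Nat.lt_succ_self j)
  | zero => exact ⟨0, fun z _ => rfl⟩
  | add s t _ _ hs ht =>
    obtain ⟨m, hm⟩ := hs
    obtain ⟨n, hn⟩ := ht
    refine ⟨max m n, fun z hz => ?_⟩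
    rw [ContinuousLinearMap.add_apply, hm z, hn z, add_zero]
    · rw [tail_iff] at hz ⊢
      exact fun i hi => hz i (lt_of_lt_of_le hi (le_max_right m n))
    · rw [tail_iff] at hz ⊢
      exact fun i hi => hz i (lt_of_lt_of_le hi (le_max_left m n))
  | smul c s _ hs =>
    obtain ⟨m, hm⟩ := hs
    refine ⟨m, fun z hz => ?_⟩
    rw [ContinuousLinearMap.smul_apply, hm z hz, smul_zero]

/-- 4.3: the tails of the functionals `P (y j)`, `y` dense. -/
theorem tails_of_twoS [CompleteSpace X] {C : ℝ} {P : X → X →L[ℝ] ℝ} (h : TwoS C P) {y : ℕ → X}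
    (hy : DenseRange y) : TailsVanish (fun j => P (y j)) := by
  intro f
  set g : ℕ → X →L[ℝ] ℝ := fun j => P (y j) with hg
  set S : Submodule ℝ (X →L[ℝ] ℝ) := Submodule.span ℝ (Set.range g) with hS
  have hn : ∀ F : X →L[ℝ] ℝ, ‖S.mkQL F‖ = Metric.infDist F (S : Set (X →L[ℝ] ℝ)) := by
    intro F
    exact QuotientAddGroup.norm_mk (S := S.toAddSubgroup) F
  have h0 : ‖S.mkQL f‖ = 0 := by
    by_contra hne
    obtain ⟨φ, hφ1, hφ2⟩ := exists_dual_vector ℝ (S.mkQL f) hne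
    obtain ⟨z, hz⟩ := reflexive_of_twoS h (φ.comp S.mkQL)
    have h1 : ∀ j, P (y j) z = 0 := by
      intro j
      rw [← hz (P (y j))]
      have h2 : S.mkQL (P (y j)) = 0 := by
        rw [Submodule.mkQL_apply, Submodule.mkQ_apply, Submodule.Quotient.mk_eq_zero]
        exact Submodule.subset_span ⟨j, rfl⟩
      change φ (S.mkQL (P (y j))) = 0
      rw [h2, map_zero]
    have hcont : Continuous fun x : X => P x z := by
      have hPc : Continuous P := by
        have hL : LipschitzWith (Real.toNNReal (2 * C)) P := by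
          refine LipschitzWith.of_dist_le_mul fun a b => ?_
          rw [dist_eq_norm, dist_eq_norm, Real.coe_toNNReal _ (by linarith [h.one_le])]
          exact h.lip a b
        exact hL.continuous
      exact (ContinuousLinearMap.apply ℝ ℝ z).continuous.comp hPc
    have h3 : ∀ x : X, P x z = 0 := by
      intro x
      have h4 : (fun x : X => P x z) = fun _ => (0 : ℝ) :=
        hy.equalizer hcont continuous_const (by
          funext j
          exact h1 j)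
      exact congrFun h4 x
    have h5 : z = 0 := by
      have h6 := h.self z
      rw [h3 z] at h6
      have h7 : ‖z‖ ^ 2 = 0 := by linarith
      exact norm_eq_zero.mp (pow_eq_zero_iff (two_ne_zero)|>.mp h7)
    apply hne
    have h8 : φ (S.mkQL f) = 0 := by
      have h9 := hz f
      rw [h5, map_zero] at h9
      exact h9
    rw [h8] at hφ2
    have h10 : (‖S.mkQL f‖ : ℝ) = 0 := by simpa using hφ2.symm
    exact h10
  rw [hn] at h0
  rw [Metric.tendsto_atTop]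
  intro ε hε
  have hlt : Metric.infDist f (S : Set (X →L[ℝ] ℝ)) < ε := by rw [h0]; exact hε
  obtain ⟨s, hs, hfs⟩ := (Metric.infDist_lt_iff ⟨0, S.zero_mem⟩).mp hlt
  obtain ⟨m, hm⟩ := span_vanish g s hs
  refine ⟨m, fun n hn' => ?_⟩
  have h1 : resN (tail g n) f ≤ dist f s := by
    unfold resN
    refine ContinuousLinearMap.opNorm_le_bound _ dist_nonneg fun z => ?_
    have hz : s (z : X) = 0 := by
      apply hm
      have := z.2
      rw [tail_iff] at this ⊢
      exact fun i hi => this i (lt_of_lt_of_le hi hn')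
    have h2 : (f.comp (tail g n).subtypeL) z = (f - s) (z : X) := by
      rw [ContinuousLinearMap.sub_apply, hz, sub_zero]
      rfl
    rw [h2, dist_eq_norm]
    exact (f - s).le_opNorm _
  have h2 : 0 ≤ resN (tail g n) f := by
    exact norm_nonneg (f.comp (tail g n).subtypeL)
  rw [Real.dist_eq, sub_zero, abs_of_nonneg h2]
  exact lt_of_le_of_lt h1 hfs

end C2N
end

section

set_option autoImplicit false

namespace C2N

open Filter Topology Set

variable {X : Type*} [NormedAddCommGroup X] [NormedSpace ℝ X]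

end C2N
end
end
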