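import Pool.Agent.Lib.MP_55041d_an.h32b.Defs

set_option autoImplicit false

namespace C2N

open Filter Topology Set

variable {X : Type*} [NormedAddCommGroup X] [NormedSpace ℝ X]

/-- centers of histories: `c(∅) = 0`, `c(j 0, ..., j l) = y (j l)` -/
def ctr (y : ℕ → X) (j : ℕ → ℕ) : ℕ → X
  | 0 => 0
  | l + 1 => y (j l)

/-- radii of histories: `r(∅) = 0`, `r(j 0, ..., j l) = 2^{-l-4} w(y (j l))` -/
noncomputable def rad (y : ℕ → X) (w : X → ℝ) (j : ℕ → ℕ) : ℕ → ℝ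
  | 0 => 0
  | l + 1 => (1 / 2 : ℝ) ^ (l + 4) * w (y (j l))

/-- chains of length `n` along the history `j 0, ..., j (n-1)` -/
def ChainP (g : ℕ → X →L[ℝ] ℝ) (A : X → ℝ) (y : ℕ → X) (d w : X → ℝ) (m : ℕ → (ℕ → ℕ) → ℕ)
    (n : ℕ) (j : ℕ → ℕ) (x : ℕ → X) : Prop :=
  x 0 = 0 ∧ ∀ l < n, x (l + 1) - x l ∈ tail g (m l j) ∧
    A (x (l + 1) - ctr y j l) ≤ d (ctr y j l) + rad y w j l ∧
    A (x (l + 1) - ctr y j (l + 1)) ≤ rad y w j (l + 1)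

/-- `β(s) = ∑_{l < n} d(s|l)^2` -/
noncomputable def betP (y : ℕ → X) (d : X → ℝ) (n : ℕ) (j : ℕ → ℕ) : ℝ :=
  ∑ l ∈ Finset.range n, d (ctr y j l) ^ 2

end C2N
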