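import Pool.Agent.Lib.MP_55041d_an.h32b.F1a
import Pool.Agent.Lib.MP_55041d_an.h32b.F0

set_option autoImplicit false

namespace C2N

open Filter Topology Set

variable {X : Type*} [NormedAddCommGroup X] [NormedSpace ℝ X]

/-- The system of data used for the construction of the dual functional. -/
structure Sys {X : Type*} [NormedAddCommGroup X] [NormedSpace ℝ X] (C : ℝ)
    (g : ℕ → X →L[ℝ] ℝ) (B R : ℝ) where
  P : X → X →L[ℝ] ℝ
  twoS : TwoS C P
  tails : TailsVanish g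
  wlim : WLimExists X
  A : X → ℝ
  kadec : Kadec A
  y : ℕ → X
  dense : DenseRange y
  d : X → ℝ
  d_pos : ∀ x, 0 < d x
  d_le : ∀ x, d x ≤ 1 / 8
  d_lip : ∀ x z, |d x - d z| ≤ 1 / 8 * ‖x - z‖
  w : X → ℝ
  w_pos : ∀ x, 0 < w x
  w_le : ∀ x, w x ≤ d x / 2
  w_cont : Continuous w
  m : ℕ → (ℕ → ℕ) → ℕ
  m_local : ∀ i j j', (∀ l < i, j l = j' l) → m i j = m i j'
  m_mono : ∀ i i' j, i ≤ i' → m i j ≤ m i' j
  m_label : ∀ l j, j l ≤ m (l + 1) j
  m_P : ∀ i l j, l ≤ i →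
    resN (tail g (m i j)) (P (ctr y j i - ctr y j l)) ≤ (1 / 2 : ℝ) ^ (i + 3) * d (ctr y j i)
  hB : 2 ≤ B
  hR : 0 ≤ R
  bdd : ∀ n j x, ChainP g A y d w m n j x → betP y d n j ≤ B → ‖x n‖ ≤ R

/-- F6. Section 6 of paper 371: the system exists for every `B ≥ 2`, `ε = 1/(12 B)`,
`w x = ε d x / (2 (‖D²b x‖ + ε))`. -/
theorem exists_sys {C : ℝ} {P : X → X →L[ℝ] ℝ} (h : TwoS C P) {g : ℕ → X →L[ℝ] ℝ}
    (hg : TailsVanish g) (hwl : WLimExists X) {A : X → ℝ} (hA : Kadec A) {y : ℕ → X}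
    (hy : DenseRange y) (hX : ¬ ContainsL2 X) (b : X → ℝ) (hb : ContDiff ℝ 2 b) (hb0 : b 0 = 1)
    (R : ℝ) (hR : 0 < R) (hbR : ∀ x, R ≤ ‖x‖ → b x = 0) (B : ℝ) (hB : 2 ≤ B) :
    Nonempty (Sys C g B R) := by
  have hε : (0 : ℝ) < 1 / (12 * B) := by positivity
  set ε : ℝ := 1 / (12 * B) with hεdef
  have hD : Continuous (fderiv ℝ (fderiv ℝ b)) := by
    have h1 : ContDiff ℝ 1 (fderiv ℝ b) := hb.fderiv_right (m := 1) (by norm_num)
    exact h1.continuous_fderiv (by norm_num)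
  obtain ⟨d, hd0, hd1, hd2, hd3⟩ := exists_scale (fderiv ℝ (fderiv ℝ b)) hD ε hε
  obtain ⟨m, m1, m2, m3, m4, m5, m6⟩ := exists_m C P h g hg hX b hb y d hd0 ε hε
  have hdc : Continuous d := by
    rw [Metric.continuous_iff]
    intro b' e he
    refine ⟨e, he, fun a ha => ?_⟩
    rw [Real.dist_eq]
    rw [dist_eq_norm] at ha
    exact (hd2 a b').trans_lt (by linarith [norm_nonneg (a - b')])
  have hpos : ∀ x, 0 < ‖fderiv ℝ (fderiv ℝ b) x‖ + ε := fun x => by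
    have := norm_nonneg (fderiv ℝ (fderiv ℝ b) x)
    positivity
  have hw2 : ∀ x, (‖fderiv ℝ (fderiv ℝ b) x‖ + ε) *
      (ε * d x / (2 * (‖fderiv ℝ (fderiv ℝ b) x‖ + ε))) = ε * d x / 2 := by
    intro x
    have := (hpos x).ne'
    field_simp
  have hw0 : ∀ x, 0 < ε * d x / (2 * (‖fderiv ℝ (fderiv ℝ b) x‖ + ε)) := fun x => by
    have := hpos x
    have := hd0 x
    positivity
  have hw1 : ∀ x, ε * d x / (2 * (‖fderiv ℝ (fderiv ℝ b) x‖ + ε)) ≤ d x / 2 := by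
    intro x
    rw [div_le_div_iff₀ (by linarith [hpos x]) (by norm_num)]
    have h1 := hd0 x
    have h2 := norm_nonneg (fderiv ℝ (fderiv ℝ b) x)
    nlinarith [mul_nonneg h1.le h2]
  refine ⟨{
    P := P, twoS := h, tails := hg, wlim := hwl, A := A, kadec := hA, y := y, dense := hy
    d := d, d_pos := hd0, d_le := hd1, d_lip := hd2
    w := fun x => ε * d x / (2 * (‖fderiv ℝ (fderiv ℝ b) x‖ + ε)), w_pos := hw0, w_le := hw1
    w_cont := ?_, m := m, m_local := m1, m_mono := m2, m_label := m3, m_P := m4, hB := hB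
    hR := hR.le, bdd := ?_ }⟩
  · have hDn : Continuous fun x => ‖fderiv ℝ (fderiv ℝ b) x‖ :=
      (continuous_norm (E := X →L[ℝ] X →L[ℝ] ℝ)).comp hD
    have hDn2 : Continuous fun x => 2 * (‖fderiv ℝ (fderiv ℝ b) x‖ + ε) := by
      have := hDn.add (continuous_const (y := ε))
      exact continuous_const.mul this
    refine Continuous.div (continuous_const.mul hdc) hDn2 (fun x => ?_)
    have := hpos x
    positivity
  · intro n j x hx hbet
    by_contra hcon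
    have h0 := hbR (x n) (not_le.mp hcon).le
    have h1 := chain_drop g b hb A hA y d _ m ε hε hd0 hw0 hw1 hd3 (fun x => (hw2 x).le) m5 m6 n j x hx
    rw [h0, hb0] at h1
    have h2 : 6 * ε * betP y d n j ≤ 6 * ε * B := by gcongr
    have h3 : 6 * ε * B = 1 / 2 := by
      rw [hεdef]
      field_simp
      norm_num
    linarith

end C2N
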