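import Mathlib
import Pool.Agent.Lib.MP_55041d_an.h32b.B2
import Pool.Agent.Lib.MP_55041d_an.h32b.F0
import Pool.Agent.Lib.MP_55041d_an.h32b.Defs
import Pool.Agent.Lib.MP_55041d_an.h32b.A3

section

section

set_option autoImplicit false

/-!
Easy facts on weak ultralimits.  `WLim.mem`: if `a ∉ Z` separate by a functional vanishing on the closed
subspace `Z` (`Submodule` Hahn-Banach, e.g. `Submodule.exists_dual_map_eq_bot` / `exists_extension` or
geometric Hahn-Banach).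
-/

namespace C2N

open Filter Topology Set

variable {X : Type*} [NormedAddCommGroup X] [NormedSpace ℝ X]

theorem WLim.add {U : Ultrafilter ℕ} {x y : ℕ → X} {a b : X} (hx : WLim U x a) (hy : WLim U y b) :
    WLim U (fun k => x k + y k) (a + b) := by
  intro f
  simpa only [map_add] using (hx f).add (hy f)

theorem WLim.sub {U : Ultrafilter ℕ} {x y : ℕ → X} {a b : X} (hx : WLim U x a) (hy : WLim U y b) :
    WLim U (fun k => x k - y k) (a - b) := by
  intro f
  simpa only [map_sub] using (hx f).sub (hy f)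

theorem WLim.const {U : Ultrafilter ℕ} (a : X) : WLim U (fun _ => a) a := by
  intro f
  exact tendsto_const_nhds

theorem WLim.of_tendsto {U : Ultrafilter ℕ} {x : ℕ → X} {a : X} (h : Tendsto x U (𝓝 a)) :
    WLim U x a := by
  intro f
  exact (f.continuous.tendsto a).comp h

theorem WLim.congr {U : Ultrafilter ℕ} {x y : ℕ → X} {a : X} (hx : WLim U x a)
    (h : ∀ᶠ k in (U : Filter ℕ), x k = y k) : WLim U y a := by
  intro f
  refine (hx f).congr' ?_
  filter_upwards [h] with k hk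
  rw [hk]

/-- weak ultralimits stay in closed subspaces -/
theorem WLim.mem {U : Ultrafilter ℕ} {x : ℕ → X} {a : X} (hx : WLim U x a) (Z : Submodule ℝ X)
    (hZ : IsClosed (Z : Set X)) (h : ∀ᶠ k in (U : Filter ℕ), x k ∈ Z) : a ∈ Z := by
  by_contra ha
  obtain ⟨f, u, hfu, hu⟩ := geometric_hahn_banach_closed_point Z.convex hZ ha
  have hf0 : ∀ z ∈ Z, f z = 0 := by
    intro z hz
    by_contra hne
    have h1 := hfu (((|u| + 1) / f z) • z) (Z.smul_mem _ hz)
    rw [map_smul, smul_eq_mul, div_mul_cancel₀ _ hne] at h1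
    linarith [le_abs_self u, h1]
  have hu0 : 0 < u := by
    have := hfu 0 Z.zero_mem
    simpa using this
  have h2 : Tendsto (fun k => f (x k)) (U : Filter ℕ) (𝓝 0) := by
    refine tendsto_const_nhds.congr' ?_
    filter_upwards [h] with k hk
    exact (hf0 _ hk).symm
  have h3 := tendsto_nhds_unique (hx f) h2
  linarith

end C2N
end

section

set_option autoImplicit false

/-!
`apply`: `|f k (x k) - g a| ≤ ‖f k - g‖ R + |g (x k) - g a|`.  `norm_le`: norming functional of `a`.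
`infDist_le`: Hahn-Banach: if `infDist a E > r` there is `f`, `‖f‖ ≤ 1`, `f = 0` on `E`, `f a > r`
(geometric separation of the open ball `B(a, infDist)` from `E`, or quotient norm
`Submodule.Quotient`), and `f (x k) ≤ infDist (x k) E ≤ r`.
-/

namespace C2N

open Filter Topology Set

variable {X : Type*} [NormedAddCommGroup X] [NormedSpace ℝ X]

/-- if `f k → f` in norm and `x k ⇀ x` (norms bounded) then `f k (x k) → f x` -/
theorem WLim.apply {U : Ultrafilter ℕ} {x : ℕ → X} {a : X} (hx : WLim U x a) {R : ℝ}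
    (hR : ∀ᶠ k in (U : Filter ℕ), ‖x k‖ ≤ R) {f : ℕ → X →L[ℝ] ℝ} {g : X →L[ℝ] ℝ}
    (hf : Tendsto f U (𝓝 g)) : Tendsto (fun k => f k (x k)) U (𝓝 (g a)) := by
  have h1 : Tendsto (fun k => ‖f k - g‖ * R) U (𝓝 0) := by
    have h2 : Tendsto (fun k => ‖f k - g‖) U (𝓝 0) := by
      have h3 := (hf.sub_const g).norm
      rwa [sub_self, norm_zero] at h3
    have h4 := h2.mul_const R
    rwa [zero_mul] at h4
  have h5 : Tendsto (fun k => (f k - g) (x k)) U (𝓝 0) := by
    refine squeeze_zero_norm' ?_ h1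
    filter_upwards [hR] with k hk
    exact ((f k - g).le_opNorm (x k)).trans (mul_le_mul_of_nonneg_left hk (norm_nonneg _))
  have h6 := h5.add (hx g)
  rw [zero_add] at h6
  refine h6.congr fun k => ?_
  rw [ContinuousLinearMap.sub_apply]
  ring

theorem WLim.norm_le {U : Ultrafilter ℕ} {x : ℕ → X} {a : X} (hx : WLim U x a) {R : ℝ}
    (hR : ∀ᶠ k in (U : Filter ℕ), ‖x k‖ ≤ R) : ‖a‖ ≤ R := by
  obtain ⟨g, hg, hga⟩ := exists_dual_vector'' ℝ a
  have h1 := hx g
  have h2 : g a ≤ R := by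
    refine le_of_tendsto h1 ?_
    filter_upwards [hR] with k hk
    have h3 : g (x k) ≤ ‖g‖ * ‖x k‖ := (le_abs_self _).trans (g.le_opNorm (x k))
    have h4 : ‖g‖ * ‖x k‖ ≤ 1 * ‖x k‖ := mul_le_mul_of_nonneg_right hg (norm_nonneg _)
    linarith
  rw [hga] at h2
  simpa using h2

/-- weak lower semicontinuity of the distance to a linear subspace -/
theorem WLim.infDist_le {U : Ultrafilter ℕ} {x : ℕ → X} {a : X} (hx : WLim U x a)
    (E : Submodule ℝ X) {r : ℝ} (hr : ∀ᶠ k in (U : Filter ℕ), Metric.infDist (x k) (E : Set X) ≤ r) :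
    Metric.infDist a (E : Set X) ≤ r := by
  have hn : ∀ y : X, ‖E.mkQL y‖ = Metric.infDist y (E : Set X) := by
    intro y
    exact QuotientAddGroup.norm_mk (S := E.toAddSubgroup) y
  obtain ⟨g, hg, hga⟩ := exists_dual_vector'' ℝ (E.mkQL a)
  have h1 := hx (g.comp E.mkQL)
  have h2 : (g.comp E.mkQL) a ≤ r := by
    refine le_of_tendsto h1 ?_
    filter_upwards [hr] with k hk
    have h3 : g (E.mkQL (x k)) ≤ ‖g‖ * ‖E.mkQL (x k)‖ :=
      (le_abs_self _).trans (g.le_opNorm _)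
    have h4 : ‖g‖ * ‖E.mkQL (x k)‖ ≤ 1 * ‖E.mkQL (x k)‖ :=
      mul_le_mul_of_nonneg_right hg (norm_nonneg _)
    rw [hn] at h3 h4
    change g (E.mkQL (x k)) ≤ r
    linarith
  have h5 : (g.comp E.mkQL) a = ‖E.mkQL a‖ := by
    have h6 : (g.comp E.mkQL) a = g (E.mkQL a) := rfl
    rw [h6, hga]
    simp
  rw [h5, hn] at h2
  exact h2

end C2N
end

section

set_option autoImplicit false

/-!
`exists_ulim`: compactness of `Icc a b`.  `each_tendsto`: all `r i` are eventually bounded (by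
`∑ l + 1`), so they converge along `U` to `c i ≥ l i` (`exists_ulim`), `∑ c i = ∑ l i`, hence equality.
-/

namespace C2N

open Filter Topology Set

variable {X : Type*} [NormedAddCommGroup X] [NormedSpace ℝ X]

/-- bounded real sequences converge along ultrafilters -/
theorem exists_ulim {U : Ultrafilter ℕ} {r : ℕ → ℝ} {a b : ℝ}
    (h : ∀ᶠ k in (U : Filter ℕ), a ≤ r k ∧ r k ≤ b) :
    ∃ l, a ≤ l ∧ l ≤ b ∧ Tendsto r U (𝓝 l) := by
  have h1 : ((U.map r : Ultrafilter ℝ) : Filter ℝ) ≤ 𝓟 (Icc a b) := by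
    rw [le_principal_iff]
    exact h
  obtain ⟨l, hl, hlim⟩ := isCompact_Icc.ultrafilter_le_nhds (U.map r) h1
  exact ⟨l, hl.1, hl.2, hlim⟩

/-- lower semicontinuous summands: if a finite sum of sequences converges to the sum of the
lower limits then every summand converges. Here all sequences are bounded below by `0`. -/
theorem each_tendsto {ι : Type*} (s : Finset ι) {U : Ultrafilter ℕ} {r : ι → ℕ → ℝ} {l : ι → ℝ}
    (h0 : ∀ i ∈ s, ∀ k, 0 ≤ r i k)
    (hl : ∀ i ∈ s, ∀ c : ℝ, Tendsto (r i) U (𝓝 c) → l i ≤ c)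
    (hs : Tendsto (fun k => ∑ i ∈ s, r i k) U (𝓝 (∑ i ∈ s, l i))) :
    ∀ i ∈ s, Tendsto (r i) U (𝓝 (l i)) := by
  classical
  have hb : ∀ᶠ k in (U : Filter ℕ), ∑ i ∈ s, r i k ≤ ∑ i ∈ s, l i + 1 :=
    hs.eventually (eventually_le_nhds (lt_add_one _))
  have hlim : ∀ i ∈ s, ∃ c, Tendsto (r i) U (𝓝 c) := by
    intro i hi
    obtain ⟨c, -, -, hc⟩ := exists_ulim (U := U) (r := r i) (a := 0) (b := ∑ i ∈ s, l i + 1) (by
      filter_upwards [hb] with k hk
      exact ⟨h0 i hi k, (Finset.single_le_sum (fun j hj => h0 j hj k) hi).trans hk⟩)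
    exact ⟨c, hc⟩
  choose! c hc using hlim
  have hsum : Tendsto (fun k => ∑ i ∈ s, r i k) U (𝓝 (∑ i ∈ s, c i)) :=
    tendsto_finsetSum _ (fun i hi => hc i hi)
  have heq : ∑ i ∈ s, l i = ∑ i ∈ s, c i := tendsto_nhds_unique hs hsum
  have hle : ∀ i ∈ s, l i ≤ c i := fun i hi => hl i hi _ (hc i hi)
  intro i hi
  rw [(Finset.sum_eq_sum_iff_of_le hle).mp heq i hi]
  exact hc i hi

end C2N
end

section

set_option autoImplicit false

/-!
7.1 of paper 371.  The segment `[x, x+z]` is in the ball `‖v-c‖ ≤ 4d`.  `‖fderiv b x - fderiv b c‖ ≤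
(‖D²b c‖+ε) r ≤ ε d/2` (mean value inequality), so `|fderiv b x z| ≤ ε d‖z‖ ≤ 2 ε d^2`;
`|D²b v z z| ≤ 2 ε‖z‖^2` on the segment, so by Taylor `b (x+z) ≥ b x - ε d‖z‖ - ε‖z‖^2 ≥ b x - 6 ε d^2`.
(Taylor: the function `φ t = b (x + t z)` has `φ' t = fderiv b (x+tz) z`, `|φ' t - φ' 0| ≤ 2ε‖z‖^2 t`.)
-/

namespace C2N

open Filter Topology Set

variable {X : Type*} [NormedAddCommGroup X] [NormedSpace ℝ X]

/-- F3. One step of a chain: the bump decreases by at most `6 ε d^2` (7.1 of paper 371).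
`|Db(x) z| ≤ (ε d/2 + (‖D²b(c)‖+ε) r) ‖z‖ ≤ ε d ‖z‖` and `|D²b(u)(z,z)| ≤ 2 ε ‖z‖^2` on the segment. -/
theorem step_drop (b : X → ℝ) (hb : ContDiff ℝ 2 b) (Z : Submodule ℝ X) (c x z : X) (d r ε : ℝ)
    (hd : 0 < d) (hε : 0 < ε)
    (hosc : ∀ v, ‖v - c‖ ≤ 4 * d → ‖fderiv ℝ (fderiv ℝ b) v - fderiv ℝ (fderiv ℝ b) c‖ ≤ ε)
    (h1 : resN Z (fderiv ℝ b c) ≤ ε * d / 2)
    (h2 : ∀ v ∈ Z, |fderiv ℝ (fderiv ℝ b) c v v| ≤ ε * ‖v‖ ^ 2)
    (hr : r ≤ d) (hr2 : (‖fderiv ℝ (fderiv ℝ b) c‖ + ε) * r ≤ ε * d / 2)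
    (hx : ‖x - c‖ ≤ r) (hz : z ∈ Z) (hzn : ‖z‖ ≤ 2 * d) :
    b x - 6 * ε * d ^ 2 ≤ b (x + z) := by
  have hbd : Differentiable ℝ b := hb.differentiable (by norm_num)
  have hL : Differentiable ℝ (fderiv ℝ b) :=
    (hb.fderiv_right (m := 1) (by norm_num)).differentiable (by norm_num)
  have hz0 : 0 ≤ ‖z‖ := norm_nonneg z
  -- first derivative at `x`
  have hLx : ‖fderiv ℝ b x - fderiv ℝ b c‖ ≤ ε * d / 2 := by
    have hmv := Convex.norm_image_sub_le_of_norm_fderiv_le (𝕜 := ℝ) (f := fderiv ℝ b)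
      (s := Metric.closedBall c (4 * d)) (x := c) (y := x)
      (C := ‖fderiv ℝ (fderiv ℝ b) c‖ + ε) (fun v _ => hL v)
      (fun v hv => by
        have h3 := hosc v (by rwa [Metric.mem_closedBall, dist_eq_norm] at hv)
        have h4 : ‖fderiv ℝ (fderiv ℝ b) v‖ ≤ ‖fderiv ℝ (fderiv ℝ b) c‖
            + ‖fderiv ℝ (fderiv ℝ b) v - fderiv ℝ (fderiv ℝ b) c‖ := by
          have := norm_add_le (fderiv ℝ (fderiv ℝ b) c)
            (fderiv ℝ (fderiv ℝ b) v - fderiv ℝ (fderiv ℝ b) c)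
          rwa [add_sub_cancel] at this
        linarith) (convex_closedBall _ _) (Metric.mem_closedBall_self (by positivity))
      (by
        rw [Metric.mem_closedBall, dist_eq_norm]
        linarith)
    refine hmv.trans (le_trans ?_ hr2)
    exact mul_le_mul_of_nonneg_left hx (by positivity)
  have hLz : |fderiv ℝ b x z| ≤ ε * d * ‖z‖ := by
    have h3 : |fderiv ℝ b c z| ≤ ε * d / 2 * ‖z‖ := by
      have h4 := ((fderiv ℝ b c).comp Z.subtypeL).le_opNorm ⟨z, hz⟩
      have h5 : ‖((fderiv ℝ b c).comp Z.subtypeL) ⟨z, hz⟩‖ = |fderiv ℝ b c z| := rfl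
      rw [h5] at h4
      refine h4.trans ?_
      exact mul_le_mul_of_nonneg_right h1 hz0
    have h4 : |(fderiv ℝ b x - fderiv ℝ b c) z| ≤ ε * d / 2 * ‖z‖ :=
      ((fderiv ℝ b x - fderiv ℝ b c).le_opNorm z).trans (mul_le_mul_of_nonneg_right hLx hz0)
    have h5 : fderiv ℝ b x z = fderiv ℝ b c z + (fderiv ℝ b x - fderiv ℝ b c) z := by
      rw [sub_apply]
      ring
    rw [h5]
    refine (abs_add_le _ _).trans ?_
    linarith
  -- the path
  have hpath : ∀ t : ℝ, HasDerivAt (fun s : ℝ => x + s • z) z t := fun t => by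
    have := ((hasDerivAt_id t).smul_const z).const_add x
    simpa using this
  have hball : ∀ t ∈ Icc (0 : ℝ) 1, ‖x + t • z - c‖ ≤ 4 * d := fun t ht => by
    have h3 : x + t • z - c = (x - c) + t • z := by abel
    rw [h3]
    refine (norm_add_le _ _).trans ?_
    rw [norm_smul, Real.norm_eq_abs, abs_of_nonneg ht.1]
    have h4 : t * ‖z‖ ≤ 1 * ‖z‖ := mul_le_mul_of_nonneg_right ht.2 hz0
    linarith
  have hg : ∀ t : ℝ, HasDerivAt (fun s : ℝ => fderiv ℝ b (x + s • z) z)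
      (fderiv ℝ (fderiv ℝ b) (x + t • z) z z) t := fun t => by
    have h3 : HasDerivAt (fun s : ℝ => fderiv ℝ b (x + s • z))
        (fderiv ℝ (fderiv ℝ b) (x + t • z) z) t :=
      (hL (x + t • z)).hasFDerivAt.comp_hasDerivAt t (hpath t)
    have h4 := h3.clm_apply (hasDerivAt_const t z)
    simpa using h4
  have hD2 : ∀ t ∈ Icc (0 : ℝ) 1, |fderiv ℝ (fderiv ℝ b) (x + t • z) z z| ≤ 2 * ε * ‖z‖ ^ 2 :=
    fun t ht => by
      have h3 := hosc _ (hball t ht)
      have h4 : |(fderiv ℝ (fderiv ℝ b) (x + t • z) - fderiv ℝ (fderiv ℝ b) c) z z|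
          ≤ ε * ‖z‖ ^ 2 := by
        have h5 := (fderiv ℝ (fderiv ℝ b) (x + t • z) - fderiv ℝ (fderiv ℝ b) c).le_opNorm₂ z z
        rw [Real.norm_eq_abs] at h5
        refine h5.trans ?_
        have h6 : ‖fderiv ℝ (fderiv ℝ b) (x + t • z) - fderiv ℝ (fderiv ℝ b) c‖ * ‖z‖ * ‖z‖
            = ‖fderiv ℝ (fderiv ℝ b) (x + t • z) - fderiv ℝ (fderiv ℝ b) c‖ * ‖z‖ ^ 2 := by ring
        rw [h6]
        exact mul_le_mul_of_nonneg_right h3 (by positivity)
      have h5 : fderiv ℝ (fderiv ℝ b) (x + t • z) z z = fderiv ℝ (fderiv ℝ b) c z z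
          + (fderiv ℝ (fderiv ℝ b) (x + t • z) - fderiv ℝ (fderiv ℝ b) c) z z := by
        simp only [sub_apply]
        ring
      rw [h5]
      refine (abs_add_le _ _).trans ?_
      have := h2 z hz
      linarith
  have hgt : ∀ t ∈ Icc (0 : ℝ) 1,
      |fderiv ℝ b (x + t • z) z - fderiv ℝ b x z| ≤ 2 * ε * ‖z‖ ^ 2 * t := fun t ht => by
    have h3 := Convex.norm_image_sub_le_of_norm_hasDerivWithin_le
      (f := fun s : ℝ => fderiv ℝ b (x + s • z) z) (s := Icc (0 : ℝ) 1) (x := 0) (y := t)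
      (fun s _ => (hg s).hasDerivWithinAt) (fun s hs => hD2 s hs) (convex_Icc 0 1)
      ⟨le_refl _, zero_le_one⟩ ht
    simpa [Real.norm_eq_abs, abs_of_nonneg ht.1] using h3
  have hφ : ∀ t : ℝ, HasDerivAt (fun s : ℝ => b (x + s • z)) (fderiv ℝ b (x + t • z) z) t :=
    fun t => (hbd (x + t • z)).hasFDerivAt.comp_hasDerivAt t (hpath t)
  have hψ : ∀ t : ℝ, HasDerivAt
      (fun s : ℝ => b (x + s • z) - s * fderiv ℝ b x z + ε * ‖z‖ ^ 2 * s ^ 2)
      (fderiv ℝ b (x + t • z) z - fderiv ℝ b x z + ε * ‖z‖ ^ 2 * (2 * t)) t := fun t => by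
    have h3 : HasDerivAt
        (fun s : ℝ => b (x + s • z) - s * fderiv ℝ b x z + ε * ‖z‖ ^ 2 * s ^ 2)
        (fderiv ℝ b (x + t • z) z - 1 * fderiv ℝ b x z
          + ε * ‖z‖ ^ 2 * (((2 : ℕ) : ℝ) * t ^ (2 - 1) * 1)) t :=
      ((hφ t).sub ((hasDerivAt_id t).mul_const (fderiv ℝ b x z))).add
        (((hasDerivAt_id t).pow 2).const_mul (ε * ‖z‖ ^ 2))
    refine h3.congr_deriv ?_
    norm_num
  have hmono : MonotoneOn
      (fun s : ℝ => b (x + s • z) - s * fderiv ℝ b x z + ε * ‖z‖ ^ 2 * s ^ 2) (Icc 0 1) := by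
    refine monotoneOn_of_deriv_nonneg (convex_Icc 0 1)
      (fun t _ => (hψ t).continuousAt.continuousWithinAt)
      (fun t _ => (hψ t).differentiableAt.differentiableWithinAt) ?_
    intro t ht
    rw [interior_Icc] at ht
    rw [(hψ t).deriv]
    have h3 := (abs_le.mp (hgt t ⟨ht.1.le, ht.2.le⟩)).1
    linarith
  have h3 := hmono (left_mem_Icc.mpr zero_le_one) (right_mem_Icc.mpr zero_le_one) zero_le_one
  simp only [zero_smul, add_zero, zero_mul, sub_zero, one_smul, one_mul, one_pow, mul_one,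
    ne_eq, OfNat.ofNat_ne_zero, not_false_eq_true, zero_pow, mul_zero] at h3
  have h4 := (abs_le.mp hLz).1
  have h5 : ε * d * ‖z‖ ≤ ε * d * (2 * d) := mul_le_mul_of_nonneg_left hzn (by positivity)
  have h6 : ε * ‖z‖ ^ 2 ≤ ε * (2 * d) ^ 2 := by gcongr
  nlinarith [h3, h4, h5, h6]

end C2N
end

section

set_option autoImplicit false

namespace C2N

open Filter Topology Set

variable {X : Type*} [NormedAddCommGroup X] [NormedSpace ℝ X]

end C2N
end

section

set_option autoImplicit false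

/-!
4.4 of paper 371.  `infDist x E_n ≤ ‖x‖` since `0 ∈ E_n`; `∑ (1/2)^(n+1) = 1`.
-/

namespace C2N

open Filter Topology Set

variable {X : Type*} [NormedAddCommGroup X] [NormedSpace ℝ X]

/-- the Kadec norm of 4.4 -/
noncomputable def kadN (y : ℕ → X) (x : X) : ℝ :=
  Real.sqrt (‖x‖ ^ 2 + ∑' n : ℕ, (1 / 2 : ℝ) ^ (n + 1) *
    (Metric.infDist x (Submodule.span ℝ (y '' Iio n) : Set X)) ^ 2)

private theorem infDist_span_le (E : Submodule ℝ X) (x : X) :
    Metric.infDist x (E : Set X) ≤ ‖x‖ := by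
  have h := Metric.infDist_le_dist_of_mem (x := x) (s := (E : Set X)) E.zero_mem
  rwa [dist_zero_right] at h

private theorem term_le (y : ℕ → X) (x : X) (n : ℕ) : (1 / 2 : ℝ) ^ (n + 1) *
    (Metric.infDist x (Submodule.span ℝ (y '' Iio n) : Set X)) ^ 2 ≤
      ‖x‖ ^ 2 / 2 * (1 / 2) ^ n := by
  have h1 := infDist_span_le (Submodule.span ℝ (y '' Iio n)) x
  have h2 : 0 ≤ Metric.infDist x (Submodule.span ℝ (y '' Iio n) : Set X) := Metric.infDist_nonneg
  have h3 : (Metric.infDist x (Submodule.span ℝ (y '' Iio n) : Set X)) ^ 2 ≤ ‖x‖ ^ 2 := by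
    nlinarith
  have h4 := mul_le_mul_of_nonneg_left h3 (by positivity : (0 : ℝ) ≤ (1 / 2) ^ (n + 1))
  refine h4.trans (le_of_eq ?_)
  rw [pow_succ]
  ring

theorem kadN_summable (y : ℕ → X) (x : X) : Summable (fun n : ℕ => (1 / 2 : ℝ) ^ (n + 1) *
    (Metric.infDist x (Submodule.span ℝ (y '' Iio n) : Set X)) ^ 2) :=
  Summable.of_nonneg_of_le (fun n => by positivity) (fun n => term_le y x n)
    ((summable_geometric_of_lt_one (by norm_num) (by norm_num)).mul_left _)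

open scoped Pointwise in
private theorem infDist_smul' (E : Submodule ℝ X) (r : ℝ) (x : X) :
    Metric.infDist (r • x) (E : Set X) = |r| * Metric.infDist x (E : Set X) := by
  by_cases hr : r = 0
  · subst hr
    rw [zero_smul, abs_zero, zero_mul]
    exact Metric.infDist_zero_of_mem E.zero_mem
  · have h1 := infDist_smul₀ hr (E : Set X) x
    have h2 : r • (E : Set X) = (E : Set X) := by
      ext z
      rw [Set.mem_smul_set_iff_inv_smul_mem₀ hr]
      constructor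
      · intro h
        have h3 := E.smul_mem r h
        rwa [smul_smul, mul_inv_cancel₀ hr, one_smul] at h3
      · intro h
        exact E.smul_mem _ h
    rw [h2, Real.norm_eq_abs] at h1
    exact h1

theorem kadN_smul (y : ℕ → X) (r : ℝ) (x : X) : kadN y (r • x) = |r| * kadN y x := by
  unfold kadN
  have h1 : ∀ n : ℕ, (1 / 2 : ℝ) ^ (n + 1) *
      (Metric.infDist (r • x) (Submodule.span ℝ (y '' Iio n) : Set X)) ^ 2 =
      r ^ 2 * ((1 / 2 : ℝ) ^ (n + 1) *
      (Metric.infDist x (Submodule.span ℝ (y '' Iio n) : Set X)) ^ 2) := by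
    intro n
    rw [infDist_smul', mul_pow, sq_abs]
    ring
  rw [tsum_congr h1, tsum_mul_left, norm_smul, mul_pow, Real.norm_eq_abs, sq_abs, ← mul_add,
    Real.sqrt_mul (sq_nonneg r), Real.sqrt_sq_eq_abs]

theorem kadN_bounds (y : ℕ → X) (x : X) : ‖x‖ ≤ kadN y x ∧ kadN y x ^ 2 ≤ 2 * ‖x‖ ^ 2 := by
  have h0 : 0 ≤ ∑' n : ℕ, (1 / 2 : ℝ) ^ (n + 1) *
      (Metric.infDist x (Submodule.span ℝ (y '' Iio n) : Set X)) ^ 2 :=
    tsum_nonneg fun n => by positivity
  have h1 : ∑' n : ℕ, (1 / 2 : ℝ) ^ (n + 1) *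
      (Metric.infDist x (Submodule.span ℝ (y '' Iio n) : Set X)) ^ 2 ≤ ‖x‖ ^ 2 := by
    refine ((kadN_summable y x).tsum_le_tsum (fun n => term_le y x n)
      ((summable_geometric_of_lt_one (by norm_num) (by norm_num)).mul_left _)).trans
      (le_of_eq ?_)
    rw [tsum_mul_left, tsum_geometric_of_lt_one (by norm_num) (by norm_num)]
    ring
  unfold kadN
  constructor
  · exact Real.le_sqrt_of_sq_le (by linarith)
  · rw [Real.sq_sqrt (by positivity)]
    linarith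

end C2N
end

section

set_option autoImplicit false

/-!
Triangle inequality: `infDist (x+z) E ≤ infDist x E + infDist z E` for a linear subspace `E`, and
Minkowski's inequality for the `ℓ_2`-norm of the sequence `(‖x‖, √(2^{-n-1}) infDist x E_n)`: either via
`lp`/`ENNReal.. Lp_add_le_tsum`, or Cauchy-Schwarz for finite partial sums and limits, or by the
homogeneous trick: `(a+b)^2 ≤ (1+t) a^2 + (1+1/t) b^2` termwise with `t = kadN z / kadN x`.
-/

namespace C2N

open Filter Topology Set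

variable {X : Type*} [NormedAddCommGroup X] [NormedSpace ℝ X]

private lemma d3b_infDist_add (E : Submodule ℝ X) (x z : X) :
    Metric.infDist (x + z) (E : Set X) ≤ Metric.infDist x (E : Set X) + Metric.infDist z (E : Set X) := by
  have hne : (E : Set X).Nonempty := ⟨0, E.zero_mem⟩
  apply le_of_forall_pos_le_add
  intro ε hε
  obtain ⟨p, hp, hp'⟩ := (Metric.infDist_lt_iff hne).mp
    (show Metric.infDist x (E : Set X) < Metric.infDist x (E : Set X) + ε / 2 by linarith)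
  obtain ⟨q, hq, hq'⟩ := (Metric.infDist_lt_iff hne).mp
    (show Metric.infDist z (E : Set X) < Metric.infDist z (E : Set X) + ε / 2 by linarith)
  have h1 : Metric.infDist (x + z) (E : Set X) ≤ dist (x + z) (p + q) :=
    Metric.infDist_le_dist_of_mem (E.add_mem hp hq)
  have h2 := dist_add_add_le x z p q
  linarith

private lemma d3b_sq (a b t : ℝ) (ht : 0 < t) :
    (a + b) ^ 2 ≤ (1 + t) * a ^ 2 + (1 + t⁻¹) * b ^ 2 := by
  have h : 0 ≤ t⁻¹ * (t * a - b) ^ 2 := by positivity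
  have h2 : t⁻¹ * (t * a - b) ^ 2 = t * a ^ 2 - 2 * a * b + t⁻¹ * b ^ 2 := by
    field_simp
    ring
  rw [h2] at h
  nlinarith

theorem kadN_add_le (y : ℕ → X) (x z : X) : kadN y (x + z) ≤ kadN y x + kadN y z := by
  have hx0 : ‖x‖ ≤ kadN y x := (kadN_bounds y x).1
  have hz0 : ‖z‖ ≤ kadN y z := (kadN_bounds y z).1
  have hx1 : 0 ≤ kadN y x := (norm_nonneg x).trans hx0
  have hz1 : 0 ≤ kadN y z := (norm_nonneg z).trans hz0
  have hsq : ∀ v : X, kadN y v ^ 2 = ‖v‖ ^ 2 + ∑' n : ℕ, (1 / 2 : ℝ) ^ (n + 1) *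
      (Metric.infDist v (Submodule.span ℝ (y '' Iio n) : Set X)) ^ 2 := by
    intro v
    unfold kadN
    apply Real.sq_sqrt
    apply add_nonneg (sq_nonneg _)
    exact tsum_nonneg (fun n => by positivity)
  rcases hx1.eq_or_lt with hx | hx
  · have : x = 0 := by
      rw [← norm_le_zero_iff]
      linarith
    rw [this, zero_add]
    have h0 : 0 ≤ kadN y (0 : X) := (norm_nonneg _).trans (kadN_bounds y 0).1
    linarith
  rcases hz1.eq_or_lt with hz | hz
  · have : z = 0 := by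
      rw [← norm_le_zero_iff]
      linarith
    rw [this, add_zero]
    have h0 : 0 ≤ kadN y (0 : X) := (norm_nonneg _).trans (kadN_bounds y 0).1
    linarith
  set t : ℝ := kadN y z / kadN y x with ht
  have ht0 : 0 < t := div_pos hz hx
  have key : kadN y (x + z) ^ 2 ≤ (1 + t) * kadN y x ^ 2 + (1 + t⁻¹) * kadN y z ^ 2 := by
    rw [hsq (x + z), hsq x, hsq z]
    have h1 : ‖x + z‖ ^ 2 ≤ (1 + t) * ‖x‖ ^ 2 + (1 + t⁻¹) * ‖z‖ ^ 2 := by
      refine le_trans ?_ (d3b_sq ‖x‖ ‖z‖ t ht0)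
      exact pow_le_pow_left₀ (norm_nonneg _) (norm_add_le _ _) 2
    have hsx := (kadN_summable y x).mul_left (1 + t)
    have hsz := (kadN_summable y z).mul_left (1 + t⁻¹)
    have h2 : ∑' n : ℕ, (1 / 2 : ℝ) ^ (n + 1) *
        (Metric.infDist (x + z) (Submodule.span ℝ (y '' Iio n) : Set X)) ^ 2 ≤
        (1 + t) * ∑' n : ℕ, (1 / 2 : ℝ) ^ (n + 1) *
          (Metric.infDist x (Submodule.span ℝ (y '' Iio n) : Set X)) ^ 2 +
        (1 + t⁻¹) * ∑' n : ℕ, (1 / 2 : ℝ) ^ (n + 1) *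
          (Metric.infDist z (Submodule.span ℝ (y '' Iio n) : Set X)) ^ 2 := by
      rw [← tsum_mul_left, ← tsum_mul_left, ← hsx.tsum_add hsz]
      apply (kadN_summable y (x + z)).tsum_le_tsum _ (hsx.add hsz)
      intro n
      have h3 : (Metric.infDist (x + z) (Submodule.span ℝ (y '' Iio n) : Set X)) ^ 2 ≤
          (1 + t) * (Metric.infDist x (Submodule.span ℝ (y '' Iio n) : Set X)) ^ 2 +
          (1 + t⁻¹) * (Metric.infDist z (Submodule.span ℝ (y '' Iio n) : Set X)) ^ 2 := by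
        refine le_trans ?_ (d3b_sq _ _ t ht0)
        exact pow_le_pow_left₀ Metric.infDist_nonneg (d3b_infDist_add _ x z) 2
      have h4 := mul_le_mul_of_nonneg_left h3 (show (0 : ℝ) ≤ (1 / 2 : ℝ) ^ (n + 1) by positivity)
      calc (1 / 2 : ℝ) ^ (n + 1) *
            (Metric.infDist (x + z) (Submodule.span ℝ (y '' Iio n) : Set X)) ^ 2 ≤ _ := h4
        _ = _ := by ring
    linarith
  have e1 : (1 + t) * kadN y x ^ 2 + (1 + t⁻¹) * kadN y z ^ 2 = (kadN y x + kadN y z) ^ 2 := by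
    rw [ht]
    field_simp
    ring
  rw [e1] at key
  exact (pow_le_pow_iff_left₀ ((norm_nonneg _).trans (kadN_bounds y (x + z)).1) (by positivity) two_ne_zero).mp key

end C2N
end

section

set_option autoImplicit false

/-!
`kadN (u k)` converges so it is eventually bounded, hence `‖u k‖ ≤ M` eventually.  For every `N` the finite
partial sum at `a` is `≤ lim inf` of partial sums at `u k` (each term is weakly lower semicontinuous by
`WLim.norm_le`, `WLim.infDist_le` and `exists_ulim`) `≤ r^2`.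
-/

namespace C2N

open Filter Topology Set

variable {X : Type*} [NormedAddCommGroup X] [NormedSpace ℝ X]

theorem kadN_lsc (y : ℕ → X) (U : Ultrafilter ℕ) (u : ℕ → X) (a : X) (r : ℝ) (h : WLim U u a)
    (hr : Tendsto (fun k => kadN y (u k)) U (𝓝 r)) : kadN y a ≤ r := by
  classical
  set E : ℕ → Submodule ℝ X := fun n => Submodule.span ℝ (y '' Iio n) with hE
  set dn : ℕ → X → ℝ := fun n x => Metric.infDist x (E n : Set X) with hdn
  have hdn0 : ∀ n x, 0 ≤ dn n x := fun n x => Metric.infDist_nonneg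
  have hdn1 : ∀ n x, dn n x ≤ ‖x‖ := fun n x => by
    have := Metric.infDist_le_dist_of_mem (x := x) (s := (E n : Set X)) (E n).zero_mem
    simpa using this
  set F : X → ℝ := fun x => ‖x‖ ^ 2 + ∑' n : ℕ, (1 / 2 : ℝ) ^ (n + 1) * (dn n x) ^ 2 with hF
  have hterm0 : ∀ x n, 0 ≤ (1 / 2 : ℝ) ^ (n + 1) * (dn n x) ^ 2 := fun x n => by positivity
  have hF0 : ∀ x, 0 ≤ F x := fun x => add_nonneg (sq_nonneg _) (tsum_nonneg (hterm0 x))
  have hkad : ∀ x, kadN y x = Real.sqrt (F x) := fun x => rfl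
  have hkad0 : ∀ x, 0 ≤ kadN y x := fun x => Real.sqrt_nonneg _
  have hkadsq : ∀ x, kadN y x ^ 2 = F x := fun x => by rw [hkad, Real.sq_sqrt (hF0 x)]
  have hr0 : 0 ≤ r := ge_of_tendsto hr (Filter.Eventually.of_forall fun k => hkad0 (u k))
  have hev : ∀ᶠ k in (U : Filter ℕ), ‖u k‖ ≤ r + 1 := by
    have := hr.eventually (gt_mem_nhds (show r < r + 1 by linarith))
    filter_upwards [this] with k hk
    exact ((kadN_bounds y (u k)).1).trans hk.le
  -- limits
  obtain ⟨l, hl0, -, hl⟩ := exists_ulim (U := U) (r := fun k => ‖u k‖) (a := 0) (b := r + 1)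
    (hev.mono fun k hk => ⟨norm_nonneg _, hk⟩)
  have hal : ‖a‖ ≤ l := by
    refine le_of_forall_pos_le_add fun e he => ?_
    refine h.norm_le ?_
    exact (hl.eventually (gt_mem_nhds (show l < l + e by linarith))).mono fun k hk => hk.le
  have hc : ∀ n, ∃ c, 0 ≤ c ∧ dn n a ≤ c ∧ Tendsto (fun k => dn n (u k)) U (𝓝 c) := by
    intro n
    obtain ⟨c, hc0, -, hc⟩ := exists_ulim (U := U) (r := fun k => dn n (u k)) (a := 0) (b := r + 1)
      (hev.mono fun k hk => ⟨hdn0 n _, (hdn1 n _).trans hk⟩)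
    refine ⟨c, hc0, ?_, hc⟩
    refine le_of_forall_pos_le_add fun e he => ?_
    refine h.infDist_le (E n) ?_
    exact (hc.eventually (gt_mem_nhds (show c < c + e by linarith))).mono fun k hk => hk.le
  choose c hc0 hca hc using hc
  rw [hkad, Real.sqrt_le_left hr0]
  have key : ∀ N, ∑ n ∈ Finset.range N, (1 / 2 : ℝ) ^ (n + 1) * (dn n a) ^ 2 ≤ r ^ 2 - ‖a‖ ^ 2 := by
    intro N
    have h1 : Tendsto (fun k => ‖u k‖ ^ 2 + ∑ n ∈ Finset.range N,
        (1 / 2 : ℝ) ^ (n + 1) * (dn n (u k)) ^ 2) U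
        (𝓝 (l ^ 2 + ∑ n ∈ Finset.range N, (1 / 2 : ℝ) ^ (n + 1) * (c n) ^ 2)) :=
      (hl.pow 2).add (tendsto_finsetSum _ fun n _ => ((hc n).pow 2).const_mul _)
    have h2 : Tendsto (fun k => kadN y (u k) ^ 2) U (𝓝 (r ^ 2)) := hr.pow 2
    have h3 : l ^ 2 + ∑ n ∈ Finset.range N, (1 / 2 : ℝ) ^ (n + 1) * (c n) ^ 2 ≤ r ^ 2 := by
      refine le_of_tendsto_of_tendsto' h1 h2 fun k => ?_
      rw [hkadsq]
      have h4 : Summable (fun n : ℕ => (1 / 2 : ℝ) ^ (n + 1) * (dn n (u k)) ^ 2) :=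
        kadN_summable y (u k)
      have := h4.sum_le_tsum (Finset.range N) (fun n _ => hterm0 (u k) n)
      simp only [hF]
      linarith
    have h5 : ‖a‖ ^ 2 ≤ l ^ 2 := pow_le_pow_left₀ (norm_nonneg _) hal 2
    have h6 : ∑ n ∈ Finset.range N, (1 / 2 : ℝ) ^ (n + 1) * (dn n a) ^ 2 ≤
        ∑ n ∈ Finset.range N, (1 / 2 : ℝ) ^ (n + 1) * (c n) ^ 2 :=
      Finset.sum_le_sum fun n _ => mul_le_mul_of_nonneg_left
        (pow_le_pow_left₀ (hdn0 n a) (hca n) 2) (by positivity)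
    linarith
  have := Real.tsum_le_of_sum_range_le (hterm0 a) key
  simp only [hF]
  linarith

end C2N
end

section

set_option autoImplicit false

/-!
4.4 of paper 371.  For each `n`, `infDist (u k) E_n → infDist a E_n` (split the square of the norm as
`n`-th term + rest; both are weakly lower semicontinuous, the sum converges to the sum, so each
converges).  Given `e > 0` choose `n` with `infDist a E_n < e` (`y` dense).  Eventually there is
`v k ∈ E_n` with `‖u k - v k‖ < e`; `v k` is bounded in the finite dimensional space `E_n`, so `v k → v`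
along `U`; `‖a - v‖ ≤ e` by `WLim.norm_le`.  Hence `‖u k - a‖ ≤ 3e` eventually.
-/

namespace C2N

open Filter Topology Set

variable {X : Type*} [NormedAddCommGroup X] [NormedSpace ℝ X]

/-- finite sums of nonnegative lower semicontinuous quantities are lower semicontinuous -/
private theorem sum_lsc_aux {ι : Type*} (s : Finset ι) {U : Ultrafilter ℕ} {r : ι → ℕ → ℝ}
    {l : ι → ℝ} (h0 : ∀ i ∈ s, ∀ k, 0 ≤ r i k)
    (hl : ∀ i ∈ s, ∀ c : ℝ, Tendsto (r i) U (𝓝 c) → l i ≤ c) {b : ℝ}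
    (hb : ∀ᶠ k in (U : Filter ℕ), ∑ i ∈ s, r i k ≤ b) : ∑ i ∈ s, l i ≤ b := by
  have hex : ∀ i ∈ s, ∃ c, Tendsto (r i) U (𝓝 c) := by
    intro i hi
    have h1 : ∀ᶠ k in (U : Filter ℕ), 0 ≤ r i k ∧ r i k ≤ b := by
      filter_upwards [hb] with k hk
      exact ⟨h0 i hi k, (Finset.single_le_sum (f := fun i => r i k) (fun j hj => h0 j hj k) hi).trans hk⟩
    obtain ⟨c, _, _, hc⟩ := exists_ulim h1
    exact ⟨c, hc⟩
  choose! c hc using hex
  have h1 : Tendsto (fun k => ∑ i ∈ s, r i k) U (𝓝 (∑ i ∈ s, c i)) :=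
    tendsto_finset_sum s fun i hi => hc i hi
  have h2 : ∑ i ∈ s, c i ≤ b := le_of_tendsto h1 hb
  exact (Finset.sum_le_sum fun i hi => hl i hi (c i) (hc i hi)).trans h2

/-- squares of lower semicontinuous quantities -/
private theorem sq_lsc_aux {U : Ultrafilter ℕ} {g : ℕ → ℝ} {l : ℝ} (h0 : ∀ k, 0 ≤ g k)
    (h0l : 0 ≤ l) (hl : ∀ r : ℝ, (∀ᶠ k in (U : Filter ℕ), g k ≤ r) → l ≤ r) {w : ℝ} (hw : 0 ≤ w)
    {c : ℝ} (hc : Tendsto (fun k => w * g k ^ 2) U (𝓝 c)) : w * l ^ 2 ≤ c := by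
  rcases hw.eq_or_lt with rfl | hw
  · have : Tendsto (fun k : ℕ => (0 : ℝ) * g k ^ 2) U (𝓝 0) := by
      simp only [zero_mul]
      exact tendsto_const_nhds
    rw [zero_mul]
    exact (tendsto_nhds_unique this hc).le
  refine le_of_forall_pos_le_add fun ε hε => ?_
  have h1 : ∀ᶠ k in (U : Filter ℕ), w * g k ^ 2 < c + ε :=
    hc.eventually (gt_mem_nhds (by linarith))
  have h2 : ∀ᶠ k in (U : Filter ℕ), g k ≤ Real.sqrt ((c + ε) / w) := by
    filter_upwards [h1] with k hk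
    refine Real.le_sqrt_of_sq_le ?_
    rw [le_div_iff₀ hw]
    linarith
  have h3 := hl _ h2
  have hpos : 0 ≤ (c + ε) / w := by
    have h4 : 0 ≤ c + ε := by
      have h5 : 0 ≤ c := ge_of_tendsto hc (Eventually.of_forall fun k => by positivity)
      linarith
    positivity
  have h6 : l ^ 2 ≤ (c + ε) / w := by
    calc l ^ 2 ≤ Real.sqrt ((c + ε) / w) ^ 2 := pow_le_pow_left₀ h0l h3 2
      _ = (c + ε) / w := Real.sq_sqrt hpos
  rw [le_div_iff₀ hw] at h6
  linarith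

private theorem kadN_sq (y : ℕ → X) (x : X) : kadN y x ^ 2 = ‖x‖ ^ 2 +
    ∑' n : ℕ, (1 / 2 : ℝ) ^ (n + 1) *
    (Metric.infDist x (Submodule.span ℝ (y '' Iio n) : Set X)) ^ 2 := by
  unfold kadN
  refine Real.sq_sqrt ?_
  have : 0 ≤ ∑' n : ℕ, (1 / 2 : ℝ) ^ (n + 1) *
    (Metric.infDist x (Submodule.span ℝ (y '' Iio n) : Set X)) ^ 2 :=
    tsum_nonneg fun n => by positivity
  positivity

/-- each of the distances converges -/
private theorem dist_tendsto_aux {y : ℕ → X} (U : Ultrafilter ℕ) (u : ℕ → X) (a : X)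
    (h : WLim U u a) (hr : Tendsto (fun k => kadN y (u k)) U (𝓝 (kadN y a))) (n : ℕ) :
    Tendsto (fun k => Metric.infDist (u k) (Submodule.span ℝ (y '' Iio n) : Set X)) U
      (𝓝 (Metric.infDist a (Submodule.span ℝ (y '' Iio n) : Set X))) := by
  set T : ℕ → X → ℝ := fun n x => (1 / 2 : ℝ) ^ (n + 1) *
    (Metric.infDist x (Submodule.span ℝ (y '' Iio n) : Set X)) ^ 2 with hT
  have hT0 : ∀ n x, 0 ≤ T n x := fun n x => by rw [hT]; positivity
  have hTs : ∀ x, Summable (fun n => T n x) := fun x => kadN_summable y x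
  have hsq : ∀ x, kadN y x ^ 2 = ‖x‖ ^ 2 + ∑' n, T n x := fun x => kadN_sq y x
  have hr2 : Tendsto (fun k => kadN y (u k) ^ 2) U (𝓝 (kadN y a ^ 2)) := hr.pow 2
  have hTle : ∀ x, T n x ≤ kadN y x ^ 2 := by
    intro x
    rw [hsq x]
    have h1 := (hTs x).le_tsum n (fun j _ => hT0 j x)
    have h2 : 0 ≤ ‖x‖ ^ 2 := by positivity
    linarith
  have hlscT : ∀ i, ∀ c : ℝ, Tendsto (fun k => T i (u k)) U (𝓝 c) → T i a ≤ c := by
    intro i c hc
    exact sq_lsc_aux (fun k => Metric.infDist_nonneg) Metric.infDist_nonneg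
      (fun r hr => h.infDist_le _ hr) (by positivity) hc
  have hlscN : ∀ c : ℝ, Tendsto (fun k => ‖u k‖ ^ 2) U (𝓝 c) → ‖a‖ ^ 2 ≤ c := by
    intro c hc
    have := sq_lsc_aux (w := 1) (fun k => norm_nonneg (u k)) (norm_nonneg a)
      (fun r hr => h.norm_le hr) zero_le_one (c := c) (by simpa only [one_mul] using hc)
    simpa only [one_mul] using this
  -- the n-th term converges
  have hbd : ∀ᶠ k in (U : Filter ℕ), 0 ≤ T n (u k) ∧ T n (u k) ≤ kadN y a ^ 2 + 1 := by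
    have h1 : ∀ᶠ k in (U : Filter ℕ), kadN y (u k) ^ 2 < kadN y a ^ 2 + 1 :=
      hr2.eventually (gt_mem_nhds (by linarith))
    filter_upwards [h1] with k hk
    exact ⟨hT0 n (u k), (hTle (u k)).trans hk.le⟩
  obtain ⟨c, _, _, hc⟩ := exists_ulim hbd
  have hge : T n a ≤ c := hlscT n c hc
  have hle : c ≤ T n a := by
    have hrest : Tendsto (fun k => kadN y (u k) ^ 2 - T n (u k)) U (𝓝 (kadN y a ^ 2 - c)) :=
      hr2.sub hc
    have hfin : ∀ s : Finset ℕ, n ∉ s → ‖a‖ ^ 2 + ∑ i ∈ s, T i a ≤ kadN y a ^ 2 - c := by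
      intro s hs
      refine le_of_forall_pos_le_add fun ε hε => ?_
      have h1 : ∀ᶠ k in (U : Filter ℕ), kadN y (u k) ^ 2 - T n (u k) < kadN y a ^ 2 - c + ε :=
        hrest.eventually (gt_mem_nhds (by linarith))
      have h2 := sum_lsc_aux (Finset.insertNone s) (U := U)
        (r := fun i k => Option.elim i (‖u k‖ ^ 2) (fun j => T j (u k)))
        (l := fun i => Option.elim i (‖a‖ ^ 2) (fun j => T j a))
        (b := kadN y a ^ 2 - c + ε) (by
          rintro (_ | i) _ k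
          · simp only [Option.elim]; positivity
          · exact hT0 i (u k)) (by
          rintro (_ | i) _ c hc
          · exact hlscN c hc
          · exact hlscT i c hc) (by
          filter_upwards [h1] with k hk
          rw [Finset.sum_insertNone]
          simp only [Option.elim]
          have h3 : ∑ i ∈ insert n s, T i (u k) ≤ ∑' i, T i (u k) :=
            (hTs (u k)).sum_le_tsum _ (fun j _ => hT0 j (u k))
          rw [Finset.sum_insert hs] at h3
          rw [hsq (u k)] at hk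
          linarith)
      rw [Finset.sum_insertNone] at h2
      simpa only [Option.elim] using h2
    have hall : ∀ s : Finset ℕ, ∑ i ∈ s, T i a ≤ T n a + (kadN y a ^ 2 - c) - ‖a‖ ^ 2 := by
      intro s
      have h1 := hfin (s.erase n) (Finset.notMem_erase n s)
      have h2 : ∑ i ∈ s, T i a ≤ ∑ i ∈ insert n (s.erase n), T i a :=
        Finset.sum_le_sum_of_subset_of_nonneg (by
          intro i hi
          by_cases hin : i = n
          · rw [hin]; exact Finset.mem_insert_self _ _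
          · exact Finset.mem_insert_of_mem (Finset.mem_erase.2 ⟨hin, hi⟩)) (fun i _ _ => hT0 i a)
      rw [Finset.sum_insert (Finset.notMem_erase n s)] at h2
      linarith
    have h3 : ∑' i, T i a ≤ T n a + (kadN y a ^ 2 - c) - ‖a‖ ^ 2 := (hTs a).tsum_le_of_sum_le hall
    have h4 := hsq a
    linarith
  have hca : c = T n a := le_antisymm hle hge
  rw [hca] at hc
  -- from the squares to the distances
  have hpw : (0 : ℝ) < (1 / 2 : ℝ) ^ (n + 1) := by positivity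
  have h5 : Tendsto (fun k => Real.sqrt (T n (u k) / (1 / 2 : ℝ) ^ (n + 1))) U
      (𝓝 (Real.sqrt (T n a / (1 / 2 : ℝ) ^ (n + 1)))) :=
    (Real.continuous_sqrt.tendsto _).comp (hc.div_const _)
  have h6 : ∀ x, Real.sqrt (T n x / (1 / 2 : ℝ) ^ (n + 1)) =
      Metric.infDist x (Submodule.span ℝ (y '' Iio n) : Set X) := by
    intro x
    rw [hT]
    simp only
    rw [mul_div_cancel_left₀ _ hpw.ne', Real.sqrt_sq Metric.infDist_nonneg]
  simpa only [h6] using h5

theorem kadN_kad {y : ℕ → X} (hy : DenseRange y) (U : Ultrafilter ℕ) (u : ℕ → X) (a : X)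
    (h : WLim U u a) (hr : Tendsto (fun k => kadN y (u k)) U (𝓝 (kadN y a))) :
    Tendsto u U (𝓝 a) := by
  have hbd : ∀ᶠ k in (U : Filter ℕ), ‖u k‖ < kadN y a + 1 := by
    have h1 : ∀ᶠ k in (U : Filter ℕ), kadN y (u k) < kadN y a + 1 :=
      hr.eventually (gt_mem_nhds (by linarith))
    filter_upwards [h1] with k hk
    exact (kadN_bounds y (u k)).1.trans_lt hk
  rw [Metric.tendsto_nhds]
  intro ε hε
  set e : ℝ := ε / 3 with he
  have he0 : 0 < e := by rw [he]; linarith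
  obtain ⟨m, hm⟩ := hy.exists_dist_lt a he0
  set E : Submodule ℝ X := Submodule.span ℝ (y '' Iio (m + 1)) with hE
  have hymE : y m ∈ E := Submodule.subset_span ⟨m, Nat.lt_succ_self m, rfl⟩
  have hda : Metric.infDist a (E : Set X) < e :=
    (Metric.infDist_le_dist_of_mem hymE).trans_lt hm
  have hdk : ∀ᶠ k in (U : Filter ℕ), Metric.infDist (u k) (E : Set X) < e :=
    (dist_tendsto_aux U u a h hr (m + 1)).eventually (gt_mem_nhds hda)
  haveI : FiniteDimensional ℝ E :=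
    FiniteDimensional.span_of_finite ℝ ((Set.finite_Iio (m + 1)).image y)
  haveI : ProperSpace E := FiniteDimensional.proper ℝ E
  have hv : ∀ k, ∃ v : E, Metric.infDist (u k) (E : Set X) < e → dist (u k) (v : X) < e := by
    intro k
    by_cases hk : Metric.infDist (u k) (E : Set X) < e
    · obtain ⟨v, hvE, hvd⟩ := (Metric.infDist_lt_iff ⟨0, E.zero_mem⟩).1 hk
      exact ⟨⟨v, hvE⟩, fun _ => hvd⟩
    · exact ⟨0, fun h => absurd h hk⟩
  choose v hv using hv
  have hvb : ∀ᶠ k in (U : Filter ℕ), v k ∈ Metric.closedBall (0 : E) (kadN y a + 1 + e) := by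
    filter_upwards [hbd, hdk] with k h1 h2
    have h3 := hv k h2
    rw [mem_closedBall_zero_iff]
    have h4 : ‖(v k : X)‖ ≤ ‖u k‖ + dist (u k) (v k : X) := by
      rw [dist_eq_norm, add_comm]
      have := norm_sub_norm_le (v k : X) (u k)
      rw [norm_sub_rev] at this
      linarith
    have h5 : ‖v k‖ = ‖(v k : X)‖ := rfl
    rw [h5]
    linarith
  obtain ⟨v0, _, hv0⟩ := (isCompact_closedBall (0 : E) (kadN y a + 1 + e)).ultrafilter_le_nhds
    (U.map v) (by
      rw [le_principal_iff]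
      exact hvb)
  have hvt : Tendsto v U (𝓝 v0) := hv0
  have hvt' : Tendsto (fun k => (v k : X)) U (𝓝 (v0 : X)) :=
    (continuous_subtype_val.tendsto v0).comp hvt
  have hw : WLim U (fun k => u k - (v k : X)) (a - (v0 : X)) := h.sub (WLim.of_tendsto hvt')
  have hna : ‖a - (v0 : X)‖ ≤ e := by
    refine hw.norm_le ?_
    filter_upwards [hdk] with k h2
    have h3 := hv k h2
    rw [dist_eq_norm] at h3
    exact h3.le
  have hvd : ∀ᶠ k in (U : Filter ℕ), dist (v k : X) (v0 : X) < e :=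
    (Metric.tendsto_nhds.1 hvt') e he0
  filter_upwards [hdk, hvd] with k h1 h2
  have h3 := hv k h1
  have h4 : dist (u k) a ≤ dist (u k) (v k : X) + dist (v k : X) (v0 : X) + dist (v0 : X) a :=
    dist_triangle4 _ _ _ _
  have h5 : dist (v0 : X) a ≤ e := by
    rw [dist_comm, dist_eq_norm]
    exact hna
  have h6 : 3 * e = ε := by rw [he]; ring
  linarith

end C2N
end

section

set_option autoImplicit false

namespace C2N

open Filter Topology Set

variable {X : Type*} [NormedAddCommGroup X] [NormedSpace ℝ X]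

theorem exists_kadec {y : ℕ → X} (hy : DenseRange y) : ∃ A : X → ℝ, Kadec A :=
  ⟨kadN y, kadN_add_le y, kadN_smul y, fun x => (kadN_bounds y x).1, fun x => (kadN_bounds y x).2,
    kadN_lsc y, kadN_kad hy⟩

/-- easy consequences -/
theorem Kadec.nonneg {A : X → ℝ} (h : Kadec A) (x : X) : 0 ≤ A x := (norm_nonneg x).trans (h.le x)

theorem Kadec.zero {A : X → ℝ} (h : Kadec A) : A 0 = 0 := by
  have := h.smul 0 0
  simpa using this

theorem Kadec.neg {A : X → ℝ} (h : Kadec A) (x : X) : A (-x) = A x := by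
  have := h.smul (-1) x
  simpa using this

theorem Kadec.sub_comm {A : X → ℝ} (h : Kadec A) (x y : X) : A (x - y) = A (y - x) := by
  rw [← neg_sub, h.neg]

theorem Kadec.le_two {A : X → ℝ} (h : Kadec A) (x : X) : A x ≤ 2 * ‖x‖ := by
  have h1 := h.ge x
  have h2 := h.nonneg x
  nlinarith [norm_nonneg x, sq_nonneg (A x - 2 * ‖x‖)]

theorem Kadec.abs_sub_le {A : X → ℝ} (h : Kadec A) (x y : X) : |A x - A y| ≤ 2 * ‖x - y‖ := by
  have h1 := h.add_le (x - y) y
  have h2 := h.add_le (y - x) x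
  have h3 := h.le_two (x - y)
  have h4 := h.sub_comm x y
  rw [sub_add_cancel] at h1 h2
  rw [abs_le]; constructor <;> linarith

theorem Kadec.continuous {A : X → ℝ} (h : Kadec A) : Continuous A := by
  rw [Metric.continuous_iff]
  intro b e he
  refine ⟨e / 4, by positivity, fun a ha => ?_⟩
  rw [Real.dist_eq]
  rw [dist_eq_norm] at ha
  exact (h.abs_sub_le a b).trans_lt (by linarith)

end C2N
end

section

set_option autoImplicit false

/-!
7.1 of paper 371.  Induction on `n` with `step_drop` for `c = ctr y j l`, `r = rad y w j l` (`= 0` for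
`l = 0`, `≤ w/16 ≤ w` otherwise; `‖x l - c‖ ≤ A (x l - c) ≤ r`), `z = x (l+1) - x l`,
`‖z‖ ≤ A (x(l+1)-c) + A (x l - c) ≤ d + 2r ≤ 2d`.
-/

namespace C2N

open Filter Topology Set

variable {X : Type*} [NormedAddCommGroup X] [NormedSpace ℝ X]

omit [NormedSpace ℝ X] in
private theorem F1e_rad (y : ℕ → X) (w : X → ℝ) (hw0 : ∀ x, 0 < w x) (j : ℕ → ℕ) (n : ℕ) :
    0 ≤ rad y w j n ∧ rad y w j n ≤ w (ctr y j n) := by
  cases n with
  | zero => exact ⟨le_refl _, (hw0 _).le⟩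
  | succ l =>
    have h1 : (0 : ℝ) ≤ (1 / 2 : ℝ) ^ (l + 4) := by positivity
    have h2 : (1 / 2 : ℝ) ^ (l + 4) ≤ 1 := pow_le_one₀ (by norm_num) (by norm_num)
    have h3 := hw0 (y (j l))
    constructor
    · show 0 ≤ (1 / 2 : ℝ) ^ (l + 4) * w (y (j l))
      positivity
    · show (1 / 2 : ℝ) ^ (l + 4) * w (y (j l)) ≤ w (y (j l))
      nlinarith

/-- F5. The bump along a chain: `b (x n) ≥ b 0 - 6 ε β`. Induction on `n` with `step_drop`. -/
theorem chain_drop (g : ℕ → X →L[ℝ] ℝ) (b : X → ℝ) (hb : ContDiff ℝ 2 b) (A : X → ℝ)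
    (hA : Kadec A) (y : ℕ → X) (d w : X → ℝ) (m : ℕ → (ℕ → ℕ) → ℕ) (ε : ℝ) (hε : 0 < ε)
    (hd : ∀ x, 0 < d x) (hw0 : ∀ x, 0 < w x) (hw1 : ∀ x, w x ≤ d x / 2)
    (hosc : ∀ x v, ‖v - x‖ ≤ 4 * d x →
      ‖fderiv ℝ (fderiv ℝ b) v - fderiv ℝ (fderiv ℝ b) x‖ ≤ ε)
    (hw2 : ∀ x, (‖fderiv ℝ (fderiv ℝ b) x‖ + ε) * w x ≤ ε * d x / 2)
    (h1 : ∀ i j, resN (tail g (m i j)) (fderiv ℝ b (ctr y j i)) ≤ ε * d (ctr y j i) / 2)
    (h2 : ∀ i j, ∀ v ∈ tail g (m i j),
        |fderiv ℝ (fderiv ℝ b) (ctr y j i) v v| ≤ ε * ‖v‖ ^ 2)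
    (n : ℕ) (j : ℕ → ℕ) (x : ℕ → X) (hx : ChainP g A y d w m n j x) :
    b 0 - 6 * ε * betP y d n j ≤ b (x n) := by
  induction n with
  | zero =>
    rw [hx.1]
    simp [betP]
  | succ n ih =>
    have hx' : ChainP g A y d w m n j x := ⟨hx.1, fun l hl => hx.2 l (by omega)⟩
    have ih' := ih hx'
    obtain ⟨hz, hA1, _⟩ := hx.2 n (by omega)
    obtain ⟨hr0, hrw⟩ := F1e_rad y w hw0 j n
    have hwd := hw1 (ctr y j n)
    have hdp := hd (ctr y j n)
    have hAx : A (x n - ctr y j n) ≤ rad y w j n := by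
      cases n with
      | zero =>
        rw [hx.1]
        show A (0 - 0) ≤ 0
        rw [sub_zero, hA.zero]
      | succ l => exact (hx.2 l (by omega)).2.2
    have hxn : ‖x n - ctr y j n‖ ≤ rad y w j n := (hA.le _).trans hAx
    have hzn : ‖x (n + 1) - x n‖ ≤ 2 * d (ctr y j n) := by
      have e : x (n + 1) - x n = (x (n + 1) - ctr y j n) + (ctr y j n - x n) := by abel
      have h3 := hA.add_le (x (n + 1) - ctr y j n) (ctr y j n - x n)
      rw [← e] at h3
      have h4 := hA.sub_comm (ctr y j n) (x n)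
      have h5 := hA.le (x (n + 1) - x n)
      linarith
    have hr2 : (‖fderiv ℝ (fderiv ℝ b) (ctr y j n)‖ + ε) * rad y w j n ≤
        ε * d (ctr y j n) / 2 := by
      refine le_trans ?_ (hw2 (ctr y j n))
      apply mul_le_mul_of_nonneg_left hrw
      have := norm_nonneg (fderiv ℝ (fderiv ℝ b) (ctr y j n))
      linarith
    have hs := step_drop b hb (tail g (m n j)) (ctr y j n) (x n) (x (n + 1) - x n)
      (d (ctr y j n)) (rad y w j n) ε hdp hε (fun v hv => hosc (ctr y j n) v hv) (h1 n j)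
      (h2 n j) (by linarith) hr2 hxn hz hzn
    rw [add_sub_cancel] at hs
    have hbet : betP y d (n + 1) j = betP y d n j + d (ctr y j n) ^ 2 := by
      unfold betP
      rw [Finset.sum_range_succ]
    rw [hbet]
    linarith

end C2N
end
end

section

section

set_option autoImplicit false

/-!
Choose `M0 i j` with `Q i j (M0 i j)` depending only on `j 0..j(i-1)`: apply choice to the truncated
history `fun l => if l < i then j l else 0`.  Then `m i j = (Finset.range (i+1)).sup (fun l => M0 l (trunc))`.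
-/

namespace C2N

open Filter Topology Set

/-- F2. Monotone local choice: if `Q i j m` depends only on `j 0, ..., j (i-1)`, is monotone in `m`
and `∃ m, Q i j m`, then `m` can be chosen as a monotone (in `i`) function of the finite history.
(`m i j` = max over `l ≤ i` of choices made for the restrictions to length `l`.) -/
theorem exists_mono_choice (Q : ℕ → (ℕ → ℕ) → ℕ → Prop)
    (hloc : ∀ i j j' m, (∀ l < i, j l = j' l) → Q i j m → Q i j' m)
    (hmono : ∀ i j m m', m ≤ m' → Q i j m → Q i j m') (hex : ∀ i j, ∃ m, Q i j m) :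
    ∃ m : ℕ → (ℕ → ℕ) → ℕ, (∀ i j j', (∀ l < i, j l = j' l) → m i j = m i j') ∧
      (∀ i i' j, i ≤ i' → m i j ≤ m i' j) ∧ ∀ i j, Q i j (m i j) := by
  choose M0 hM0 using hex
  let tr : ℕ → (ℕ → ℕ) → ℕ → ℕ := fun i j l => if l < i then j l else 0
  refine ⟨fun i j => (Finset.range (i + 1)).sup (fun l => M0 l (tr l j)), ?_, ?_, ?_⟩
  · intro i j j' h
    apply Finset.sup_congr rfl
    intro l hl
    have hl' : l < i + 1 := Finset.mem_range.mp hl
    have e : tr l j = tr l j' := by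
      funext r
      simp only [tr]
      by_cases hr : r < l
      · rw [if_pos hr, if_pos hr]
        exact h r (by omega)
      · rw [if_neg hr, if_neg hr]
    rw [e]
  · intro i i' j hii
    exact Finset.sup_mono (Finset.range_mono (by omega))
  · intro i j
    have h1 : Q i j (M0 i (tr i j)) := by
      apply hloc i (tr i j) j _ _ (hM0 i (tr i j))
      intro l hl
      simp only [tr]
      rw [if_pos hl]
    refine hmono i j _ _ ?_ h1
    exact Finset.le_sup (f := fun l => M0 l (tr l j)) (Finset.mem_range.mpr (Nat.lt_succ_self i))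

end C2N
end

section

set_option autoImplicit false

/-!
Section 5.  `T w w = ∑ a_i^2 T z_i z_i + ∑_{i≠k} a_i a_k T z_i z_k ≥ e ∑ a_i^2 - e (∑ |a_i| 4^{-i-1})^2 ≥
(e/2) ∑ a_i^2` (Cauchy-Schwarz), and `T w w ≤ ‖T‖ ‖w‖^2`.
-/

namespace C2N

open Filter Topology Set

variable {X : Type*} [NormedAddCommGroup X] [NormedSpace ℝ X]

private theorem geo_range (N : ℕ) :
    ∑ i ∈ Finset.range N, (1 / 16 : ℝ) ^ (i + 1) ≤ 1 / 2 - 1 / 2 * (1 / 16 : ℝ) ^ N := by
  induction N with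
  | zero => simp
  | succ n ih =>
    rw [Finset.sum_range_succ]
    have hp : (0 : ℝ) < (1 / 16 : ℝ) ^ n := by positivity
    have e : (1 / 16 : ℝ) ^ (n + 1) = (1 / 16) * (1 / 16 : ℝ) ^ n := by rw [pow_succ]; ring
    rw [e]
    linarith

private theorem geo_fin (s : Finset ℕ) : ∑ i ∈ s, (1 / 16 : ℝ) ^ (i + 1) ≤ 1 / 2 := by
  obtain ⟨N, hN⟩ := s.exists_nat_subset_range
  have h1 : ∑ i ∈ s, (1 / 16 : ℝ) ^ (i + 1) ≤ ∑ i ∈ Finset.range N, (1 / 16 : ℝ) ^ (i + 1) :=
    Finset.sum_le_sum_of_subset_of_nonneg hN (fun i _ _ => by positivity)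
  have h2 := geo_range N
  have h3 : (0 : ℝ) < (1 / 16 : ℝ) ^ N := by positivity
  linarith

/-- Section 5: lower 2-estimate from the quadratic form. -/
theorem lower_two (T : X →L[ℝ] X →L[ℝ] ℝ) (e : ℝ) (he : 0 < e) (z : ℕ → X)
    (hT : ∀ k, e ≤ T (z k) (z k))
    (hc : ∀ k, ∀ i < k, |T (z i) (z k)| ≤ e * (1 / 4 : ℝ) ^ (i + k + 2) ∧
        |T (z k) (z i)| ≤ e * (1 / 4 : ℝ) ^ (i + k + 2)) (s : Finset ℕ) (a : ℕ → ℝ) :
    e / 2 * ∑ i ∈ s, (a i) ^ 2 ≤ ‖T‖ * ‖∑ i ∈ s, a i • z i‖ ^ 2 := by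
  set w := ∑ i ∈ s, a i • z i with hw
  have h1 : T w w = ∑ i ∈ s, ∑ j ∈ s, a i * a j * T (z i) (z j) := by
    rw [hw, map_sum, Finset.sum_comm]
    refine Finset.sum_congr rfl (fun j _ => ?_)
    rw [map_sum, sum_apply]
    refine Finset.sum_congr rfl (fun i _ => ?_)
    simp only [map_smul, smul_apply, smul_eq_mul]
    ring
  have h2 : ∀ i ∈ s, ∀ j ∈ s, (if i = j then e * (a i) ^ 2 else 0) -
      e * ((|a i| * (1 / 4 : ℝ) ^ (i + 1)) * (|a j| * (1 / 4 : ℝ) ^ (j + 1))) ≤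
      a i * a j * T (z i) (z j) := by
    intro i _ j _
    have hpos : 0 ≤ e * ((|a i| * (1 / 4 : ℝ) ^ (i + 1)) * (|a j| * (1 / 4 : ℝ) ^ (j + 1))) := by
      positivity
    by_cases hij : i = j
    · subst hij
      rw [if_pos rfl]
      have := mul_le_mul_of_nonneg_left (hT i) (sq_nonneg (a i))
      nlinarith
    · rw [if_neg hij]
      have h3 : |T (z i) (z j)| ≤ e * (1 / 4 : ℝ) ^ (i + j + 2) := by
        rcases lt_or_gt_of_ne hij with hlt | hlt
        · exact (hc j i hlt).1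
        · have := (hc i j hlt).2
          rwa [add_comm j i] at this
      have h4 : |a i * a j * T (z i) (z j)| ≤
          e * ((|a i| * (1 / 4 : ℝ) ^ (i + 1)) * (|a j| * (1 / 4 : ℝ) ^ (j + 1))) := by
        rw [abs_mul, abs_mul]
        calc |a i| * |a j| * |T (z i) (z j)| ≤ |a i| * |a j| * (e * (1 / 4 : ℝ) ^ (i + j + 2)) :=
              mul_le_mul_of_nonneg_left h3 (by positivity)
          _ = _ := by
              rw [show i + j + 2 = (i + 1) + (j + 1) by ring, pow_add]; ring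
      have := neg_le_of_abs_le h4
      linarith
  have h3 : ∑ i ∈ s, ∑ j ∈ s, ((if i = j then e * (a i) ^ 2 else 0) -
      e * ((|a i| * (1 / 4 : ℝ) ^ (i + 1)) * (|a j| * (1 / 4 : ℝ) ^ (j + 1)))) ≤ T w w := by
    rw [h1]
    exact Finset.sum_le_sum (fun i hi => Finset.sum_le_sum (fun j hj => h2 i hi j hj))
  have h4 : ∑ i ∈ s, ∑ j ∈ s, ((if i = j then e * (a i) ^ 2 else 0) -
      e * ((|a i| * (1 / 4 : ℝ) ^ (i + 1)) * (|a j| * (1 / 4 : ℝ) ^ (j + 1)))) =
      e * ∑ i ∈ s, (a i) ^ 2 - e * (∑ i ∈ s, |a i| * (1 / 4 : ℝ) ^ (i + 1)) ^ 2 := by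
    simp only [Finset.sum_sub_distrib]
    congr 1
    · rw [Finset.mul_sum]
      refine Finset.sum_congr rfl (fun i hi => ?_)
      rw [Finset.sum_ite_eq s i (fun _ => e * (a i) ^ 2), if_pos hi]
    · rw [sq, Finset.sum_mul_sum, Finset.mul_sum]
      refine Finset.sum_congr rfl (fun i _ => ?_)
      rw [Finset.mul_sum]
  have h5 : (∑ i ∈ s, |a i| * (1 / 4 : ℝ) ^ (i + 1)) ^ 2 ≤
      (∑ i ∈ s, (a i) ^ 2) * (1 / 2) := by
    have h6 := Finset.sum_mul_sq_le_sq_mul_sq s (fun i => |a i|) (fun i => (1 / 4 : ℝ) ^ (i + 1))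
    have h7 : ∑ i ∈ s, ((1 / 4 : ℝ) ^ (i + 1)) ^ 2 = ∑ i ∈ s, (1 / 16 : ℝ) ^ (i + 1) := by
      refine Finset.sum_congr rfl (fun i _ => ?_)
      rw [← pow_mul, mul_comm, pow_mul]; norm_num
    simp only [sq_abs] at h6
    rw [h7] at h6
    exact h6.trans (mul_le_mul_of_nonneg_left (geo_fin s)
      (Finset.sum_nonneg (fun i _ => sq_nonneg _)))
  have h8 : T w w ≤ ‖T‖ * ‖w‖ ^ 2 := by
    calc T w w ≤ ‖T w w‖ := Real.le_norm_self _
      _ ≤ ‖T w‖ * ‖w‖ := (T w).le_opNorm w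
      _ ≤ (‖T‖ * ‖w‖) * ‖w‖ := mul_le_mul_of_nonneg_right (T.le_opNorm w) (norm_nonneg _)
      _ = ‖T‖ * ‖w‖ ^ 2 := by ring
  rw [h4] at h3
  nlinarith [mul_le_mul_of_nonneg_left h5 he.le]

end C2N
end

section

set_option autoImplicit false

/-!
Section 5 of paper 371.  The unit sphere of the finite dimensional span `V` has a finite net
`u_1..u_N` with mesh `η/(4C)`; `TailsVanish` gives `m` with `resN (tail g m) (P u_i) ≤ η/2`, and
`resN (tail g m) (T (z i)), resN (tail g m) (T · (z i)) ≤ η` (`T.flip`).  For a unit vector `u ∈ V`: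
`|P u v| ≤ |P u_i v| + 2C‖u-u_i‖‖v‖ ≤ η‖v‖`.  `P` is positively homogeneous (uniqueness of the
derivative of `‖·‖^2`; or scale the two-sided estimate).
-/

namespace C2N

open Filter Topology Set

variable {X : Type*} [NormedAddCommGroup X] [NormedSpace ℝ X]

private theorem eq_zero_of_quad (L : X →L[ℝ] ℝ) (C : ℝ) (h : ∀ y, |L y| ≤ C * ‖y‖ ^ 2) (y : X) :
    L y = 0 := by
  have h1 : ∀ t : ℝ, 0 < t → |L y| ≤ t * (C * ‖y‖ ^ 2) := by
    intro t ht
    have h2 := h (t • y)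
    rw [map_smul, smul_eq_mul, abs_mul, abs_of_pos ht, norm_smul, Real.norm_eq_abs,
      abs_of_pos ht] at h2
    have h3 : t * |L y| ≤ t * (t * (C * ‖y‖ ^ 2)) := by
      refine h2.trans (le_of_eq ?_)
      ring
    exact le_of_mul_le_mul_left h3 ht
  have h4 : Tendsto (fun t : ℝ => t * (C * ‖y‖ ^ 2)) (𝓝[>] 0) (𝓝 (0 * (C * ‖y‖ ^ 2))) :=
    ((continuous_id.mul continuous_const).tendsto 0).mono_left nhdsWithin_le_nhds
  have h5 : |L y| ≤ 0 * (C * ‖y‖ ^ 2) :=
    ge_of_tendsto h4 (eventually_nhdsWithin_of_forall fun t ht => h1 t ht)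
  rw [zero_mul] at h5
  exact abs_nonpos_iff.1 h5

private theorem TwoS.homog {C : ℝ} {P : X → X →L[ℝ] ℝ} (h : TwoS C P) {r : ℝ} (hr : 0 < r)
    (x y : X) : P (r • x) y = r * P x y := by
  have h1 : ∀ y, |(P (r • x) - r • P x) y| ≤ C * ‖y‖ ^ 2 := by
    intro y
    have a1 := h.lower (r • x) y
    have a2 := h.upper (r • x) y
    have b1 := h.lower x (r⁻¹ • y)
    have b2 := h.upper x (r⁻¹ • y)
    have e1 : r • x + y = r • (x + r⁻¹ • y) := by
      rw [smul_add, smul_smul, mul_inv_cancel₀ hr.ne', one_smul]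
    have e2 : ‖r • x + y‖ ^ 2 = r ^ 2 * ‖x + r⁻¹ • y‖ ^ 2 := by
      rw [e1, norm_smul, Real.norm_eq_abs, abs_of_pos hr, mul_pow]
    have e3 : ‖r • x‖ ^ 2 = r ^ 2 * ‖x‖ ^ 2 := by
      rw [norm_smul, Real.norm_eq_abs, abs_of_pos hr, mul_pow]
    have e4 : ‖r⁻¹ • y‖ ^ 2 = (r⁻¹) ^ 2 * ‖y‖ ^ 2 := by
      rw [norm_smul, Real.norm_eq_abs, abs_of_pos (inv_pos.2 hr), mul_pow]
    rw [e2, e3] at a1 a2
    rw [map_smul, smul_eq_mul] at b1 b2
    rw [e4] at b2
    have hr2 : (0 : ℝ) < r ^ 2 := by positivity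
    have c1 := mul_le_mul_of_nonneg_left b1 hr2.le
    have c2 := mul_le_mul_of_nonneg_left b2 hr2.le
    have e5 : r ^ 2 * (C * ((r⁻¹) ^ 2 * ‖y‖ ^ 2)) = C * ‖y‖ ^ 2 := by
      field_simp
    have e6 : r ^ 2 * (‖x + r⁻¹ • y‖ ^ 2 - ‖x‖ ^ 2 - r⁻¹ * P x y) =
        r ^ 2 * ‖x + r⁻¹ • y‖ ^ 2 - r ^ 2 * ‖x‖ ^ 2 - r * P x y := by
      field_simp
    rw [e5, e6] at c2
    rw [e6, mul_zero] at c1
    rw [ContinuousLinearMap.sub_apply, ContinuousLinearMap.smul_apply, smul_eq_mul, abs_le]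
    constructor <;> linarith
  have h2 := eq_zero_of_quad _ C h1 y
  rw [ContinuousLinearMap.sub_apply, ContinuousLinearMap.smul_apply, smul_eq_mul] at h2
  linarith

/-- Section 5, selection step: given finitely many vectors `z i` (`i < k`) and `η > 0` there is `m`
such that `|P u v| ≤ η ‖u‖ ‖v‖` for `u` in their span and `v` in the tail, and
`|T (z i) v| , |T v (z i)| ≤ η ‖v‖`. (finite net of the unit sphere of the span, `TwoS.lip`) -/
theorem select_step {C : ℝ} {P : X → X →L[ℝ] ℝ} (h : TwoS C P) {g : ℕ → X →L[ℝ] ℝ}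
    (hg : TailsVanish g) (T : X →L[ℝ] X →L[ℝ] ℝ) (k : ℕ) (z : ℕ → X) (η : ℝ) (hη : 0 < η) :
    ∃ m : ℕ, ∀ v ∈ tail g m,
      (∀ u ∈ Submodule.span ℝ (z '' Iio k), |P u v| ≤ η * ‖u‖ * ‖v‖) ∧
      ∀ i < k, |T (z i) v| ≤ η * ‖v‖ ∧ |T v (z i)| ≤ η * ‖v‖ := by
  have hC : 1 ≤ C := h.one_le
  have hC0 : 0 < C := by linarith
  set V := Submodule.span ℝ (z '' Iio k) with hV
  haveI : FiniteDimensional ℝ V :=
    FiniteDimensional.span_of_finite ℝ ((Set.finite_Iio k).image z)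
  have hcomp : IsCompact ((fun v : V => (v : X)) '' Metric.sphere (0 : V) 1) :=
    (isCompact_sphere _ _).image continuous_subtype_val
  have hε : 0 < η / (4 * C) := by positivity
  obtain ⟨t, htS, htfin, hcov⟩ := hcomp.finite_cover_balls hε
  have h1 : ∀ᶠ m in atTop, ∀ u ∈ t, resN (tail g m) (P u) ≤ η / 2 :=
    (Filter.eventually_all_finite htfin).2 fun u _ =>
      (hg (P u)).eventually_le_const (by positivity)
  have h2 : ∀ᶠ m in atTop, ∀ i ∈ Iio k, resN (tail g m) (T (z i)) ≤ η :=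
    (Filter.eventually_all_finite (Set.finite_Iio k)).2 fun i _ =>
      (hg (T (z i))).eventually_le_const hη
  have h3 : ∀ᶠ m in atTop, ∀ i ∈ Iio k, resN (tail g m) (T.flip (z i)) ≤ η :=
    (Filter.eventually_all_finite (Set.finite_Iio k)).2 fun i _ =>
      (hg (T.flip (z i))).eventually_le_const hη
  obtain ⟨m, hm1, hm2, hm3⟩ := (h1.and (h2.and h3)).exists
  refine ⟨m, fun v hv => ⟨?_, ?_⟩⟩
  · intro u hu
    rcases eq_or_ne u 0 with h0 | h0
    · rw [h0, h.zero]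
      simp
    · have hu0 : 0 < ‖u‖ := norm_pos_iff.2 h0
      set w : X := ‖u‖⁻¹ • u with hw
      have hwV : w ∈ V := V.smul_mem _ hu
      have hwn : ‖w‖ = 1 := by
        rw [hw, norm_smul, norm_inv, norm_norm, inv_mul_cancel₀ hu0.ne']
      have huw : u = ‖u‖ • w := by
        rw [hw, smul_smul, mul_inv_cancel₀ hu0.ne', one_smul]
      have hwS : w ∈ (fun v : V => (v : X)) '' Metric.sphere (0 : V) 1 := by
        refine ⟨⟨w, hwV⟩, ?_, rfl⟩
        rw [mem_sphere_zero_iff_norm]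
        exact hwn
      obtain ⟨u', hu't, hball⟩ := mem_iUnion₂.1 (hcov hwS)
      have hd : ‖w - u'‖ ≤ η / (4 * C) := by
        rw [← dist_eq_norm]
        exact (Metric.mem_ball.1 hball).le
      have a1 : |P u' v| ≤ η / 2 * ‖v‖ :=
        (abs_le_resN _ hv).trans (mul_le_mul_of_nonneg_right (hm1 u' hu't) (norm_nonneg _))
      have a2 : |(P w - P u') v| ≤ η / 2 * ‖v‖ := by
        refine ((P w - P u').le_opNorm v).trans
          (mul_le_mul_of_nonneg_right ((h.lip w u').trans ?_) (norm_nonneg _))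
        have := mul_le_mul_of_nonneg_left hd (by positivity : (0 : ℝ) ≤ 2 * C)
        refine this.trans (le_of_eq ?_)
        field_simp
        norm_num
      have a3 : |P w v| ≤ η * ‖v‖ := by
        have e : P w v = P u' v + (P w - P u') v := by
          rw [ContinuousLinearMap.sub_apply]; ring
        rw [e]
        refine (abs_add_le _ _).trans ?_
        linarith
      have a4 : P u v = ‖u‖ * P w v := by
        conv_lhs => rw [huw]
        exact h.homog hu0 w v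
      rw [a4, abs_mul, abs_of_pos hu0]
      have := mul_le_mul_of_nonneg_left a3 hu0.le
      refine this.trans (le_of_eq ?_)
      ring
  · intro i hi
    refine ⟨(abs_le_resN _ hv).trans (mul_le_mul_of_nonneg_right (hm2 i hi) (norm_nonneg _)), ?_⟩
    have e : T v (z i) = T.flip (z i) v := rfl
    rw [e]
    exact (abs_le_resN _ hv).trans (mul_le_mul_of_nonneg_right (hm3 i hi) (norm_nonneg _))

end C2N
end

section

set_option autoImplicit false

/-!
Section 5.  First for `s = range n` (put `a i = 0` off `s`): `w (k+1) = w k + a k z k`,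
`‖w (k+1)‖^2 ≤ ‖w k‖^2 + |a k| 4^{-k-1} ‖w k‖ + C (a k)^2 ≤ (1 + 4^{-k-1})‖w k‖^2 + (C+1)(a k)^2`,
and `∏ (1 + 4^{-k-1}) ≤ 2`.
-/

namespace C2N

open Filter Topology Set

variable {X : Type*} [NormedAddCommGroup X] [NormedSpace ℝ X]

private theorem upper_two_range {C : ℝ} {P : X → X →L[ℝ] ℝ} (h : TwoS C P) (z : ℕ → X)
    (hz : ∀ k, ‖z k‖ = 1)
    (hP : ∀ k, ∀ u ∈ Submodule.span ℝ (z '' Iio k), |P u (z k)| ≤ (1 / 4 : ℝ) ^ (k + 1) * ‖u‖)
    (b : ℕ → ℝ) (n : ℕ) :
    ‖∑ i ∈ Finset.range n, b i • z i‖ ^ 2 ≤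
      (2 - (1 / 2 : ℝ) ^ n) * (C + 1) * ∑ i ∈ Finset.range n, (b i) ^ 2 := by
  have hC : 1 ≤ C := h.one_le
  induction n with
  | zero => simp
  | succ n ih =>
    rw [Finset.sum_range_succ, Finset.sum_range_succ]
    set w := ∑ i ∈ Finset.range n, b i • z i with hw
    set S := ∑ i ∈ Finset.range n, (b i) ^ 2 with hS
    have hS0 : 0 ≤ S := Finset.sum_nonneg (fun i _ => sq_nonneg _)
    have hmem : w ∈ Submodule.span ℝ (z '' Iio n) := by
      refine Submodule.sum_mem _ (fun i hi => Submodule.smul_mem _ _ (Submodule.subset_span ?_))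
      exact ⟨i, by simpa using hi, rfl⟩
    have h1 := h.upper w (b n • z n)
    have h2 := hP n w hmem
    rw [map_smul, smul_eq_mul, norm_smul, hz n, mul_one, Real.norm_eq_abs, sq_abs] at h1
    have h3 : b n * P w (z n) ≤ |b n| * ((1 / 4 : ℝ) ^ (n + 1) * ‖w‖) := by
      calc b n * P w (z n) ≤ |b n * P w (z n)| := le_abs_self _
        _ = |b n| * |P w (z n)| := abs_mul _ _
        _ ≤ _ := mul_le_mul_of_nonneg_left h2 (abs_nonneg _)
    have hq : (0 : ℝ) < (1 / 4 : ℝ) ^ (n + 1) := by positivity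
    have hq1 : (1 / 4 : ℝ) ^ (n + 1) ≤ 1 := pow_le_one₀ (by norm_num) (by norm_num)
    have h4 : |b n| * ((1 / 4 : ℝ) ^ (n + 1) * ‖w‖) ≤
        (1 / 4 : ℝ) ^ (n + 1) * ‖w‖ ^ 2 + (b n) ^ 2 := by
      have h5 : |b n| * ‖w‖ ≤ ‖w‖ ^ 2 + (b n) ^ 2 := by
        rw [← sq_abs (b n)]
        nlinarith [sq_nonneg (|b n| - ‖w‖), sq_nonneg (|b n|), sq_nonneg ‖w‖]
      nlinarith [mul_le_mul_of_nonneg_left h5 hq.le, sq_nonneg (b n)]
    have h6 : (2 - (1 / 2 : ℝ) ^ n) * (1 + (1 / 4 : ℝ) ^ (n + 1)) ≤ 2 - (1 / 2 : ℝ) ^ (n + 1) := by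
      have e1 : (1 / 4 : ℝ) ^ (n + 1) = 1 / 4 * ((1 / 2 : ℝ) ^ n * (1 / 2 : ℝ) ^ n) := by
        rw [← mul_pow, pow_succ]; norm_num; ring
      have e2 : (1 / 2 : ℝ) ^ (n + 1) = 1 / 2 * (1 / 2 : ℝ) ^ n := by rw [pow_succ]; ring
      have hy0 : (0 : ℝ) < (1 / 2 : ℝ) ^ n := by positivity
      have hy1 : (1 / 2 : ℝ) ^ n ≤ 1 := pow_le_one₀ (by norm_num) (by norm_num)
      rw [e1, e2]
      set y := (1 / 2 : ℝ) ^ n
      nlinarith [mul_pos hy0 hy0, mul_nonneg hy0.le (sub_nonneg.2 hy1),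
        mul_pos (mul_pos hy0 hy0) hy0]
    have h7 : (1 : ℝ) ≤ 2 - (1 / 2 : ℝ) ^ (n + 1) := by
      have : (1 / 2 : ℝ) ^ (n + 1) ≤ 1 := pow_le_one₀ (by norm_num) (by norm_num)
      linarith
    calc ‖w + b n • z n‖ ^ 2
        ≤ (1 + (1 / 4 : ℝ) ^ (n + 1)) * ‖w‖ ^ 2 + (C + 1) * (b n) ^ 2 := by nlinarith
      _ ≤ (1 + (1 / 4 : ℝ) ^ (n + 1)) * ((2 - (1 / 2 : ℝ) ^ n) * (C + 1) * S) +
          (C + 1) * (b n) ^ 2 := by
          have := mul_le_mul_of_nonneg_left ih (show (0 : ℝ) ≤ 1 + (1 / 4 : ℝ) ^ (n + 1) by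
            positivity)
          linarith
      _ ≤ (2 - (1 / 2 : ℝ) ^ (n + 1)) * (C + 1) * S +
          (2 - (1 / 2 : ℝ) ^ (n + 1)) * ((C + 1) * (b n) ^ 2) := by
          have t1 := mul_le_mul_of_nonneg_right h6 (show 0 ≤ (C + 1) * S by positivity)
          have t2 : 1 * ((C + 1) * (b n) ^ 2) ≤
              (2 - (1 / 2 : ℝ) ^ (n + 1)) * ((C + 1) * (b n) ^ 2) :=
            mul_le_mul_of_nonneg_right h7 (by positivity)
          nlinarith
      _ = (2 - (1 / 2 : ℝ) ^ (n + 1)) * (C + 1) * (S + (b n) ^ 2) := by ring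

/-- Section 5: upper 2-estimate. Induction on the finite set `range n`, then restrict. -/
theorem upper_two {C : ℝ} {P : X → X →L[ℝ] ℝ} (h : TwoS C P) (z : ℕ → X) (hz : ∀ k, ‖z k‖ = 1)
    (hP : ∀ k, ∀ u ∈ Submodule.span ℝ (z '' Iio k), |P u (z k)| ≤ (1 / 4 : ℝ) ^ (k + 1) * ‖u‖)
    (s : Finset ℕ) (a : ℕ → ℝ) :
    ‖∑ i ∈ s, a i • z i‖ ^ 2 ≤ 4 * (C + 1) * ∑ i ∈ s, (a i) ^ 2 := by
  have hC : 1 ≤ C := h.one_le
  obtain ⟨N, hN⟩ := s.exists_nat_subset_range
  have hinter : Finset.range N ∩ s = s := Finset.inter_eq_right.2 hN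
  have h1 := upper_two_range h z hz hP (fun i => if i ∈ s then a i else 0) N
  simp only [ite_smul, zero_smul, ite_pow, ne_eq, OfNat.ofNat_ne_zero, not_false_eq_true,
    zero_pow, Finset.sum_ite_mem, hinter] at h1
  have hS0 : 0 ≤ ∑ i ∈ s, (a i) ^ 2 := Finset.sum_nonneg (fun i _ => sq_nonneg _)
  refine h1.trans ?_
  have hy0 : (0 : ℝ) < (1 / 2 : ℝ) ^ N := by positivity
  have : (2 - (1 / 2 : ℝ) ^ N) * ((C + 1) * ∑ i ∈ s, (a i) ^ 2) ≤
      4 * ((C + 1) * ∑ i ∈ s, (a i) ^ 2) :=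
    mul_le_mul_of_nonneg_right (by linarith) (by positivity)
  linarith

end C2N
end

section

set_option autoImplicit false

/-!
Recursive choice with `select_step`: at step `k` take `η = min ((1/4)^(k+1)) (e (1/4)^(2k+2))` and
`z k ∈ tail g m`, `‖z k‖ = 1`, `e ≤ T (z k) (z k)`.
-/

namespace C2N

open Filter Topology Set

variable {X : Type*} [NormedAddCommGroup X] [NormedSpace ℝ X]

/-- recursive choice of a sequence, each term depending on the list of the previous ones -/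
private theorem exists_seq_strong {X : Type*} (p : (k : ℕ) → (ℕ → X) → X → Prop)
    (hloc : ∀ k (z z' : ℕ → X) v, (∀ i < k, z i = z' i) → p k z v → p k z' v) (x₀ : X)
    (hex : ∀ k (z : ℕ → X), ∃ v, p k z v) :
    ∃ z : ℕ → X, ∀ k, p k z (z k) := by
  classical
  choose f hf using hex
  -- the finite approximations
  let F : ℕ → (ℕ → X) := fun n => Nat.rec (fun _ => x₀) (fun k z => Function.update z k (f k z)) n
  have hF0 : ∀ k, F (k + 1) = Function.update (F k) k (f k (F k)) := fun k => rfl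
  have hstab : ∀ n k i, i < n → F (n + k) i = F n i := by
    intro n k i hi
    induction k with
    | zero => rfl
    | succ k ih =>
      rw [← Nat.add_assoc, hF0, Function.update_of_ne (by omega), ih]
  refine ⟨fun k => F (k + 1) k, fun k => ?_⟩
  have h1 : F (k + 1) k = f k (F k) := by
    rw [hF0, Function.update_self]
  show p k _ (F (k + 1) k)
  rw [h1]
  refine hloc k (F k) _ _ (fun i hi => ?_) (hf k (F k))
  obtain ⟨j, hj⟩ : ∃ j, k = (i + 1) + j := ⟨k - (i + 1), by omega⟩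
  rw [hj]
  exact hstab (i + 1) j i (Nat.lt_succ_self i)

/-- Section 5, selection: a normalised sequence in the tails with `T (z k) (z k) ≥ e`, small cross
terms and almost upper 2-estimates. -/
theorem select_seq {C : ℝ} {P : X → X →L[ℝ] ℝ} (h : TwoS C P) {g : ℕ → X →L[ℝ] ℝ}
    (hg : TailsVanish g) (T : X →L[ℝ] X →L[ℝ] ℝ) (e : ℝ) (he : 0 < e)
    (hT : ∀ m, ∃ v ∈ tail g m, ‖v‖ = 1 ∧ e ≤ T v v) :
    ∃ z : ℕ → X, (∀ k, ‖z k‖ = 1) ∧ (∀ k, e ≤ T (z k) (z k)) ∧
      (∀ k, ∀ u ∈ Submodule.span ℝ (z '' Iio k), |P u (z k)| ≤ (1 / 4 : ℝ) ^ (k + 1) * ‖u‖) ∧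
      ∀ k, ∀ i < k, |T (z i) (z k)| ≤ e * (1 / 4 : ℝ) ^ (i + k + 2) ∧
        |T (z k) (z i)| ≤ e * (1 / 4 : ℝ) ^ (i + k + 2) := by
  obtain ⟨z, hz⟩ := exists_seq_strong (X := X)
    (fun k z v => ‖v‖ = 1 ∧ e ≤ T v v ∧
      (∀ u ∈ Submodule.span ℝ (z '' Iio k), |P u v| ≤ (1 / 4 : ℝ) ^ (k + 1) * ‖u‖) ∧
      ∀ i < k, |T (z i) v| ≤ e * (1 / 4 : ℝ) ^ (i + k + 2) ∧
        |T v (z i)| ≤ e * (1 / 4 : ℝ) ^ (i + k + 2))
    (by
      rintro k z z' v hzz ⟨h1, h2, h3, h4⟩
      have himg : z '' Iio k = z' '' Iio k := by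
        apply Set.image_congr
        intro i hi
        exact hzz i hi
      refine ⟨h1, h2, ?_, ?_⟩
      · rw [← himg]
        exact h3
      · intro i hi
        rw [← hzz i hi]
        exact h4 i hi)
    0
    (by
      intro k z
      obtain ⟨m, hm⟩ := select_step h hg T k z
        (min ((1 / 4 : ℝ) ^ (k + 1)) (e * (1 / 4 : ℝ) ^ (2 * k + 2))) (by positivity)
      obtain ⟨v, hv, hv1, hv2⟩ := hT m
      obtain ⟨a1, a2⟩ := hm v hv
      refine ⟨v, hv1, hv2, ?_, ?_⟩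
      · intro u hu
        have h1 := a1 u hu
        rw [hv1, mul_one] at h1
        exact h1.trans (mul_le_mul_of_nonneg_right (min_le_left _ _) (norm_nonneg _))
      · intro i hi
        obtain ⟨b1, b2⟩ := a2 i hi
        rw [hv1, mul_one] at b1 b2
        have h1 : min ((1 / 4 : ℝ) ^ (k + 1)) (e * (1 / 4 : ℝ) ^ (2 * k + 2)) ≤
            e * (1 / 4 : ℝ) ^ (i + k + 2) := by
          refine (min_le_right _ _).trans (mul_le_mul_of_nonneg_left ?_ he.le)
          exact pow_le_pow_of_le_one (by norm_num) (by norm_num) (by omega)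
        exact ⟨b1.trans h1, b2.trans h1⟩)
  exact ⟨z, fun k => (hz k).1, fun k => (hz k).2.1, fun k => (hz k).2.2.1,
    fun k => (hz k).2.2.2⟩

end C2N
end

section

set_option autoImplicit false

namespace C2N

open Filter Topology Set

variable {X : Type*} [NormedAddCommGroup X] [NormedSpace ℝ X]

/-- Section 5: no `l_2` implies that every bounded bilinear form is small on the diagonal of the
tails. -/
theorem quad_tail {C : ℝ} {P : X → X →L[ℝ] ℝ} (h : TwoS C P) {g : ℕ → X →L[ℝ] ℝ}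
    (hg : TailsVanish g) (hX : ¬ ContainsL2 X) (T : X →L[ℝ] X →L[ℝ] ℝ) (e : ℝ) (he : 0 < e) :
    ∃ m : ℕ, ∀ v ∈ tail g m, |T v v| ≤ e * ‖v‖ ^ 2 := by
  by_contra hcon
  push Not at hcon
  -- one of the two signs occurs on every tail
  have key : ∀ (S : X →L[ℝ] X →L[ℝ] ℝ), (∀ m, ∃ v ∈ tail g m, e * ‖v‖ ^ 2 < S v v) → False := by
    intro S hS
    have hS' : ∀ m, ∃ v ∈ tail g m, ‖v‖ = 1 ∧ e ≤ S v v := by
      intro m
      obtain ⟨v, hv, hv2⟩ := hS m
      have hv0 : v ≠ 0 := by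
        rintro rfl
        simp at hv2
      have hn : 0 < ‖v‖ := norm_pos_iff.mpr hv0
      refine ⟨‖v‖⁻¹ • v, (tail g m).smul_mem _ hv, ?_, ?_⟩
      · rw [norm_smul, norm_inv, norm_norm, inv_mul_cancel₀ hn.ne']
      · simp only [map_smul, smul_apply, smul_eq_mul]
        have h1 : e * ‖v‖ ^ 2 ≤ S v v := hv2.le
        calc e = ‖v‖⁻¹ * (‖v‖⁻¹ * (e * ‖v‖ ^ 2)) := by field_simp
          _ ≤ ‖v‖⁻¹ * (‖v‖⁻¹ * S v v) := by gcongr
    obtain ⟨z, hz1, hz2, hz3, hz4⟩ := select_seq h hg S e he hS'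
    have hT0 : 0 < ‖S‖ := by
      have h2 := hz2 0
      have h3 := S.le_opNorm₂ (z 0) (z 0)
      rw [hz1 0, Real.norm_eq_abs, mul_one, mul_one] at h3
      linarith [le_abs_self (S (z 0) (z 0))]
    refine hX ⟨z, e / (2 * ‖S‖), 4 * (C + 1), by positivity, ?_, fun s a => ⟨?_, ?_⟩⟩
    · have := h.one_le; positivity
    · have h1 := lower_two S e he z hz2 hz4 s a
      rw [div_mul_eq_mul_div, div_le_iff₀ (by positivity)]
      linarith
    · exact upper_two h z hz1 hz3 s a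
  by_cases h1 : ∀ m, ∃ v ∈ tail g m, e * ‖v‖ ^ 2 < T v v
  · exact key T h1
  · push Not at h1
    obtain ⟨m0, hm0⟩ := h1
    refine key (-T) (fun m => ?_)
    obtain ⟨v, hv, hv2⟩ := hcon (max m m0)
    refine ⟨v, tail_anti (le_max_left _ _) hv, ?_⟩
    have h3 := hm0 v (tail_anti (le_max_right _ _) hv)
    simp only [neg_apply]
    rcases abs_cases (T v v) with ⟨h4, _⟩ | ⟨h4, _⟩
    · rw [h4] at hv2; linarith
    · rw [h4] at hv2; exact hv2

end C2N
end

section

set_option autoImplicit false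

/-!
Section 6 of paper 371: `exists_mono_choice` with `Q i j m` = (for all `l` with `l+1 = i`: `j l ≤ m`) and
the three estimates for `i, j` on `tail g m` (the third for all `l ≤ i`, finitely many).  They hold for
large `m` by `TailsVanish` and `quad_tail`; they are monotone by `tail_anti`, `resN_mono`; `ctr y j i`
depends only on `j 0, .., j (i-1)`.
-/

namespace C2N

open Filter Topology Set

variable {X : Type*} [NormedAddCommGroup X] [NormedSpace ℝ X]

private theorem ctr_congr (y : ℕ → X) (i : ℕ) (j j' : ℕ → ℕ) (h : ∀ l < i, j l = j' l) :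
    ∀ l ≤ i, ctr y j l = ctr y j' l := by
  intro l hl
  cases l with
  | zero => rfl
  | succ l => exact congrArg y (h l hl)

/-- F4. Existence of the choice `m` (conditions (a), (b), (c) and the label condition), by
`exists_mono_choice`. -/
theorem exists_m (C : ℝ) (P : X → X →L[ℝ] ℝ) (h : TwoS C P) (g : ℕ → X →L[ℝ] ℝ)
    (hg : TailsVanish g) (hX : ¬ ContainsL2 X) (b : X → ℝ) (hb : ContDiff ℝ 2 b) (y : ℕ → X)
    (d : X → ℝ) (hd : ∀ x, 0 < d x) (ε : ℝ) (hε : 0 < ε) :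
    ∃ m : ℕ → (ℕ → ℕ) → ℕ, (∀ i j j', (∀ l < i, j l = j' l) → m i j = m i j') ∧
      (∀ i i' j, i ≤ i' → m i j ≤ m i' j) ∧ (∀ l j, j l ≤ m (l + 1) j) ∧
      (∀ i l j, l ≤ i →
        resN (tail g (m i j)) (P (ctr y j i - ctr y j l)) ≤ (1 / 2 : ℝ) ^ (i + 3) * d (ctr y j i)) ∧
      (∀ i j, resN (tail g (m i j)) (fderiv ℝ b (ctr y j i)) ≤ ε * d (ctr y j i) / 2) ∧
      ∀ i j, ∀ v ∈ tail g (m i j),
        |fderiv ℝ (fderiv ℝ b) (ctr y j i) v v| ≤ ε * ‖v‖ ^ 2 := by
  have hex : ∀ (i : ℕ) (j : ℕ → ℕ), ∃ m : ℕ, (∀ l, l + 1 = i → j l ≤ m) ∧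
      (∀ l ≤ i, resN (tail g m) (P (ctr y j i - ctr y j l)) ≤
        (1 / 2 : ℝ) ^ (i + 3) * d (ctr y j i)) ∧
      resN (tail g m) (fderiv ℝ b (ctr y j i)) ≤ ε * d (ctr y j i) / 2 ∧
      ∀ v ∈ tail g m, |fderiv ℝ (fderiv ℝ b) (ctr y j i) v v| ≤ ε * ‖v‖ ^ 2 := by
    intro i j
    have hdi := hd (ctr y j i)
    obtain ⟨m4, hm4⟩ := quad_tail h hg hX (fderiv ℝ (fderiv ℝ b) (ctr y j i)) ε hε
    have e1 : ∀ᶠ m in atTop, ∀ l ∈ {l : ℕ | l + 1 = i}, j l ≤ m :=
      (Filter.eventually_all_finite ((Set.finite_Iio i).subset fun l hl => by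
        have : l + 1 = i := hl
        exact Set.mem_Iio.2 (by omega))).2 fun l _ => eventually_ge_atTop (j l)
    have e2 : ∀ᶠ m in atTop, ∀ l ∈ Iic i, resN (tail g m) (P (ctr y j i - ctr y j l)) ≤
        (1 / 2 : ℝ) ^ (i + 3) * d (ctr y j i) :=
      (Filter.eventually_all_finite (Set.finite_Iic i)).2 fun l _ =>
        (hg _).eventually_le_const (by positivity)
    have e3 : ∀ᶠ m in atTop,
        resN (tail g m) (fderiv ℝ b (ctr y j i)) ≤ ε * d (ctr y j i) / 2 :=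
      (hg _).eventually_le_const (by positivity)
    obtain ⟨m, h1, h2, h3, h4⟩ := (e1.and (e2.and (e3.and (eventually_ge_atTop m4)))).exists
    exact ⟨m, fun l hl => h1 l hl, fun l hl => h2 l hl, h3,
      fun v hv => hm4 v (tail_anti h4 hv)⟩
  obtain ⟨m, m1, m2, m3⟩ := exists_mono_choice
    (fun i j m => (∀ l, l + 1 = i → j l ≤ m) ∧
      (∀ l ≤ i, resN (tail g m) (P (ctr y j i - ctr y j l)) ≤
        (1 / 2 : ℝ) ^ (i + 3) * d (ctr y j i)) ∧
      resN (tail g m) (fderiv ℝ b (ctr y j i)) ≤ ε * d (ctr y j i) / 2 ∧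
      ∀ v ∈ tail g m, |fderiv ℝ (fderiv ℝ b) (ctr y j i) v v| ≤ ε * ‖v‖ ^ 2)
    (by
      rintro i j j' m hj ⟨h1, h2, h3, h4⟩
      have hc := ctr_congr y i j j' hj
      have hci := hc i le_rfl
      refine ⟨fun l hl => ?_, fun l hl => ?_, ?_, ?_⟩
      · rw [← hj l (by omega)]
        exact h1 l hl
      · rw [← hci, ← hc l hl]
        exact h2 l hl
      · rw [← hci]
        exact h3
      · rw [← hci]
        exact h4)
    (by
      rintro i j m m' hm ⟨h1, h2, h3, h4⟩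
      have ht : tail g m' ≤ tail g m := tail_anti hm
      exact ⟨fun l hl => (h1 l hl).trans hm, fun l hl => (resN_mono ht _).trans (h2 l hl),
        (resN_mono ht _).trans h3, fun v hv => h4 v (ht hv)⟩)
    hex
  exact ⟨m, m1, m2, fun l j => (m3 (l + 1) j).1 l rfl, fun i l j hl => (m3 i j).2.1 l hl,
    fun i j => (m3 i j).2.2.1, fun i j => (m3 i j).2.2.2⟩

end C2N
end

section

set_option autoImplicit false

/-!
Section 6 of paper 371.  `ω x = sSup {t | 0 < t ≤ 1, ∀ u v ∈ closedBall x t, ‖D u - D v‖ ≤ ε}`: nonempty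
by continuity, 1-Lipschitz (`closedBall z (t - ‖x-z‖) ⊆ closedBall x t`).  `d = ω/8`; `4 d < ω`.
-/

namespace C2N

open Filter Topology Set

variable {X : Type*} [NormedAddCommGroup X] [NormedSpace ℝ X]

/-- F1. Scale function: `d = ω / 8`, `ω x = sup {t ≤ 1 : ‖D u - D v‖ ≤ ε for u, v ∈ B(x,t)}`, which is
1-Lipschitz and positive. -/
theorem exists_scale {E : Type*} [NormedAddCommGroup E] (D : X → E) (hD : Continuous D) (ε : ℝ)
    (hε : 0 < ε) :
    ∃ d : X → ℝ, (∀ x, 0 < d x) ∧ (∀ x, d x ≤ 1 / 8) ∧ (∀ x z, |d x - d z| ≤ 1 / 8 * ‖x - z‖) ∧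
      ∀ x v, ‖v - x‖ ≤ 4 * d x → ‖D v - D x‖ ≤ ε := by
  let S : X → Set ℝ := fun x => {t : ℝ | 0 < t ∧ t ≤ 1 ∧
    ∀ u v, ‖u - x‖ ≤ t → ‖v - x‖ ≤ t → ‖D u - D v‖ ≤ ε}
  have hbdd : ∀ x, BddAbove (S x) := fun x => ⟨1, fun t ht => ht.2.1⟩
  have hne : ∀ x, ∃ t, t ∈ S x := by
    intro x
    obtain ⟨δ, hδ, h⟩ := Metric.continuous_iff.1 hD x (ε / 2) (by positivity)
    refine ⟨min 1 (δ / 2), lt_min one_pos (by positivity), min_le_left _ _, fun u v hu hv => ?_⟩
    have h1 := h u (by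
      rw [dist_eq_norm]
      exact lt_of_le_of_lt (hu.trans (min_le_right _ _)) (by linarith))
    have h2 := h v (by
      rw [dist_eq_norm]
      exact lt_of_le_of_lt (hv.trans (min_le_right _ _)) (by linarith))
    rw [dist_eq_norm] at h1 h2
    have h3 : D u - D v = (D u - D x) - (D v - D x) := by abel
    rw [h3]
    exact (norm_sub_le _ _).trans (by linarith)
  let ω : X → ℝ := fun x => sSup (S x)
  have hpos : ∀ x, 0 < ω x := fun x => by
    obtain ⟨t, ht⟩ := hne x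
    exact lt_of_lt_of_le ht.1 (le_csSup (hbdd x) ht)
  have hle : ∀ x, ω x ≤ 1 := fun x => csSup_le (hne x) fun t ht => ht.2.1
  have hlip : ∀ x z, ω x ≤ ω z + ‖x - z‖ := by
    intro x z
    refine csSup_le (hne x) fun t ht => ?_
    by_cases h : t ≤ ‖x - z‖
    · linarith [hpos z]
    · push Not at h
      have h1 : t - ‖x - z‖ ∈ S z := by
        refine ⟨by linarith, by linarith [ht.2.1, norm_nonneg (x - z)], fun u v hu hv => ?_⟩
        refine ht.2.2 u v ?_ ?_
        · have : u - x = (u - z) - (x - z) := by abel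
          rw [this]
          exact (norm_sub_le _ _).trans (by linarith)
        · have : v - x = (v - z) - (x - z) := by abel
          rw [this]
          exact (norm_sub_le _ _).trans (by linarith)
      have h2 := le_csSup (hbdd z) h1
      simp only [ω]
      linarith
  refine ⟨fun x => ω x / 8, fun x => by have := hpos x; positivity, fun x => by
    have := hle x
    show ω x / 8 ≤ 1 / 8
    linarith, fun x z => ?_, fun x v hv => ?_⟩
  · have h1 := hlip x z
    have h2 := hlip z x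
    rw [norm_sub_rev z x] at h2
    show |ω x / 8 - ω z / 8| ≤ 1 / 8 * ‖x - z‖
    rw [abs_le]
    constructor <;> linarith
  · have h0 := hpos x
    obtain ⟨t, ht, htl⟩ := exists_lt_of_lt_csSup (hne x) (show ω x / 2 < sSup (S x) by
      show ω x / 2 < ω x
      linarith)
    refine ht.2.2 v x ?_ ?_
    · have : ‖v - x‖ ≤ 4 * (ω x / 8) := hv
      linarith
    · rw [sub_self, norm_zero]
      exact ht.1.le

end C2N
end
end
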