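import Mathlib

set_option autoImplicit false

/-!
Elementary real inequalities, case distinctions `t ≤ 8 d`.
-/

namespace C2N

open Filter Topology Set

/-- `theta d t = sup {t u - 8 u^2 : 0 ≤ u ≤ d/2}` for `t ≥ 0` -/
noncomputable def theta (d t : ℝ) : ℝ := if t ≤ 8 * d then t ^ 2 / 32 else t * d / 2 - 2 * d ^ 2

theorem theta_eq {d t : ℝ} (h : t ≤ 8 * d) : theta d t = t ^ 2 / 32 := by
  simp [theta, h]

theorem theta_eq' {d t : ℝ} (h : ¬ t ≤ 8 * d) : theta d t = t * d / 2 - 2 * d ^ 2 := by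
  simp [theta, h]

theorem theta_nonneg {d t : ℝ} (hd : 0 ≤ d) (ht : 0 ≤ t) : 0 ≤ theta d t := by
  by_cases h : t ≤ 8 * d
  · rw [theta_eq h]; positivity
  · rw [theta_eq' h]
    push Not at h
    nlinarith [mul_nonneg hd (sub_nonneg.2 h.le), mul_nonneg hd hd]

theorem theta_le_sq {d t : ℝ} (hd : 0 ≤ d) (ht : 0 ≤ t) : theta d t ≤ t ^ 2 / 32 := by
  by_cases h : t ≤ 8 * d
  · rw [theta_eq h]
  · rw [theta_eq' h]
    nlinarith [sq_nonneg (t - 8 * d)]

theorem theta_le_lin {d t : ℝ} (hd : 0 ≤ d) (ht : 0 ≤ t) : theta d t ≤ t * d / 2 := by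
  by_cases h : t ≤ 8 * d
  · rw [theta_eq h]
    nlinarith [mul_nonneg ht (sub_nonneg.2 h), mul_nonneg ht hd]
  · rw [theta_eq' h]
    nlinarith [sq_nonneg d]

theorem theta_mono {d t t' : ℝ} (hd : 0 ≤ d) (ht : 0 ≤ t) (h : t ≤ t') :
    theta d t ≤ theta d t' := by
  by_cases h1 : t ≤ 8 * d
  · by_cases h2 : t' ≤ 8 * d
    · rw [theta_eq h1, theta_eq h2]
      have := mul_self_le_mul_self ht h
      nlinarith
    · rw [theta_eq h1, theta_eq' h2]
      push Not at h2
      have h3 := mul_self_le_mul_self ht h1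
      nlinarith [mul_nonneg hd (sub_nonneg.2 h2.le)]
  · have h2 : ¬ t' ≤ 8 * d := by
      push Not at h1 ⊢
      linarith
    rw [theta_eq' h1, theta_eq' h2]
    nlinarith [mul_nonneg hd (sub_nonneg.2 h)]

theorem theta_lip_aux {d t t' : ℝ} (hd : 0 ≤ d) (ht : 0 ≤ t) (h : t ≤ t') :
    theta d t' - theta d t ≤ d / 2 * (t' - t) := by
  by_cases h1 : t ≤ 8 * d
  · by_cases h2 : t' ≤ 8 * d
    · rw [theta_eq h1, theta_eq h2]
      have h3 : 0 ≤ (t' - t) * (16 * d - (t + t')) := by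
        apply mul_nonneg <;> linarith
      nlinarith
    · rw [theta_eq h1, theta_eq' h2]
      push Not at h2
      have h3 : 0 ≤ (8 * d - t) * (16 * d - (t + 8 * d)) := by
        apply mul_nonneg <;> linarith
      nlinarith
  · have h2 : ¬ t' ≤ 8 * d := by
      push Not at h1 ⊢
      linarith
    rw [theta_eq' h1, theta_eq' h2]
    nlinarith

theorem theta_lip {d t t' : ℝ} (hd : 0 ≤ d) (ht : 0 ≤ t) (ht' : 0 ≤ t') :
    |theta d t - theta d t'| ≤ d / 2 * |t - t'| := by
  rcases le_total t t' with h | h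
  · have h1 := theta_lip_aux hd ht h
    have h2 := theta_mono hd ht h
    rw [abs_of_nonpos (by linarith), abs_of_nonpos (by linarith)]
    linarith
  · have h1 := theta_lip_aux hd ht' h
    have h2 := theta_mono hd ht' h
    rw [abs_of_nonneg (by linarith), abs_of_nonneg (by linarith)]
    linarith

theorem theta_convex_aux {d t t' : ℝ} (hd : 0 ≤ d) (ht : 0 ≤ t) (h : t ≤ t') :
    theta d ((t + t') / 2) ≤ (theta d t + theta d t') / 2 := by
  by_cases h1 : t ≤ 8 * d
  · by_cases h2 : t' ≤ 8 * d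
    · have h3 : (t + t') / 2 ≤ 8 * d := by linarith
      rw [theta_eq h1, theta_eq h2, theta_eq h3]
      nlinarith [sq_nonneg (t - t')]
    · by_cases h3 : (t + t') / 2 ≤ 8 * d
      · rw [theta_eq h1, theta_eq' h2, theta_eq h3]
        push Not at h2
        have h4 : 0 ≤ (t' - 8 * d) * (8 * d - (t + t') / 2) := by
          apply mul_nonneg <;> linarith
        nlinarith [sq_nonneg (t - (t + t') / 2), sq_nonneg (t - 8 * d), sq_nonneg (t' - 8 * d),
          mul_nonneg (sub_nonneg.2 h1) (sub_nonneg.2 h3)]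
      · rw [theta_eq h1, theta_eq' h2, theta_eq' h3]
        nlinarith [sq_nonneg (t - 8 * d)]
  · have h2 : ¬ t' ≤ 8 * d := by
      push Not at h1 ⊢
      linarith
    have h3 : ¬ (t + t') / 2 ≤ 8 * d := by
      push Not at h1 ⊢
      linarith
    rw [theta_eq' h1, theta_eq' h2, theta_eq' h3]
    nlinarith

theorem theta_convex {d t t' : ℝ} (hd : 0 ≤ d) (ht : 0 ≤ t) (ht' : 0 ≤ t') :
    theta d ((t + t') / 2) ≤ (theta d t + theta d t') / 2 := by
  rcases le_total t t' with h | h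
  · exact theta_convex_aux hd ht h
  · have := theta_convex_aux hd ht' h
    rw [add_comm t t', add_comm (theta d t)]
    exact this

theorem theta_big {d t : ℝ} (hd : 0 < d) (ht : 3 * d ≤ t) :
    theta d t < 2 / 3 * t * d - 9 / 8 * d ^ 2 := by
  by_cases h : t ≤ 8 * d
  · rw [theta_eq h]
    have h1 : 0 ≤ (t - 3 * d) * (8 * d - t) := by
      apply mul_nonneg <;> linarith
    have h2 : 0 < d ^ 2 := by positivity
    nlinarith [mul_nonneg hd.le (sub_nonneg.2 ht)]
  · rw [theta_eq' h]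
    push Not at h
    have h2 : 0 < d ^ 2 := by positivity
    nlinarith [mul_pos hd (sub_pos.2 h)]

end C2N
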