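import Pool.Agent.Lib.MP_55041d_an.h32b.F1
import Pool.Agent.Lib.MP_55041d_an.h32b.G1

set_option autoImplicit false

namespace C2N

open Filter Topology Set

variable {X : Type*} [NormedAddCommGroup X] [NormedSpace ℝ X]
variable {C B R : ℝ} {g : ℕ → X →L[ℝ] ℝ}

namespace Sys

/-- chains of the system -/
def Chain (S : Sys C g B R) (n : ℕ) (j : ℕ → ℕ) (x : ℕ → X) : Prop :=
  ChainP g S.A S.y S.d S.w S.m n j x

noncomputable def bet (S : Sys C g B R) (n : ℕ) (j : ℕ → ℕ) : ℝ := betP S.y S.d n j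

/-- centers -/
def c (S : Sys C g B R) (j : ℕ → ℕ) (l : ℕ) : X := ctr S.y j l

/-- radii -/
noncomputable def r (S : Sys C g B R) (j : ℕ → ℕ) (l : ℕ) : ℝ := rad S.y S.w j l

/-- scales -/
noncomputable def dd (S : Sys C g B R) (j : ℕ → ℕ) (l : ℕ) : ℝ := S.d (ctr S.y j l)

/-- tail subspaces -/
def Z (S : Sys C g B R) (j : ℕ → ℕ) (l : ℕ) : Submodule ℝ X := tail g (S.m l j)

theorem chain_iff (S : Sys C g B R) {n : ℕ} {j : ℕ → ℕ} {x : ℕ → X} :
    S.Chain n j x ↔ x 0 = 0 ∧ ∀ l < n, x (l + 1) - x l ∈ S.Z j l ∧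
      S.A (x (l + 1) - S.c j l) ≤ S.dd j l + S.r j l ∧
      S.A (x (l + 1) - S.c j (l + 1)) ≤ S.r j (l + 1) := Iff.rfl

theorem bet_eq (S : Sys C g B R) (n : ℕ) (j : ℕ → ℕ) :
    S.bet n j = ∑ l ∈ Finset.range n, S.dd j l ^ 2 := rfl

theorem c_congr (S : Sys C g B R) {l : ℕ} {j j' : ℕ → ℕ} (h : ∀ i < l, j i = j' i) :
    S.c j l = S.c j' l := by
  cases l with
  | zero => rfl
  | succ l => simp [c, ctr, h l (Nat.lt_succ_self l)]

theorem r_congr (S : Sys C g B R) {l : ℕ} {j j' : ℕ → ℕ} (h : ∀ i < l, j i = j' i) :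
    S.r j l = S.r j' l := by
  cases l with
  | zero => rfl
  | succ l => simp [r, rad, h l (Nat.lt_succ_self l)]

theorem dd_congr (S : Sys C g B R) {l : ℕ} {j j' : ℕ → ℕ} (h : ∀ i < l, j i = j' i) :
    S.dd j l = S.dd j' l := by
  have := S.c_congr h
  simp only [c] at this
  simp [dd, this]

theorem Z_congr (S : Sys C g B R) {l : ℕ} {j j' : ℕ → ℕ} (h : ∀ i < l, j i = j' i) :
    S.Z j l = S.Z j' l := by
  simp [Z, S.m_local l j j' h]

theorem bet_congr (S : Sys C g B R) {n : ℕ} {j j' : ℕ → ℕ} (h : ∀ i < n, j i = j' i) :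
    S.bet n j = S.bet n j' := by
  rw [bet_eq, bet_eq]
  refine Finset.sum_congr rfl (fun l hl => ?_)
  rw [S.dd_congr (fun i hi => h i (hi.trans (Finset.mem_range.mp hl)))]

theorem bet_mono (S : Sys C g B R) {n n' : ℕ} (h : n ≤ n') (j : ℕ → ℕ) :
    S.bet n j ≤ S.bet n' j := by
  rw [bet_eq, bet_eq]
  exact Finset.sum_le_sum_of_subset_of_nonneg (Finset.range_mono h) (fun _ _ _ => sq_nonneg _)

theorem bet_nonneg (S : Sys C g B R) (n : ℕ) (j : ℕ → ℕ) : 0 ≤ S.bet n j := by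
  rw [bet_eq]
  exact Finset.sum_nonneg (fun _ _ => sq_nonneg _)

theorem bet_succ (S : Sys C g B R) (n : ℕ) (j : ℕ → ℕ) :
    S.bet (n + 1) j = S.bet n j + S.dd j n ^ 2 := by
  rw [bet_eq, bet_eq, Finset.sum_range_succ]

theorem bet_zero (S : Sys C g B R) (j : ℕ → ℕ) : S.bet 0 j = 0 := by
  rw [bet_eq]; simp

theorem dd_pos (S : Sys C g B R) (j : ℕ → ℕ) (l : ℕ) : 0 < S.dd j l := S.d_pos _

theorem dd_le (S : Sys C g B R) (j : ℕ → ℕ) (l : ℕ) : S.dd j l ≤ 1 / 8 := S.d_le _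

theorem r_nonneg (S : Sys C g B R) (j : ℕ → ℕ) (l : ℕ) : 0 ≤ S.r j l := by
  cases l with
  | zero => exact le_rfl
  | succ l => exact mul_nonneg (by positivity) (S.w_pos _).le

/-- `r(s) ≤ 2^{-i-4} d(s)` -/
theorem r_le (S : Sys C g B R) (j : ℕ → ℕ) (l : ℕ) : S.r j l ≤ (1 / 2 : ℝ) ^ (l + 4) * S.dd j l := by
  cases l with
  | zero => exact mul_nonneg (by positivity) (S.dd_pos j 0).le
  | succ l =>
    simp only [r, rad, dd, ctr]
    calc (1 / 2 : ℝ) ^ (l + 4) * S.w (S.y (j l)) ≤ (1 / 2 : ℝ) ^ (l + 4) * (S.d (S.y (j l)) / 2) := by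
          gcongr
          exact S.w_le _
      _ = (1 / 2 : ℝ) ^ (l + 1 + 4) * S.d (S.y (j l)) := by ring

theorem r_le' (S : Sys C g B R) (j : ℕ → ℕ) (l : ℕ) : S.r j l ≤ S.dd j l / 32 := by
  cases l with
  | zero =>
    have := (S.dd_pos j 0).le
    have h : S.r j 0 = 0 := rfl
    rw [h]; positivity
  | succ l =>
    refine (S.r_le j (l + 1)).trans ?_
    have h1 : (1 / 2 : ℝ) ^ (l + 1 + 4) ≤ 1 / 32 := by
      calc (1 / 2 : ℝ) ^ (l + 1 + 4) ≤ (1 / 2 : ℝ) ^ 5 :=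
            pow_le_pow_of_le_one (by norm_num) (by norm_num) (by omega)
        _ = 1 / 32 := by norm_num
    have h2 := (S.dd_pos j (l + 1)).le
    nlinarith

theorem Chain.mono {S : Sys C g B R} {n n' : ℕ} {j : ℕ → ℕ} {x : ℕ → X} (h : S.Chain n' j x)
    (hn : n ≤ n') : S.Chain n j x :=
  ⟨h.1, fun l hl => h.2 l (hl.trans_le hn)⟩

theorem Chain.congr {S : Sys C g B R} {n : ℕ} {j j' : ℕ → ℕ} {x x' : ℕ → X} (h : S.Chain n j x)
    (hj : ∀ l < n, j l = j' l) (hx : ∀ l ≤ n, x l = x' l) : S.Chain n j' x' := by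
  rw [chain_iff] at h ⊢
  refine ⟨by rw [← hx 0 (Nat.zero_le _)]; exact h.1, fun l hl => ?_⟩
  have e1 : ∀ i < l, j i = j' i := fun i hi => hj i (hi.trans hl)
  have e2 : ∀ i < l + 1, j i = j' i := fun i hi => hj i (by omega)
  rw [← S.Z_congr e1, ← S.c_congr e1, ← S.dd_congr e1, ← S.r_congr e1, ← S.c_congr e2,
    ← S.r_congr e2, ← hx l hl.le, ← hx (l + 1) hl]
  exact h.2 l hl

theorem Chain.near {S : Sys C g B R} {n : ℕ} {j : ℕ → ℕ} {x : ℕ → X} (h : S.Chain n j x) {l : ℕ}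
    (hl : l ≤ n) : S.A (x l - S.c j l) ≤ S.r j l := by
  cases l with
  | zero =>
    have h0 : x 0 - S.c j 0 = 0 := by
      have : S.c j 0 = 0 := rfl
      rw [this, h.1, sub_zero]
    rw [h0, S.kadec.zero]
    exact S.r_nonneg j 0
  | succ l => exact (h.2 l hl).2.2

theorem Chain.step_norm {S : Sys C g B R} {n : ℕ} {j : ℕ → ℕ} {x : ℕ → X} (h : S.Chain n j x)
    {l : ℕ} (hl : l < n) : ‖x (l + 1) - x l‖ ≤ 2 * S.dd j l := by
  have h1 : S.A (x (l + 1) - S.c j l) ≤ S.dd j l + S.r j l := (h.2 l hl).2.1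
  have h2 := h.near hl.le
  have h3 := S.kadec.add_le (x (l + 1) - S.c j l) (S.c j l - x l)
  rw [sub_add_sub_cancel, S.kadec.sub_comm (S.c j l)] at h3
  have h4 := S.kadec.le (x (l + 1) - x l)
  have h5 := S.r_le' j l
  have h6 := S.dd_pos j l
  linarith

end Sys

end C2N
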