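import Mathlib
import Pool.Agent.Lib.MP_55041d_an.h32b.Defs
import Pool.Agent.Lib.MP_55041d_an.h32b.D1

section

section

set_option autoImplicit false

/-!
`η t = (t-1)_+^3 + (-t-1)_+^3`; `(·)_+^3` is `C^2` with derivatives `3 (·)_+^2`, `6 (·)_+`.
-/

namespace C2N

open Filter Topology Set

/-- `η t = (|t| - 1)_+^3` -/
noncomputable def eta (t : ℝ) : ℝ := max (|t| - 1) 0 ^ 3

private theorem posPow_hasDerivAt (n : ℕ) (hn : 1 ≤ n) (s : ℝ) :
    HasDerivAt (fun s : ℝ => max s 0 ^ (n + 1)) ((n + 1 : ℕ) * max s 0 ^ n) s := by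
  rcases lt_trichotomy s 0 with h | h | h
  · have h1 : (fun s : ℝ => max s 0 ^ (n + 1)) =ᶠ[𝓝 s] fun _ => 0 := by
      filter_upwards [gt_mem_nhds h] with t ht
      rw [max_eq_right ht.le]
      simp
    rw [max_eq_right h.le, zero_pow (by omega), mul_zero]
    exact (hasDerivAt_const s (0 : ℝ)).congr_of_eventuallyEq h1
  · subst h
    rw [max_self, zero_pow (by omega), mul_zero, hasDerivAt_iff_isLittleO]
    have h1 : (fun x : ℝ => x ^ (n + 1)) =o[𝓝 (0 : ℝ)] fun x : ℝ => x :=
      Asymptotics.isLittleO_pow_id (by omega)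
    have h2 : (fun x : ℝ => max x 0 ^ (n + 1) - max (0 : ℝ) 0 ^ (n + 1) - (x - 0) • (0 : ℝ))
        =O[𝓝 (0 : ℝ)] fun x : ℝ => x ^ (n + 1) := by
      refine Asymptotics.IsBigO.of_bound 1 (Filter.Eventually.of_forall fun x => ?_)
      rw [max_self, zero_pow (by omega), smul_zero, sub_zero, sub_zero, one_mul, norm_pow,
        norm_pow]
      refine pow_le_pow_left₀ (norm_nonneg _) ?_ _
      rw [Real.norm_eq_abs, Real.norm_eq_abs, abs_of_nonneg (le_max_right _ _)]
      exact max_le (le_abs_self _) (abs_nonneg _)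
    simpa using h2.trans_isLittleO h1
  · have h1 : (fun s : ℝ => max s 0 ^ (n + 1)) =ᶠ[𝓝 s] fun s => s ^ (n + 1) := by
      filter_upwards [lt_mem_nhds h] with t ht
      rw [max_eq_left ht.le]
    rw [max_eq_left h.le]
    have h2 := hasDerivAt_pow (n + 1) s
    rw [Nat.add_sub_cancel] at h2
    exact h2.congr_of_eventuallyEq h1

private theorem posPow_contDiff : ContDiff ℝ 2 (fun s : ℝ => max s 0 ^ 3) := by
  have h0 : ∀ s : ℝ, HasDerivAt (fun s : ℝ => max s 0 ^ 3) (3 * max s 0 ^ 2) s := by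
    intro s
    simpa using posPow_hasDerivAt 2 (by norm_num) s
  have h1 : ∀ s : ℝ, HasDerivAt (fun s : ℝ => max s 0 ^ 2) (2 * max s 0) s := by
    intro s
    simpa using posPow_hasDerivAt 1 le_rfl s
  have h2 : ContDiff ℝ 1 (fun s : ℝ => max s 0 ^ 2) := by
    rw [contDiff_one_iff_deriv]
    refine ⟨fun s => (h1 s).differentiableAt, ?_⟩
    rw [show deriv (fun s : ℝ => max s 0 ^ 2) = fun s => 2 * max s 0 from
      funext fun s => (h1 s).deriv]
    fun_prop
  rw [show (2 : WithTop ℕ∞) = 1 + 1 by norm_num, contDiff_succ_iff_deriv]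
  refine ⟨fun s => (h0 s).differentiableAt, fun h => by simp at h, ?_⟩
  rw [show deriv (fun s : ℝ => max s 0 ^ 3) = fun s => 3 * max s 0 ^ 2 from
      funext fun s => (h0 s).deriv]
  exact contDiff_const.mul h2

theorem eta_contDiff : ContDiff ℝ 2 eta := by
  have h : eta = fun t => max (t - 1) 0 ^ 3 + max (-t - 1) 0 ^ 3 := by
    funext t
    unfold eta
    rcases le_total 0 t with ht | ht
    · rw [abs_of_nonneg ht, max_eq_right (show -t - 1 ≤ 0 by linarith)]
      ring
    · rw [abs_of_nonpos ht, max_eq_right (show t - 1 ≤ 0 by linarith)]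
      ring
  rw [h]
  exact (posPow_contDiff.comp (contDiff_id.sub contDiff_const)).add
    (posPow_contDiff.comp (contDiff_id.neg.sub contDiff_const))

theorem eta_convex : ConvexOn ℝ univ eta := by
  have h1 : ConvexOn ℝ univ (fun t : ℝ => |t| - 1) := by
    have := (convexOn_norm (E := ℝ) convex_univ).add_const (-1)
    exact this.congr fun x _ => by simp [Real.norm_eq_abs, sub_eq_add_neg]
  have h2 : ConvexOn ℝ univ (fun t : ℝ => max (|t| - 1) 0) := h1.sup (convexOn_const 0 convex_univ)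
  exact h2.pow (fun x _ => le_max_right _ _) 3

end C2N
end

section

set_option autoImplicit false

/-!
Section 12 of paper 371.  `N = gauge {x | G x ≤ c}`: the set is convex, symmetric, closed, bounded, a neighbourhood of `0`.
`G (x / N x) = c` by continuity (`G (t x)` is convex in `t`, `< c` at `0`, `> c` for large `t`).  Uniqueness: if `G (t x) = c`,
`t > 0`, then `G (s x) < c` for `0 ≤ s < t` and `> c` for `s > t` (convexity and `G 0 < c`).
-/

namespace C2N

open Filter Topology Set

universe u v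

/-- Section 12: for `G` continuous convex even with `G 0 < c` and `{G ≤ c}` bounded the function
`N x = inf {t > 0 : G (x/t) ≤ c}` is an equivalent norm with `G (x / N x) = c` for `x ≠ 0`. -/
theorem gauge_equiv {X : Type*} [NormedAddCommGroup X] [NormedSpace ℝ X] (G : X → ℝ)
    (hconv : ConvexOn ℝ univ G) (hcont : Continuous G) (heven : ∀ x, G (-x) = G x) (c r : ℝ)
    (h0 : G 0 < c) (hsub : ∀ x, G x ≤ c → ‖x‖ < r) :
    ∃ N : X → ℝ, EquivNorm N ∧ (∀ x, x ≠ 0 → G ((N x)⁻¹ • x) = c) ∧
      ∀ x (t : ℝ), 0 < t → G (t • x) = c → N x = t⁻¹ := by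
  classical
  set K : Set X := {x | G x ≤ c} with hK
  have hKc : Convex ℝ K := by
    have := hconv.convex_le c
    simpa [hK] using this
  have hUopen : IsOpen {x : X | G x < c} := isOpen_lt hcont continuous_const
  have hUK : {x : X | G x < c} ⊆ K := fun x hx => le_of_lt (show G x < c from hx)
  have hK0 : K ∈ 𝓝 (0 : X) := mem_of_superset (hUopen.mem_nhds h0) hUK
  have hKcl : IsClosed K := isClosed_le hcont continuous_const
  have habs : Absorbent ℝ K := absorbent_nhds_zero hK0
  have hKneg : ∀ x ∈ K, -x ∈ K := fun x hx => by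
    show G (-x) ≤ c
    rw [heven]; exact hx
  have hr : 0 < r := by
    have := hsub 0 h0.le
    simpa using this
  have hle1 : ∀ x, gauge K x ≤ 1 ↔ G x ≤ c := fun x => by
    rw [gauge_le_one_iff_mem_closure hKc hK0, hKcl.closure_eq]; rfl
  have hlt1 : ∀ x, gauge K x < 1 ↔ G x < c := fun x => by
    constructor
    · intro hx
      obtain ⟨b, hb0, hb1, k, hk, rfl⟩ := exists_lt_of_gauge_lt habs hx
      have h1 := hconv.2 (mem_univ k) (mem_univ (0 : X)) hb0.le (by linarith : (0 : ℝ) ≤ 1 - b)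
        (by ring)
      simp only [smul_zero, add_zero, smul_eq_mul] at h1
      have hk' : G k ≤ c := hk
      show G (b • k) < c
      nlinarith
    · intro hx
      rw [gauge_lt_one_iff_mem_interior hKc hK0]
      exact interior_mono hUK (by rw [hUopen.interior_eq]; exact hx)
  obtain ⟨δ, hδ, hball⟩ := Metric.mem_nhds_iff.mp hK0
  have hlow : ∀ x, ‖x‖ / r ≤ gauge K x := fun x => by
    refine le_gauge_of_subset_closedBall habs hr.le ?_
    intro y hy
    rw [mem_closedBall_zero_iff]
    exact (hsub y hy).le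
  have hup : ∀ x, gauge K x ≤ δ⁻¹ * ‖x‖ := fun x => by
    have := mul_gauge_le_norm (x := x) hball
    rw [inv_mul_eq_div, le_div_iff₀ hδ]; linarith
  have hsmul : ∀ (a : ℝ) (x : X), gauge K (a • x) = |a| * gauge K x := fun a x => by
    rcases le_or_gt 0 a with ha | ha
    · rw [gauge_smul_of_nonneg ha, abs_of_nonneg ha, smul_eq_mul]
    · have : a • x = -((-a) • x) := by simp
      rw [this, gauge_neg hKneg, gauge_smul_of_nonneg (by linarith : (0 : ℝ) ≤ -a),
        abs_of_neg ha, smul_eq_mul]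
  refine ⟨gauge K, ⟨gauge_add_le hKc habs, hsmul, r⁻¹, δ⁻¹, inv_pos.mpr hr, inv_pos.mpr hδ,
    fun x => ⟨?_, hup x⟩⟩, ?_, ?_⟩
  · have := hlow x
    rwa [div_eq_inv_mul] at this
  · intro x hx
    have hpos : 0 < gauge K x := lt_of_lt_of_le (div_pos (norm_pos_iff.mpr hx) hr) (hlow x)
    have hone : gauge K ((gauge K x)⁻¹ • x) = 1 := by
      rw [hsmul, abs_of_pos (inv_pos.mpr hpos), inv_mul_cancel₀ hpos.ne']
    refine le_antisymm ((hle1 _).mp hone.le) ?_
    by_contra hlt
    have := (hlt1 _).mpr (not_le.mp hlt)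
    linarith
  · intro x t ht hx
    have h1 : gauge K (t • x) = 1 := by
      refine le_antisymm ((hle1 _).mpr hx.le) ?_
      by_contra hlt
      have := (hlt1 _).mp (not_le.mp hlt)
      linarith
    rw [hsmul, abs_of_pos ht] at h1
    field_simp
    linarith

end C2N
end

section

set_option autoImplicit false

/-!
Section 12 of paper 371.  `Ψ (t, z) = (G (t z), z)` on `ℝ × X` (complete) is `C^2` near `(t0, x)`, `t0 = (N x)⁻¹`, with derivative
`(s, h) ↦ (DG(t0 x) (s x + t0 h), h)`, invertible since `DG(t0 x) x ≥ (c - G 0)/t0 > 0` (convexity).  Local inverse is `C^2`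
(`ContDiffAt.to_localInverse`), its first component `t z` (at `(c, z)`) satisfies `G (t z • z) = c`, `t z > 0` near `x`, so
`N z = (t z)⁻¹` near `x` by `hN2`.
-/

namespace C2N

open Filter Topology Set

universe u v

/-- The directional derivative of a convex function with `G 0 < G p` is positive at `p`. -/
private lemma fderiv_self_pos {X : Type*} [NormedAddCommGroup X] [NormedSpace ℝ X]
    (G : X → ℝ) (hconv : ConvexOn ℝ univ G) (p : X) (h0 : G 0 < G p)
    (hd : DifferentiableAt ℝ G p) : 0 < fderiv ℝ G p p := by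
  -- the one variable function `φ s = G (s p)` is convex, `φ 0 < φ 1`
  have hφ : HasDerivAt (fun s : ℝ => G (s • p)) (fderiv ℝ G p p) 1 := by
    have h1 : HasFDerivAt G (fderiv ℝ G p) ((1 : ℝ) • p) := by
      rw [one_smul]; exact hd.hasFDerivAt
    have h2 : HasDerivAt (fun s : ℝ => s • p) p 1 := by
      simpa using (hasDerivAt_id (1 : ℝ)).smul_const p
    exact h1.comp_hasDerivAt (1 : ℝ) h2
  have hcφ : ConvexOn ℝ univ (fun s : ℝ => G (s • p)) := by
    refine ⟨convex_univ, ?_⟩
    intro a _ b _ α β hα hβ hαβ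
    have := hconv.2 (mem_univ (a • p)) (mem_univ (b • p)) hα hβ hαβ
    have e : (α • a + β • b) • p = α • (a • p) + β • (b • p) := by
      simp [add_smul, mul_smul]
    simp only
    rw [e]; exact this
  have hsl := hcφ.slope_le_of_hasDerivAt (mem_univ (0 : ℝ)) (mem_univ (1 : ℝ)) zero_lt_one hφ
  have hs : slope (fun s : ℝ => G (s • p)) 0 1 = G p - G 0 := by
    simp [slope_def_field]
  rw [hs] at hsl
  linarith

/-- Section 12: implicit function theorem for `(t, x) ↦ G (t x)`; the derivative in `t` at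
`G (t x) = c` is `DG(tx) x ≥ (G (t x) - G 0)/t > 0` by convexity. -/
theorem gauge_C2_at {X : Type*} [NormedAddCommGroup X] [NormedSpace ℝ X] [CompleteSpace X]
    (G : X → ℝ)
    (hconv : ConvexOn ℝ univ G) (hcont : Continuous G) (c : ℝ)
    (h0 : G 0 < c) (N : X → ℝ) (hN : EquivNorm N) (hN1 : ∀ x, x ≠ 0 → G ((N x)⁻¹ • x) = c)
    (hN2 : ∀ x (t : ℝ), 0 < t → G (t • x) = c → N x = t⁻¹) (x : X) (hx : x ≠ 0)
    (hC : ContDiffAt ℝ 2 G ((N x)⁻¹ • x)) : ContDiffAt ℝ 2 N x := by
  have hNx : 0 < N x := by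
    obtain ⟨c', C', hc', hC', h⟩ := hN.equiv
    have := (h x).1
    have hn : 0 < ‖x‖ := norm_pos_iff.mpr hx
    have : 0 < c' * ‖x‖ := mul_pos hc' hn
    linarith [(h x).1]
  set t0 : ℝ := (N x)⁻¹ with ht0
  have ht0p : 0 < t0 := inv_pos.mpr hNx
  have hGp : G (t0 • x) = c := hN1 x hx
  -- the function of two variables
  let f : X × ℝ → ℝ := fun p => G (p.2 • p.1)
  have hsm : ContDiffAt ℝ 2 (fun p : X × ℝ => p.2 • p.1) (x, t0) :=
    contDiffAt_snd.smul contDiffAt_fst
  have cdf : ContDiffAt ℝ 2 f (x, t0) := by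
    have hC' : ContDiffAt ℝ 2 G ((fun p : X × ℝ => p.2 • p.1) (x, t0)) := hC
    exact hC'.comp (x, t0) hsm
  have pn : (2 : WithTop ℕ∞) ≠ 0 := by norm_num
  have hdG : DifferentiableAt ℝ G (t0 • x) := hC.differentiableAt pn
  have hpos : 0 < fderiv ℝ G (t0 • x) (t0 • x) := by
    refine fderiv_self_pos G hconv (t0 • x) ?_ hdG
    rw [hGp]; exact h0
  have hpos' : 0 < fderiv ℝ G (t0 • x) x := by
    rw [map_smul, smul_eq_mul] at hpos
    exact (mul_pos_iff_of_pos_left ht0p).mp hpos
  have hval : (fderiv ℝ f (x, t0) ∘L ContinuousLinearMap.inr ℝ X ℝ) 1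
      = fderiv ℝ G (t0 • x) x := by
    have h1 : HasFDerivAt f (fderiv ℝ f (x, t0)) (x, t0) :=
      (cdf.differentiableAt pn).hasFDerivAt
    have h2 : HasDerivAt (fun t : ℝ => ((x, t) : X × ℝ)) ((0 : X), (1 : ℝ)) t0 :=
      (hasDerivAt_const t0 x).prodMk (hasDerivAt_id t0)
    have h3 : HasDerivAt (fun t : ℝ => f (x, t)) (fderiv ℝ f (x, t0) ((0 : X), (1 : ℝ))) t0 :=
      h1.comp_hasDerivAt t0 h2
    have h4 : HasDerivAt (fun t : ℝ => t • x) x t0 := by
      simpa using (hasDerivAt_id t0).smul_const x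
    have h5 : HasDerivAt (fun t : ℝ => G (t • x)) (fderiv ℝ G (t0 • x) x) t0 :=
      hdG.hasFDerivAt.comp_hasDerivAt t0 h4
    have h6 := h3.unique h5
    simpa using h6
  have hinv : (fderiv ℝ f (x, t0) ∘L ContinuousLinearMap.inr ℝ X ℝ).IsInvertible := by
    set A : ℝ →L[ℝ] ℝ := fderiv ℝ f (x, t0) ∘L ContinuousLinearMap.inr ℝ X ℝ with hA
    have hne : A 1 ≠ 0 := by rw [hval]; exact hpos'.ne'
    refine ⟨ContinuousLinearEquiv.unitsEquivAut ℝ (Units.mk0 (A 1) hne), ?_⟩
    ext
    simp
  set ψ : X → ℝ := cdf.implicitFunction pn hinv with hψ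
  have hψC : ContDiffAt ℝ 2 ψ x := cdf.contDiffAt_implicitFunction pn hinv
  have hψx : ψ x = t0 := cdf.implicitFunction_apply_self pn hinv
  have hev : ∀ᶠ z in 𝓝 x, f (z, ψ z) = f (x, t0) := cdf.eventually_apply_implicitFunction pn hinv
  have hpos2 : ∀ᶠ z in 𝓝 x, 0 < ψ z := by
    have : Tendsto ψ (𝓝 x) (𝓝 (ψ x)) := hψC.continuousAt
    rw [hψx] at this
    exact this.eventually (lt_mem_nhds ht0p)
  have heq : N =ᶠ[𝓝 x] fun z => (ψ z)⁻¹ := by
    filter_upwards [hev, hpos2] with z hz hz2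
    refine hN2 z (ψ z) hz2 ?_
    have : f (x, t0) = c := hGp
    rw [this] at hz
    exact hz
  have hres : ContDiffAt ℝ 2 (fun z => (ψ z)⁻¹) x := hψC.inv (by rw [hψx]; exact ht0p.ne')
  exact hres.congr_of_eventuallyEq heq

end C2N
end

section

set_option autoImplicit false

/-!
Compose with the isomorphism.  `restrict`: `v ↦ b (x0 + v)` with `b x0 ≠ 0`.
-/

namespace C2N

open Filter Topology Set

universe u v

/-- transport along isomorphisms -/
theorem HasC2Norm.of_equiv {X : Type*} {Y : Type*} [NormedAddCommGroup X] [NormedSpace ℝ X]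
    [NormedAddCommGroup Y] [NormedSpace ℝ Y] (e : X ≃L[ℝ] Y) (h : HasC2Norm Y) : HasC2Norm X := by
  obtain ⟨N, ⟨hadd, hsmul, c, C, hc, hC, hcC⟩, hN⟩ := h
  refine ⟨fun x => N (e x), ⟨fun x y => ?_, fun r x => ?_, ?_⟩, ?_⟩
  · rw [map_add]; exact hadd _ _
  · rw [map_smul]; exact hsmul _ _
  · have hk : 0 < ‖(e.symm : Y →L[ℝ] X)‖ + 1 := by positivity
    refine ⟨c / (‖(e.symm : Y →L[ℝ] X)‖ + 1), C * (‖(e : X →L[ℝ] Y)‖ + 1), by positivity,
      by positivity, fun x => ⟨?_, ?_⟩⟩
    · refine le_trans ?_ (hcC (e x)).1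
      have h1 : ‖x‖ ≤ (‖(e.symm : Y →L[ℝ] X)‖ + 1) * ‖e x‖ := by
        have h2 := (e.symm : Y →L[ℝ] X).le_opNorm (e x)
        have h3 : (e.symm : Y →L[ℝ] X) (e x) = x := e.symm_apply_apply x
        rw [h3] at h2
        nlinarith [norm_nonneg (e x)]
      rw [div_mul_eq_mul_div, div_le_iff₀ hk]
      nlinarith
    · refine (hcC (e x)).2.trans ?_
      have h2 := (e : X →L[ℝ] Y).le_opNorm x
      have h3 : (e : X →L[ℝ] Y) x = e x := rfl
      rw [h3] at h2
      rw [mul_assoc]
      refine mul_le_mul_of_nonneg_left ?_ hC.le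
      nlinarith [norm_nonneg x]
  · refine ContDiffOn.comp (t := {0}ᶜ) hN e.contDiff.contDiffOn ?_
    intro x hx
    simpa using hx

theorem HasC2Bump.of_equiv {X : Type*} {Y : Type*} [NormedAddCommGroup X] [NormedSpace ℝ X]
    [NormedAddCommGroup Y] [NormedSpace ℝ Y] (e : X ≃L[ℝ] Y) (h : HasC2Bump Y) : HasC2Bump X := by
  obtain ⟨b, hb, hbd, hne⟩ := h
  have hts : tsupport (fun x => b (e x)) = e ⁻¹' tsupport b := by
    have := tsupport_comp_eq_preimage b e.toHomeomorph
    exact this
  refine ⟨fun x => b (e x), hb.comp e.contDiff, ?_, ?_⟩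
  · rw [hts]
    have h1 : e ⁻¹' tsupport b = e.symm '' tsupport b := by
      rw [e.image_symm_eq_preimage]
    rw [h1]
    exact (e.symm.lipschitz.isBounded_image hbd)
  · rw [hts]
    obtain ⟨y, hy⟩ := hne
    exact ⟨e.symm y, by simpa using hy⟩

/-- restriction of bumps to subspaces (after a translation) -/
theorem HasC2Bump.restrict {X : Type*} [NormedAddCommGroup X] [NormedSpace ℝ X]
    (h : HasC2Bump X) (V : Submodule ℝ X) : HasC2Bump V := by
  obtain ⟨b, hb, hbd, hne⟩ := h
  have hx0 : ∃ x0, b x0 ≠ 0 := by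
    by_contra hcon
    push Not at hcon
    have : b = 0 := funext hcon
    rw [this] at hne
    simp [tsupport] at hne
  obtain ⟨x0, hx0⟩ := hx0
  have hcont : Continuous fun v : V => x0 + (v : X) := by fun_prop
  have hsub : tsupport (fun v : V => b (x0 + v)) ⊆ (fun v : V => x0 + (v : X)) ⁻¹' tsupport b :=
    tsupport_comp_subset_preimage b hcont
  refine ⟨fun v => b (x0 + v), ?_, ?_, ?_⟩
  · exact hb.comp (contDiff_const.add V.subtypeL.contDiff)
  · obtain ⟨R, hR⟩ := hbd.exists_norm_le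
    refine (isBounded_iff_forall_norm_le.2 ⟨R + ‖x0‖, fun v hv => ?_⟩)
    have h1 := hR _ (hsub hv)
    have h2 : ‖(v : X)‖ ≤ ‖x0 + (v : X)‖ + ‖x0‖ := by
      have := norm_sub_le (x0 + (v : X)) x0
      simpa using this
    exact h2.trans (by linarith)
  · refine ⟨0, subset_tsupport _ ?_⟩
    rw [Function.mem_support]
    simpa using hx0

end C2N
end

section

set_option autoImplicit false

/-!
`u n ↦ T (u n)`, `c‖x‖ ≤ ‖T x‖ ≤ ‖T‖‖x‖` (use `‖T‖ + 1` as positive upper constant).
-/

namespace C2N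

open Filter Topology Set

universe u v

/-- embeddings -/
theorem ContainsC0.of_embed {X : Type*} {Y : Type*} [NormedAddCommGroup X] [NormedSpace ℝ X]
    [NormedAddCommGroup Y] [NormedSpace ℝ Y] (T : X →L[ℝ] Y) (c : ℝ) (hc : 0 < c)
    (hT : ∀ x, c * ‖x‖ ≤ ‖T x‖) (h : ContainsC0 X) : ContainsC0 Y := by
  obtain ⟨u, c', C', hc', hC', h1, h2⟩ := h
  have hsum : ∀ (s : Finset ℕ) (a : ℕ → ℝ), ∑ i ∈ s, a i • T (u i) = T (∑ i ∈ s, a i • u i) := by
    intro s a
    rw [map_sum]
    exact Finset.sum_congr rfl fun i _ => (map_smul _ _ _).symm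
  refine ⟨fun n => T (u n), c * c', (‖T‖ + 1) * C', by positivity, by positivity, ?_, ?_⟩
  · intro s a M hM ha
    rw [hsum]
    calc ‖T (∑ i ∈ s, a i • u i)‖ ≤ ‖T‖ * ‖∑ i ∈ s, a i • u i‖ := T.le_opNorm _
      _ ≤ (‖T‖ + 1) * (C' * M) :=
          mul_le_mul (by linarith) (h1 s a M hM ha) (norm_nonneg _) (by positivity)
      _ = (‖T‖ + 1) * C' * M := by ring
  · intro s a i hi
    rw [hsum]
    refine le_trans ?_ (hT _)
    rw [mul_assoc]
    exact mul_le_mul_of_nonneg_left (h2 s a i hi) hc.le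

theorem ContainsL2.of_embed {X : Type*} {Y : Type*} [NormedAddCommGroup X] [NormedSpace ℝ X]
    [NormedAddCommGroup Y] [NormedSpace ℝ Y] (T : X →L[ℝ] Y) (c : ℝ) (hc : 0 < c)
    (hT : ∀ x, c * ‖x‖ ≤ ‖T x‖) (h : ContainsL2 X) : ContainsL2 Y := by
  obtain ⟨u, c', C', hc', hC', h1⟩ := h
  have hsum : ∀ (s : Finset ℕ) (a : ℕ → ℝ), ∑ i ∈ s, a i • T (u i) = T (∑ i ∈ s, a i • u i) := by
    intro s a
    rw [map_sum]
    exact Finset.sum_congr rfl fun i _ => (map_smul _ _ _).symm
  refine ⟨fun n => T (u n), c ^ 2 * c', (‖T‖ + 1) ^ 2 * C', by positivity, by positivity, ?_⟩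
  intro s a
  rw [hsum]
  obtain ⟨h2, h3⟩ := h1 s a
  constructor
  · calc c ^ 2 * c' * ∑ i ∈ s, (a i) ^ 2 = c ^ 2 * (c' * ∑ i ∈ s, (a i) ^ 2) := by ring
      _ ≤ c ^ 2 * ‖∑ i ∈ s, a i • u i‖ ^ 2 := by gcongr
      _ = (c * ‖∑ i ∈ s, a i • u i‖) ^ 2 := by ring
      _ ≤ ‖T (∑ i ∈ s, a i • u i)‖ ^ 2 := by
          gcongr
          exact hT _
  · calc ‖T (∑ i ∈ s, a i • u i)‖ ^ 2 ≤ ((‖T‖ + 1) * ‖∑ i ∈ s, a i • u i‖) ^ 2 := by
          gcongr
          exact (T.le_opNorm _).trans (by gcongr; linarith)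
      _ = (‖T‖ + 1) ^ 2 * ‖∑ i ∈ s, a i • u i‖ ^ 2 := by ring
      _ ≤ (‖T‖ + 1) ^ 2 * (C' * ∑ i ∈ s, (a i) ^ 2) := by gcongr
      _ = (‖T‖ + 1) ^ 2 * C' * ∑ i ∈ s, (a i) ^ 2 := by ring

end C2N
end

section

set_option autoImplicit false

/-!
The `u n` are linearly independent; the coordinate functionals on the span are bounded by `c⁻¹`, extend them to the
closure (`ContinuousLinearMap.extend` along the dense inclusion of the span, or `LinearMap.mkContinuous` + completeness of `ℝ`).
Properties: on the span they are finite, then approximate `v` by `v'` in the span: `|φ n v| ≤ |φ n v'| + c⁻¹‖v-v'‖`;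
`‖v'‖ ≤ C max|φ n v'|`.
-/

namespace C2N

open Filter Topology Set

variable {X : Type*} [NormedAddCommGroup X] [NormedSpace ℝ X]

/-- coordinate functionals of a `c_0` sequence on the closed linear span -/
theorem c0_coord {u : ℕ → X} {c C : ℝ} (hc : 0 < c) (hC : 0 < C)
    (h1 : ∀ (s : Finset ℕ) (a : ℕ → ℝ) (M : ℝ), 0 ≤ M → (∀ i ∈ s, |a i| ≤ M) →
      ‖∑ i ∈ s, a i • u i‖ ≤ C * M)
    (h2 : ∀ (s : Finset ℕ) (a : ℕ → ℝ), ∀ i ∈ s, c * |a i| ≤ ‖∑ j ∈ s, a j • u j‖) :
    ∃ φ : ℕ → (Submodule.span ℝ (range u)).topologicalClosure →L[ℝ] ℝ,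
      (∀ n v, |φ n v| ≤ c⁻¹ * ‖v‖) ∧
      (∀ v, ∀ e : ℝ, 0 < e → ∃ N : ℕ, ∀ n ≥ N, |φ n v| ≤ e) ∧
      (∀ v (M : ℝ), 0 ≤ M → (∀ n, |φ n v| ≤ M) → ‖v‖ ≤ C * M) ∧
      ∀ n, ∃ v, φ n v = 1 ∧ ∀ m, m ≠ n → φ m v = 0 := by
  have hli : LinearIndependent ℝ u := by
    rw [linearIndependent_iff']
    intro s g hg i hi
    have h := h2 s g i hi
    rw [hg, norm_zero] at h
    have h' : |g i| ≤ 0 := by
      by_contra hcon
      push Not at hcon
      have := mul_pos hc hcon
      linarith
    exact abs_eq_zero.1 (le_antisymm h' (abs_nonneg _))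
  -- every element of the span
  have hrep : ∀ v : Submodule.span ℝ (range u),
      (v : X) = ∑ i ∈ (hli.repr v).support, (hli.repr v) i • u i := by
    intro v
    have h := hli.linearCombination_repr v
    rw [Finsupp.linearCombination_apply, Finsupp.sum] at h
    exact h.symm
  have hbd : ∀ n (v : Submodule.span ℝ (range u)), |hli.repr v n| ≤ c⁻¹ * ‖v‖ := by
    intro n v
    by_cases hn : n ∈ (hli.repr v).support
    · have h := h2 (hli.repr v).support (hli.repr v) n hn
      rw [← hrep v] at h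
      rw [inv_mul_eq_div, le_div_iff₀ hc, mul_comm]
      exact h
    · rw [Finsupp.notMem_support_iff.1 hn, abs_zero]
      positivity
  have hext : ∀ n, ∃ g : X →L[ℝ] ℝ, (∀ v : Submodule.span ℝ (range u), g v = hli.repr v n) ∧
      ‖g‖ ≤ c⁻¹ := by
    intro n
    let f0 : Submodule.span ℝ (range u) →ₗ[ℝ] ℝ := (Finsupp.lapply n).comp hli.repr
    let f : Submodule.span ℝ (range u) →L[ℝ] ℝ := f0.mkContinuous c⁻¹ (fun v => by
      simpa [f0] using hbd n v)
    obtain ⟨g, hg1, hg2⟩ := exists_extension_norm_eq _ f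
    refine ⟨g, fun v => ?_, ?_⟩
    · rw [hg1 v]
      simp [f, f0]
    · rw [hg2]
      exact f0.mkContinuous_norm_le (by positivity) _
  choose g hg1 hg2 using hext
  have hgb : ∀ n (x : X), |g n x| ≤ c⁻¹ * ‖x‖ := by
    intro n x
    have := (g n).le_opNorm x
    rw [Real.norm_eq_abs] at this
    exact this.trans (mul_le_mul_of_nonneg_right (hg2 n) (norm_nonneg _))
  have happ : ∀ (v : (Submodule.span ℝ (range u)).topologicalClosure) (e : ℝ), 0 < e →
      ∃ w : Submodule.span ℝ (range u), ‖(v : X) - w‖ < e := by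
    intro v e he
    have hv : (v : X) ∈ closure ((Submodule.span ℝ (range u)) : Set X) := by
      rw [← Submodule.topologicalClosure_coe]
      exact v.2
    obtain ⟨w, hw, hd⟩ := Metric.mem_closure_iff.1 hv e he
    exact ⟨⟨w, hw⟩, by rwa [dist_eq_norm] at hd⟩
  refine ⟨fun n => (g n).comp (Submodule.subtypeL _), ?_, ?_, ?_, ?_⟩
  · intro n v
    exact hgb n v
  · intro v e he
    obtain ⟨w, hw⟩ := happ v (c * e) (mul_pos hc he)
    refine ⟨(hli.repr w).support.sup id + 1, fun n hn => ?_⟩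
    have hn' : n ∉ (hli.repr w).support := by
      intro hmem
      have : n ≤ (hli.repr w).support.sup id := Finset.le_sup (f := id) hmem
      omega
    have h0 : g n w = 0 := by
      rw [hg1, Finsupp.notMem_support_iff.1 hn']
    show |g n v| ≤ e
    have h1 : g n v = g n ((v : X) - w) := by rw [map_sub, h0, sub_zero]
    rw [h1]
    calc |g n ((v : X) - w)| ≤ c⁻¹ * ‖(v : X) - w‖ := hgb _ _
      _ ≤ c⁻¹ * (c * e) := by gcongr
      _ = e := by field_simp
  · intro v M hM hv
    refine le_of_forall_pos_le_add fun e he => ?_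
    have hden : 0 < C * c⁻¹ + 1 := by positivity
    obtain ⟨w, hw⟩ := happ v (e / (C * c⁻¹ + 1)) (by positivity)
    set d := e / (C * c⁻¹ + 1) with hd
    have hd0 : 0 < d := by positivity
    have hwn : ∀ n, |hli.repr w n| ≤ M + c⁻¹ * d := by
      intro n
      rw [← hg1]
      have h3 : g n w = g n v - g n ((v : X) - w) := by rw [map_sub]; ring
      rw [h3]
      calc |g n v - g n ((v : X) - w)| ≤ |g n v| + |g n ((v : X) - w)| := abs_sub _ _
        _ ≤ M + c⁻¹ * d := by
            refine add_le_add (hv n) ((hgb _ _).trans ?_)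
            gcongr
    have h4 : ‖(w : X)‖ ≤ C * (M + c⁻¹ * d) := by
      rw [hrep w]
      exact h1 _ _ _ (by positivity) (fun i _ => hwn i)
    have h5 : ‖(v : X)‖ ≤ ‖(v : X) - w‖ + ‖(w : X)‖ := by
      have := norm_add_le ((v : X) - w) w
      simpa using this
    have h6 : C * c⁻¹ * d + d = e := by
      rw [hd]; field_simp
    have h7 : ‖v‖ = ‖(v : X)‖ := rfl
    rw [h7]
    nlinarith [h4, h5, h6, hw.le]
  · intro n
    have hun : u n ∈ Submodule.span ℝ (range u) := Submodule.subset_span (mem_range_self n)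
    have hunc : u n ∈ (Submodule.span ℝ (range u)).topologicalClosure :=
      Submodule.le_topologicalClosure _ hun
    have hr : ∀ m, g m (u n) = (Finsupp.single n (1 : ℝ)) m := by
      intro m
      rw [hg1 m ⟨u n, hun⟩, hli.repr_eq_single n ⟨u n, hun⟩ rfl]
    refine ⟨⟨u n, hunc⟩, ?_, fun m hm => ?_⟩
    · show g n (u n) = 1
      rw [hr]; simp
    · show g m (u n) = 0
      rw [hr, Finsupp.single_apply, if_neg (Ne.symm hm)]

end C2N
end

section

set_option autoImplicit false

namespace C2N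

open Filter Topology Set

variable {X : Type*} [NormedAddCommGroup X] [NormedSpace ℝ X]

/-- a space with infinitely many biorthogonal vectors is infinite dimensional -/
theorem not_finite_of_biorth {V : Type*} [AddCommGroup V] [Module ℝ V] (φ : ℕ → V →ₗ[ℝ] ℝ)
    (h : ∀ n, ∃ v, φ n v = 1 ∧ ∀ m, m ≠ n → φ m v = 0) : ¬ FiniteDimensional ℝ V := by
  intro hfin
  choose v hv1 hv0 using h
  have hli : LinearIndependent ℝ v := by
    rw [linearIndependent_iff']
    intro s g hg i hi
    have h1 := congrArg (φ i) hg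
    rw [map_sum, map_zero, Finset.sum_eq_single i] at h1
    · simpa [hv1 i] using h1
    · intro j _ hji
      rw [map_smul, hv0 j i (Ne.symm hji), smul_zero]
    · intro h2
      exact absurd hi h2
  have : Finite ℕ := hli.finite
  exact not_finite ℕ

theorem l2_not_finite : ¬ FiniteDimensional ℝ (lp (fun _ : ℕ => ℝ) 2) := by
  refine not_finite_of_biorth
    (fun n => { toFun := fun f => (f : ∀ _ : ℕ, ℝ) n, map_add' := ?_, map_smul' := ?_ }) ?_
  · intro x y
    simp
  · intro c x
    simp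
  · intro n
    refine ⟨lp.single 2 n (1 : ℝ), ?_, ?_⟩
    · exact lp.single_apply_self (E := fun _ : ℕ => ℝ) 2 n (1 : ℝ)
    · intro m hm
      exact lp.single_apply_ne (E := fun _ : ℕ => ℝ) 2 n (1 : ℝ) hm

end C2N
end

section

set_option autoImplicit false

/-!
`T a = ∑' n, a n • u n`: partial sums are Cauchy by the upper estimate; `√c ‖a‖ ≤ ‖T a‖ ≤ √C ‖a‖`.
-/

namespace C2N

open Filter Topology Set

variable {X : Type*} [NormedAddCommGroup X] [NormedSpace ℝ X]

/-- embedding of `ℓ_2` -/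
theorem l2_embed [CompleteSpace X] (h : ContainsL2 X) :
    ∃ (T : lp (fun _ : ℕ => ℝ) 2 →L[ℝ] X) (c : ℝ), 0 < c ∧ ∀ a, c * ‖a‖ ≤ ‖T a‖ := by
  obtain ⟨u, c, C, hc, hC, h1⟩ := h
  -- norms in `ℓ_2`
  have hsq : ∀ a : lp (fun _ : ℕ => ℝ) 2, HasSum (fun n => (a n) ^ 2) (‖a‖ ^ 2) := by
    intro a
    have := lp.hasSum_norm (p := 2) (by norm_num) a
    simpa [Real.norm_eq_abs] using this
  have hsum : ∀ a : lp (fun _ : ℕ => ℝ) 2, Summable (fun n => a n • u n) := by
    intro a
    rw [summable_iff_vanishing_norm]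
    intro e he
    have h2 : Summable (fun n => (a n) ^ 2) := (hsq a).summable
    rw [summable_iff_vanishing_norm] at h2
    obtain ⟨s, hs⟩ := h2 (e ^ 2 / C) (by positivity)
    refine ⟨s, fun t ht => ?_⟩
    have h3 := hs t ht
    rw [Real.norm_eq_abs, abs_of_nonneg (Finset.sum_nonneg fun i _ => sq_nonneg _),
      lt_div_iff₀ hC] at h3
    have h4 := (h1 t (fun n => a n)).2
    have h5 : ‖∑ i ∈ t, a i • u i‖ ^ 2 < e ^ 2 := by
      refine lt_of_le_of_lt h4 ?_
      rw [mul_comm]
      exact h3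
    exact lt_of_pow_lt_pow_left₀ 2 he.le h5
  have hlim : ∀ a : lp (fun _ : ℕ => ℝ) 2,
      c * ‖a‖ ^ 2 ≤ ‖∑' n, a n • u n‖ ^ 2 ∧ ‖∑' n, a n • u n‖ ^ 2 ≤ C * ‖a‖ ^ 2 := by
    intro a
    have t1 : Tendsto (fun s : Finset ℕ => ‖∑ n ∈ s, a n • u n‖ ^ 2) atTop
        (𝓝 (‖∑' n, a n • u n‖ ^ 2)) := ((hsum a).hasSum.norm).pow 2
    have t2 : Tendsto (fun s : Finset ℕ => ∑ n ∈ s, (a n) ^ 2) atTop (𝓝 (‖a‖ ^ 2)) := hsq a
    exact ⟨le_of_tendsto_of_tendsto' (t2.const_mul c) t1 fun s => (h1 s (fun n => a n)).1,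
      le_of_tendsto_of_tendsto' t1 (t2.const_mul C) fun s => (h1 s (fun n => a n)).2⟩
  let T0 : lp (fun _ : ℕ => ℝ) 2 →ₗ[ℝ] X :=
    { toFun := fun a => ∑' n, a n • u n
      map_add' := by
        intro a b
        rw [← (hsum a).tsum_add (hsum b)]
        refine tsum_congr fun n => ?_
        rw [← add_smul]
        rfl
      map_smul' := by
        intro r a
        rw [RingHom.id_apply, ← (hsum a).tsum_const_smul r]
        refine tsum_congr fun n => ?_
        rw [smul_smul]
        rfl }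
  have hT0 : ∀ a, ‖T0 a‖ ≤ Real.sqrt C * ‖a‖ := by
    intro a
    have h7 : ‖T0 a‖ ≤ Real.sqrt (C * ‖a‖ ^ 2) := Real.le_sqrt_of_sq_le (hlim a).2
    rwa [Real.sqrt_mul hC.le, Real.sqrt_sq (norm_nonneg _)] at h7
  refine ⟨T0.mkContinuous (Real.sqrt C) hT0, Real.sqrt c, Real.sqrt_pos.2 hc, fun a => ?_⟩
  have h6 : Real.sqrt c * ‖a‖ = Real.sqrt (c * ‖a‖ ^ 2) := by
    rw [Real.sqrt_mul hc.le, Real.sqrt_sq (norm_nonneg _)]
  rw [h6]
  refine Real.sqrt_le_iff.2 ⟨norm_nonneg _, (hlim a).1⟩

end C2N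
end

section

set_option autoImplicit false

/-!
Choose a linearly independent sequence, `Y` = closure of its span (`Submodule.topologicalClosure`); separable:
the span of a countable set is separable (`TopologicalSpace.IsSeparable.span`), closure.
-/

namespace C2N

open Filter Topology Set

variable {X : Type*} [NormedAddCommGroup X] [NormedSpace ℝ X]

/-- every infinite dimensional space has an infinite dimensional separable closed subspace -/
theorem exists_separable_subspace [CompleteSpace X] (h : ¬ FiniteDimensional ℝ X) :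
    ∃ Y : Submodule ℝ X, IsClosed (Y : Set X) ∧ ¬ FiniteDimensional ℝ Y ∧
      TopologicalSpace.SeparableSpace Y := by
  let b := Module.Basis.ofVectorSpace ℝ X
  have hinf : Infinite (Module.Basis.ofVectorSpaceIndex ℝ X) := by
    by_contra hcon
    rw [not_infinite_iff_finite] at hcon
    exact h (Module.Finite.of_basis b)
  let em := Infinite.natEmbedding (Module.Basis.ofVectorSpaceIndex ℝ X)
  let u : ℕ → X := fun n => b (em n)
  have hu : LinearIndependent ℝ u := b.linearIndependent.comp em em.injective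
  have huY : ∀ n, u n ∈ (Submodule.span ℝ (range u)).topologicalClosure := fun n =>
    Submodule.le_topologicalClosure _ (Submodule.subset_span (mem_range_self n))
  refine ⟨(Submodule.span ℝ (range u)).topologicalClosure,
    Submodule.isClosed_topologicalClosure _, ?_, ?_⟩
  · intro hfin
    have hli : LinearIndependent ℝ
        (fun n => (⟨u n, huY n⟩ : (Submodule.span ℝ (range u)).topologicalClosure)) := by
      refine LinearIndependent.of_comp
        ((Submodule.span ℝ (range u)).topologicalClosure).subtype ?_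
      exact hu
    have : Finite ℕ := hli.finite
    exact not_finite ℕ
  · have h1 : TopologicalSpace.IsSeparable
        ((Submodule.span ℝ (range u)).topologicalClosure : Set X) := by
      rw [Submodule.topologicalClosure_coe]
      exact ((countable_range u).isSeparable.span).closure
    exact h1.separableSpace

end C2N
end

section

set_option autoImplicit false

/-!
`G v = ∑' n, eta (φ n v)` (locally finite: near `v` only the `n` with `|φ n v| > 1/2` matter, `‖w - v‖ < c/2`).
Convex: pointwise finite sums of convex functions.  `G v ≤ 1` implies `eta (φ n v) ≤ 1`, so `|φ n v| ≤ 2` for all `n`.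
-/

namespace C2N

open Filter Topology Set

variable {X : Type*} [NormedAddCommGroup X] [NormedSpace ℝ X]

private theorem eta_nonneg (t : ℝ) : 0 ≤ eta t := by
  unfold eta
  exact pow_nonneg (le_max_right _ _) 3

private theorem eta_zero_of {t : ℝ} (h : |t| ≤ 1) : eta t = 0 := by
  unfold eta
  rw [max_eq_right (by linarith)]
  norm_num

/-- `G v = ∑ η (φ n v)` is a locally finite sum -/
theorem c0_G {V : Type*} [NormedAddCommGroup V] [NormedSpace ℝ V] {c C : ℝ} (hc : 0 < c)
    (hC : 0 < C) (φ : ℕ → V →L[ℝ] ℝ) (h1 : ∀ n v, |φ n v| ≤ c⁻¹ * ‖v‖)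
    (h2 : ∀ v, ∀ e : ℝ, 0 < e → ∃ N : ℕ, ∀ n ≥ N, |φ n v| ≤ e)
    (h3 : ∀ v (M : ℝ), 0 ≤ M → (∀ n, |φ n v| ≤ M) → ‖v‖ ≤ C * M) :
    ∃ G : V → ℝ, ContDiff ℝ 2 G ∧ ConvexOn ℝ univ G ∧ (∀ v, G (-v) = G v) ∧ G 0 = 0 ∧
      ∀ v, G v ≤ 1 → ‖v‖ ≤ 2 * C := by
  have hfin : ∀ v, ∃ N : ℕ, ∀ w, ‖w - v‖ < c / 2 → ∀ n ≥ N, eta (φ n w) = 0 := by
    intro v
    obtain ⟨N, hN⟩ := h2 v (1 / 2) (by norm_num)
    refine ⟨N, fun w hw n hn => eta_zero_of ?_⟩
    have e1 : φ n w = φ n v + φ n (w - v) := by rw [map_sub]; ring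
    rw [e1]
    calc |φ n v + φ n (w - v)| ≤ |φ n v| + |φ n (w - v)| := abs_add_le _ _
      _ ≤ 1 / 2 + c⁻¹ * (c / 2) := by
          refine add_le_add (hN n hn) ((h1 n _).trans ?_)
          gcongr
      _ = 1 := by field_simp; norm_num
  have hsum : ∀ w (M : ℕ), (∀ n ≥ M, eta (φ n w) = 0) →
      ∑' n, eta (φ n w) = ∑ n ∈ Finset.range M, eta (φ n w) := by
    intro w M hM
    exact tsum_eq_sum (fun n hn => hM n (by simpa using hn))
  have hself : ∀ v, ∃ N : ℕ, ∀ n ≥ N, eta (φ n v) = 0 := by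
    intro v
    obtain ⟨N, hN⟩ := hfin v
    exact ⟨N, fun n hn => hN v (by simpa using hc) n hn⟩
  refine ⟨fun v => ∑' n, eta (φ n v), ?_, ?_, ?_, ?_, ?_⟩
  · rw [contDiff_iff_contDiffAt]
    intro v
    obtain ⟨N, hN⟩ := hfin v
    have e1 : (fun w => ∑' n, eta (φ n w)) =ᶠ[𝓝 v]
        fun w => ∑ n ∈ Finset.range N, eta (φ n w) := by
      filter_upwards [Metric.ball_mem_nhds v (half_pos hc)] with w hw
      exact hsum w N (hN w (by simpa [dist_eq_norm] using hw))
    refine ContDiffAt.congr_of_eventuallyEq ?_ e1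
    refine ContDiff.contDiffAt ?_
    exact ContDiff.sum fun n _ => eta_contDiff.comp (φ n).contDiff
  · refine ⟨convex_univ, fun x _ y _ a b ha hb hab => ?_⟩
    obtain ⟨N1, hN1⟩ := hself x
    obtain ⟨N2, hN2⟩ := hself y
    obtain ⟨N3, hN3⟩ := hself (a • x + b • y)
    set M := N1 + N2 + N3 with hM
    show ∑' n, eta (φ n (a • x + b • y)) ≤ a • ∑' n, eta (φ n x) + b • ∑' n, eta (φ n y)
    rw [hsum x M (fun n hn => hN1 n (by omega)), hsum y M (fun n hn => hN2 n (by omega)),
      hsum _ M (fun n hn => hN3 n (by omega)), Finset.smul_sum, Finset.smul_sum,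
      ← Finset.sum_add_distrib]
    refine Finset.sum_le_sum fun n _ => ?_
    rw [map_add, map_smul, map_smul]
    exact eta_convex.2 (mem_univ _) (mem_univ _) ha hb hab
  · intro v
    refine tsum_congr fun n => ?_
    rw [map_neg]
    unfold eta
    rw [abs_neg]
  · refine (tsum_congr fun n => ?_).trans tsum_zero
    rw [map_zero]
    exact eta_zero_of (by simp)
  · intro v hv
    have hv' : ∑' n, eta (φ n v) ≤ 1 := hv
    obtain ⟨N, hN⟩ := hself v
    rw [mul_comm]
    refine h3 v 2 (by norm_num) fun n => ?_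
    have hle : eta (φ n v) ≤ 1 := by
      refine le_trans ?_ hv'
      have hs : Summable fun n => eta (φ n v) := by
        refine summable_of_ne_finset_zero (s := Finset.range N) fun n hn => ?_
        exact hN n (by simpa using hn)
      exact hs.le_tsum n fun m _ => eta_nonneg _
    by_contra hcon
    push Not at hcon
    have h5 : 1 < max (|φ n v| - 1) 0 := lt_of_lt_of_le (by linarith) (le_max_left _ _)
    have h6 : 1 < eta (φ n v) := by
      unfold eta
      exact one_lt_pow₀ h5 (by norm_num)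
    linarith

end C2N
end

section

set_option autoImplicit false

/-!
`V = range T` for `T` from `l2_embed` (closed: antilipschitz + complete), `ℓ_2 ≃L V`; the norm of an inner product space is smooth off
`0` (`contDiffAt_norm`).
-/

namespace C2N

open Filter Topology Set

variable {X : Type*} [NormedAddCommGroup X] [NormedSpace ℝ X]

/-- Section 13, the case of `ℓ_2` -/
theorem l2_subspace [CompleteSpace X] (h : ContainsL2 X) :
    ∃ V : Submodule ℝ X, IsClosed (V : Set X) ∧ ¬ FiniteDimensional ℝ V ∧ HasC2Norm V := by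
  obtain ⟨T, c, hc, hT⟩ := l2_embed h
  have hanti : AntilipschitzWith (Real.toNNReal c⁻¹) T := by
    refine ContinuousLinearMap.antilipschitz_of_bound T fun a => ?_
    rw [Real.coe_toNNReal _ (by positivity), inv_mul_eq_div, le_div_iff₀ hc, mul_comm]
    exact hT a
  have hinj : Function.Injective T := hanti.injective
  have hclosed : IsClosed (range T) := hanti.isClosed_range T.uniformContinuous
  let e : lp (fun _ : ℕ => ℝ) 2 ≃L[ℝ] LinearMap.range (T : lp (fun _ : ℕ => ℝ) 2 →ₗ[ℝ] X) :=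
    T.equivRange hinj hclosed
  refine ⟨LinearMap.range (T : lp (fun _ : ℕ => ℝ) 2 →ₗ[ℝ] X), hclosed, ?_, ?_⟩
  · intro hfin
    exact l2_not_finite (LinearEquiv.finiteDimensional e.symm.toLinearEquiv)
  · refine HasC2Norm.of_equiv e.symm ?_
    refine ⟨fun a => ‖a‖, ⟨norm_add_le, fun r x => ?_, 1, 1, one_pos, one_pos, fun x => ?_⟩, ?_⟩
    · rw [norm_smul, Real.norm_eq_abs]
    · simp
    · intro a ha
      exact (contDiffAt_norm ℝ (by simpa using ha)).contDiffWithinAt

end C2N
end

section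

set_option autoImplicit false

namespace C2N

open Filter Topology Set

universe u v

theorem gauge_C2 {X : Type*} [NormedAddCommGroup X] [NormedSpace ℝ X] [CompleteSpace X] (G : X → ℝ)
    (hconv : ConvexOn ℝ univ G) (hcont : Continuous G) (heven : ∀ x, G (-x) = G x) (c r : ℝ)
    (h0 : G 0 < c) (hsub : ∀ x, G x ≤ c → ‖x‖ < r)
    (hC : ContDiffOn ℝ 2 G (Metric.ball (0 : X) r)) : HasC2Norm X := by
  obtain ⟨N, hN, hN1, hN2⟩ := gauge_equiv G hconv hcont heven c r h0 hsub
  refine ⟨N, hN, fun x hx => ?_⟩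
  refine (gauge_C2_at G hconv hcont c h0 N hN hN1 hN2 x hx ?_).contDiffWithinAt
  refine hC.contDiffAt (Metric.isOpen_ball.mem_nhds ?_)
  rw [mem_ball_zero_iff]
  exact hsub _ (hN1 x hx).le

end C2N
end

section

set_option autoImplicit false

namespace C2N

open Filter Topology Set

variable {X : Type*} [NormedAddCommGroup X] [NormedSpace ℝ X]

/-- Section 13, the case of `c_0` -/
theorem c0_subspace [CompleteSpace X] (h : ContainsC0 X) :
    ∃ V : Submodule ℝ X, IsClosed (V : Set X) ∧ ¬ FiniteDimensional ℝ V ∧ HasC2Norm V := by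
  obtain ⟨u, c, C, hc, hC, h1, h2⟩ := h
  obtain ⟨φ, p1, p2, p3, p4⟩ := c0_coord hc hC h1 h2
  refine ⟨(Submodule.span ℝ (range u)).topologicalClosure,
    Submodule.isClosed_topologicalClosure _, ?_, ?_⟩
  · exact not_finite_of_biorth (fun n => (φ n : _ →ₗ[ℝ] ℝ)) p4
  · have hcomp : CompleteSpace (Submodule.span ℝ (range u)).topologicalClosure :=
      (Submodule.isClosed_topologicalClosure _).completeSpace_coe
    obtain ⟨G, g1, g2, g3, g4, g5⟩ := c0_G hc hC φ p1 p2 p3
    exact gauge_C2 G g2 g1.continuous g3 1 (2 * C + 1) (by rw [g4]; norm_num)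
      (fun x hx => by linarith [g5 x hx]) g1.contDiffOn

end C2N
end
end

section

section

set_option autoImplicit false

/-!
`avg v H x = (1/2) ∫_{-1}^{1} H (x + t v) dt` for Lipschitz (hence continuous) `H`;
`intervalIntegral.norm_integral_le_of_norm_le_const`.  For `avg_sub_le` write `H x = (1/2) ∫ H x`.
(`K` may be negative only if `X` is trivial.)
-/

namespace C2N

open Filter Topology Set MeasureTheory

variable {X : Type*} [NormedAddCommGroup X] [NormedSpace ℝ X]
variable {E : Type*} [NormedAddCommGroup E] [NormedSpace ℝ E]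

omit [NormedSpace ℝ X] [NormedSpace ℝ E] in
private theorem cont_of_lip {K : ℝ} {H : X → E}
    (h : ∀ x z, ‖H x - H z‖ ≤ K * ‖x - z‖) : Continuous H := by
  have h2 : LipschitzWith (Real.toNNReal |K|) H := by
    apply LipschitzWith.of_dist_le_mul
    intro x z
    rw [dist_eq_norm, dist_eq_norm, Real.coe_toNNReal _ (abs_nonneg K)]
    exact (h x z).trans (mul_le_mul_of_nonneg_right (le_abs_self K) (norm_nonneg _))
  exact h2.continuous

private theorem cont_line {K : ℝ} (v : X) {H : X → E}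
    (h : ∀ x z, ‖H x - H z‖ ≤ K * ‖x - z‖) (x : X) : Continuous (fun t : ℝ => H (x + t • v)) :=
  (cont_of_lip h).comp (by fun_prop)

/-- Lipschitz functions stay Lipschitz -/
theorem avg_lip [CompleteSpace E] {K : ℝ} (v : X) {H : X → E}
    (h : ∀ x z, ‖H x - H z‖ ≤ K * ‖x - z‖) (x z : X) :
    ‖avg v H x - avg v H z‖ ≤ K * ‖x - z‖ := by
  unfold avg
  rw [← smul_sub, ← intervalIntegral.integral_sub
    ((cont_line v h x).intervalIntegrable _ _) ((cont_line v h z).intervalIntegrable _ _),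
    norm_smul]
  have h1 : ‖∫ t in (-1 : ℝ)..1, (H (x + t • v) - H (z + t • v))‖ ≤
      (K * ‖x - z‖) * |1 - (-1 : ℝ)| := by
    apply intervalIntegral.norm_integral_le_of_norm_le_const
    intro t _
    have := h (x + t • v) (z + t • v)
    rwa [add_sub_add_right_eq_sub] at this
  have h2 : |1 - (-1 : ℝ)| = 2 := by norm_num
  rw [h2] at h1
  have h3 : ‖(1 / 2 : ℝ)‖ = 1 / 2 := by norm_num
  rw [h3]
  linarith

theorem avg_sub_le [CompleteSpace E] {K : ℝ} (v : X) {H : X → E}
    (h : ∀ x z, ‖H x - H z‖ ≤ K * ‖x - z‖) (x : X) : ‖avg v H x - H x‖ ≤ K * ‖v‖ := by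
  have hKv : 0 ≤ K * ‖v‖ := by
    have := h v 0
    rw [sub_zero] at this
    exact (norm_nonneg _).trans this
  have hx : H x = (1 / 2 : ℝ) • ∫ _t in (-1 : ℝ)..1, H x := by
    rw [intervalIntegral.integral_const, smul_smul]
    norm_num
  have e : avg v H x - H x = (1 / 2 : ℝ) • ∫ t in (-1 : ℝ)..1, (H (x + t • v) - H x) := by
    conv_lhs => rw [hx]
    unfold avg
    rw [← smul_sub, ← intervalIntegral.integral_sub
      ((cont_line v h x).intervalIntegrable _ _) (continuous_const.intervalIntegrable _ _)]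
  rw [e, norm_smul]
  have h1 : ‖∫ t in (-1 : ℝ)..1, (H (x + t • v) - H x)‖ ≤ (K * ‖v‖) * |1 - (-1 : ℝ)| := by
    apply intervalIntegral.norm_integral_le_of_norm_le_const
    intro t ht
    rw [Set.uIoc_of_le (by norm_num)] at ht
    have ht2 : |t| ≤ 1 := abs_le.mpr ⟨ht.1.le, ht.2⟩
    have := h (x + t • v) x
    rw [add_sub_cancel_left, norm_smul, Real.norm_eq_abs] at this
    calc ‖H (x + t • v) - H x‖ ≤ K * (|t| * ‖v‖) := this
      _ = |t| * (K * ‖v‖) := by ring
      _ ≤ 1 * (K * ‖v‖) := mul_le_mul_of_nonneg_right ht2 hKv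
      _ = K * ‖v‖ := one_mul _
  have h2 : |1 - (-1 : ℝ)| = 2 := by norm_num
  rw [h2] at h1
  have h3 : ‖(1 / 2 : ℝ)‖ = 1 / 2 := by norm_num
  rw [h3]
  linarith

end C2N
end

section

set_option autoImplicit false

/-!
By contradiction: for every `k` there are `x_k → x0`, `κ_k = ∑_{i<n_k} t_i v_i`, `h_k ∈ tail g k`, `‖h_k‖ ≤ 1/(k+1)` violating the
estimate (`M = k`, `δ = 1/(k+1)`).  The set of all such `κ` is totally bounded (tails of `∑‖v i‖` are small, finitely many coordinates
range over a compact cube), so a subsequence of `κ_k` converges to `κ`, `‖κ‖ ≤ a`, `‖x0 + κ‖ < r`; `hTS` at `x0 + κ` gives `M, δ`: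
contradiction for large `k` (`tail_anti`).
-/

namespace C2N

open Filter Topology Set MeasureTheory

variable {X : Type*} [NormedAddCommGroup X] [NormedSpace ℝ X]
variable {E : Type*} [NormedAddCommGroup E] [NormedSpace ℝ E]

private lemma i1g_tail_anti {g : ℕ → X →L[ℝ] ℝ} {m n : ℕ} (h : m ≤ n) :
    tail g n ≤ tail g m := by
  unfold tail
  exact biInf_mono fun i hi => Finset.mem_range.2 ((Finset.mem_range.1 hi).trans_le h)

/-- (TS) is uniform on the compact sets `x0 + {∑ t_i v_i}` -/
theorem TS.uniform [CompleteSpace X] {g : ℕ → X →L[ℝ] ℝ} {F : X → ℝ} {r a : ℝ} (hTS : TS g F r)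
    (v : ℕ → X) (hv : Summable fun i => ‖v i‖) (hva : ∑' i, ‖v i‖ ≤ a) (x0 : X)
    (hx0 : ‖x0‖ < r - a) (e : ℝ) (he : 0 < e) :
    ∃ (M : ℕ) (δ : ℝ), 0 < δ ∧ ∀ x, ‖x - x0‖ < δ → ∀ (n : ℕ) (t : ℕ → ℝ), (∀ i, |t i| ≤ 1) →
      ∀ h ∈ tail g M, ‖h‖ ≤ δ →
        F (x + ∑ i ∈ Finset.range n, t i • v i + h) + F (x + ∑ i ∈ Finset.range n, t i • v i - h) -
          2 * F (x + ∑ i ∈ Finset.range n, t i • v i) ≤ e * ‖h‖ ^ 2 := by
  -- the compact set of all sums
  let B : Set (ℕ → ℝ) := Set.pi univ fun _ => Icc (-1 : ℝ) 1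
  have hB : IsCompact B := isCompact_univ_pi fun _ => isCompact_Icc
  have hBt : ∀ t ∈ B, ∀ i, |t i| ≤ 1 := fun t ht i => abs_le.2 (ht i (mem_univ i))
  let Φ : (ℕ → ℝ) → X := fun t => ∑' i, t i • v i
  have hbd : ∀ (i : ℕ) (t : ℕ → ℝ), t ∈ B → ‖t i • v i‖ ≤ ‖v i‖ := by
    intro i t ht
    rw [norm_smul, Real.norm_eq_abs]
    exact mul_le_of_le_one_left (norm_nonneg _) (hBt t ht i)
  have hΦ : ContinuousOn Φ B :=
    continuousOn_tsum (fun i => ((continuous_apply i).smul continuous_const).continuousOn) hv hbd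
  have hK : IsCompact (Φ '' B) := hB.image_of_continuousOn hΦ
  have hKa : ∀ κ ∈ Φ '' B, ‖κ‖ ≤ a := by
    rintro κ ⟨t, ht, rfl⟩
    exact (tsum_of_norm_bounded hv.hasSum fun i => hbd i t ht).trans hva
  -- uniformity
  have key : ∃ (M : ℕ) (δ : ℝ), 0 < δ ∧ ∀ κ ∈ Φ '' B, ∀ x, ‖x - x0‖ < δ → ∀ h ∈ tail g M,
      ‖h‖ ≤ δ → F (x + κ + h) + F (x + κ - h) - 2 * F (x + κ) ≤ e * ‖h‖ ^ 2 := by
    refine hK.induction_on (p := fun s => ∃ (M : ℕ) (δ : ℝ), 0 < δ ∧ ∀ κ ∈ s, ∀ x, ‖x - x0‖ < δ →
      ∀ h ∈ tail g M, ‖h‖ ≤ δ → F (x + κ + h) + F (x + κ - h) - 2 * F (x + κ) ≤ e * ‖h‖ ^ 2)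
      ?_ ?_ ?_ ?_
    · exact ⟨0, 1, one_pos, fun κ hκ => absurd hκ (notMem_empty κ)⟩
    · rintro s t hst ⟨M, δ, hδ, h⟩
      exact ⟨M, δ, hδ, fun κ hκ => h κ (hst hκ)⟩
    · rintro s t ⟨M, δ, hδ, h⟩ ⟨M', δ', hδ', h'⟩
      refine ⟨max M M', min δ δ', lt_min hδ hδ', fun κ hκ x hx y hy hy' => ?_⟩
      rcases hκ with hκ | hκ
      · exact h κ hκ x (hx.trans_le (min_le_left _ _)) y (i1g_tail_anti (le_max_left _ _) hy)
          (hy'.trans (min_le_left _ _))
      · exact h' κ hκ x (hx.trans_le (min_le_right _ _)) y (i1g_tail_anti (le_max_right _ _) hy)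
          (hy'.trans (min_le_right _ _))
    · intro κ hκ
      have hr : ‖x0 + κ‖ < r := by
        have h1 := norm_add_le x0 κ
        have h2 := hKa κ hκ
        linarith
      obtain ⟨M, δ, hδ, h⟩ := hTS (x0 + κ) hr e he
      refine ⟨Metric.ball κ (δ / 2), mem_nhdsWithin_of_mem_nhds
        (Metric.ball_mem_nhds κ (by linarith)), M, δ / 2, by linarith, ?_⟩
      intro κ' hκ' x hx y hy hy'
      refine h (x + κ') ?_ y hy (by linarith)
      rw [mem_ball_iff_norm] at hκ'
      have h3 : x + κ' - (x0 + κ) = (x - x0) + (κ' - κ) := by abel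
      rw [h3]
      have h4 := norm_add_le (x - x0) (κ' - κ)
      linarith
  obtain ⟨M, δ, hδ, h⟩ := key
  refine ⟨M, δ, hδ, fun x hx n t ht y hy hy' => ?_⟩
  refine h _ ?_ x hx y hy hy'
  refine ⟨fun i => if i ∈ Finset.range n then t i else 0, ?_, ?_⟩
  · intro i _
    by_cases hi : i ∈ Finset.range n
    · simp only [hi, if_true]
      exact abs_le.1 (ht i)
    · simp only [hi, if_false]
      exact ⟨by norm_num, by norm_num⟩
  · change ∑' i, (if i ∈ Finset.range n then t i else 0) • v i = _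
    rw [tsum_eq_sum (s := Finset.range n) fun i hi => by simp only [hi, if_false, zero_smul]]
    exact Finset.sum_congr rfl fun i hi => by simp only [hi, if_true]

end C2N
end

section

set_option autoImplicit false

/-!
Section 11.  `(avg v p x) y = (1/2) ∫ p (x + t v) y dt` (`ContinuousLinearMap.intervalIntegral_apply` or
`intervalIntegral` commutes with the continuous linear map evaluation at `y`); integrate the two
estimates.  `avg_diff`: `0 ≤ F (x + t v) - F x - t p x v ≤ L t^2‖v‖^2`, and `∫_{-1}^1 t dt = 0`.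
-/

namespace C2N

open Filter Topology Set MeasureTheory

variable {X : Type*} [NormedAddCommGroup X] [NormedSpace ℝ X]
variable {E : Type*} [NormedAddCommGroup E] [NormedSpace ℝ E]

private lemma half_integral_bounds {g : ℝ → ℝ} (hg : Continuous g) {M : ℝ}
    (h0 : ∀ t ∈ Icc (-1 : ℝ) 1, 0 ≤ g t) (h1 : ∀ t ∈ Icc (-1 : ℝ) 1, g t ≤ M) :
    0 ≤ (1 / 2 : ℝ) * ∫ t in (-1 : ℝ)..1, g t ∧ (1 / 2 : ℝ) * ∫ t in (-1 : ℝ)..1, g t ≤ M := by
  have hi : IntervalIntegrable g volume (-1) 1 := hg.intervalIntegrable _ _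
  have hc : IntervalIntegrable (fun _ : ℝ => M) volume (-1) 1 :=
    continuous_const.intervalIntegrable _ _
  constructor
  · have := intervalIntegral.integral_nonneg (μ := volume) (by norm_num : (-1 : ℝ) ≤ 1) h0
    linarith
  · have h2 := intervalIntegral.integral_mono_on (μ := volume) (by norm_num : (-1 : ℝ) ≤ 1) hi hc h1
    rw [intervalIntegral.integral_const, smul_eq_mul] at h2
    linarith

private lemma seg_continuous (x v : X) : Continuous fun t : ℝ => x + t • v := by fun_prop

/-- quadratic estimates are preserved by averages -/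
theorem Quad.avg {L : ℝ} (hL : 0 ≤ L) {F : X → ℝ} {p : X → X →L[ℝ] ℝ} (h : Quad L F p) (v : X) :
    Quad L (avg v F) (avg v p) := by
  have hFc : Continuous F := h.continuous hL
  have hpc : Continuous p := by
    have : LipschitzWith (Real.toNNReal (2 * L)) p := by
      refine LipschitzWith.of_dist_le_mul (fun x z => ?_)
      rw [dist_eq_norm, dist_eq_norm, Real.coe_toNNReal _ (by positivity)]
      exact h.lip hL x z
    exact this.continuous
  have key : ∀ x y, C2N.avg v F (x + y) - C2N.avg v F x - C2N.avg v p x y =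
      (1 / 2 : ℝ) * ∫ t in (-1 : ℝ)..1, (F (x + t • v + y) - F (x + t • v) - p (x + t • v) y) := by
    intro x y
    have c1 : Continuous fun t : ℝ => F (x + t • v + y) :=
      hFc.comp ((seg_continuous x v).add continuous_const)
    have c2 : Continuous fun t : ℝ => F (x + t • v) := hFc.comp (seg_continuous x v)
    have c3 : Continuous fun t : ℝ => p (x + t • v) := hpc.comp (seg_continuous x v)
    have c4 : Continuous fun t : ℝ => p (x + t • v) y := c3.clm_apply continuous_const
    have e1 : C2N.avg v p x y = (1 / 2 : ℝ) * ∫ t in (-1 : ℝ)..1, p (x + t • v) y := by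
      unfold C2N.avg
      rw [smul_apply, smul_eq_mul,
        ContinuousLinearMap.intervalIntegral_apply (c3.intervalIntegrable _ _)]
    have e2 : C2N.avg v F (x + y) = (1 / 2 : ℝ) * ∫ t in (-1 : ℝ)..1, F (x + t • v + y) := by
      unfold C2N.avg
      rw [smul_eq_mul]
      congr 2
      funext t
      congr 1
      abel
    have e3 : C2N.avg v F x = (1 / 2 : ℝ) * ∫ t in (-1 : ℝ)..1, F (x + t • v) := by
      unfold C2N.avg
      rw [smul_eq_mul]
    have c12 : Continuous fun t : ℝ => F (x + t • v + y) - F (x + t • v) := c1.sub c2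
    rw [e1, e2, e3, intervalIntegral.integral_sub (c12.intervalIntegrable _ _)
      (c4.intervalIntegrable _ _), intervalIntegral.integral_sub (c1.intervalIntegrable _ _)
      (c2.intervalIntegrable _ _)]
    ring
  have hb : ∀ x y, 0 ≤ C2N.avg v F (x + y) - C2N.avg v F x - C2N.avg v p x y ∧
      C2N.avg v F (x + y) - C2N.avg v F x - C2N.avg v p x y ≤ L * ‖y‖ ^ 2 := by
    intro x y
    rw [key]
    refine half_integral_bounds ?_ (fun t _ => h.lower _ _) (fun t _ => h.upper _ _)
    exact ((hFc.comp ((seg_continuous x v).add continuous_const)).sub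
      (hFc.comp (seg_continuous x v))).sub
      ((hpc.comp (seg_continuous x v)).clm_apply continuous_const)
  exact ⟨fun x y => (hb x y).1, fun x y => (hb x y).2⟩

/-- averages increase convex functions, with a quadratic bound (the linear term cancels) -/
theorem Quad.avg_diff {L : ℝ} (hL : 0 ≤ L) {F : X → ℝ} {p : X → X →L[ℝ] ℝ} (h : Quad L F p) (v x : X) :
    F x ≤ C2N.avg v F x ∧ C2N.avg v F x ≤ F x + L * ‖v‖ ^ 2 := by
  have hFc : Continuous F := h.continuous hL
  have c2 : Continuous fun t : ℝ => F (x + t • v) := hFc.comp (seg_continuous x v)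
  have c4 : Continuous fun t : ℝ => p x (t • v) :=
    (p x).continuous.comp (continuous_id.smul continuous_const)
  have hodd : ∫ t in (-1 : ℝ)..1, p x (t • v) = 0 := by
    have : (fun t : ℝ => p x (t • v)) = fun t : ℝ => t * p x v := by
      funext t; rw [map_smul, smul_eq_mul]
    rw [this, intervalIntegral.integral_mul_const, integral_id]
    norm_num
  have key : C2N.avg v F x - F x =
      (1 / 2 : ℝ) * ∫ t in (-1 : ℝ)..1, (F (x + t • v) - F x - p x (t • v)) := by
    have c12 : Continuous fun t : ℝ => F (x + t • v) - F x := c2.sub continuous_const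
    rw [intervalIntegral.integral_sub (c12.intervalIntegrable _ _)
      (c4.intervalIntegrable _ _), intervalIntegral.integral_sub (c2.intervalIntegrable _ _)
      (continuous_const.intervalIntegrable _ _), hodd, intervalIntegral.integral_const]
    unfold C2N.avg
    rw [smul_eq_mul, smul_eq_mul]
    ring
  have hb := half_integral_bounds (g := fun t => F (x + t • v) - F x - p x (t • v))
    (M := L * ‖v‖ ^ 2) ((c2.sub continuous_const).sub c4) (fun t _ => h.lower _ _)
    (fun t ht => by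
      refine (h.upper _ _).trans ?_
      rw [norm_smul, mul_pow, Real.norm_eq_abs, sq_abs]
      have h3 : t ^ 2 ≤ 1 := by
        rw [sq_le_one_iff_abs_le_one, abs_le]
        exact ht
      have h4 : t ^ 2 * ‖v‖ ^ 2 ≤ 1 * ‖v‖ ^ 2 := by gcongr
      rw [one_mul] at h4
      exact mul_le_mul_of_nonneg_left h4 hL)
  rw [← key] at hb
  constructor
  · linarith [hb.1]
  · linarith [hb.2]

end C2N
end

section

set_option autoImplicit false

/-!
Section 11.  `avg (a e) H (x + s e) - avg (a e) H x = (1/(2a)) (∫_{a}^{a+s} H (x + r e) dr - ∫_{-a}^{-a+s} H (x + r e) dr)`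
(substitution); subtract the same for `z`; both integrals of `H (x + r e) - H (z + r e)` are `≤ |s| K‖x-z‖`.
-/

namespace C2N

open Filter Topology Set MeasureTheory

variable {X : Type*} [NormedAddCommGroup X] [NormedSpace ℝ X]
variable {E : Type*} [NormedAddCommGroup E] [NormedSpace ℝ E]

/-- averages along `a e` create the condition `DirLip` in the direction `e` -/
theorem dirLip_create [CompleteSpace E] {K : ℝ} {H : X → E} (hK : 0 ≤ K)
    (h : ∀ x z, ‖H x - H z‖ ≤ K * ‖x - z‖) {a : ℝ} (ha : 0 < a) (e : X) :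
    DirLip (K / a) (avg (a • e) H) e := by
  have hcont : Continuous H := by
    rw [Metric.continuous_iff]
    intro b ε hε
    refine ⟨ε / (K + 1), by positivity, fun c hc => ?_⟩
    rw [dist_eq_norm] at hc ⊢
    have h1 := h c b
    have h2 : K * ‖c - b‖ ≤ K * (ε / (K + 1)) := mul_le_mul_of_nonneg_left hc.le hK
    have h3 : K * (ε / (K + 1)) < ε := by
      rw [mul_div_assoc', div_lt_iff₀ (by positivity)]
      nlinarith
    linarith
  have hline : ∀ x : X, Continuous fun r : ℝ => H (x + r • e) := fun x => by fun_prop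
  have hii : ∀ (x : X) (b c : ℝ), IntervalIntegrable (fun r : ℝ => H (x + r • e)) volume b c :=
    fun x b c => (hline x).intervalIntegrable b c
  have key : ∀ x : X, avg (a • e) H x = (1 / (2 * a) : ℝ) • ∫ r in (-a)..a, H (x + r • e) := by
    intro x
    have h1 := intervalIntegral.integral_comp_mul_right (a := (-1 : ℝ)) (b := 1)
      (fun r : ℝ => H (x + r • e)) ha.ne'
    have h2 : (∫ t in (-1 : ℝ)..1, H (x + t • (a • e))) =
        ∫ t in (-1 : ℝ)..1, (fun r : ℝ => H (x + r • e)) (t * a) := by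
      simp only [smul_smul]
    unfold avg
    rw [h2, h1, smul_smul]
    have h3 : (1 / 2 : ℝ) * a⁻¹ = 1 / (2 * a) := by
      field_simp
    rw [h3]
    simp only [neg_mul, one_mul]
  have key2 : ∀ (x : X) (s : ℝ), avg (a • e) H (x + s • e) - avg (a • e) H x =
      (1 / (2 * a) : ℝ) • ((∫ r in a..(a + s), H (x + r • e)) -
        ∫ r in (-a)..(-a + s), H (x + r • e)) := by
    intro x s
    rw [key, key, ← smul_sub]
    congr 1
    have h1 := intervalIntegral.integral_comp_add_right (a := -a) (b := a)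
      (fun r : ℝ => H (x + r • e)) s
    have h2 : (∫ r in (-a)..a, H (x + s • e + r • e)) =
        ∫ r in (-a)..a, (fun r : ℝ => H (x + r • e)) (r + s) := by
      congr 1
      funext r
      simp only
      congr 1
      rw [add_smul]
      abel
    rw [h2, h1, intervalIntegral.integral_interval_sub_interval_comm (hii x _ _) (hii x _ _)
      (hii x _ _), intervalIntegral.integral_symm a (a + s),
      intervalIntegral.integral_symm (-a) (-a + s)]
    abel
  intro x z s
  rw [key2, key2, ← smul_sub]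
  have hG : ∀ b : ℝ, ‖(∫ r in b..(b + s), H (x + r • e)) - ∫ r in b..(b + s), H (z + r • e)‖ ≤
      K * ‖x - z‖ * |s| := by
    intro b
    rw [← intervalIntegral.integral_sub (hii x _ _) (hii z _ _)]
    have h1 := intervalIntegral.norm_integral_le_of_norm_le_const (a := b) (b := b + s)
      (C := K * ‖x - z‖) (f := fun r : ℝ => H (x + r • e) - H (z + r • e)) (by
        intro r _
        have := h (x + r • e) (z + r • e)
        simpa using this)
    simpa using h1
  have h4 : (∫ r in a..(a + s), H (x + r • e)) - (∫ r in (-a)..(-a + s), H (x + r • e)) -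
      ((∫ r in a..(a + s), H (z + r • e)) - ∫ r in (-a)..(-a + s), H (z + r • e)) =
      ((∫ r in a..(a + s), H (x + r • e)) - ∫ r in a..(a + s), H (z + r • e)) -
      ((∫ r in (-a)..(-a + s), H (x + r • e)) - ∫ r in (-a)..(-a + s), H (z + r • e)) := by
    abel
  rw [h4, norm_smul, Real.norm_of_nonneg (by positivity)]
  have h5 := norm_sub_le ((∫ r in a..(a + s), H (x + r • e)) - ∫ r in a..(a + s), H (z + r • e))
    ((∫ r in (-a)..(-a + s), H (x + r • e)) - ∫ r in (-a)..(-a + s), H (z + r • e))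
  have h6 := hG a
  have h7 := hG (-a)
  have h8 : 1 / (2 * a) * ‖((∫ r in a..(a + s), H (x + r • e)) -
      ∫ r in a..(a + s), H (z + r • e)) - ((∫ r in (-a)..(-a + s), H (x + r • e)) -
      ∫ r in (-a)..(-a + s), H (z + r • e))‖ ≤ 1 / (2 * a) * (2 * (K * ‖x - z‖ * |s|)) := by
    apply mul_le_mul_of_nonneg_left _ (by positivity)
    linarith
  have h9 : 1 / (2 * a) * (2 * (K * ‖x - z‖ * |s|)) = K / a * |s| * ‖x - z‖ := by
    field_simp
  rw [← h9]
  exact h8

end C2N
end

section

set_option autoImplicit false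

/-!
The increment of the average is the average of the increments (all functions are continuous).
-/

namespace C2N

open Filter Topology Set MeasureTheory

variable {X : Type*} [NormedAddCommGroup X] [NormedSpace ℝ X]
variable {E : Type*} [NormedAddCommGroup E] [NormedSpace ℝ E]

/-- averages preserve `DirLip` -/
theorem DirLip.avg [CompleteSpace E] {K K' : ℝ} {H : X → E} (h : ∀ x z, ‖H x - H z‖ ≤ K' * ‖x - z‖)
    {e : X} (hd : DirLip K H e) (v : X) : DirLip K (C2N.avg v H) e := by
  have hc : Continuous H := by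
    have hL : LipschitzWith (Real.toNNReal K') H := by
      refine LipschitzWith.of_dist_le_mul fun x z => ?_
      rw [dist_eq_norm, dist_eq_norm]
      exact (h x z).trans (mul_le_mul_of_nonneg_right (Real.le_coe_toNNReal K') (norm_nonneg _))
    exact hL.continuous
  have hi : ∀ y : X, IntervalIntegrable (fun t : ℝ => H (y + t • v)) volume (-1) 1 := fun y =>
    (hc.comp (continuous_const.add (continuous_id.smul continuous_const))).intervalIntegrable _ _
  intro x z s
  have e1 : C2N.avg v H (x + s • e) - C2N.avg v H x - (C2N.avg v H (z + s • e) - C2N.avg v H z) =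
      (1 / 2 : ℝ) • ∫ t in (-1 : ℝ)..1, (H (x + s • e + t • v) - H (x + t • v) -
        (H (z + s • e + t • v) - H (z + t • v))) := by
    unfold C2N.avg
    rw [intervalIntegral.integral_sub ((hi _).sub (hi _)) ((hi _).sub (hi _)),
      intervalIntegral.integral_sub (hi _) (hi _), intervalIntegral.integral_sub (hi _) (hi _),
      smul_sub, smul_sub, smul_sub]
  rw [e1, norm_smul]
  have h1 : ‖∫ t in (-1 : ℝ)..1, (H (x + s • e + t • v) - H (x + t • v) -
        (H (z + s • e + t • v) - H (z + t • v)))‖ ≤ K * |s| * ‖x - z‖ * |(1 : ℝ) - (-1)| := by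
    refine intervalIntegral.norm_integral_le_of_norm_le_const fun t _ => ?_
    have h2 := hd (x + t • v) (z + t • v) s
    rw [add_right_comm x (t • v) (s • e), add_right_comm z (t • v) (s • e), add_sub_add_right_eq_sub] at h2
    exact h2
  have h3 : |(1 : ℝ) - (-1)| = 2 := by norm_num
  rw [h3] at h1
  have h4 : ‖(1 / 2 : ℝ)‖ = 1 / 2 := by norm_num
  rw [h4]
  linarith

end C2N
end

section

set_option autoImplicit false

namespace C2N

open Filter Topology Set MeasureTheory

variable {X : Type*} [NormedAddCommGroup X] [NormedSpace ℝ X]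
variable {E : Type*} [NormedAddCommGroup E] [NormedSpace ℝ E]

theorem Quad.avgs {L : ℝ} (hL : 0 ≤ L) (v : ℕ → X) (n : ℕ) :
    ∀ {F : X → ℝ} {p : X → X →L[ℝ] ℝ}, Quad L F p → Quad L (avgs v n F) (avgs v n p) := by
  induction n with
  | zero => intro F p h; exact h
  | succ n ih => intro F p h; exact ih (h.avg hL (v n))

theorem avgs_lip [CompleteSpace E] {K : ℝ} (v : ℕ → X) (n : ℕ) :
    ∀ {H : X → E}, (∀ x z, ‖H x - H z‖ ≤ K * ‖x - z‖) →
      ∀ x z, ‖avgs v n H x - avgs v n H z‖ ≤ K * ‖x - z‖ := by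
  induction n with
  | zero => intro H h; exact h
  | succ n ih => intro H h; exact ih (avg_lip (v n) h)

theorem DirLip.avgs [CompleteSpace E] {K K' : ℝ} (v : ℕ → X) (e : X) (n : ℕ) :
    ∀ {H : X → E}, (∀ x z, ‖H x - H z‖ ≤ K' * ‖x - z‖) → DirLip K H e →
      DirLip K (C2N.avgs v n H) e := by
  induction n with
  | zero => intro H _ hd; exact hd
  | succ n ih => intro H h hd; exact ih (avg_lip (v n) h) (hd.avg h (v n))

/-- for `n > i` the iterated average satisfies `DirLip` in the direction `y i` -/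
theorem avgs_dirLip [CompleteSpace E] {K : ℝ} (hK : 0 ≤ K) (a : ℕ → ℝ) (ha : ∀ i, 0 < a i)
    (y : ℕ → X) (i n : ℕ) (hn : i < n) :
    ∀ {H : X → E}, (∀ x z, ‖H x - H z‖ ≤ K * ‖x - z‖) →
      DirLip (K / a i) (avgs (fun k => a k • y k) n H) (y i) := by
  induction n, hn using Nat.le_induction with
  | base =>
    intro H h
    exact DirLip.avgs _ _ i (avg_lip _ h) (dirLip_create hK h (ha i) (y i))
  | succ n hn ih =>
    intro H h
    exact ih (avg_lip _ h)

end C2N
end

section

set_option autoImplicit false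

/-!
Induction on `n` generalising the functions: if `‖H z - H' z‖ ≤ c` for all `z` (both Lipschitz) then
`‖avgs v n H x - avgs v n H' x‖ ≤ c`; apply it to `H' = avg (v n) H` (`avg_sub_le`), since
`avgs v (n+1) H = avgs v n (avg (v n) H)`.  Similarly `F ≤ F' ≤ F + c` (both with `Quad`, or continuous) is
preserved by `avgs v n`; `Quad.avg_diff`.
-/

namespace C2N

open Filter Topology Set MeasureTheory

variable {X : Type*} [NormedAddCommGroup X] [NormedSpace ℝ X]
variable {E : Type*} [NormedAddCommGroup E] [NormedSpace ℝ E]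

private theorem I1e_cont {K : ℝ} {H : X → E} (h : ∀ x z, ‖H x - H z‖ ≤ K * ‖x - z‖) :
    Continuous H := by
  have h1 : LipschitzWith (Real.toNNReal |K|) H := by
    apply LipschitzWith.of_dist_le_mul
    intro x z
    rw [dist_eq_norm, dist_eq_norm, Real.coe_toNNReal _ (abs_nonneg K)]
    exact (h x z).trans (mul_le_mul_of_nonneg_right (le_abs_self K) (norm_nonneg _))
  exact h1.continuous

private theorem I1e_line (x v : X) : Continuous fun t : ℝ => x + t • v := by
  fun_prop

private theorem I1e_diff {H H' : X → E} (hc : Continuous H) (hc' : Continuous H') {c : ℝ}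
    (h : ∀ z, ‖H z - H' z‖ ≤ c) (v x : X) : ‖avg v H x - avg v H' x‖ ≤ c := by
  have i1 : IntervalIntegrable (fun t : ℝ => H (x + t • v)) volume (-1) 1 :=
    (hc.comp (I1e_line x v)).intervalIntegrable _ _
  have i2 : IntervalIntegrable (fun t : ℝ => H' (x + t • v)) volume (-1) 1 :=
    (hc'.comp (I1e_line x v)).intervalIntegrable _ _
  unfold avg
  rw [← smul_sub, ← intervalIntegral.integral_sub i1 i2, norm_smul]
  have h1 := intervalIntegral.norm_integral_le_of_norm_le_const (a := (-1 : ℝ)) (b := 1)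
    (f := fun t : ℝ => H (x + t • v) - H' (x + t • v)) (C := c) (fun t _ => h _)
  have h2 : |(1 : ℝ) - (-1)| = 2 := by norm_num
  rw [h2] at h1
  have h3 : ‖(1 / 2 : ℝ)‖ = 1 / 2 := by norm_num
  rw [h3]
  linarith

private theorem I1e_diffs [CompleteSpace E] {K c : ℝ} (v : ℕ → X) (n : ℕ) :
    ∀ {H H' : X → E}, (∀ x z, ‖H x - H z‖ ≤ K * ‖x - z‖) →
      (∀ x z, ‖H' x - H' z‖ ≤ K * ‖x - z‖) → (∀ z, ‖H z - H' z‖ ≤ c) →
      ∀ x, ‖avgs v n H x - avgs v n H' x‖ ≤ c := by
  induction n with
  | zero => intro H H' _ _ h x; exact h x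
  | succ n ih =>
    intro H H' h1 h2 h x
    exact ih (avg_lip (v n) h1) (avg_lip (v n) h2) (I1e_diff (I1e_cont h1) (I1e_cont h2) h (v n)) x

private theorem I1e_mono {F F' : X → ℝ} (hc : Continuous F) (hc' : Continuous F') {c : ℝ}
    (h : ∀ z, F z ≤ F' z ∧ F' z ≤ F z + c) (v x : X) :
    avg v F x ≤ avg v F' x ∧ avg v F' x ≤ avg v F x + c := by
  have i1 : IntervalIntegrable (fun t : ℝ => F (x + t • v)) volume (-1) 1 :=
    (hc.comp (I1e_line x v)).intervalIntegrable _ _
  have i2 : IntervalIntegrable (fun t : ℝ => F' (x + t • v)) volume (-1) 1 :=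
    (hc'.comp (I1e_line x v)).intervalIntegrable _ _
  have i3 : IntervalIntegrable (fun t : ℝ => F (x + t • v) + c) volume (-1) 1 :=
    ((hc.comp (I1e_line x v)).add continuous_const).intervalIntegrable _ _
  have ic : IntervalIntegrable (fun _ : ℝ => c) volume (-1) 1 := intervalIntegrable_const
  have h1 : ∫ t in (-1 : ℝ)..1, F (x + t • v) ≤ ∫ t in (-1 : ℝ)..1, F' (x + t • v) :=
    intervalIntegral.integral_mono_on (by norm_num) i1 i2 fun t _ => (h _).1
  have h2 : ∫ t in (-1 : ℝ)..1, F' (x + t • v) ≤ ∫ t in (-1 : ℝ)..1, (F (x + t • v) + c) :=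
    intervalIntegral.integral_mono_on (by norm_num) i2 i3 fun t _ => (h _).2
  rw [intervalIntegral.integral_add i1 ic, intervalIntegral.integral_const] at h2
  unfold avg
  simp only [smul_eq_mul] at *
  constructor <;> linarith

private theorem I1e_monos {L c : ℝ} (hL : 0 ≤ L) (v : ℕ → X) (n : ℕ) :
    ∀ {F F' : X → ℝ} {p p' : X → X →L[ℝ] ℝ}, Quad L F p → Quad L F' p' →
      (∀ z, F z ≤ F' z ∧ F' z ≤ F z + c) →
      ∀ x, C2N.avgs v n F x ≤ C2N.avgs v n F' x ∧ C2N.avgs v n F' x ≤ C2N.avgs v n F x + c := by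
  induction n with
  | zero => intro F F' p p' _ _ h x; exact h x
  | succ n ih =>
    intro F F' p p' h1 h2 h x
    exact ih (h1.avg hL (v n)) (h2.avg hL (v n))
      (I1e_mono (h1.continuous hL) (h2.continuous hL) h (v n)) x

/-- iterated averages: consecutive differences for Lipschitz functions -/
theorem avgs_succ_sub_le [CompleteSpace E] {K : ℝ} (v : ℕ → X) (n : ℕ) {H : X → E}
    (h : ∀ x z, ‖H x - H z‖ ≤ K * ‖x - z‖) (x : X) :
    ‖avgs v (n + 1) H x - avgs v n H x‖ ≤ K * ‖v n‖ := by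
  exact I1e_diffs v n (avg_lip (v n) h) h (fun z => avg_sub_le (v n) h z) x

/-- iterated averages: consecutive differences for functions with quadratic estimates -/
theorem Quad.avgs_succ {L : ℝ} (hL : 0 ≤ L) {F : X → ℝ} {p : X → X →L[ℝ] ℝ} (h : Quad L F p)
    (v : ℕ → X) (n : ℕ) (x : X) :
    C2N.avgs v n F x ≤ C2N.avgs v (n + 1) F x ∧
      C2N.avgs v (n + 1) F x ≤ C2N.avgs v n F x + L * ‖v n‖ ^ 2 := by
  exact I1e_monos hL v n h (h.avg hL (v n)) (fun z => h.avg_diff hL (v n) z) x

end C2N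
end

section

set_option autoImplicit false

/-!
Induction on `n` generalising `F`.  `avgs v (n+1) F = avgs v n (avg (v n) F)`.  Continuity of `avg v F` for continuous
`F`: parametric interval integrals (`intervalIntegral.continuous_parametric_intervalIntegral_of_continuous`, or by
compactness of the segment).  The second difference of `avg (v n) F` at `x + ∑_{i<n} t_i v_i` is the average over `t_n ∈ [-1,1]`
of the second differences of `F` at `x + ∑_{i<n+1} t_i v_i` (`Function.update t n t_n`).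
-/

namespace C2N

open Filter Topology Set MeasureTheory

variable {X : Type*} [NormedAddCommGroup X] [NormedSpace ℝ X]
variable {E : Type*} [NormedAddCommGroup E] [NormedSpace ℝ E]

private theorem i1f_cont (v : X) {F : X → ℝ} (hF : Continuous F) : Continuous (avg v F) := by
  suffices h : Continuous fun x : X => ∫ t in (-1 : ℝ)..1, F (x + t • v) from
    h.const_smul (1 / 2 : ℝ)
  refine continuous_iff_seqContinuous.2 fun u x hu => ?_
  have hK : IsCompact ((fun p : X × ℝ => p.1 + p.2 • v) ''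
      ((insert x (range u)) ×ˢ (Icc (-1 : ℝ) 1))) :=
    (hu.isCompact_insert_range.prod isCompact_Icc).image (by fun_prop)
  obtain ⟨C, hC⟩ := hK.exists_bound_of_continuousOn hF.continuousOn
  refine intervalIntegral.tendsto_integral_filter_of_dominated_convergence (fun _ => C) ?_ ?_ ?_ ?_
  · refine Eventually.of_forall fun n => ?_
    have : Continuous fun t : ℝ => F (u n + t • v) := by fun_prop
    exact this.aestronglyMeasurable
  · refine Eventually.of_forall fun n => Eventually.of_forall fun t ht => ?_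
    rw [uIoc_of_le (by norm_num)] at ht
    exact hC _ ⟨(u n, t), ⟨mem_insert_of_mem _ (mem_range_self n), ht.1.le, ht.2⟩, rfl⟩
  · exact intervalIntegrable_const
  · refine Eventually.of_forall fun t _ => ?_
    have h1 : Continuous fun z : X => F (z + t • v) := by fun_prop
    exact (h1.tendsto x).comp hu

/-- second differences in tail directions for iterated averages -/
theorem avgs_tail {g : ℕ → X →L[ℝ] ℝ} {M : ℕ} {δ e : ℝ} (v : ℕ → X) (n : ℕ) :
    ∀ {F : X → ℝ}, Continuous F → ∀ x : X,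
      (∀ t : ℕ → ℝ, (∀ i, |t i| ≤ 1) → ∀ h ∈ tail g M, ‖h‖ ≤ δ →
        F (x + ∑ i ∈ Finset.range n, t i • v i + h) + F (x + ∑ i ∈ Finset.range n, t i • v i - h) -
          2 * F (x + ∑ i ∈ Finset.range n, t i • v i) ≤ e * ‖h‖ ^ 2) →
      ∀ h ∈ tail g M, ‖h‖ ≤ δ → avgs v n F (x + h) + avgs v n F (x - h) - 2 * avgs v n F x ≤
        e * ‖h‖ ^ 2 := by
  induction n with
  | zero =>
    intro F _ x hyp h hh hδ
    have h1 := hyp (fun _ => 0) (fun _ => by simp) h hh hδ
    simpa [avgs] using h1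
  | succ n ih =>
    intro F hF x hyp h hh hδ
    refine ih (i1f_cont (v n) hF) x ?_ h hh hδ
    intro t ht h hh hδ
    set z := x + ∑ i ∈ Finset.range n, t i • v i with hz
    have hc : ∀ w : X, IntervalIntegrable (fun s : ℝ => F (w + s • v n)) volume (-1) 1 := by
      intro w
      have : Continuous fun s : ℝ => F (w + s • v n) := by fun_prop
      exact this.intervalIntegrable _ _
    have key : ∀ s ∈ Icc (-1 : ℝ) 1, F (z + h + s • v n) + F (z - h + s • v n) -
        2 * F (z + s • v n) ≤ e * ‖h‖ ^ 2 := by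
      intro s hs
      have h1 := hyp (Function.update t n s) (by
        intro i
        by_cases hi : i = n
        · rw [hi, Function.update_self]
          exact abs_le.2 ⟨hs.1, hs.2⟩
        · rw [Function.update_of_ne hi]
          exact ht i) h hh hδ
      have h2 : x + ∑ i ∈ Finset.range (n + 1), Function.update t n s i • v i = z + s • v n := by
        rw [Finset.sum_range_succ, Function.update_self, hz, add_assoc]
        congr 2
        refine Finset.sum_congr rfl fun i hi => ?_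
        rw [Function.update_of_ne (Finset.mem_range.1 hi).ne]
      rw [h2] at h1
      have e1 : z + s • v n + h = z + h + s • v n := by abel
      have e2 : z + s • v n - h = z - h + s • v n := by abel
      rw [e1, e2] at h1
      exact h1
    have hint := intervalIntegral.integral_mono_on (μ := volume) (a := -1) (b := 1) (by norm_num)
      (((hc (z + h)).add (hc (z - h))).sub ((hc z).const_mul 2))
      (intervalIntegrable_const (c := e * ‖h‖ ^ 2)) (fun s hs => key s hs)
    rw [intervalIntegral.integral_sub ((hc (z + h)).add (hc (z - h))) ((hc z).const_mul 2),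
      intervalIntegral.integral_add (hc (z + h)) (hc (z - h)),
      intervalIntegral.integral_const_mul, intervalIntegral.integral_const, smul_eq_mul] at hint
    unfold avg
    simp only [smul_eq_mul]
    linarith

end C2N
end

section

set_option autoImplicit false

/-!
Section 11 of paper 371.  `v i = a_i • y i`, `a_i > 0` so small that `∑‖v i‖ ≤ a` and `L ∑‖v i‖^2 ≤ a`.
`avgs v n F x` is increasing in `n` and bounded by `F x + a` (`Quad.avgs_succ`), `avgs v n p x` is Cauchy (`avgs_succ_sub_le`,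
`Quad.lip`, constant `2L`).  The limits `G, q` satisfy `Quad` (closed conditions), `DirLip (2L/a_i) q (y i)` (`avgs_dirLip`, closed
condition), (TS) by `TS.uniform` and `avgs_tail`.
-/

namespace C2N

open Filter Topology Set MeasureTheory

variable {X : Type*} [NormedAddCommGroup X] [NormedSpace ℝ X]
variable {E : Type*} [NormedAddCommGroup E] [NormedSpace ℝ E]

/-- Section 11, first part: smoothing. -/
theorem exists_smoothing [CompleteSpace X] {L : ℝ} (hL : 0 < L) {F : X → ℝ} {p : X → X →L[ℝ] ℝ}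
    (h : Quad L F p) {g : ℕ → X →L[ℝ] ℝ} {r : ℝ} (hTS : TS g F r) (y : ℕ → X) (a : ℝ)
    (ha : 0 < a) :
    ∃ (G : X → ℝ) (q : X → X →L[ℝ] ℝ), Quad L G q ∧ (∀ x, F x ≤ G x ∧ G x ≤ F x + a) ∧
      (∀ i, ∃ K, DirLip K q (y i)) ∧ TS g G (r - a) := by
  set η : ℝ := min a (min 1 (a / L)) with hη
  have hη0 : 0 < η := lt_min ha (lt_min one_pos (div_pos ha hL))
  have hηa : η ≤ a := min_le_left _ _
  have hη1 : η ≤ 1 := (min_le_right _ _).trans (min_le_left _ _)
  have hηL : L * η ≤ a := by
    have : η ≤ a / L := (min_le_right _ _).trans (min_le_right _ _)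
    calc L * η ≤ L * (a / L) := by gcongr
      _ = a := by field_simp
  let b : ℕ → ℝ := fun i => η / 2 / 2 ^ i
  have hb0 : ∀ i, 0 < b i := fun i => by positivity
  have hbs : Summable b := summable_geometric_two' η
  have hbt : ∑' i, b i = η := tsum_geometric_two' η
  have hbη : ∀ i, b i ≤ η := fun i => by
    have h2 : (1 : ℝ) ≤ 2 ^ i := one_le_pow₀ (by norm_num)
    calc b i ≤ η / 2 / 1 := by
          apply div_le_div_of_nonneg_left (by positivity) one_pos h2
      _ ≤ η := by linarith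
  let α : ℕ → ℝ := fun i => b i / (1 + ‖y i‖)
  have hα0 : ∀ i, 0 < α i := fun i => div_pos (hb0 i) (by positivity)
  let v : ℕ → X := fun i => α i • y i
  have hvb : ∀ i, ‖v i‖ ≤ b i := fun i => by
    have h1 : ‖v i‖ = b i / (1 + ‖y i‖) * ‖y i‖ := by
      simp only [v, α, norm_smul, Real.norm_eq_abs]
      rw [abs_of_pos (hα0 i)]
    rw [h1, div_mul_eq_mul_div, div_le_iff₀ (by positivity)]
    have := (hb0 i).le
    nlinarith [norm_nonneg (y i)]
  have hvs : Summable fun i => ‖v i‖ := Summable.of_nonneg_of_le (fun i => norm_nonneg _) hvb hbs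
  have hva : ∑' i, ‖v i‖ ≤ a := by
    calc ∑' i, ‖v i‖ ≤ ∑' i, b i := hvs.tsum_le_tsum hvb hbs
      _ ≤ a := by rw [hbt]; exact hηa
  -- the functions
  have hF := fun n (x : X) => h.avgs_succ hL.le v n x
  have hmono : ∀ x, Monotone fun n => avgs v n F x := fun x =>
    monotone_nat_of_le_succ fun n => (hF n x).1
  have hsum : ∀ n x, avgs v n F x ≤ F x + L * ∑ i ∈ Finset.range n, ‖v i‖ ^ 2 := by
    intro n
    induction n with
    | zero => intro x; simp [avgs]
    | succ n ih =>
      intro x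
      rw [Finset.sum_range_succ, mul_add]
      have := (hF n x).2
      have := ih x
      linarith
  have hbound : ∀ n x, avgs v n F x ≤ F x + a := by
    intro n x
    refine (hsum n x).trans ?_
    have h1 : ∑ i ∈ Finset.range n, ‖v i‖ ^ 2 ≤ η := by
      calc ∑ i ∈ Finset.range n, ‖v i‖ ^ 2 ≤ ∑ i ∈ Finset.range n, b i := by
            apply Finset.sum_le_sum
            intro i _
            have h2 := hvb i
            have h3 := hbη i
            have h4 := norm_nonneg (v i)
            nlinarith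
        _ ≤ ∑' i, b i := hbs.sum_le_tsum _ (fun i _ => (hb0 i).le)
        _ = η := hbt
    have : L * ∑ i ∈ Finset.range n, ‖v i‖ ^ 2 ≤ L * η := by gcongr
    linarith
  have hGlim : ∀ x, Tendsto (fun n => avgs v n F x) atTop (𝓝 (⨆ n, avgs v n F x)) := fun x =>
    tendsto_atTop_ciSup (hmono x) ⟨F x + a, by rintro _ ⟨n, rfl⟩; exact hbound n x⟩
  have hplip : ∀ x z, ‖p x - p z‖ ≤ 2 * L * ‖x - z‖ := h.lip hL.le
  have hq : ∀ x, ∃ l, Tendsto (fun n => avgs v n p x) atTop (𝓝 l) := by
    intro x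
    apply cauchySeq_tendsto_of_complete
    apply cauchySeq_of_dist_le_of_summable (fun n => 2 * L * ‖v n‖) _ (hvs.mul_left _)
    intro n
    rw [dist_comm, dist_eq_norm]
    exact avgs_succ_sub_le v n hplip x
  choose q hq using hq
  have hQn : ∀ n, Quad L (avgs v n F) (avgs v n p) := fun n => Quad.avgs hL.le v n h
  have hqapp : ∀ x z, Tendsto (fun n => avgs v n p x z) atTop (𝓝 (q x z)) := fun x z =>
    ((ContinuousLinearMap.apply ℝ ℝ z).continuous.tendsto (q x)).comp (hq x)
  refine ⟨fun x => ⨆ n, avgs v n F x, q, ⟨?_, ?_⟩, ?_, ?_, ?_⟩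
  · intro x z
    exact ge_of_tendsto' (((hGlim (x + z)).sub (hGlim x)).sub (hqapp x z))
      (fun n => (hQn n).lower x z)
  · intro x z
    exact le_of_tendsto' (((hGlim (x + z)).sub (hGlim x)).sub (hqapp x z))
      (fun n => (hQn n).upper x z)
  · intro x
    refine ⟨?_, ?_⟩
    · have := ge_of_tendsto' (hGlim x) (fun n => (hmono x (Nat.zero_le n)))
      simpa [avgs] using this
    · exact le_of_tendsto' (hGlim x) (fun n => hbound n x)
  · intro i
    refine ⟨2 * L / α i, ?_⟩
    intro x z s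
    have hl : Tendsto (fun n => ‖avgs v n p (x + s • y i) - avgs v n p x -
        (avgs v n p (z + s • y i) - avgs v n p z)‖) atTop
        (𝓝 ‖q (x + s • y i) - q x - (q (z + s • y i) - q z)‖) :=
      (((hq _).sub (hq _)).sub ((hq _).sub (hq _))).norm
    refine le_of_tendsto hl ?_
    filter_upwards [eventually_gt_atTop i] with n hn
    exact avgs_dirLip (by positivity) α hα0 y i n hn hplip x z s
  · intro x0 hx0 e he
    obtain ⟨M, δ, hδ, hM⟩ := TS.uniform hTS v hvs hva x0 hx0 e he
    refine ⟨M, δ, hδ, fun x hx w hw hwδ => ?_⟩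
    have hl : Tendsto (fun n => avgs v n F (x + w) + avgs v n F (x - w) - 2 * avgs v n F x) atTop
        (𝓝 ((⨆ n, avgs v n F (x + w)) + (⨆ n, avgs v n F (x - w)) - 2 * ⨆ n, avgs v n F x)) :=
      ((hGlim _).add (hGlim _)).sub ((hGlim _).const_mul 2)
    refine le_of_tendsto' hl (fun n => ?_)
    exact avgs_tail v n (h.continuous hL.le) x (fun t ht w' hw' hwδ' => hM x hx n t ht w' hw' hwδ')
      w hw hwδ

end C2N
end
end
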