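import Mathlib
import Pool.Agent.Lib.MP_55041d_an.h32b.G2
import Pool.Agent.Lib.MP_55041d_an.h32b.D1

section

section

set_option autoImplicit false

/-!
7.2 of paper 371.  `diff_mem`: sum of the steps `x (i+1) - x i ∈ S.Z j i ⊆ S.Z j l` for `i ≥ l` (`m_mono`,
`tail_anti`).  `est`: `V i = ‖x i - c_l‖^2` (`c_l = S.c j l`), `z = x (i+1) - x i`, `‖z‖ ≤ 2 d_i`:
`V (i+1) ≤ V i + P (x i - c_l) z + C‖z‖^2`, `|P (x i - c_l) z| ≤ (resN (Z_i) (P (c_i - c_l)) + 2C‖x i - c_i‖)‖z‖ ≤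
(1+2C) 2^{-i-3} d_i 2 d_i` (`m_P`, `r_le`), so `V (i+1) ≤ V i + 5 C d_i^2` (in fact `4.75 C`); `V l ≤ (d_l/32)^2`; so for `n > l`
`‖x n - x l‖ ≤ √(V n) + d_l/32 ≤ 3 √(C E2)` with `E2 = bet n - bet l ≥ d_l^2`
(with `V n ≤ (d_l/32)^2 + 4.75 C E2 ≤ 4.76 C E2` and `(a+b)^2 ≤ ...`; `C ≥ 1`).
-/

namespace C2N

open Filter Topology Set

variable {X : Type*} [NormedAddCommGroup X] [NormedSpace ℝ X]
variable {C B R : ℝ} {g : ℕ → X →L[ℝ] ℝ}

namespace Sys

theorem Chain.diff_mem {S : Sys C g B R} {n : ℕ} {j : ℕ → ℕ} {x : ℕ → X} (h : S.Chain n j x)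
    {l : ℕ} (hl : l ≤ n) : x n - x l ∈ S.Z j l := by
  have key : ∀ i, l ≤ i → i ≤ n → x i - x l ∈ S.Z j l := by
    intro i hi
    induction i, hi using Nat.le_induction with
    | base => intro _; rw [sub_self]; exact Submodule.zero_mem _
    | succ i hi ih =>
      intro hin
      have h1 := ih (by omega)
      have h2 : x (i + 1) - x i ∈ S.Z j l :=
        tail_anti (S.m_mono l i j hi) (h.2 i hin).1
      have h3 : x (i + 1) - x l = (x (i + 1) - x i) + (x i - x l) := by abel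
      rw [h3]
      exact Submodule.add_mem _ h2 h1
  exact key n hl le_rfl

private theorem one_le_C (S : Sys C g B R) : 1 ≤ C := S.twoS.one_le

private theorem est_step {S : Sys C g B R} {n : ℕ} {j : ℕ → ℕ} {x : ℕ → X} (h : S.Chain n j x)
    {l i : ℕ} (hl : l ≤ i) (hi : i < n) :
    ‖x (i + 1) - S.c j l‖ ^ 2 ≤ ‖x i - S.c j l‖ ^ 2 + 9 / 2 * C * S.dd j i ^ 2 := by
  have hC := one_le_C S
  have hd := S.dd_pos j i
  set z : X := x (i + 1) - x i with hz
  have hzZ : z ∈ tail g (S.m i j) := (h.2 i hi).1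
  have hzn : ‖z‖ ≤ 2 * S.dd j i := h.step_norm hi
  have hz0 := norm_nonneg z
  have e1 : x (i + 1) - S.c j l = (x i - S.c j l) + z := by rw [hz]; abel
  have hup := S.twoS.upper (x i - S.c j l) z
  rw [← e1] at hup
  have hp1 : |S.P (S.c j i - S.c j l) z| ≤ (1 / 2 : ℝ) ^ (i + 3) * S.dd j i * ‖z‖ := by
    refine (abs_le_resN _ hzZ).trans ?_
    exact mul_le_mul_of_nonneg_right (S.m_P i l j hl) hz0
  have hp2 : |(S.P (x i - S.c j l) - S.P (S.c j i - S.c j l)) z| ≤
      2 * C * ((1 / 2 : ℝ) ^ (i + 4) * S.dd j i) * ‖z‖ := by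
    have h1 := S.twoS.lip (x i - S.c j l) (S.c j i - S.c j l)
    rw [sub_sub_sub_cancel_right] at h1
    have h2 : ‖x i - S.c j i‖ ≤ (1 / 2 : ℝ) ^ (i + 4) * S.dd j i :=
      ((S.kadec.le _).trans (h.near hi.le)).trans (S.r_le j i)
    have h3 := (S.P (x i - S.c j l) - S.P (S.c j i - S.c j l)).le_opNorm z
    rw [Real.norm_eq_abs] at h3
    refine h3.trans ?_
    refine mul_le_mul_of_nonneg_right (h1.trans ?_) hz0
    exact mul_le_mul_of_nonneg_left h2 (by positivity)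
  have hsplit : S.P (x i - S.c j l) z = S.P (S.c j i - S.c j l) z +
      (S.P (x i - S.c j l) - S.P (S.c j i - S.c j l)) z := by
    simp only [sub_apply]; ring
  have hpow : (1 / 2 : ℝ) ^ (i + 3) ≤ 1 / 8 := by
    calc (1 / 2 : ℝ) ^ (i + 3) ≤ (1 / 2 : ℝ) ^ 3 :=
          pow_le_pow_of_le_one (by norm_num) (by norm_num) (by omega)
      _ = 1 / 8 := by norm_num
  have hpow4 : (1 / 2 : ℝ) ^ (i + 4) ≤ 1 / 16 := by
    calc (1 / 2 : ℝ) ^ (i + 4) ≤ (1 / 2 : ℝ) ^ 4 :=
          pow_le_pow_of_le_one (by norm_num) (by norm_num) (by omega)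
      _ = 1 / 16 := by norm_num
  have hq1 : (1 / 2 : ℝ) ^ (i + 3) * S.dd j i * ‖z‖ ≤ 1 / 8 * S.dd j i * (2 * S.dd j i) := by
    gcongr
  have hq2 : 2 * C * ((1 / 2 : ℝ) ^ (i + 4) * S.dd j i) * ‖z‖ ≤
      2 * C * (1 / 16 * S.dd j i) * (2 * S.dd j i) := by gcongr
  have hq3 : C * ‖z‖ ^ 2 ≤ C * (2 * S.dd j i) ^ 2 := by gcongr
  have h1 := le_abs_self (S.P (S.c j i - S.c j l) z)
  have h2 := le_abs_self ((S.P (x i - S.c j l) - S.P (S.c j i - S.c j l)) z)
  have h3 : S.dd j i ^ 2 ≤ C * S.dd j i ^ 2 := by nlinarith [sq_nonneg (S.dd j i)]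
  nlinarith

/-- 7.2 of paper 371 -/
theorem Chain.est {S : Sys C g B R} {n : ℕ} {j : ℕ → ℕ} {x : ℕ → X} (h : S.Chain n j x)
    {l : ℕ} (hl : l ≤ n) : ‖x n - x l‖ ^ 2 ≤ 9 * C * (S.bet n j - S.bet l j) := by
  have hC := one_le_C S
  have hd := S.dd_pos j l
  have hV : ∀ i, l ≤ i → i ≤ n → ‖x i - S.c j l‖ ^ 2 ≤
      (S.dd j l / 32) ^ 2 + 9 / 2 * C * (S.bet i j - S.bet l j) := by
    intro i hi
    induction i, hi using Nat.le_induction with
    | base =>
      intro hln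
      have h1 : ‖x l - S.c j l‖ ≤ S.dd j l / 32 :=
        ((S.kadec.le _).trans (h.near hln)).trans (S.r_le' j l)
      have h2 := norm_nonneg (x l - S.c j l)
      rw [sub_self, mul_zero, add_zero]
      gcongr
    | succ i hi ih =>
      intro hin
      have h1 := ih (by omega)
      have h2 := est_step h hi hin
      rw [bet_succ]
      linarith
  rcases hl.eq_or_lt with rfl | hlt
  · simp
  have hE : S.dd j l ^ 2 ≤ S.bet n j - S.bet l j := by
    have h1 := S.bet_mono (show l + 1 ≤ n from hlt) j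
    rw [bet_succ] at h1
    linarith
  set E2 : ℝ := S.bet n j - S.bet l j with hE2
  have h1 := hV n hl le_rfl
  have h2 : ‖x l - S.c j l‖ ≤ S.dd j l / 32 :=
    ((S.kadec.le _).trans (h.near hl)).trans (S.r_le' j l)
  have h3 : ‖x n - x l‖ ≤ ‖x n - S.c j l‖ + ‖x l - S.c j l‖ := by
    have : x n - x l = (x n - S.c j l) - (x l - S.c j l) := by abel
    rw [this]
    exact norm_sub_le _ _
  set a : ℝ := ‖x n - S.c j l‖ with ha
  set b : ℝ := ‖x l - S.c j l‖ with hb
  have ha0 : 0 ≤ a := norm_nonneg _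
  have hb0 : 0 ≤ b := norm_nonneg _
  have h4 : ‖x n - x l‖ ^ 2 ≤ (a + b) ^ 2 := by
    have := norm_nonneg (x n - x l)
    gcongr
  have h5 : (a + b) ^ 2 ≤ 3 / 2 * a ^ 2 + 3 * b ^ 2 := by nlinarith [sq_nonneg (a - 2 * b)]
  have h6 : b ^ 2 ≤ (S.dd j l / 32) ^ 2 := by gcongr
  have h7 : E2 ≤ C * E2 := by nlinarith [sq_nonneg (S.dd j l)]
  nlinarith

end Sys

end C2N
end

section

set_option autoImplicit false

/-!
`covering`: `w` is continuous and positive at `v`; choose `y k` close to `v` so that `w (y k) > w v / 2` and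
`A (v - y k) ≤ 2‖v - y k‖ < (1/2)^(n+4) w v / 2`.  `extend`: for `l < n` use `Chain.congr`-type rewriting
(labels `< n` and points `≤ n` are unchanged), for `l = n` the three hypotheses; note
`S.c (update j n k) (n+1) = S.y k`, `S.r (update j n k) (n+1) = (1/2)^(n+4) * S.w (S.y k)` by `rfl`/`simp`.
-/

namespace C2N

open Filter Topology Set

variable {X : Type*} [NormedAddCommGroup X] [NormedSpace ℝ X]
variable {C B R : ℝ} {g : ℕ → X →L[ℝ] ℝ}

namespace Sys

/-- covering -/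
theorem covering (S : Sys C g B R) (n : ℕ) (v : X) :
    ∃ k : ℕ, S.A (v - S.y k) < (1 / 2 : ℝ) ^ (n + 4) * S.w (S.y k) := by
  have hwv := S.w_pos v
  have hp : (0 : ℝ) < (1 / 2 : ℝ) ^ (n + 4) := by positivity
  have hA2 : ∀ u : X, S.A u ≤ 2 * ‖u‖ := by
    intro u
    have h1 := S.kadec.ge u
    have h2 := norm_nonneg u
    have h3 := S.kadec.le u
    nlinarith [sq_nonneg (S.A u)]
  have hc : ∀ᶠ z in 𝓝 v, S.w v / 2 < S.w z :=
    S.w_cont.continuousAt.eventually (lt_mem_nhds (by linarith))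
  obtain ⟨δ, hδ, hδ'⟩ := Metric.eventually_nhds_iff.mp hc
  have he : (0 : ℝ) < min δ ((1 / 2 : ℝ) ^ (n + 4) * S.w v / 4) := lt_min hδ (by positivity)
  obtain ⟨k, hk⟩ := S.dense.exists_dist_lt v he
  refine ⟨k, ?_⟩
  have hk1 : dist (S.y k) v < δ := by
    rw [dist_comm]
    exact hk.trans_le (min_le_left _ _)
  have hk2 : ‖v - S.y k‖ < (1 / 2 : ℝ) ^ (n + 4) * S.w v / 4 := by
    rw [← dist_eq_norm]
    exact hk.trans_le (min_le_right _ _)
  have h1 := hδ' hk1
  have h2 := hA2 (v - S.y k)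
  have h3 : (1 / 2 : ℝ) ^ (n + 4) * (S.w v / 2) < (1 / 2 : ℝ) ^ (n + 4) * S.w (S.y k) :=
    mul_lt_mul_of_pos_left h1 hp
  linarith

/-- prolongation of a chain by one step -/
theorem Chain.extend {S : Sys C g B R} {n : ℕ} {j : ℕ → ℕ} {x : ℕ → X} (h : S.Chain n j x) {v : X}
    (hv : v - x n ∈ S.Z j n) (hA : S.A (v - S.c j n) ≤ S.dd j n + S.r j n) {k : ℕ}
    (hk : S.A (v - S.y k) ≤ (1 / 2 : ℝ) ^ (n + 4) * S.w (S.y k)) :
    S.Chain (n + 1) (Function.update j n k) (Function.update x (n + 1) v) := by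
  rw [chain_iff] at h ⊢
  refine ⟨?_, fun l hl => ?_⟩
  · rw [Function.update_of_ne (by omega)]
    exact h.1
  · have e1 : ∀ i < l, Function.update j n k i = j i := fun i hi =>
      Function.update_of_ne (by omega) _ _
    rw [S.Z_congr e1, S.c_congr e1, S.dd_congr e1, S.r_congr e1]
    rcases Nat.lt_or_ge l n with hln | hln
    · have e2 : ∀ i < l + 1, Function.update j n k i = j i := fun i hi =>
        Function.update_of_ne (by omega) _ _
      rw [S.c_congr e2, S.r_congr e2, Function.update_of_ne (by omega : l + 1 ≠ n + 1),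
        Function.update_of_ne (by omega : l ≠ n + 1)]
      exact h.2 l hln
    · obtain rfl : l = n := by omega
      have c1 : S.c (Function.update j l k) (l + 1) = S.y k := by
        simp [c, ctr]
      have c2 : S.r (Function.update j l k) (l + 1) = (1 / 2 : ℝ) ^ (l + 4) * S.w (S.y k) := by
        simp [r, rad]
      rw [c1, c2, Function.update_self, Function.update_of_ne (by omega : l ≠ l + 1)]
      exact ⟨hv, hA, hk⟩

end Sys

end C2N
end

section

set_option autoImplicit false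

/-!
7.3 of paper 371.  `∑ (dd j l)^2 ≤ B` is summable, so `dd j l → 0`.  For `l ≤ i` take the chain `x` of length `i`:
`‖c_i - c_l‖ ≤ ‖c_i - x i‖ + ‖x i - x l‖ + ‖x l - c_l‖ ≤ r_i + √(9C (bet i - bet l)) + r_l` (`Chain.near`,
`Kadec.le`, `r_le'`), so `c` is Cauchy.  It converges in norm (no completeness instance needed): it is bounded, so it has a weak
ultralimit `v` by `S.wlim` (any free ultrafilter `U ≤ atTop`), and `‖v - c_l‖ ≤ e` for large `l` by `WLim.norm_le`.  Then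
`dd j l = d (c_l) → d v > 0` (`d_lip`, `d_pos`): contradiction.
-/

namespace C2N

open Filter Topology Set

variable {X : Type*} [NormedAddCommGroup X] [NormedSpace ℝ X]
variable {C B R : ℝ} {g : ℕ → X →L[ℝ] ℝ}

namespace Sys

/-- 7.3 of paper 371 -/
theorem wellfounded (S : Sys C g B R) :
    ¬ ∃ j : ℕ → ℕ, ∀ i, (∃ x, S.Chain i j x) ∧ S.bet i j ≤ B := by
  rintro ⟨j, hj⟩
  have hC : 1 ≤ C := S.twoS.one_le
  -- the limit of the `bet`
  have hbdd : BddAbove (Set.range fun n => S.bet n j) := ⟨B, by rintro _ ⟨n, rfl⟩; exact (hj n).2⟩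
  have hmono : Monotone fun n => S.bet n j := fun a b hab => S.bet_mono hab j
  have hlim := tendsto_atTop_ciSup hmono hbdd
  set L : ℝ := ⨆ n, S.bet n j with hL
  have hle : ∀ n, S.bet n j ≤ L := fun n => le_ciSup hbdd n
  -- the scales tend to zero
  have hdd : Tendsto (fun n => S.dd j n) atTop (𝓝 0) := by
    have h1 : Tendsto (fun n => S.bet (n + 1) j - S.bet n j) atTop (𝓝 (L - L)) :=
      ((tendsto_add_atTop_iff_nat 1).2 hlim).sub hlim
    rw [sub_self] at h1
    have h2 : Tendsto (fun n => Real.sqrt (S.bet (n + 1) j - S.bet n j)) atTop (𝓝 (Real.sqrt 0)) :=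
      (Real.continuous_sqrt.tendsto 0).comp h1
    rw [Real.sqrt_zero] at h2
    refine h2.congr fun n => ?_
    rw [S.bet_succ, add_sub_cancel_left, Real.sqrt_sq (S.dd_pos j n).le]
  have hr : ∀ n N, N ≤ n → S.r j n ≤ (1 / 2 : ℝ) ^ N := by
    intro n N hN
    have h1 := S.r_le j n
    have h2 := S.dd_le j n
    have h3 := (S.dd_pos j n).le
    have h4 : (1 / 2 : ℝ) ^ (n + 4) ≤ (1 / 2 : ℝ) ^ N :=
      pow_le_pow_of_le_one (by norm_num) (by norm_num) (by omega)
    have h5 : (0 : ℝ) < (1 / 2 : ℝ) ^ N := by positivity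
    calc S.r j n ≤ (1 / 2 : ℝ) ^ (n + 4) * S.dd j n := h1
      _ ≤ (1 / 2 : ℝ) ^ N * 1 := mul_le_mul h4 (by linarith) h3 h5.le
      _ = _ := mul_one _
  -- distance of centers
  have hdist : ∀ i l, l ≤ i → ‖S.c j i - S.c j l‖ ≤
      S.r j i + Real.sqrt (9 * C * (S.bet i j - S.bet l j)) + S.r j l := by
    intro i l hl
    obtain ⟨⟨x, hx⟩, _⟩ := hj i
    have h1 := hx.near (le_refl i)
    have h2 := hx.near hl
    have h3 := hx.est hl
    have h4 := (S.kadec.le (x i - S.c j i)).trans h1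
    have h5 := (S.kadec.le (x l - S.c j l)).trans h2
    have h6 : ‖x i - x l‖ ≤ Real.sqrt (9 * C * (S.bet i j - S.bet l j)) :=
      Real.le_sqrt_of_sq_le h3
    have e : S.c j i - S.c j l = -(x i - S.c j i) + (x i - x l) + (x l - S.c j l) := by abel
    rw [e]
    calc _ ≤ ‖-(x i - S.c j i) + (x i - x l)‖ + ‖x l - S.c j l‖ := norm_add_le _ _
      _ ≤ ‖-(x i - S.c j i)‖ + ‖x i - x l‖ + ‖x l - S.c j l‖ := by
          gcongr
          exact norm_add_le _ _
      _ ≤ _ := by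
          rw [norm_neg]
          gcongr
  have hcau : CauchySeq (fun n => S.c j n) := by
    refine cauchySeq_of_le_tendsto_0
      (fun N => 4 * (1 / 2 : ℝ) ^ N + 2 * Real.sqrt (9 * C * (L - S.bet N j))) ?_ ?_
    · intro n m N hn hm
      have key : ∀ i, N ≤ i → dist (S.c j i) (S.c j N) ≤
          2 * (1 / 2 : ℝ) ^ N + Real.sqrt (9 * C * (L - S.bet N j)) := by
        intro i hi
        rw [dist_eq_norm]
        have h1 := hdist i N hi
        have h2 := hr i N hi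
        have h3 := hr N N le_rfl
        have h4 : Real.sqrt (9 * C * (S.bet i j - S.bet N j)) ≤
            Real.sqrt (9 * C * (L - S.bet N j)) := by
          refine Real.sqrt_le_sqrt ?_
          have := hle i
          gcongr
        linarith
      have h1 := key n hn
      have h2 := key m hm
      have h3 := dist_triangle_right (S.c j n) (S.c j m) (S.c j N)
      linarith
    · have h1 : Tendsto (fun N : ℕ => (1 / 2 : ℝ) ^ N) atTop (𝓝 0) :=
        tendsto_pow_atTop_nhds_zero_of_lt_one (by norm_num) (by norm_num)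
      have h2 : Tendsto (fun N => 9 * C * (L - S.bet N j)) atTop (𝓝 (9 * C * (L - L))) :=
        (tendsto_const_nhds.sub hlim).const_mul _
      rw [sub_self, mul_zero] at h2
      have h3 := (Real.continuous_sqrt.tendsto 0).comp h2
      rw [Real.sqrt_zero] at h3
      have h4 := (h1.const_mul 4).add (h3.const_mul 2)
      simpa using h4
  obtain ⟨R', hR'⟩ : ∃ R', ∀ n, ‖S.c j n‖ ≤ R' := by
    obtain ⟨R', hR'⟩ := hcau.norm_bddAbove
    exact ⟨R', fun n => hR' ⟨n, rfl⟩⟩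
  obtain ⟨v, hv⟩ := S.wlim (Filter.hyperfilter ℕ) (fun n => S.c j n) R' hR'
  have hv0 := S.d_pos v
  -- `‖v - c_l‖` is small
  obtain ⟨N, hN⟩ := Metric.cauchySeq_iff.1 hcau (S.d v / 2) (by positivity)
  have hclose : ∀ l, N ≤ l → ‖v - S.c j l‖ ≤ S.d v / 2 := by
    intro l hl
    have hw : WLim (Filter.hyperfilter ℕ) (fun k => S.c j k - S.c j l) (v - S.c j l) := by
      intro f
      simp only [map_sub]
      exact (hv f).sub_const _
    refine hw.norm_le ?_
    have h1 : ∀ᶠ k in (atTop : Filter ℕ), ‖S.c j k - S.c j l‖ ≤ S.d v / 2 := by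
      filter_upwards [eventually_ge_atTop N] with k hk
      have := hN k hk l hl
      rw [dist_eq_norm] at this
      exact this.le
    exact Nat.hyperfilter_le_atTop h1
  have hev := (hdd.eventually (gt_mem_nhds (show (0 : ℝ) < S.d v / 2 by positivity))).and
    (eventually_ge_atTop N)
  obtain ⟨l, hl1, hl2⟩ := hev.exists
  have h1 := S.d_lip v (S.c j l)
  have h2 := hclose l hl2
  have h3 : S.d (S.c j l) = S.dd j l := rfl
  rw [h3] at h1
  have h4 := (abs_le.1 h1).2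
  linarith

end Sys

end C2N
end

section

set_option autoImplicit false

namespace C2N

open Filter Topology Set

variable {X : Type*} [NormedAddCommGroup X] [NormedSpace ℝ X]
variable {C B R : ℝ} {g : ℕ → X →L[ℝ] ℝ}

namespace Sys

/-- the partial value (without the quadratic piece) -/
noncomputable def part (S : Sys C g B R) (γ : ℝ) (n : ℕ) (j : ℕ → ℕ) (x : ℕ → X)
    (f : X →L[ℝ] ℝ) : ℝ :=
  γ * f (x n) - ∑ l ∈ Finset.range n, (S.dd j l ^ 2 + S.A (x (l + 1) - S.c j l) ^ 2 / 16)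

/-- the quadratic piece -/
noncomputable def Th (S : Sys C g B R) (γ : ℝ) (n : ℕ) (j : ℕ → ℕ) (f : X →L[ℝ] ℝ) : ℝ :=
  theta (S.dd j n) (γ * resN (S.Z j n) f)

noncomputable def val (S : Sys C g B R) (γ : ℝ) (n : ℕ) (j : ℕ → ℕ) (x : ℕ → X)
    (f : X →L[ℝ] ℝ) : ℝ :=
  S.part γ n j x f + S.Th γ n j f

/-- admissible nodes -/
def Adm (S : Sys C g B R) (n : ℕ) (j : ℕ → ℕ) (x : ℕ → X) : Prop :=
  S.Chain n j x ∧ S.bet n j ≤ B

/-- the functional `S` of section 8 -/
noncomputable def Sf (S : Sys C g B R) (γ : ℝ) (f : X →L[ℝ] ℝ) : ℝ :=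
  sSup {v | ∃ n j x, S.Adm n j x ∧ v = S.val γ n j x f}

theorem Adm.bound {S : Sys C g B R} {n : ℕ} {j : ℕ → ℕ} {x : ℕ → X} (h : S.Adm n j x) {l : ℕ}
    (hl : l ≤ n) : ‖x l‖ ≤ R :=
  S.bdd l j x (h.1.mono hl) ((S.bet_mono hl j).trans h.2)

theorem Adm.mono {S : Sys C g B R} {n n' : ℕ} {j : ℕ → ℕ} {x : ℕ → X} (h : S.Adm n' j x)
    (hn : n ≤ n') : S.Adm n j x := ⟨h.1.mono hn, (S.bet_mono hn j).trans h.2⟩

theorem Adm.congr {S : Sys C g B R} {n : ℕ} {j j' : ℕ → ℕ} {x x' : ℕ → X} (h : S.Adm n j x)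
    (hj : ∀ l < n, j l = j' l) (hx : ∀ l ≤ n, x l = x' l) : S.Adm n j' x' :=
  ⟨h.1.congr hj hx, (S.bet_congr hj).symm.le.trans h.2⟩

theorem adm_zero (S : Sys C g B R) (j : ℕ → ℕ) : S.Adm 0 j (fun _ => 0) := by
  refine ⟨⟨rfl, fun l hl => absurd hl (Nat.not_lt_zero _)⟩, ?_⟩
  rw [bet_zero]
  linarith [S.hB]

theorem part_congr (S : Sys C g B R) {γ : ℝ} {n : ℕ} {j j' : ℕ → ℕ} {x x' : ℕ → X}
    {f : X →L[ℝ] ℝ} (hj : ∀ l, l + 1 < n → j l = j' l) (hx : ∀ l ≤ n, x l = x' l) :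
    S.part γ n j x f = S.part γ n j' x' f := by
  unfold part
  rw [hx n le_rfl]
  congr 1
  refine Finset.sum_congr rfl (fun l hl => ?_)
  have hl' := Finset.mem_range.mp hl
  rw [S.dd_congr (fun i hi => hj i (by omega)), S.c_congr (fun i hi => hj i (by omega)),
    hx (l + 1) hl']

theorem Th_congr (S : Sys C g B R) {γ : ℝ} {n : ℕ} {j j' : ℕ → ℕ} {f : X →L[ℝ] ℝ}
    (hj : ∀ l < n, j l = j' l) : S.Th γ n j f = S.Th γ n j' f := by
  unfold Th
  rw [S.dd_congr hj, S.Z_congr hj]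

theorem val_congr (S : Sys C g B R) {γ : ℝ} {n : ℕ} {j j' : ℕ → ℕ} {x x' : ℕ → X}
    {f : X →L[ℝ] ℝ} (hj : ∀ l < n, j l = j' l) (hx : ∀ l ≤ n, x l = x' l) :
    S.val γ n j x f = S.val γ n j' x' f := by
  unfold val
  rw [S.part_congr (fun l hl => hj l (by omega)) hx, S.Th_congr hj]

theorem Th_nonneg (S : Sys C g B R) {γ : ℝ} (hγ : 0 ≤ γ) (n : ℕ) (j : ℕ → ℕ) (f : X →L[ℝ] ℝ) :
    0 ≤ S.Th γ n j f :=
  theta_nonneg (S.dd_pos j n).le (mul_nonneg hγ (resN_nonneg _ _))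

theorem Th_le_sq (S : Sys C g B R) {γ : ℝ} (hγ : 0 ≤ γ) (n : ℕ) (j : ℕ → ℕ) (f : X →L[ℝ] ℝ) :
    S.Th γ n j f ≤ (γ * resN (S.Z j n) f) ^ 2 / 32 :=
  theta_le_sq (S.dd_pos j n).le (mul_nonneg hγ (resN_nonneg _ _))

end Sys

end C2N
end
end

section

section

set_option autoImplicit false

/-!
Section 9 of paper 371.  Let `T i` = `∃ t, ∀ᶠ k in U, i ≤ n k ∧ ∀ l < i, j k l = t l`.  `T 0` holds.  If all `T i` hold, the values
are unique (`U` is a proper filter), so the `t`'s can be glued to a single `t`: contradiction to `hw`.  So there is `i`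
with `T i` and not `T (i+1)`.  If not (eventually `n k = i`) then eventually `i < n k` (ultrafilter).  If
`j k i` did not tend to infinity there would be `M` with eventually `j k i < M`, so `j k i` is eventually
constant (finite pigeonhole for ultrafilters), giving `T (i+1)`.
-/

namespace C2N

open Filter Topology Set

/-- Combinatorial dichotomy for a sequence of finite sequences `(j k 0, ..., j k (n k - 1))` along an
ultrafilter: either there is an infinite limit sequence, or at the first level where the labels do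
not stabilise either the length is constant or the next label tends to infinity. -/
theorem dichotomy (U : Ultrafilter ℕ) (n : ℕ → ℕ) (j : ℕ → ℕ → ℕ)
    (hw : ¬ ∃ t : ℕ → ℕ, ∀ i, ∀ᶠ k in (U : Filter ℕ), i ≤ n k ∧ ∀ l < i, j k l = t l) :
    ∃ (i : ℕ) (t : ℕ → ℕ), (∀ᶠ k in (U : Filter ℕ), i ≤ n k ∧ ∀ l < i, j k l = t l) ∧
      ((∀ᶠ k in (U : Filter ℕ), n k = i) ∨
        ((∀ᶠ k in (U : Filter ℕ), i < n k) ∧ Tendsto (fun k => j k i) U atTop)) := by
  classical
  by_cases hall : ∀ i, ∃ t : ℕ → ℕ, ∀ᶠ k in (U : Filter ℕ), i ≤ n k ∧ ∀ l < i, j k l = t l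
  · exfalso
    apply hw
    choose t ht using hall
    refine ⟨fun l => t (l + 1) l, fun i => ?_⟩
    have h1 : ∀ l ∈ {l : ℕ | l < i}, ∀ᶠ k in (U : Filter ℕ), j k l = t (l + 1) l :=
      fun l _ => (ht (l + 1)).mono fun k hk => hk.2 l (Nat.lt_succ_self l)
    have h2 := (Filter.eventually_all_finite (Set.finite_lt_nat i)).2 h1
    filter_upwards [ht i, h2] with k hk hk2
    exact ⟨hk.1, fun l hl => hk2 l hl⟩
  · have hex : ∃ i, ¬ ∃ t : ℕ → ℕ, ∀ᶠ k in (U : Filter ℕ), i ≤ n k ∧ ∀ l < i, j k l = t l :=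
      not_forall.1 hall
    have hne : Nat.find hex ≠ 0 := by
      intro h0
      have := Nat.find_spec hex
      rw [h0] at this
      exact this ⟨fun _ => 0, Eventually.of_forall fun k =>
        ⟨Nat.zero_le _, fun l hl => absurd hl (Nat.not_lt_zero _)⟩⟩
    obtain ⟨i, hi⟩ := Nat.exists_eq_succ_of_ne_zero hne
    have hspec := Nat.find_spec hex
    rw [hi] at hspec
    have hmin := Nat.find_min hex (m := i) (by omega)
    obtain ⟨t, ht⟩ := not_not.1 hmin
    refine ⟨i, t, ht, ?_⟩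
    by_cases hE : ∀ᶠ k in (U : Filter ℕ), n k = i
    · exact Or.inl hE
    right
    have hE' : ∀ᶠ k in (U : Filter ℕ), ¬ n k = i := Ultrafilter.eventually_not.2 hE
    have hlt : ∀ᶠ k in (U : Filter ℕ), i < n k := by
      filter_upwards [ht, hE'] with k hk hk2
      exact lt_of_le_of_ne hk.1 (Ne.symm hk2)
    refine ⟨hlt, ?_⟩
    by_contra hT
    rw [tendsto_atTop] at hT
    obtain ⟨M, hM⟩ := not_forall.1 hT
    have hM' : ∀ᶠ k in (U : Filter ℕ), ¬ M ≤ j k i := Ultrafilter.eventually_not.2 hM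
    have hU : (⋃ m ∈ {m : ℕ | m < M}, {k : ℕ | j k i = m}) ∈ U := by
      filter_upwards [hM'] with k hk
      simp only [Set.mem_ofPred_eq, Set.mem_iUnion, exists_prop, exists_eq_right']
      exact not_le.1 hk
    obtain ⟨m, -, hm⟩ := (Ultrafilter.finite_biUnion_mem_iff (Set.finite_lt_nat M)).1 hU
    have hm' : ∀ᶠ k in (U : Filter ℕ), j k i = m := hm
    apply hspec
    refine ⟨fun l => if l < i then t l else m, ?_⟩
    filter_upwards [ht, hlt, hm'] with k hk hk1 hk2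
    refine ⟨hk1, fun l hl => ?_⟩
    rcases Nat.lt_succ_iff_lt_or_eq.1 hl with h | h
    · simp only [h, if_true]
      exact hk.2 l h
    · subst h
      simp only [lt_irrefl, if_false]
      exact hk2

end C2N
end

section

set_option autoImplicit false

namespace C2N

open Filter Topology Set MeasureTheory

variable {X : Type*} [NormedAddCommGroup X] [NormedSpace ℝ X]
variable {E : Type*} [NormedAddCommGroup E] [NormedSpace ℝ E]

/-- One variable version: multiples. -/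
private lemma i2a_nat {C : ℝ} (hC : 0 ≤ C) {φ : ℝ → E} (h0 : φ 0 = 0)
    (hφ : ∀ s s' h : ℝ, ‖φ (s + h) - φ s - (φ (s' + h) - φ s')‖ ≤ C * |h| * |s - s'|)
    (h : ℝ) (n : ℕ) :
    ‖φ (n * h) - (n : ℝ) • φ h‖ ≤ C * n ^ 2 * h ^ 2 ∧
      ‖φ (-(n * h)) + (n : ℝ) • φ h‖ ≤ C * n ^ 2 * h ^ 2 := by
  induction n with
  | zero => simp [h0]
  | succ n ih =>
    obtain ⟨ih1, ih2⟩ := ih
    have hn : (0 : ℝ) ≤ n := Nat.cast_nonneg n
    have hh2 : |h| * |h| = h ^ 2 := by rw [abs_mul_abs_self]; ring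
    have hCn : 0 ≤ C * n * h ^ 2 := by positivity
    have hC2 : 0 ≤ C * h ^ 2 := by positivity
    constructor
    · have e1 := hφ (n * h) 0 h
      rw [sub_zero, abs_mul, Nat.abs_cast, zero_add, h0, sub_zero] at e1
      have e2 : φ ((n + 1 : ℕ) * h) - ((n + 1 : ℕ) : ℝ) • φ h =
          (φ (n * h) - (n : ℝ) • φ h) + (φ (n * h + h) - φ (n * h) - φ h) := by
        have : ((n + 1 : ℕ) : ℝ) * h = n * h + h := by push_cast; ring
        rw [this]
        push_cast
        rw [add_smul, one_smul]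
        abel
      rw [e2]
      refine (norm_add_le _ _).trans ?_
      push_cast
      have e4 : C * |h| * (n * |h|) = C * n * h ^ 2 := by rw [← hh2]; ring
      have e5 : C * ((n : ℝ) + 1) ^ 2 * h ^ 2 =
          C * n ^ 2 * h ^ 2 + 2 * (C * n * h ^ 2) + C * h ^ 2 := by ring
      linarith
    · have e1 := hφ (-((n + 1) * h)) 0 h
      rw [sub_zero, abs_neg, abs_mul, zero_add, h0, sub_zero] at e1
      have e3 : |(n : ℝ) + 1| = n + 1 := abs_of_nonneg (by positivity)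
      rw [e3] at e1
      have e2 : φ (-((n + 1 : ℕ) * h)) + ((n + 1 : ℕ) : ℝ) • φ h =
          (φ (-(n * h)) + (n : ℝ) • φ h) -
            (φ (-((n + 1) * h) + h) - φ (-((n + 1) * h)) - φ h) := by
        have : -(((n : ℝ) + 1) * h) + h = -(n * h) := by ring
        rw [this]
        push_cast
        rw [add_smul, one_smul]
        abel
      rw [e2]
      refine (norm_sub_le _ _).trans ?_
      push_cast
      have e4 : C * |h| * ((n + 1) * |h|) = C * n * h ^ 2 + C * h ^ 2 := by rw [← hh2]; ring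
      have e5 : C * ((n : ℝ) + 1) ^ 2 * h ^ 2 =
          C * n ^ 2 * h ^ 2 + 2 * (C * n * h ^ 2) + C * h ^ 2 := by ring
      linarith

private lemma i2a_int {C : ℝ} (hC : 0 ≤ C) {φ : ℝ → E} (h0 : φ 0 = 0)
    (hφ : ∀ s s' h : ℝ, ‖φ (s + h) - φ s - (φ (s' + h) - φ s')‖ ≤ C * |h| * |s - s'|)
    (h : ℝ) (p : ℤ) : ‖φ (p * h) - (p : ℝ) • φ h‖ ≤ C * p ^ 2 * h ^ 2 := by
  obtain ⟨n, rfl | rfl⟩ := p.eq_nat_or_neg
  · have := (i2a_nat hC h0 hφ h n).1
    simpa using this
  · have := (i2a_nat hC h0 hφ h n).2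
    push_cast
    rw [neg_smul, sub_neg_eq_add, neg_mul, neg_sq]
    exact this

private lemma i2a_rat {C : ℝ} (hC : 0 ≤ C) {φ : ℝ → E} (h0 : φ 0 = 0)
    (hφ : ∀ s s' h : ℝ, ‖φ (s + h) - φ s - (φ (s' + h) - φ s')‖ ≤ C * |h| * |s - s'|)
    (h : ℝ) (r : ℚ) :
    ‖φ (r * h) - (r : ℝ) • φ h‖ ≤ C * (|(r : ℝ)| * (|(r : ℝ)| + 1)) * h ^ 2 := by
  -- r = p / q, h = q t
  set p : ℤ := r.num with hp
  set q : ℕ := r.den with hq
  have hq0 : (0 : ℝ) < q := by exact_mod_cast r.den_pos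
  have hr : (r : ℝ) = p / q := by
    rw [hp, hq]
    exact_mod_cast (Rat.num_div_den r).symm
  set t : ℝ := h / q with ht
  have hqt : (q : ℝ) * t = h := by rw [ht]; field_simp
  have hrh : (r : ℝ) * h = p * t := by rw [hr, ht]; ring
  have e1 := i2a_int hC h0 hφ t p
  have e2 := (i2a_nat hC h0 hφ t q).1
  rw [hqt] at e2
  have e3 : φ (p * t) - ((p : ℝ) / q) • φ h =
      (φ (p * t) - (p : ℝ) • φ t) - ((p : ℝ) / q) • (φ h - (q : ℝ) • φ t) := by
    rw [smul_sub, smul_smul, div_mul_cancel₀ _ hq0.ne']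
    abel
  rw [hrh, hr, e3]
  refine (norm_sub_le _ _).trans ?_
  rw [norm_smul, Real.norm_eq_abs]
  have e4 : |(p : ℝ) / q| * ‖φ h - (q : ℝ) • φ t‖ ≤ |(p : ℝ) / q| * (C * q ^ 2 * t ^ 2) :=
    mul_le_mul_of_nonneg_left e2 (abs_nonneg _)
  have e5 : (C * (p : ℝ) ^ 2 * t ^ 2) = C * (|(p : ℝ) / q| * |(p : ℝ) / q|) * h ^ 2 := by
    rw [abs_mul_abs_self, ht]
    field_simp
  have e6 : C * (q : ℝ) ^ 2 * t ^ 2 = C * h ^ 2 := by
    rw [ht]
    field_simp
  rw [e5] at e1
  rw [e6] at e4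
  nlinarith

private lemma i2a_real {C : ℝ} (hC : 0 ≤ C) {φ : ℝ → E} (hcont : Continuous φ) (h0 : φ 0 = 0)
    (hφ : ∀ s s' h : ℝ, ‖φ (s + h) - φ s - (φ (s' + h) - φ s')‖ ≤ C * |h| * |s - s'|)
    (h : ℝ) (r : ℝ) :
    ‖φ (r * h) - r • φ h‖ ≤ C * (|r| * (|r| + 1)) * h ^ 2 := by
  have hden : DenseRange (fun r : ℚ => (r : ℝ)) := Rat.isDenseEmbedding_coe_real.dense
  refine hden.induction_on (p := fun r : ℝ => ‖φ (r * h) - r • φ h‖ ≤
    C * (|r| * (|r| + 1)) * h ^ 2) r ?_ (fun r => i2a_rat hC h0 hφ h r)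
  exact isClosed_le (by fun_prop) (by fun_prop)

/-- existence of the directional derivative from `DirLip`. Compare difference quotients with those
of the average `(1/a) ∫_0^a q (x + r e) dr` (whose derivative along `e` is `(q (x + a e) - q x)/a`),
or use dyadic difference quotients. -/
theorem DirLip.deriv [CompleteSpace E] {K L : ℝ} {q : X → E} {e : X}
    (hq : ∀ x z, ‖q x - q z‖ ≤ L * ‖x - z‖) (hd : DirLip K q e) (x : X) :
    ∃ T : E, Tendsto (fun s : ℝ => s⁻¹ • (q (x + s • e) - q x)) (𝓝[≠] 0) (𝓝 T) := by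
  set φ : ℝ → E := fun s => q (x + s • e) - q x with hφdef
  set C : ℝ := |K| * ‖e‖ with hCdef
  have hC : 0 ≤ C := by positivity
  have h0 : φ 0 = 0 := by simp [hφdef]
  have hqc : Continuous q := by
    have : LipschitzWith (Real.toNNReal |L|) q := by
      apply LipschitzWith.of_dist_le_mul
      intro a b
      rw [dist_eq_norm, dist_eq_norm, Real.coe_toNNReal _ (abs_nonneg L)]
      exact (hq a b).trans (mul_le_mul_of_nonneg_right (le_abs_self L) (norm_nonneg _))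
    exact this.continuous
  have hcont : Continuous φ := by
    rw [hφdef]
    fun_prop
  have hφ : ∀ s s' h : ℝ, ‖φ (s + h) - φ s - (φ (s' + h) - φ s')‖ ≤ C * |h| * |s - s'| := by
    intro s s' h
    have h1 := hd (x + s • e) (x + s' • e) h
    have e1 : x + s • e + h • e = x + (s + h) • e := by rw [add_smul]; abel
    have e2 : x + s' • e + h • e = x + (s' + h) • e := by rw [add_smul]; abel
    have e3 : x + s • e - (x + s' • e) = (s - s') • e := by rw [sub_smul]; abel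
    rw [e1, e2, e3, norm_smul, Real.norm_eq_abs] at h1
    have e4 : φ (s + h) - φ s - (φ (s' + h) - φ s') =
        q (x + (s + h) • e) - q (x + s • e) - (q (x + (s' + h) • e) - q (x + s' • e)) := by
      simp only [hφdef]
      abel
    rw [e4]
    refine h1.trans ?_
    have h2 : K * |h| * (|s - s'| * ‖e‖) ≤ |K| * |h| * (|s - s'| * ‖e‖) := by
      apply mul_le_mul_of_nonneg_right _ (by positivity)
      exact mul_le_mul_of_nonneg_right (le_abs_self K) (abs_nonneg h)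
    refine h2.trans (le_of_eq ?_)
    rw [hCdef]
    ring
  have key : ∀ s t : ℝ, s ≠ 0 → t ≠ 0 → ‖s⁻¹ • φ s - t⁻¹ • φ t‖ ≤ C * (|s| + |t|) := by
    intro s t hs ht
    have h1 := i2a_real hC hcont h0 hφ t (s / t)
    rw [div_mul_cancel₀ _ ht] at h1
    have e1 : s⁻¹ • φ s - t⁻¹ • φ t = s⁻¹ • (φ s - (s / t) • φ t) := by
      rw [smul_sub s⁻¹ (φ s) ((s / t) • φ t), smul_smul]
      congr 2
      field_simp
    rw [e1, norm_smul, norm_inv, Real.norm_eq_abs]
    have hs' : 0 < |s| := abs_pos.mpr hs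
    have ht' : 0 < |t| := abs_pos.mpr ht
    rw [inv_mul_le_iff₀ hs']
    refine h1.trans (le_of_eq ?_)
    rw [abs_div]
    have : t ^ 2 = |t| * |t| := by rw [abs_mul_abs_self]; ring
    rw [this]
    field_simp
  have hcauchy : Cauchy (map (fun s : ℝ => s⁻¹ • φ s) (𝓝[≠] 0)) := by
    rw [Metric.cauchy_iff]
    refine ⟨inferInstance, ?_⟩
    intro ε hε
    set δ : ℝ := ε / (2 * (C + 1)) with hδ
    have hδ0 : 0 < δ := by positivity
    refine ⟨(fun s : ℝ => s⁻¹ • φ s) '' (Metric.ball 0 δ ∩ {0}ᶜ), ?_, ?_⟩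
    · apply image_mem_map
      rw [inter_comm]
      exact inter_mem_nhdsWithin _ (Metric.ball_mem_nhds 0 hδ0)
    · rintro _ ⟨s, ⟨hs1, hs2⟩, rfl⟩ _ ⟨t, ⟨ht1, ht2⟩, rfl⟩
      rw [dist_eq_norm]
      refine (key s t hs2 ht2).trans_lt ?_
      rw [mem_ball_zero_iff, Real.norm_eq_abs] at hs1 ht1
      have h1 : C * (|s| + |t|) ≤ (C + 1) * (|s| + |t|) :=
        mul_le_mul_of_nonneg_right (by linarith) (by positivity)
      have h2 : (C + 1) * (|s| + |t|) < (C + 1) * (2 * δ) :=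
        mul_lt_mul_of_pos_left (by linarith) (by linarith)
      have h3 : (C + 1) * (2 * δ) = ε := by
        rw [hδ]
        field_simp
      linarith
  exact cauchy_map_iff_exists_tendsto.mp hcauchy

end C2N
end

section

set_option autoImplicit false

/-!
`g (s, r) = G (x + s u + r v)`: `∂_s g = q (..) u`, `∂_r ∂_s g = T (..) v u`, both mixed partial derivatives are continuous,
so they agree (Schwarz).  E.g. `Δ(s) = G (x+su+sv) - G (x+su) - G (x+sv) + G x` for small `s > 0` satisfies `Δ(s)/s^2 → T x u v` and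
`→ T x v u` (mean value theorem twice, or `g` is `C^2` on `ℝ × ℝ` and Mathlib's symmetry of second derivatives).
-/

namespace C2N

open Filter Topology Set MeasureTheory

variable {X : Type*} [NormedAddCommGroup X] [NormedSpace ℝ X]
variable {E : Type*} [NormedAddCommGroup E] [NormedSpace ℝ E]

private theorem strong_mvt {L : ℝ} (hL : 0 ≤ L) {G : X → ℝ} {q : X → X →L[ℝ] ℝ}
    (h : Quad L G q) {T : X → X →L[ℝ] X →L[ℝ] ℝ}
    (hd : ∀ x u, Tendsto (fun s : ℝ => s⁻¹ • (q (x + s • u) - q x)) (𝓝[≠] 0) (𝓝 (T x u)))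
    (x u v : X) {s : ℝ} (hs : 0 < s) : ∃ r t : ℝ, 0 < r ∧ r < s ∧ 0 < t ∧ t < s ∧
      G (x + s • u + s • v) - G (x + s • u) - G (x + s • v) + G x =
        s * (s * T (x + r • u + t • v) v u) := by
  have hG : ∀ (w : X) (r : ℝ), HasDerivAt (fun r : ℝ => G (x + r • u + w)) (q (x + r • u + w) u)
      r := by
    intro w r
    have h1 : HasDerivAt (fun r : ℝ => x + r • u + w) u r := by
      have h2 : HasDerivAt (fun r : ℝ => r • u) ((1 : ℝ) • u) r :=
        (hasDerivAt_id r).smul_const u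
      rw [one_smul] at h2
      exact (h2.const_add x).add_const w
    exact (h.hasFDerivAt hL (x + r • u + w)).comp_hasDerivAt r h1
  have hq : ∀ (y : X) (t : ℝ), HasDerivAt (fun t : ℝ => q (y + t • v) u) (T (y + t • v) v u) t := by
    intro y t
    rw [hasDerivAt_iff_tendsto_slope_zero]
    have h1 := hd (y + t • v) v
    have h2 : Continuous (fun p : X →L[ℝ] ℝ => p u) := continuous_eval_const u
    have h3 := (h2.tendsto (T (y + t • v) v)).comp h1
    refine h3.congr (fun k => ?_)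
    change (k⁻¹ • (q (y + t • v + k • v) - q (y + t • v))) u = _
    rw [add_smul, ← add_assoc]
    rfl
  -- first mean value
  obtain ⟨r, ⟨hr0, hr⟩, e1⟩ := exists_hasDerivAt_eq_slope
    (fun r : ℝ => G (x + r • u + s • v) - G (x + r • u + 0))
    (fun r : ℝ => q (x + r • u + s • v) u - q (x + r • u + 0) u) hs
    (fun r _ => ((hG (s • v) r).sub (hG 0 r)).continuousAt.continuousWithinAt)
    (fun r _ => (hG (s • v) r).sub (hG 0 r))
  obtain ⟨t, ⟨ht0, ht⟩, e2⟩ := exists_hasDerivAt_eq_slope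
    (fun t : ℝ => q (x + r • u + t • v) u)
    (fun t : ℝ => T (x + r • u + t • v) v u) hs
    (fun t _ => (hq (x + r • u) t).continuousAt.continuousWithinAt)
    (fun t _ => hq (x + r • u) t)
  refine ⟨r, t, hr0, hr, ht0, ht, ?_⟩
  have hs' : s - 0 ≠ 0 := by
    rw [sub_zero]
    exact hs.ne'
  have e3 := (eq_div_iff hs').1 e1
  have e4 := (eq_div_iff hs').1 e2
  simp only [sub_zero, add_zero, zero_smul] at e3 e4
  have e5 : s * (s * T (x + r • u + t • v) v u) =
      (T (x + r • u + t • v) v u * s) * s := by ring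
  rw [e5, e4, e3]
  ring

/-- symmetry of the strong second derivative -/
theorem strong_symm {L : ℝ} (hL : 0 ≤ L) {G : X → ℝ} {q : X → X →L[ℝ] ℝ} (h : Quad L G q)
    {T : X → X →L[ℝ] X →L[ℝ] ℝ} (hT : ∀ u, Continuous fun x => T x u)
    (hd : ∀ x u, Tendsto (fun s : ℝ => s⁻¹ • (q (x + s • u) - q x)) (𝓝[≠] 0) (𝓝 (T x u)))
    (x u v : X) : T x u v = T x v u := by
  by_contra hne
  set e : ℝ := |T x u v - T x v u| / 2 with he
  have he0 : 0 < e := half_pos (abs_pos.2 (sub_ne_zero.2 hne))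
  have hcont : ∀ a c : X, ∃ δ : ℝ, 0 < δ ∧ ∀ z, ‖z - x‖ < δ → |T z a c - T x a c| < e := by
    intro a c
    have h1 : Continuous fun z => T z a c := (hT a).clm_apply continuous_const
    obtain ⟨δ, hδ, h2⟩ := Metric.continuousAt_iff.1 h1.continuousAt e he0
    refine ⟨δ, hδ, fun z hz => ?_⟩
    have h3 := h2 (x := z) (by rw [dist_eq_norm]; exact hz)
    rwa [Real.dist_eq] at h3
  obtain ⟨δ₁, hδ₁, c1⟩ := hcont u v
  obtain ⟨δ₂, hδ₂, c2⟩ := hcont v u
  set W : ℝ := ‖u‖ + ‖v‖ + 1 with hW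
  have hW0 : 0 < W := by positivity
  set s : ℝ := min δ₁ δ₂ / W with hs
  have hs0 : 0 < s := div_pos (lt_min hδ₁ hδ₂) hW0
  have hsW : s * W = min δ₁ δ₂ := div_mul_cancel₀ _ hW0.ne'
  have hclose : ∀ (a c : X) (r t : ℝ), ‖a‖ + ‖c‖ = ‖u‖ + ‖v‖ → 0 < r → r < s → 0 < t → t < s →
      ‖x + r • a + t • c - x‖ < min δ₁ δ₂ := by
    intro a c r t hac hr0 hr ht0 ht
    have e1 : x + r • a + t • c - x = r • a + t • c := by abel
    rw [e1, ← hsW]
    have e2 := norm_add_le (r • a) (t • c)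
    rw [norm_smul, norm_smul, Real.norm_eq_abs, Real.norm_eq_abs, abs_of_pos hr0,
      abs_of_pos ht0] at e2
    have e3 := mul_le_mul_of_nonneg_right hr.le (norm_nonneg a)
    have e4 := mul_le_mul_of_nonneg_right ht.le (norm_nonneg c)
    have e5 : s * W = s * (‖a‖ + ‖c‖) + s := by
      rw [hW, ← hac]
      ring
    rw [e5]
    linarith
  obtain ⟨r, t, hr0, hr, ht0, ht, e1⟩ := strong_mvt hL h hd x u v hs0
  obtain ⟨r', t', hr0', hr', ht0', ht', e2⟩ := strong_mvt hL h hd x v u hs0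
  have k1 := c2 _ ((hclose u v r t rfl hr0 hr ht0 ht).trans_le (min_le_right _ _))
  have k2 := c1 _ ((hclose v u r' t' (add_comm _ _) hr0' hr' ht0' ht').trans_le (min_le_left _ _))
  have e3 : x + s • u + s • v = x + s • v + s • u := by abel
  rw [e3] at e1
  have e4 : s * (s * T (x + r • u + t • v) v u) = s * (s * T (x + r' • v + t' • u) u v) := by
    rw [← e1, ← e2]
    ring
  have e5 := mul_left_cancel₀ hs0.ne' (mul_left_cancel₀ hs0.ne' e4)
  rw [e5] at k1
  have k3 : |T x u v - T x v u| < 2 * e := by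
    have e6 : T x u v - T x v u = (T (x + r' • v + t' • u) u v - T x v u) -
        (T (x + r' • v + t' • u) u v - T x u v) := by ring
    rw [e6]
    refine (abs_sub _ _).trans_lt ?_
    linarith
  rw [he] at k3
  linarith

end C2N
end

section

set_option autoImplicit false

/-!
`(q (x+su) - q x)(su) ≥ 0` by the lower estimates at `x` and `x+su`.  For the tails:
`q (x+sz) (sz) ≤ G (x+2sz) - G (x+sz)`, `q x (sz) ≥ G x - G (x-sz)`, so `(q (x+sz) - q x)(sz) ≤ [G (x+2sz) + G x - 2 G (x+sz)] +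
[G (x+sz) + G (x-sz) - 2 G x] ≤ 2 (e/2) s^2‖z‖^2` by (TS) with `e/2` at the points `x+sz`, `x` for small `s`.
-/

namespace C2N

open Filter Topology Set MeasureTheory

variable {X : Type*} [NormedAddCommGroup X] [NormedSpace ℝ X]
variable {E : Type*} [NormedAddCommGroup E] [NormedSpace ℝ E]

private theorem I2d_eval {q : X → X →L[ℝ] ℝ} {T : X → X →L[ℝ] X →L[ℝ] ℝ}
    (hd : ∀ x u, Tendsto (fun s : ℝ => s⁻¹ • (q (x + s • u) - q x)) (𝓝[≠] 0) (𝓝 (T x u)))
    (x u : X) :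
    Tendsto (fun s : ℝ => s⁻¹ * ((q (x + s • u) - q x) u)) (𝓝[≠] 0) (𝓝 (T x u u)) := by
  have h1 : Continuous (fun f : X →L[ℝ] ℝ => f u) := (ContinuousLinearMap.apply ℝ ℝ u).continuous
  have h2 := (h1.tendsto (T x u)).comp (hd x u)
  refine h2.congr ?_
  intro s
  simp [smul_eq_mul]

/-- positivity -/
theorem strong_nonneg {L : ℝ} {G : X → ℝ} {q : X → X →L[ℝ] ℝ} (h : Quad L G q)
    {T : X → X →L[ℝ] X →L[ℝ] ℝ}
    (hd : ∀ x u, Tendsto (fun s : ℝ => s⁻¹ • (q (x + s • u) - q x)) (𝓝[≠] 0) (𝓝 (T x u)))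
    (x u : X) : 0 ≤ T x u u := by
  have hne : (𝓝[≠] (0 : ℝ)).NeBot := inferInstance
  refine ge_of_tendsto (I2d_eval hd x u) ?_
  filter_upwards [self_mem_nhdsWithin] with s hs
  have hs0 : s ≠ 0 := hs
  have ha := h.lower x (s • u)
  have hb := h.lower (x + s • u) (-(s • u))
  rw [add_neg_cancel_right, map_neg] at hb
  have hc : 0 ≤ (q (x + s • u) - q x) (s • u) := by
    rw [_root_.sub_apply]
    linarith
  rw [map_smul, smul_eq_mul] at hc
  have hd2 : s⁻¹ * ((q (x + s • u) - q x) u) = (s * ((q (x + s • u) - q x) u)) * (s⁻¹) ^ 2 := by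
    field_simp
  rw [hd2]
  positivity

/-- smallness on tails: from (TS),
`(q (x + s z) - q x)(s z) ≤ G (x+2sz) - G (x+sz) - G x + G (x-sz) ≤ 2 e s^2 ‖z‖^2`. -/
theorem strong_tail {L : ℝ} {G : X → ℝ} {q : X → X →L[ℝ] ℝ} (h : Quad L G q)
    {g : ℕ → X →L[ℝ] ℝ} {r : ℝ} (hTS : TS g G r) {T : X → X →L[ℝ] X →L[ℝ] ℝ}
    (hd : ∀ x u, Tendsto (fun s : ℝ => s⁻¹ • (q (x + s • u) - q x)) (𝓝[≠] 0) (𝓝 (T x u)))
    (x0 : X) (hx0 : ‖x0‖ < r) (e : ℝ) (he : 0 < e) :
    ∃ (M : ℕ) (δ : ℝ), 0 < δ ∧ ∀ x, ‖x - x0‖ < δ → ∀ z ∈ tail g M, T x z z ≤ e * ‖z‖ ^ 2 := by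
  obtain ⟨M, δ, hδ, hTS'⟩ := hTS x0 hx0 (e / 2) (by linarith)
  refine ⟨M, δ / 2, by linarith, ?_⟩
  intro x hx z hz
  have hne : (𝓝[≠] (0 : ℝ)).NeBot := inferInstance
  refine le_of_tendsto (I2d_eval hd x z) ?_
  have hsmall : ∀ᶠ s : ℝ in 𝓝[≠] 0, |s| * ‖z‖ < δ / 4 := by
    apply nhdsWithin_le_nhds
    have hcont : Continuous (fun s : ℝ => |s| * ‖z‖) := by fun_prop
    have : (fun s : ℝ => |s| * ‖z‖) 0 < δ / 4 := by simp; linarith
    exact (hcont.continuousAt.eventually_lt continuousAt_const this)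
  filter_upwards [self_mem_nhdsWithin, hsmall] with s hs hsm
  have hs0 : s ≠ 0 := hs
  have hnorm : ‖s • z‖ = |s| * ‖z‖ := by rw [norm_smul, Real.norm_eq_abs]
  have hmem : s • z ∈ tail g M := Submodule.smul_mem _ _ hz
  have ha := hTS' (x + s • z) (by
    have e1 : x + s • z - x0 = (x - x0) + s • z := by abel
    rw [e1]
    refine lt_of_le_of_lt (norm_add_le _ _) ?_
    rw [hnorm]
    linarith) (s • z) hmem (by rw [hnorm]; linarith)
  have hb := hTS' x (by linarith) (s • z) hmem (by rw [hnorm]; linarith)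
  have hc := h.lower (x + s • z) (s • z)
  have hd1 := h.lower x (-(s • z))
  rw [← sub_eq_add_neg, map_neg] at hd1
  rw [add_sub_cancel_right] at ha
  have hf : (q (x + s • z) - q x) (s • z) ≤ e * ‖s • z‖ ^ 2 := by
    rw [_root_.sub_apply]
    linarith
  rw [map_smul, smul_eq_mul, hnorm, mul_pow, sq_abs] at hf
  have hd2 : s⁻¹ * ((q (x + s • z) - q x) z) = (s * ((q (x + s • z) - q x) z)) * (s⁻¹) ^ 2 := by
    field_simp
  rw [hd2]
  have hpos : 0 ≤ (s⁻¹) ^ 2 := by positivity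
  have hg := mul_le_mul_of_nonneg_right hf hpos
  refine hg.trans (le_of_eq ?_)
  field_simp

end C2N
end

section

set_option autoImplicit false

/-!
Polarisation: `Q u v = (Q (u+v) (u+v) - Q (u-v) (u-v))/4 ≤ c(‖u+v‖^2+‖u-v‖^2)/4 ≤ 2c` for `‖u‖, ‖v‖ ≤ 1`.
-/

namespace C2N

open Filter Topology Set MeasureTheory

variable {X : Type*} [NormedAddCommGroup X] [NormedSpace ℝ X]
variable {E : Type*} [NormedAddCommGroup E] [NormedSpace ℝ E]

/-- norm of a symmetric bilinear form by its diagonal values (polarisation) -/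
theorem symm_norm_le (Q : X →L[ℝ] X →L[ℝ] ℝ) (hs : ∀ u v, Q u v = Q v u) (c : ℝ) (hc : 0 ≤ c)
    (h : ∀ u, ‖u‖ ≤ 1 → |Q u u| ≤ c) : ‖Q‖ ≤ 2 * c := by
  have hd : ∀ w : X, |Q w w| ≤ c * ‖w‖ ^ 2 := by
    intro w
    by_cases hw : w = 0
    · simp [hw]
    have hw' : 0 < ‖w‖ := norm_pos_iff.mpr hw
    have h1 := h (‖w‖⁻¹ • w) (by
      rw [norm_smul, norm_inv, norm_norm, inv_mul_cancel₀ hw'.ne'])
    have h0 : Q (‖w‖⁻¹ • w) (‖w‖⁻¹ • w) = ‖w‖⁻¹ * ‖w‖⁻¹ * Q w w := by
      simp only [map_smul, smul_apply, smul_eq_mul]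
      ring
    rw [h0, abs_mul, abs_of_pos (by positivity : 0 < ‖w‖⁻¹ * ‖w‖⁻¹)] at h1
    have h2 : |Q w w| = ‖w‖ ^ 2 * (‖w‖⁻¹ * ‖w‖⁻¹ * |Q w w|) := by
      field_simp
    rw [h2, mul_comm c]
    exact mul_le_mul_of_nonneg_left h1 (by positivity)
  refine ContinuousLinearMap.opNorm_le_of_unit_norm (by positivity) fun u hu => ?_
  refine ContinuousLinearMap.opNorm_le_of_unit_norm (by positivity) fun v hv => ?_
  have h4 : 4 * Q u v = Q (u + v) (u + v) - Q (u - v) (u - v) := by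
    simp only [map_add, map_sub, add_apply, sub_apply,
      hs v u]
    ring
  have ha := hd (u + v)
  have hb := hd (u - v)
  have hna : ‖u + v‖ ≤ 2 := by
    have := norm_add_le u v
    linarith
  have hnb : ‖u - v‖ ≤ 2 := by
    have := norm_sub_le u v
    linarith
  have ha2 : c * ‖u + v‖ ^ 2 ≤ c * 4 := by
    apply mul_le_mul_of_nonneg_left _ hc
    nlinarith [norm_nonneg (u + v)]
  have hb2 : c * ‖u - v‖ ^ 2 ≤ c * 4 := by
    apply mul_le_mul_of_nonneg_left _ hc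
    nlinarith [norm_nonneg (u - v)]
  rw [Real.norm_eq_abs, abs_le]
  rw [abs_le] at ha hb
  constructor <;> linarith [ha.1, ha.2, hb.1, hb.2]

end C2N
end

section

set_option autoImplicit false

/-!
`φ s = q (x + s h) - s T x h` has derivative `T (x+sh) h - T x h` at every `s ∈ [0,1]` (by `hd` at `x + s h`), of norm `≤ ε‖h‖`
for `‖h‖` small; mean value inequality.
-/

namespace C2N

open Filter Topology Set MeasureTheory

variable {X : Type*} [NormedAddCommGroup X] [NormedSpace ℝ X]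
variable {E : Type*} [NormedAddCommGroup E] [NormedSpace ℝ E]

/-- if the strong derivative is norm continuous at `x`, it is the Frechet derivative -/
theorem strong_hasFDerivAt {q : X → E} {T : X → X →L[ℝ] E}
    (hd : ∀ x u, Tendsto (fun s : ℝ => s⁻¹ • (q (x + s • u) - q x)) (𝓝[≠] 0) (𝓝 (T x u)))
    (x : X) (hc : ContinuousAt T x) : HasFDerivAt q (T x) x := by
  rw [hasFDerivAt_iff_isLittleO_nhds_zero, Asymptotics.isLittleO_iff]
  intro ε hε
  rw [Metric.continuousAt_iff] at hc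
  obtain ⟨δ, hδ, hδ'⟩ := hc ε hε
  filter_upwards [Metric.ball_mem_nhds (0 : X) hδ] with h hh
  rw [mem_ball_zero_iff] at hh
  have key : ∀ s ∈ Icc (0 : ℝ) 1, HasDerivWithinAt (fun s : ℝ => q (x + s • h) - s • T x h)
      (T (x + s • h) h - T x h) (Icc 0 1) s := by
    intro s _
    apply HasDerivAt.hasDerivWithinAt
    refine HasDerivAt.sub ?_ ?_
    · rw [hasDerivAt_iff_tendsto_slope_zero]
      have := hd (x + s • h) h
      refine this.congr (fun t => ?_)
      rw [add_smul, ← add_assoc]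
    · simpa using (hasDerivAt_id s).smul_const (T x h)
  have bound : ∀ s ∈ Ico (0 : ℝ) 1, ‖T (x + s • h) h - T x h‖ ≤ ε * ‖h‖ := by
    intro s hs
    rw [← ContinuousLinearMap.sub_apply]
    refine (ContinuousLinearMap.le_opNorm _ _).trans ?_
    gcongr
    have hd' : dist (x + s • h) x < δ := by
      rw [dist_eq_norm, add_sub_cancel_left, norm_smul, Real.norm_eq_abs, abs_of_nonneg hs.1]
      calc s * ‖h‖ ≤ 1 * ‖h‖ := by gcongr; exact hs.2.le
        _ < δ := by rw [one_mul]; exact hh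
    have := hδ' hd'
    rw [dist_eq_norm] at this
    exact this.le
  have := norm_image_sub_le_of_norm_deriv_le_segment_01' key bound
  simpa [sub_right_comm] using this

end C2N
end

section

set_option autoImplicit false

/-!
Section 11 of paper 371.  Difference quotients `D_s u = s⁻¹ (q (x + s u) - q x)` satisfy `‖D_s u - D_s u'‖ ≤ L‖u-u'‖`, so the limit exists
for all `u` (dense set of directions `y i`, Cauchy criterion).  Homogeneity: substitute.  Additivity: for `v = y i`,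
`‖D_s (u+v) - D_s u - D_s v‖ ≤ K |s|‖u‖ → 0` by `DirLip` (base points `x + s u` and `x`), then density in `v`.
Continuity in `x`: for `u = y i`, `‖T x u - T z u‖ ≤ K‖x-z‖` (limit of `DirLip`), for general `u` uniform approximation.
-/

namespace C2N

open Filter Topology Set MeasureTheory

variable {X : Type*} [NormedAddCommGroup X] [NormedSpace ℝ X]
variable {E : Type*} [NormedAddCommGroup E] [NormedSpace ℝ E]

/-- The strong derivative `T x u` exists in all directions, is bounded and linear in `u`, and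
continuous in `x`. -/
theorem exists_strong [CompleteSpace E] {L : ℝ} (hL : 0 ≤ L) {q : X → E}
    (hq : ∀ x z, ‖q x - q z‖ ≤ L * ‖x - z‖) {y : ℕ → X} (hy : DenseRange y)
    (hd : ∀ i, ∃ K, DirLip K q (y i)) :
    ∃ T : X → X →L[ℝ] E, (∀ x, ‖T x‖ ≤ L) ∧ (∀ u, Continuous fun x => T x u) ∧
      ∀ x u, Tendsto (fun s : ℝ => s⁻¹ • (q (x + s • u) - q x)) (𝓝[≠] 0) (𝓝 (T x u)) := by
  classical
  -- difference quotients are Lipschitz in the direction
  have hDL : ∀ (x u u' : X) (s : ℝ), s ≠ 0 →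
      ‖s⁻¹ • (q (x + s • u) - q x) - s⁻¹ • (q (x + s • u') - q x)‖ ≤ L * ‖u - u'‖ := by
    intro x u u' s hs
    have e : s⁻¹ • (q (x + s • u) - q x) - s⁻¹ • (q (x + s • u') - q x)
        = s⁻¹ • (q (x + s • u) - q (x + s • u')) := by
      rw [← smul_sub]; congr 1; abel
    rw [e, norm_smul, norm_inv, Real.norm_eq_abs]
    have h1 := hq (x + s • u) (x + s • u')
    have e2 : x + s • u - (x + s • u') = s • (u - u') := by rw [smul_sub]; abel
    rw [e2, norm_smul, Real.norm_eq_abs] at h1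
    have hs' : 0 < |s| := abs_pos.mpr hs
    calc |s|⁻¹ * ‖q (x + s • u) - q (x + s • u')‖ ≤ |s|⁻¹ * (L * (|s| * ‖u - u'‖)) := by
          gcongr
      _ = L * ‖u - u'‖ := by field_simp
  have hev : ∀ᶠ s : ℝ in 𝓝[≠] 0, s ≠ 0 := self_mem_nhdsWithin
  -- approximation of directions
  have happ : ∀ (u : X) (ε : ℝ), 0 < ε → ∃ i, L * ‖u - y i‖ < ε := by
    intro u ε hε
    have hL1 : 0 < L + 1 := by linarith
    obtain ⟨i, hi⟩ := hy.exists_dist_lt u (div_pos hε hL1)
    refine ⟨i, ?_⟩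
    rw [dist_eq_norm, lt_div_iff₀ hL1] at hi
    have := norm_nonneg (u - y i)
    nlinarith
  -- the limits exist
  have hex : ∀ x u, ∃ t : E, Tendsto (fun s : ℝ => s⁻¹ • (q (x + s • u) - q x)) (𝓝[≠] 0) (𝓝 t) := by
    intro x u
    rw [← cauchy_map_iff_exists_tendsto]
    rw [Metric.cauchy_iff]
    refine ⟨inferInstance, fun ε hε => ?_⟩
    obtain ⟨i, hi⟩ := happ u (ε / 4) (by linarith)
    obtain ⟨K, hK⟩ := hd i
    obtain ⟨t, ht⟩ := DirLip.deriv hq hK x
    rw [Metric.tendsto_nhds] at ht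
    have h1 : ∀ᶠ s : ℝ in 𝓝[≠] 0, dist (s⁻¹ • (q (x + s • u) - q x)) t < ε / 2 := by
      filter_upwards [ht (ε / 4) (by linarith), hev] with s hs hs0
      have h2 := hDL x u (y i) s hs0
      rw [← dist_eq_norm] at h2
      calc dist (s⁻¹ • (q (x + s • u) - q x)) t
          ≤ dist (s⁻¹ • (q (x + s • u) - q x)) (s⁻¹ • (q (x + s • y i) - q x))
            + dist (s⁻¹ • (q (x + s • y i) - q x)) t := dist_triangle _ _ _
        _ < ε / 2 := by linarith
    refine ⟨Metric.ball t (ε / 2), h1, ?_⟩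
    intro a ha b hb
    have ha' : dist a t < ε / 2 := ha
    have hb' : dist b t < ε / 2 := hb
    calc dist a b ≤ dist a t + dist t b := dist_triangle _ _ _
      _ < ε := by rw [dist_comm t b]; linarith
  choose T0 hT0 using hex
  have hlip : ∀ x u u', ‖T0 x u - T0 x u'‖ ≤ L * ‖u - u'‖ := by
    intro x u u'
    refine le_of_tendsto ((hT0 x u).sub (hT0 x u')).norm ?_
    filter_upwards [hev] with s hs
    exact hDL x u u' s hs
  have hcontu : ∀ x, Continuous (T0 x) := by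
    intro x
    refine (LipschitzWith.of_dist_le_mul (K := ⟨L, hL⟩) fun u u' => ?_).continuous
    rw [dist_eq_norm, dist_eq_norm]
    exact hlip x u u'
  have hzero : ∀ x, T0 x 0 = 0 := by
    intro x
    refine tendsto_nhds_unique (hT0 x 0) ?_
    simp
  have hbound : ∀ x u, ‖T0 x u‖ ≤ L * ‖u‖ := by
    intro x u
    have := hlip x u 0
    rwa [hzero, sub_zero, sub_zero] at this
  have hsmul : ∀ x (a : ℝ) u, T0 x (a • u) = a • T0 x u := by
    intro x a u
    by_cases ha : a = 0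
    · subst ha; rw [zero_smul, zero_smul, hzero]
    · refine tendsto_nhds_unique (hT0 x (a • u)) ?_
      have h1 : Tendsto (fun s : ℝ => s * a) (𝓝[≠] 0) (𝓝[≠] 0) := by
        rw [tendsto_nhdsWithin_iff]
        constructor
        · have : Tendsto (fun s : ℝ => s * a) (𝓝 0) (𝓝 (0 * a)) :=
            (continuous_id.mul continuous_const).tendsto 0
          rw [zero_mul] at this
          exact this.mono_left nhdsWithin_le_nhds
        · filter_upwards [hev] with s hs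
          exact mul_ne_zero hs ha
      have h2 := ((hT0 x u).comp h1).const_smul a
      refine h2.congr' ?_
      filter_upwards [hev] with s hs
      simp only [Function.comp]
      have e : a * (s * a)⁻¹ = s⁻¹ := by field_simp
      rw [smul_smul, e, mul_smul]
  have hadd1 : ∀ x u i, T0 x (u + y i) = T0 x u + T0 x (y i) := by
    intro x u i
    obtain ⟨K, hK⟩ := hd i
    have h1 := ((hT0 x (u + y i)).sub (hT0 x u)).sub (hT0 x (y i))
    have h2 : Tendsto (fun s : ℝ => s⁻¹ • (q (x + s • (u + y i)) - q x)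
        - s⁻¹ • (q (x + s • u) - q x) - s⁻¹ • (q (x + s • y i) - q x)) (𝓝[≠] 0) (𝓝 0) := by
      rw [tendsto_zero_iff_norm_tendsto_zero]
      have h3 : Tendsto (fun s : ℝ => K * |s| * ‖u‖) (𝓝[≠] 0) (𝓝 0) := by
        have : Tendsto (fun s : ℝ => K * |s| * ‖u‖) (𝓝 0) (𝓝 (K * |(0 : ℝ)| * ‖u‖)) :=
          ((continuous_const.mul continuous_abs).mul continuous_const).tendsto 0
        rw [abs_zero, mul_zero, zero_mul] at this
        exact this.mono_left nhdsWithin_le_nhds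
      refine squeeze_zero' (Eventually.of_forall fun s => norm_nonneg _) ?_ h3
      filter_upwards [hev] with s hs
      have e : s⁻¹ • (q (x + s • (u + y i)) - q x)
          - s⁻¹ • (q (x + s • u) - q x) - s⁻¹ • (q (x + s • y i) - q x)
          = s⁻¹ • (q (x + s • u + s • y i) - q (x + s • u) - (q (x + s • y i) - q x)) := by
        rw [← smul_sub, ← smul_sub]
        congr 1
        rw [smul_add, ← add_assoc]
        abel
      rw [e, norm_smul, norm_inv, Real.norm_eq_abs]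
      have h4 := hK (x + s • u) x s
      have e3 : x + s • u - x = s • u := by abel
      rw [e3, norm_smul, Real.norm_eq_abs] at h4
      have hs' : 0 < |s| := abs_pos.mpr hs
      calc |s|⁻¹ * ‖q (x + s • u + s • y i) - q (x + s • u) - (q (x + s • y i) - q x)‖
          ≤ |s|⁻¹ * (K * |s| * (|s| * ‖u‖)) := by gcongr
        _ = K * |s| * ‖u‖ := by field_simp
    have h5 := tendsto_nhds_unique h1 h2
    have h6 : T0 x (u + y i) = T0 x u + T0 x (y i) + (T0 x (u + y i) - T0 x u - T0 x (y i)) := by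
      abel
    rw [h6, h5, add_zero]
  have hadd : ∀ x u v, T0 x (u + v) = T0 x u + T0 x v := by
    intro x u v
    refine hy.induction_on (p := fun v => T0 x (u + v) = T0 x u + T0 x v) v ?_ (hadd1 x u)
    exact isClosed_eq ((hcontu x).comp (continuous_const.add continuous_id))
      (continuous_const.add (hcontu x))
  have hcontx : ∀ u, Continuous fun x => T0 x u := by
    intro u
    rw [Metric.continuous_iff]
    intro x ε hε
    obtain ⟨i, hi⟩ := happ u (ε / 3) (by linarith)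
    obtain ⟨K, hK⟩ := hd i
    have hKx : ∀ x z, ‖T0 x (y i) - T0 z (y i)‖ ≤ K * ‖x - z‖ := by
      intro x z
      refine le_of_tendsto ((hT0 x (y i)).sub (hT0 z (y i))).norm ?_
      filter_upwards [hev] with s hs
      rw [← smul_sub, norm_smul, norm_inv, Real.norm_eq_abs]
      have h4 := hK x z s
      have hs' : 0 < |s| := abs_pos.mpr hs
      calc |s|⁻¹ * ‖q (x + s • y i) - q x - (q (z + s • y i) - q z)‖
          ≤ |s|⁻¹ * (K * |s| * ‖x - z‖) := by gcongr
        _ = K * ‖x - z‖ := by field_simp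
    refine ⟨ε / (3 * (|K| + 1)), by positivity, fun z hz => ?_⟩
    rw [dist_eq_norm] at hz ⊢
    have h1 := hlip z u (y i)
    have h2 := hlip x u (y i)
    have h3 := hKx z x
    have h4 : K * ‖z - x‖ ≤ |K| * ‖z - x‖ := by gcongr; exact le_abs_self K
    have h5 : (|K| + 1) * ‖z - x‖ < ε / 3 := by
      have hK1 : 0 < |K| + 1 := by positivity
      have : ‖z - x‖ < ε / 3 / (|K| + 1) := by rw [div_div]; exact hz
      rwa [lt_div_iff₀ hK1, mul_comm] at this
    have h6 : |K| * ‖z - x‖ ≤ (|K| + 1) * ‖z - x‖ := by gcongr; linarith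
    calc ‖T0 z u - T0 x u‖
        = ‖(T0 z u - T0 z (y i)) + (T0 z (y i) - T0 x (y i)) - (T0 x u - T0 x (y i))‖ := by
          congr 1; abel
      _ ≤ ‖(T0 z u - T0 z (y i)) + (T0 z (y i) - T0 x (y i))‖ + ‖T0 x u - T0 x (y i)‖ :=
          norm_sub_le _ _
      _ ≤ ‖T0 z u - T0 z (y i)‖ + ‖T0 z (y i) - T0 x (y i)‖ + ‖T0 x u - T0 x (y i)‖ := by
          gcongr; exact norm_add_le _ _
      _ < ε := by linarith
  refine ⟨fun x => LinearMap.mkContinuous
    { toFun := T0 x, map_add' := hadd x, map_smul' := fun a u => hsmul x a u } L (hbound x),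
    fun x => LinearMap.mkContinuous_norm_le _ hL _, fun u => ?_, fun x u => ?_⟩
  · exact hcontx u
  · exact hT0 x u

end C2N
end

section

set_option autoImplicit false

/-!
Section 11 of paper 371.  Otherwise there are `c > 0`, `x_k → x0`, `‖h_k‖ ≤ 1`, `Q_k = T x_k - T x0`, `|Q_k h_k h_k| ≥ c` (`symm_norm_le`).
`U = hyperfilter ℕ`, `h` the weak limit of `h_k` (`hwl`), `u_k = h_k - h` weakly null, `‖u_k‖ ≤ 2`.
`Q_k h_k h_k = Q_k h h_k + Q_k h u_k + Q_k u_k u_k` (symmetry), `‖Q_k h‖ → 0`.  `wlim_zero_near_tail`: `u_k = z_k + v_k`,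
`z_k ∈ tail g M`, `‖v_k‖ → 0`; `|Q_k u_k u_k| ≤ |Q_k z_k z_k| + O(‖v_k‖)`, `|Q_k z_k z_k| ≤ max (T x_k z_k z_k, T x0 z_k z_k) ≤ e‖z_k‖^2 ≤ 9e`
eventually.  Choose `e = c/36`.
-/

namespace C2N

open Filter Topology Set MeasureTheory

variable {X : Type*} [NormedAddCommGroup X] [NormedSpace ℝ X]
variable {E : Type*} [NormedAddCommGroup E] [NormedSpace ℝ E]

/-- Section 11, norm continuity of the second derivative -/
theorem strong_norm_continuous (hwl : WLimExists X) {g : ℕ → X →L[ℝ] ℝ} {L : ℝ}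
    {T : X → X →L[ℝ] X →L[ℝ] ℝ} (hTL : ∀ x, ‖T x‖ ≤ L) (hT : ∀ u, Continuous fun x => T x u)
    (hsymm : ∀ x u v, T x u v = T x v u) (hpos : ∀ x u, 0 ≤ T x u u) (x0 : X)
    (htail : ∀ e : ℝ, 0 < e → ∃ (M : ℕ) (δ : ℝ), 0 < δ ∧ ∀ x, ‖x - x0‖ < δ →
      ∀ z ∈ tail g M, T x z z ≤ e * ‖z‖ ^ 2) :
    ContinuousAt T x0 := by
  refine (Metric.continuousAt_iff (α := X) (β := X →L[ℝ] X →L[ℝ] ℝ)).mpr ?_
  by_contra hcon
  push Not at hcon
  obtain ⟨ε, hε, hx⟩ := hcon
  choose x hx1 hx2 using fun k : ℕ => hx (1 / ((k : ℝ) + 1)) (by positivity)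
  set Q : ℕ → X →L[ℝ] X →L[ℝ] ℝ := fun k => T (x k) - T x0 with hQdef
  have hQap : ∀ k u v, Q k u v = T (x k) u v - T x0 u v := fun k u v => by simp [hQdef]
  have hQs : ∀ k u v, Q k u v = Q k v u := by
    intro k u v
    rw [hQap, hQap, hsymm (x k) u v, hsymm x0 u v]
  have hQn : ∀ k, ε ≤ ‖Q k‖ := by
    intro k
    have h1 := hx2 k
    have h2 : dist (T (x k)) (T x0) = ‖T (x k) - T x0‖ :=
      @dist_eq_norm (X →L[ℝ] X →L[ℝ] ℝ) _ (T (x k)) (T x0)
    rw [h2] at h1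
    exact h1
  have hex : ∀ k, ∃ h : X, ‖h‖ ≤ 1 ∧ ε / 3 < |Q k h h| := by
    intro k
    by_contra hc
    push Not at hc
    have h1 := symm_norm_le (Q k) (hQs k) (ε / 3) (by positivity) hc
    have h2 := hQn k
    linarith
  choose h hh1 hh2 using hex
  set U : Ultrafilter ℕ := hyperfilter ℕ with hU
  have hUtop : (U : Filter ℕ) ≤ atTop := by
    rw [hU]
    exact Nat.hyperfilter_le_atTop
  obtain ⟨h0, hw⟩ := hwl U h 1 hh1
  have hu0 : WLim U (fun k => h k - h0) 0 := by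
    intro f
    have h1 := (hw f).sub_const (f h0)
    simpa using h1
  have hL0 : 0 ≤ L := le_trans (norm_nonneg (T x0)) (hTL x0)
  set R : ℝ := ‖h0‖ + 2 with hR
  have hRpos : 0 < R := by positivity
  obtain ⟨M, δ, hδ, htl⟩ := htail (ε / (12 * R ^ 2)) (by positivity)
  obtain ⟨z, hz, hzv⟩ := wlim_zero_near_tail hu0 g M
  -- the convergence of the points
  have hxt : Tendsto x atTop (𝓝 x0) := by
    rw [tendsto_iff_dist_tendsto_zero]
    refine squeeze_zero (fun k => dist_nonneg) (fun k => (hx1 k).le) ?_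
    exact tendsto_one_div_add_atTop_nhds_zero_nat
  have hxU : Tendsto x U (𝓝 x0) := hxt.mono_left hUtop
  have hQh : Tendsto (fun k => ‖Q k h0‖) U (𝓝 0) := by
    have h1 : Tendsto (fun k => T (x k) h0) U (𝓝 (T x0 h0)) := ((hT h0).tendsto x0).comp hxU
    have h2 := (h1.sub_const (T x0 h0)).norm
    simpa [hQdef] using h2
  have hQb : ∀ k, ‖Q k‖ ≤ 2 * L := by
    intro k
    have h1 : ‖Q k‖ ≤ ‖T (x k)‖ + ‖T x0‖ := norm_sub_le (T (x k)) (T x0)
    linarith [hTL (x k), hTL x0]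
  have hr : Tendsto (fun k => ‖h k - z k - h0‖) U (𝓝 0) := by
    refine hzv.congr (fun k => ?_)
    congr 1
    abel
  have hQr : Tendsto (fun k => ‖Q k (h k - z k)‖) U (𝓝 0) := by
    have h1 : Tendsto (fun k => ‖Q k h0‖ + 2 * L * ‖h k - z k - h0‖) U (𝓝 (0 + 2 * L * 0)) :=
      hQh.add (hr.const_mul (2 * L))
    rw [mul_zero, add_zero] at h1
    refine squeeze_zero (fun k => norm_nonneg _) (fun k => ?_) h1
    have e1 : Q k (h k - z k) = Q k h0 + Q k (h k - z k - h0) := by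
      rw [← map_add]
      congr 1
      abel
    rw [e1]
    refine (norm_add_le _ _).trans ?_
    have h2 := (Q k).le_opNorm (h k - z k - h0)
    have h3 := mul_le_mul_of_nonneg_right (hQb k) (norm_nonneg (h k - z k - h0))
    linarith
  have ev1 : ∀ᶠ k in (U : Filter ℕ), ‖Q k (h k - z k)‖ < ε / (12 * R) :=
    hQr.eventually_lt_const (by positivity)
  have ev2 : ∀ᶠ k in (U : Filter ℕ), ‖h k - z k - h0‖ < 1 := hr.eventually_lt_const one_pos
  have ev3 : ∀ᶠ k in (U : Filter ℕ), ‖x k - x0‖ < δ := by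
    have h1 : Tendsto (fun k => ‖x k - x0‖) U (𝓝 0) := by
      have h2 := (hxU.sub_const x0).norm
      simpa using h2
    exact h1.eventually_lt_const hδ
  obtain ⟨k, ⟨hk1, hk2⟩, hk3⟩ := ((ev1.and ev2).and ev3).exists
  -- the estimate
  set r : X := h k - z k with hrdef
  have hhr : h k = z k + r := by rw [hrdef]; abel
  have hrn : ‖r‖ ≤ R - 1 := by
    have e1 : r = h0 + (r - h0) := by abel
    rw [e1]
    refine (norm_add_le _ _).trans ?_
    rw [hR]
    linarith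
  have hzn : ‖z k‖ ≤ R := by
    have e1 : z k = h k - r := by rw [hrdef]; abel
    rw [e1]
    refine (norm_sub_le _ _).trans ?_
    linarith [hh1 k]
  have hexp : Q k (h k) (h k) = Q k (z k) (z k) + 2 * Q k r (z k) + Q k r r := by
    have e1 : Q k (z k + r) = Q k (z k) + Q k r := map_add _ _ _
    have e2 : (Q k (z k) + Q k r) (z k + r) =
        Q k (z k) (z k + r) + Q k r (z k + r) := rfl
    conv_lhs => rw [hhr]
    rw [e1, e2, map_add, map_add, hQs k (z k) r]
    ring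
  have hzz : |Q k (z k) (z k)| ≤ ε / 12 := by
    rw [hQap]
    have a1 := hpos (x k) (z k)
    have a2 := hpos x0 (z k)
    have a3 := htl (x k) hk3 (z k) (hz k)
    have a4 := htl x0 (by simpa using hδ) (z k) (hz k)
    have a5 : ε / (12 * R ^ 2) * ‖z k‖ ^ 2 ≤ ε / 12 := by
      have a6 : ‖z k‖ ^ 2 ≤ R ^ 2 := pow_le_pow_left₀ (norm_nonneg _) hzn 2
      have a7 := mul_le_mul_of_nonneg_left a6 (show 0 ≤ ε / (12 * R ^ 2) by positivity)
      have a8 : ε / (12 * R ^ 2) * R ^ 2 = ε / 12 := by field_simp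
      linarith
    rw [abs_le]
    constructor <;> linarith
  have hrz : |Q k r (z k)| ≤ ε / 12 := by
    have a1 := (Q k r).le_opNorm (z k)
    rw [Real.norm_eq_abs] at a1
    have a2 : ‖Q k r‖ * ‖z k‖ ≤ ε / (12 * R) * R :=
      mul_le_mul hk1.le hzn (norm_nonneg _) (by positivity)
    have a3 : ε / (12 * R) * R = ε / 12 := by field_simp
    linarith
  have hrr : |Q k r r| ≤ ε / 12 := by
    have a1 := (Q k r).le_opNorm r
    rw [Real.norm_eq_abs] at a1
    have a2 : ‖Q k r‖ * ‖r‖ ≤ ε / (12 * R) * R :=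
      mul_le_mul hk1.le (by linarith) (norm_nonneg _) (by positivity)
    have a3 : ε / (12 * R) * R = ε / 12 := by field_simp
    linarith
  have hfin := hh2 k
  rw [hexp] at hfin
  have b1 := abs_add_three (Q k (z k) (z k)) (2 * Q k r (z k)) (Q k r r)
  rw [abs_mul, abs_two] at b1
  linarith

end C2N
end

section

set_option autoImplicit false

/-!
8.3 of paper 371.  `val n' - part n = γ f (x n' - x n) - ∑_{n ≤ l < n'} (dd^2 + A^2/16) + Th n' ≤
τ‖x n' - x n‖ - E2 + τ^2/32`, where `τ = γ resN (Z j n) f`, `E2 = bet n' - bet n`, `‖x n' - x n‖^2 ≤ 9 C E2` (`Chain.est`,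
`Chain.diff_mem`), `Th n' ≤ (γ resN (Z j n') f)^2/32 ≤ τ^2/32`.  First: `τ a ≤ (9C/4) τ^2 + a^2/(9C)`.
Second: if `n = n'` clear; otherwise `E2 ≥ dd^2 ≥ 9Cτ^2`, so `(τ a)^2 ≤ τ^2 9 C E2 ≤ E2^2`.
-/

namespace C2N

open Filter Topology Set

variable {X : Type*} [NormedAddCommGroup X] [NormedSpace ℝ X]
variable {C B R : ℝ} {g : ℕ → X →L[ℝ] ℝ}

namespace Sys

private theorem rest_aux (S : Sys C g B R) {γ : ℝ} (hγ : 0 ≤ γ) {n n' : ℕ} (hn : n ≤ n')
    {j : ℕ → ℕ} {x : ℕ → X} (h : S.Adm n' j x) (f : X →L[ℝ] ℝ) :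
    S.val γ n' j x f - S.part γ n j x f ≤ γ * resN (S.Z j n) f * ‖x n' - x n‖ -
      (S.bet n' j - S.bet n j) + (γ * resN (S.Z j n) f) ^ 2 / 32 := by
  have hsum : ∀ i, n ≤ i → S.bet i j - S.bet n j ≤
      (∑ l ∈ Finset.range i, (S.dd j l ^ 2 + S.A (x (l + 1) - S.c j l) ^ 2 / 16)) -
      ∑ l ∈ Finset.range n, (S.dd j l ^ 2 + S.A (x (l + 1) - S.c j l) ^ 2 / 16) := by
    intro i hi
    induction i, hi using Nat.le_induction with
    | base => simp
    | succ i hi ih =>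
      rw [Finset.sum_range_succ, bet_succ]
      have : 0 ≤ S.A (x (i + 1) - S.c j i) ^ 2 / 16 := by positivity
      linarith
  have h1 := hsum n' hn
  have h2 : f (x n') - f (x n) ≤ resN (S.Z j n) f * ‖x n' - x n‖ := by
    rw [← map_sub]
    exact (le_abs_self _).trans (abs_le_resN f (h.1.diff_mem hn))
  have h3 : γ * (f (x n') - f (x n)) ≤ γ * (resN (S.Z j n) f * ‖x n' - x n‖) :=
    mul_le_mul_of_nonneg_left h2 hγ
  have h4 : S.Th γ n' j f ≤ (γ * resN (S.Z j n) f) ^ 2 / 32 := by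
    refine (S.Th_le_sq hγ n' j f).trans ?_
    have h5 : resN (S.Z j n') f ≤ resN (S.Z j n) f :=
      resN_mono (tail_anti (S.m_mono n n' j hn)) f
    have h6 : 0 ≤ resN (S.Z j n') f := resN_nonneg _ _
    gcongr
  unfold val part
  linarith

/-- 8.3 of paper 371, first part -/
theorem rest_le (S : Sys C g B R) {γ : ℝ} (hγ : 0 ≤ γ) {n n' : ℕ} (hn : n ≤ n') {j : ℕ → ℕ}
    {x : ℕ → X} (h : S.Adm n' j x) (f : X →L[ℝ] ℝ) :
    S.val γ n' j x f - S.part γ n j x f ≤ 3 * C * (γ * resN (S.Z j n) f) ^ 2 := by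
  have hC : 1 ≤ C := S.twoS.one_le
  have h1 := rest_aux S hγ hn h f
  have h2 := h.1.est hn
  set τ : ℝ := γ * resN (S.Z j n) f with hτ
  set a : ℝ := ‖x n' - x n‖ with ha
  set E2 : ℝ := S.bet n' j - S.bet n j with hE2
  have hτ0 : 0 ≤ τ := mul_nonneg hγ (resN_nonneg _ _)
  have h3 : τ * a ≤ 9 * C / 4 * τ ^ 2 + a ^ 2 / (9 * C) := by
    have h4 : a ^ 2 / (9 * C) = (a / (3 * C)) ^ 2 * C := by field_simp; ring
    have h5 : a = 3 * C * (a / (3 * C)) := by field_simp
    rw [h4]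
    nth_rewrite 1 [h5]
    nlinarith [mul_nonneg (show (0 : ℝ) ≤ C by linarith) (sq_nonneg (3 / 2 * τ - a / (3 * C)))]
  have h4 : a ^ 2 / (9 * C) ≤ E2 := by
    rw [div_le_iff₀ (by positivity)]
    linarith
  have h5 : τ ^ 2 ≤ C * τ ^ 2 := by nlinarith [sq_nonneg τ]
  nlinarith

/-- 8.3 of paper 371, second part -/
theorem rest_le' (S : Sys C g B R) {γ : ℝ} (hγ : 0 ≤ γ) {n n' : ℕ} (hn : n ≤ n') {j : ℕ → ℕ}
    {x : ℕ → X} (h : S.Adm n' j x) (f : X →L[ℝ] ℝ)
    (hsmall : 9 * C * (γ * resN (S.Z j n) f) ^ 2 ≤ S.dd j n ^ 2) :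
    S.val γ n' j x f - S.part γ n j x f ≤ (γ * resN (S.Z j n) f) ^ 2 / 32 := by
  have hC : 1 ≤ C := S.twoS.one_le
  have h1 := rest_aux S hγ hn h f
  have h2 := h.1.est hn
  rcases hn.eq_or_lt with rfl | hlt
  · simp only [sub_self, norm_zero, mul_zero, zero_add] at h1
    exact h1
  have hE : S.dd j n ^ 2 ≤ S.bet n' j - S.bet n j := by
    have h1 := S.bet_mono (show n + 1 ≤ n' from hlt) j
    rw [bet_succ] at h1
    linarith
  set τ : ℝ := γ * resN (S.Z j n) f with hτ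
  set a : ℝ := ‖x n' - x n‖ with ha
  set E2 : ℝ := S.bet n' j - S.bet n j with hE2
  have hτ0 : 0 ≤ τ := mul_nonneg hγ (resN_nonneg _ _)
  have ha0 : 0 ≤ a := norm_nonneg _
  have hE0 : 0 ≤ E2 := (sq_nonneg _).trans hE
  have h3 : τ * a ≤ E2 := by
    have h4 : (τ * a) ^ 2 ≤ E2 ^ 2 := by
      calc (τ * a) ^ 2 = τ ^ 2 * a ^ 2 := by ring
        _ ≤ τ ^ 2 * (9 * C * E2) := by gcongr
        _ = (9 * C * τ ^ 2) * E2 := by ring
        _ ≤ E2 * E2 := by
          refine mul_le_mul_of_nonneg_right (hsmall.trans hE) hE0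
        _ = E2 ^ 2 := by ring
    exact abs_le_of_sq_le_sq' h4 hE0 |>.2
  linarith

end Sys

end C2N
end

section

set_option autoImplicit false

/-!
`contDiffOn_succ_iff_fderiv_of_isOpen` (or `contDiffOn_succ_iff_hasFDerivWithinAt`) twice.
-/

namespace C2N

open Filter Topology Set MeasureTheory

variable {X : Type*} [NormedAddCommGroup X] [NormedSpace ℝ X]
variable {E : Type*} [NormedAddCommGroup E] [NormedSpace ℝ E]

/-- `C^1` on an open set from a continuous derivative -/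
private theorem I2h_one {F : Type*} [NormedAddCommGroup F] [NormedSpace ℝ F] {q : X → F}
    {T : X → X →L[ℝ] F} {s : Set X} (hs : IsOpen s)
    (h2 : ∀ x ∈ s, HasFDerivAt q (T x) x) (h3 : ContinuousOn T s) : ContDiffOn ℝ 1 q s := by
  have h : ContDiffOn ℝ (0 + 1) q s := by
    rw [contDiffOn_succ_iff_fderiv_of_isOpen hs]
    refine ⟨fun x hx => (h2 x hx).differentiableAt.differentiableWithinAt, by simp, ?_⟩
    rw [contDiffOn_zero]
    exact h3.congr fun x hx => (h2 x hx).fderiv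
  simpa using h

/-- `C^2` on an open set from first and second derivatives -/
theorem contDiffOn_two {G : X → ℝ} {q : X → X →L[ℝ] ℝ} {T : X → X →L[ℝ] X →L[ℝ] ℝ} {r : ℝ}
    (h1 : ∀ x, HasFDerivAt G (q x) x) (h2 : ∀ x ∈ Metric.ball (0 : X) r, HasFDerivAt q (T x) x)
    (h3 : ContinuousOn T (Metric.ball (0 : X) r)) : ContDiffOn ℝ 2 G (Metric.ball (0 : X) r) := by
  have hq : ContDiffOn ℝ 1 q (Metric.ball (0 : X) r) := I2h_one Metric.isOpen_ball h2 h3
  have h : ContDiffOn ℝ (1 + 1) G (Metric.ball (0 : X) r) := by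
    rw [contDiffOn_succ_iff_fderiv_of_isOpen Metric.isOpen_ball]
    refine ⟨fun x _ => (h1 x).differentiableAt.differentiableWithinAt, by simp, ?_⟩
    exact hq.congr fun x _ => (h1 x).fderiv
  have e : (1 + 1 : WithTop ℕ∞) = 2 := by norm_num
  rwa [e] at h

end C2N
end
end
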