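import Pool.Agent.Lib.MP_55041d_an.h32b.I1h
import Pool.Agent.Lib.MP_55041d_an.h32b.I2h
import Pool.Agent.Lib.MP_55041d_an.h32b.F1a
import Pool.Agent.Lib.MP_55041d_an.h32b.A3
import Pool.Agent.Lib.MP_55041d_an.h32b.D1
import Pool.Agent.Lib.MP_55041d_an.h32b.B2
import Pool.Agent.Lib.MP_55041d_an.h32b.F1

section

set_option autoImplicit false

namespace C2N

open Filter Topology Set MeasureTheory

variable {X : Type*} [NormedAddCommGroup X] [NormedSpace ℝ X]
variable {E : Type*} [NormedAddCommGroup E] [NormedSpace ℝ E]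

/-- Section 11, second part -/
theorem contDiffOn_of_TS [CompleteSpace X] (hwl : WLimExists X) {L : ℝ} (hL : 0 < L) {G : X → ℝ}
    {q : X → X →L[ℝ] ℝ} (h : Quad L G q) {g : ℕ → X →L[ℝ] ℝ} {r : ℝ} (hTS : TS g G r) {y : ℕ → X}
    (hy : DenseRange y) (hd : ∀ i, ∃ K, DirLip K q (y i)) :
    ContDiffOn ℝ 2 G (Metric.ball (0 : X) r) := by
  obtain ⟨T, hT1, hT2, hT3⟩ := exists_strong (L := 2 * L) (by positivity) (h.lip hL.le) hy hd
  have hcont : ∀ x ∈ Metric.ball (0 : X) r, ContinuousAt T x := fun x hx =>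
    strong_norm_continuous hwl hT1 hT2 (strong_symm hL.le h hT2 hT3) (strong_nonneg h hT3) x
      (strong_tail h hTS hT3 x (mem_ball_zero_iff.mp hx))
  exact contDiffOn_two (fun x => h.hasFDerivAt hL.le x)
    (fun x hx => strong_hasFDerivAt hT3 x (hcont x hx))
    (fun x hx => (hcont x hx).continuousWithinAt)

end C2N
end

section

set_option autoImplicit false

/-!
8.1 of paper 371.  `γ f (x n) ≤ γ R‖f‖` (`Adm.bound`), `Th ≤ (γ resN) dd/2 ≤ γ‖f‖/16` (`theta_le_lin`, `dd_le`,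
`resN_le_norm`), the sum is `≥ bet`.  Lipschitz: `theta_lip`, `abs_resN_sub_le`.  Convexity: `theta_mono` and
`theta_convex` with `resN ((1/2)(f+f')) ≤ (resN f + resN f')/2`.
-/

namespace C2N

open Filter Topology Set

variable {X : Type*} [NormedAddCommGroup X] [NormedSpace ℝ X]
variable {C B R : ℝ} {g : ℕ → X →L[ℝ] ℝ}

namespace Sys

/-- upper bound for values -/
theorem val_le (S : Sys C g B R) {γ : ℝ} (hγ : 0 ≤ γ) {n : ℕ} {j : ℕ → ℕ} {x : ℕ → X}
    (h : S.Adm n j x) (f : X →L[ℝ] ℝ) :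
    S.val γ n j x f ≤ γ * (R + 1) * ‖f‖ - S.bet n j := by
  have hb := h.bound le_rfl
  have h1 : f (x n) ≤ ‖f‖ * R := by
    calc f (x n) ≤ |f (x n)| := le_abs_self _
      _ ≤ ‖f‖ * ‖x n‖ := by
        have := f.le_opNorm (x n)
        rwa [Real.norm_eq_abs] at this
      _ ≤ ‖f‖ * R := mul_le_mul_of_nonneg_left hb (norm_nonneg _)
  have h2 : S.bet n j ≤ ∑ l ∈ Finset.range n, (S.dd j l ^ 2 + S.A (x (l + 1) - S.c j l) ^ 2 / 16) := by
    rw [bet_eq]
    exact Finset.sum_le_sum fun l _ => by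
      have := sq_nonneg (S.A (x (l + 1) - S.c j l))
      linarith
  have h3 : S.Th γ n j f ≤ γ * ‖f‖ := by
    have h4 : S.Th γ n j f ≤ (γ * resN (S.Z j n) f) * S.dd j n / 2 :=
      theta_le_lin (S.dd_pos j n).le (mul_nonneg hγ (resN_nonneg _ _))
    have h5 : γ * resN (S.Z j n) f ≤ γ * ‖f‖ := mul_le_mul_of_nonneg_left (resN_le_norm _ _) hγ
    have h6 := S.dd_le j n
    have h7 := (S.dd_pos j n).le
    have h8 : 0 ≤ γ * ‖f‖ := mul_nonneg hγ (norm_nonneg _)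
    have h9 : (γ * resN (S.Z j n) f) * S.dd j n ≤ (γ * ‖f‖) * 1 :=
      mul_le_mul h5 (by linarith) h7 h8
    linarith
  have h4 := mul_le_mul_of_nonneg_left h1 hγ
  unfold val part
  have h5 : γ * (R + 1) * ‖f‖ = γ * (‖f‖ * R) + γ * ‖f‖ := by ring
  linarith

/-- Lipschitz estimate for values -/
theorem val_lip (S : Sys C g B R) {γ : ℝ} (hγ : 0 ≤ γ) {n : ℕ} {j : ℕ → ℕ} {x : ℕ → X}
    (h : S.Adm n j x) (f f' : X →L[ℝ] ℝ) :
    S.val γ n j x f ≤ S.val γ n j x f' + γ * (R + 1) * ‖f - f'‖ := by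
  have hb := h.bound le_rfl
  have h1 : f (x n) ≤ f' (x n) + ‖f - f'‖ * R := by
    have h2 : (f - f') (x n) ≤ ‖f - f'‖ * R := by
      calc (f - f') (x n) ≤ |(f - f') (x n)| := le_abs_self _
        _ ≤ ‖f - f'‖ * ‖x n‖ := by
          have := (f - f').le_opNorm (x n)
          rwa [Real.norm_eq_abs] at this
        _ ≤ ‖f - f'‖ * R := mul_le_mul_of_nonneg_left hb (norm_nonneg _)
    rw [ContinuousLinearMap.sub_apply] at h2
    linarith
  have h3 : S.Th γ n j f ≤ S.Th γ n j f' + γ * ‖f - f'‖ := by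
    have h4 := theta_lip (S.dd_pos j n).le (mul_nonneg hγ (resN_nonneg (S.Z j n) f))
      (mul_nonneg hγ (resN_nonneg (S.Z j n) f'))
    have h5 : |γ * resN (S.Z j n) f - γ * resN (S.Z j n) f'| ≤ γ * ‖f - f'‖ := by
      rw [← mul_sub, abs_mul, abs_of_nonneg hγ]
      exact mul_le_mul_of_nonneg_left (abs_resN_sub_le _ _ _) hγ
    have h6 := S.dd_le j n
    have h7 := (S.dd_pos j n).le
    have h8 : 0 ≤ γ * ‖f - f'‖ := mul_nonneg hγ (norm_nonneg _)
    have h9 : S.dd j n / 2 * |γ * resN (S.Z j n) f - γ * resN (S.Z j n) f'| ≤ 1 * (γ * ‖f - f'‖) :=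
      mul_le_mul (by linarith) h5 (abs_nonneg _) zero_le_one
    have h10 := (le_abs_self _).trans h4
    unfold Th
    linarith
  have h4 := mul_le_mul_of_nonneg_left h1 hγ
  unfold val part
  have h5 : γ * (R + 1) * ‖f - f'‖ = γ * (‖f - f'‖ * R) + γ * ‖f - f'‖ := by ring
  rw [mul_add] at h4
  linarith

/-- midpoint convexity of values -/
theorem val_convex (S : Sys C g B R) {γ : ℝ} (hγ : 0 ≤ γ) (n : ℕ) (j : ℕ → ℕ) (x : ℕ → X)
    (f f' : X →L[ℝ] ℝ) :
    S.val γ n j x ((1 / 2 : ℝ) • (f + f')) ≤ (S.val γ n j x f + S.val γ n j x f') / 2 := by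
  have h1 : resN (S.Z j n) ((1 / 2 : ℝ) • (f + f')) ≤
      (resN (S.Z j n) f + resN (S.Z j n) f') / 2 := by
    rw [resN_smul, abs_of_pos (by norm_num : (0 : ℝ) < 1 / 2)]
    have := resN_add_le (S.Z j n) f f'
    linarith
  have h2 : S.Th γ n j ((1 / 2 : ℝ) • (f + f')) ≤ (S.Th γ n j f + S.Th γ n j f') / 2 := by
    unfold Th
    calc theta (S.dd j n) (γ * resN (S.Z j n) ((1 / 2 : ℝ) • (f + f')))
        ≤ theta (S.dd j n) ((γ * resN (S.Z j n) f + γ * resN (S.Z j n) f') / 2) := by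
          refine theta_mono (S.dd_pos j n).le (mul_nonneg hγ (resN_nonneg _ _)) ?_
          have := mul_le_mul_of_nonneg_left h1 hγ
          linarith
      _ ≤ _ := theta_convex (S.dd_pos j n).le (mul_nonneg hγ (resN_nonneg _ _))
          (mul_nonneg hγ (resN_nonneg _ _))
  unfold val part
  rw [ContinuousLinearMap.smul_apply, ContinuousLinearMap.add_apply, smul_eq_mul]
  linarith

end Sys

end C2N
end

section

set_option autoImplicit false

namespace C2N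

open Filter Topology Set

variable {X : Type*} [NormedAddCommGroup X] [NormedSpace ℝ X]

/-- weak lower semicontinuity of the Kadec norm, upper bound version -/
theorem Kadec.lsc_le {A : X → ℝ} (hA : Kadec A) {U : Ultrafilter ℕ} {u : ℕ → X} {a c : X} {r : ℝ}
    (h : WLim U u a) (hr : ∀ᶠ k in (U : Filter ℕ), A (u k - c) ≤ r) : A (a - c) ≤ r := by
  obtain ⟨l, h0, hl, ht⟩ := exists_ulim (U := U) (r := fun k => A (u k - c)) (a := 0) (b := r)
    (hr.mono fun k hk => ⟨hA.nonneg _, hk⟩)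
  exact (hA.lsc U _ _ l (h.sub (WLim.const c)) ht).trans hl

end C2N
end

section

set_option autoImplicit false

namespace C2N

open Filter Topology Set

variable {X : Type*} [NormedAddCommGroup X] [NormedSpace ℝ X]
variable {C B R : ℝ} {g : ℕ → X →L[ℝ] ℝ}

namespace Sys

theorem bddAbove (S : Sys C g B R) {γ : ℝ} (hγ : 0 ≤ γ) (f : X →L[ℝ] ℝ) :
    BddAbove {v | ∃ n j x, S.Adm n j x ∧ v = S.val γ n j x f} := by
  refine ⟨γ * (R + 1) * ‖f‖, ?_⟩
  rintro v ⟨n, j, x, h, rfl⟩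
  linarith [S.val_le hγ h f, S.bet_nonneg n j]

theorem le_Sf (S : Sys C g B R) {γ : ℝ} (hγ : 0 ≤ γ) {n : ℕ} {j : ℕ → ℕ} {x : ℕ → X}
    (h : S.Adm n j x) (f : X →L[ℝ] ℝ) : S.val γ n j x f ≤ S.Sf γ f :=
  le_csSup (S.bddAbove hγ f) ⟨n, j, x, h, rfl⟩

theorem Sf_le (S : Sys C g B R) {γ : ℝ} {f : X →L[ℝ] ℝ} {M : ℝ}
    (h : ∀ n j x, S.Adm n j x → S.val γ n j x f ≤ M) : S.Sf γ f ≤ M := by
  refine csSup_le ⟨_, 0, fun _ => 0, fun _ => 0, S.adm_zero _, rfl⟩ ?_
  rintro v ⟨n, j, x, hx, rfl⟩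
  exact h n j x hx

theorem exists_near_Sf (S : Sys C g B R) (γ : ℝ) (f : X →L[ℝ] ℝ) {e : ℝ} (he : 0 < e) :
    ∃ n j x, S.Adm n j x ∧ S.Sf γ f - e ≤ S.val γ n j x f := by
  obtain ⟨v, ⟨n, j, x, h, rfl⟩, hv⟩ := exists_lt_of_lt_csSup
    (s := {v | ∃ n j x, S.Adm n j x ∧ v = S.val γ n j x f})
    ⟨_, 0, fun _ => 0, fun _ => 0, S.adm_zero _, rfl⟩
    (show S.Sf γ f - e < sSup _ by unfold Sf; linarith)
  exact ⟨n, j, x, h, hv.le⟩

theorem Sf_nonneg (S : Sys C g B R) {γ : ℝ} (hγ : 0 ≤ γ) (f : X →L[ℝ] ℝ) : 0 ≤ S.Sf γ f := by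
  refine le_trans ?_ (S.le_Sf hγ (S.adm_zero (fun _ => 0)) f)
  unfold val part
  have := S.Th_nonneg hγ 0 (fun _ => 0) f
  simpa using this

theorem Sf_upper (S : Sys C g B R) {γ : ℝ} (hγ : 0 ≤ γ) (f : X →L[ℝ] ℝ) :
    S.Sf γ f ≤ γ * (R + 1) * ‖f‖ :=
  S.Sf_le (fun n j x h => by linarith [S.val_le hγ h f, S.bet_nonneg n j])

theorem Sf_lip (S : Sys C g B R) {γ : ℝ} (hγ : 0 ≤ γ) (f f' : X →L[ℝ] ℝ) :
    |S.Sf γ f - S.Sf γ f'| ≤ γ * (R + 1) * ‖f - f'‖ := by
  rw [abs_le]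
  constructor
  · have : S.Sf γ f' ≤ S.Sf γ f + γ * (R + 1) * ‖f - f'‖ := S.Sf_le (fun n j x h => by
      have h1 := S.val_lip hγ h f' f
      rw [norm_sub_rev] at h1
      linarith [S.le_Sf hγ h f])
    linarith
  · have : S.Sf γ f ≤ S.Sf γ f' + γ * (R + 1) * ‖f - f'‖ := S.Sf_le (fun n j x h => by
      have h1 := S.val_lip hγ h f f'
      linarith [S.le_Sf hγ h f'])
    linarith

theorem Sf_convex (S : Sys C g B R) {γ : ℝ} (hγ : 0 ≤ γ) (f f' : X →L[ℝ] ℝ) :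
    S.Sf γ ((1 / 2 : ℝ) • (f + f')) ≤ (S.Sf γ f + S.Sf γ f') / 2 :=
  S.Sf_le (fun n j x h => by
    have h1 := S.val_convex hγ n j x f f'
    linarith [S.le_Sf hγ h f, S.le_Sf hγ h f'])

end Sys

end C2N
end

section

set_option autoImplicit false

/-!
Chain conditions are closed under weak ultralimits: `WLim.mem` (`tail_closed`), `Kadec.lsc_le`; `a 0 = 0` since
`x k 0 = 0` eventually (functionals separate points).
-/

namespace C2N

open Filter Topology Set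

variable {X : Type*} [NormedAddCommGroup X] [NormedSpace ℝ X]
variable {C B R : ℝ} {g : ℕ → X →L[ℝ] ℝ}

namespace Sys

/-- weak ultralimits of chains along a fixed history are chains -/
theorem chain_lim (S : Sys C g B R) {U : Ultrafilter ℕ} {n : ℕ} {t : ℕ → ℕ} {x : ℕ → ℕ → X}
    {a : ℕ → X} (h : ∀ᶠ k in (U : Filter ℕ), S.Chain n t (x k))
    (ha : ∀ l ≤ n, WLim U (fun k => x k l) (a l)) : S.Chain n t a := by
  rw [chain_iff]
  constructor
  · have h0 : ∀ᶠ k in (U : Filter ℕ), x k 0 = 0 := h.mono fun k hk => hk.1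
    by_contra hne
    obtain ⟨f, -, hf⟩ := exists_dual_vector ℝ (a 0) (norm_ne_zero_iff.mpr hne)
    have h1 := ha 0 (Nat.zero_le n) f
    have h2 : Tendsto (fun k => f (x k 0)) U (𝓝 0) := by
      refine Tendsto.congr' ?_ tendsto_const_nhds
      filter_upwards [h0] with k hk
      rw [hk, map_zero]
    have h3 := tendsto_nhds_unique h1 h2
    rw [h3] at hf
    have : ‖a 0‖ = 0 := by simpa using hf.symm
    exact hne (norm_eq_zero.mp this)
  · intro l hl
    have hl1 := ha (l + 1) hl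
    have hl0 := ha l hl.le
    have hch : ∀ᶠ k in (U : Filter ℕ), x k (l + 1) - x k l ∈ S.Z t l ∧
        S.A (x k (l + 1) - S.c t l) ≤ S.dd t l + S.r t l ∧
        S.A (x k (l + 1) - S.c t (l + 1)) ≤ S.r t (l + 1) :=
      h.mono fun k hk => hk.2 l hl
    refine ⟨?_, ?_, ?_⟩
    · exact WLim.mem (hl1.sub hl0) _ tail_closed (hch.mono fun k hk => hk.1)
    · exact S.kadec.lsc_le hl1 (hch.mono fun k hk => hk.2.1)
    · exact S.kadec.lsc_le hl1 (hch.mono fun k hk => hk.2.2)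

end Sys

end C2N
end

section

set_option autoImplicit false

/-!
`part_lim`: `γ f k (x k n) → γ f0 (a n)` (`WLim.apply`).  The terms `A (x k (l+1) - c_l)` are bounded, so they
converge along `U` (`exists_ulim`) to limits `≥ A (a (l+1) - c_l)` (`Kadec.lsc`).  `part_lim_eq`: the sums converge
to the sum of the values at `a`, so by `each_tendsto` (`r l k = dd^2 + A^2/16`, lower semicontinuity via
`Kadec.lsc` and continuity of squares: from convergence of `A^2` get convergence of `A = √(A^2)`) each `A (x k (l+1) - c_l)`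
converges to `A (a (l+1) - c_l)`, and `Kadec.kad` applies to `x k (l+1) - c_l`.
-/

namespace C2N

open Filter Topology Set

variable {X : Type*} [NormedAddCommGroup X] [NormedSpace ℝ X]
variable {C B R : ℝ} {g : ℕ → X →L[ℝ] ℝ}

namespace Sys

private theorem A_lims (S : Sys C g B R) {U : Ultrafilter ℕ} {n : ℕ} (t : ℕ → ℕ)
    {x : ℕ → ℕ → X} {a : ℕ → X} (ha : ∀ l ≤ n, WLim U (fun k => x k l) (a l))
    (hb : ∀ᶠ k in (U : Filter ℕ), ∀ l ≤ n, ‖x k l‖ ≤ R) (l : ℕ) (hl : l < n) :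
    ∃ α : ℝ, S.A (a (l + 1) - S.c t l) ≤ α ∧
      Tendsto (fun k => S.A (x k (l + 1) - S.c t l)) U (𝓝 α) := by
  obtain ⟨α, -, -, ht⟩ := exists_ulim (U := U) (r := fun k => S.A (x k (l + 1) - S.c t l))
    (a := 0) (b := 2 * (R + ‖S.c t l‖)) (hb.mono fun k hk => ⟨S.kadec.nonneg _, by
      have h1 := S.kadec.le_two (x k (l + 1) - S.c t l)
      have h2 := norm_sub_le (x k (l + 1)) (S.c t l)
      have h3 := hk (l + 1) hl
      linarith⟩)
  exact ⟨α, S.kadec.lsc U _ _ α ((ha (l + 1) hl).sub (WLim.const _)) ht, ht⟩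

private theorem part_tendsto (S : Sys C g B R) {γ : ℝ} {U : Ultrafilter ℕ} {n : ℕ} {t : ℕ → ℕ}
    {x : ℕ → ℕ → X} {a : ℕ → X} (ha : ∀ l ≤ n, WLim U (fun k => x k l) (a l))
    (hb : ∀ᶠ k in (U : Filter ℕ), ∀ l ≤ n, ‖x k l‖ ≤ R)
    {f : ℕ → X →L[ℝ] ℝ} {f0 : X →L[ℝ] ℝ} (hf : Tendsto f U (𝓝 f0)) {α : ℕ → ℝ}
    (hα : ∀ l < n, Tendsto (fun k => S.A (x k (l + 1) - S.c t l)) U (𝓝 (α l))) :
    Tendsto (fun k => S.part γ n t (x k) (f k)) U
      (𝓝 (γ * f0 (a n) - ∑ l ∈ Finset.range n, (S.dd t l ^ 2 + α l ^ 2 / 16))) := by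
  have hfn := (ha n le_rfl).apply (hb.mono fun k hk => hk n le_rfl) hf
  unfold part
  refine (hfn.const_mul γ).sub (tendsto_finsetSum _ fun l hl => ?_)
  exact tendsto_const_nhds.add (((hα l (Finset.mem_range.mp hl)).pow 2).div_const 16)

/-- partial values: weak upper semicontinuity -/
theorem part_lim (S : Sys C g B R) {γ : ℝ} (hγ : 0 ≤ γ) {U : Ultrafilter ℕ} {n : ℕ} {t : ℕ → ℕ}
    {x : ℕ → ℕ → X} {a : ℕ → X} (ha : ∀ l ≤ n, WLim U (fun k => x k l) (a l))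
    (hb : ∀ᶠ k in (U : Filter ℕ), ∀ l ≤ n, ‖x k l‖ ≤ R)
    {f : ℕ → X →L[ℝ] ℝ} {f0 : X →L[ℝ] ℝ} (hf : Tendsto f U (𝓝 f0)) {v : ℝ}
    (hv : Tendsto (fun k => S.part γ n t (x k) (f k)) U (𝓝 v)) : v ≤ S.part γ n t a f0 := by
  choose! α hα1 hα2 using S.A_lims t ha hb
  have h2 := tendsto_nhds_unique hv (S.part_tendsto (γ := γ) ha hb hf hα2)
  rw [h2]
  unfold part
  refine sub_le_sub_left (Finset.sum_le_sum fun l hl => ?_) _
  have h3 := hα1 l (Finset.mem_range.mp hl)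
  have h0 := S.kadec.nonneg (a (l + 1) - S.c t l)
  gcongr

/-- partial values: in case of equality the convergence is in norm -/
theorem part_lim_eq (S : Sys C g B R) {γ : ℝ} (hγ : 0 ≤ γ) {U : Ultrafilter ℕ} {n : ℕ}
    {t : ℕ → ℕ} {x : ℕ → ℕ → X} {a : ℕ → X} (ha : ∀ l ≤ n, WLim U (fun k => x k l) (a l))
    (hb : ∀ᶠ k in (U : Filter ℕ), ∀ l ≤ n, ‖x k l‖ ≤ R)
    {f : ℕ → X →L[ℝ] ℝ} {f0 : X →L[ℝ] ℝ} (hf : Tendsto f U (𝓝 f0))
    (hv : Tendsto (fun k => S.part γ n t (x k) (f k)) U (𝓝 (S.part γ n t a f0))) :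
    ∀ l < n, Tendsto (fun k => x k (l + 1)) U (𝓝 (a (l + 1))) := by
  intro l hl
  choose! α hα1 hα2 using S.A_lims t ha hb
  have h2 := tendsto_nhds_unique hv (S.part_tendsto (γ := γ) ha hb hf hα2)
  unfold part at h2
  have h3 : ∑ l ∈ Finset.range n, (S.dd t l ^ 2 + S.A (a (l + 1) - S.c t l) ^ 2 / 16) =
      ∑ l ∈ Finset.range n, (S.dd t l ^ 2 + α l ^ 2 / 16) := by linarith
  have h4 := (Finset.sum_eq_sum_iff_of_le (fun l hl => by
    have h3 := hα1 l (Finset.mem_range.mp hl)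
    have h0 := S.kadec.nonneg (a (l + 1) - S.c t l)
    gcongr)).mp h3 l (Finset.mem_range.mpr hl)
  have h0 := S.kadec.nonneg (a (l + 1) - S.c t l)
  have h5 : α l = S.A (a (l + 1) - S.c t l) := by
    have h6 : α l ^ 2 = S.A (a (l + 1) - S.c t l) ^ 2 := by linarith
    exact (sq_eq_sq₀ (h0.trans (hα1 l hl)) h0).mp h6
  have h6 := hα2 l hl
  rw [h5] at h6
  have h7 := S.kadec.kad U (fun k => x k (l + 1) - S.c t l) _
    ((ha (l + 1) hl).sub (WLim.const _)) h6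
  have h8 := h7.add_const (S.c t l)
  simpa using h8

end Sys

end C2N
end

section

set_option autoImplicit false

/-!
`exists_lims`: `S.wlim` needs a bound for all `k`; modify the sequence off a set in `U` (put `0` there) and use
`WLim.congr`.  `Th_tendsto`: `theta_lip`, `abs_resN_sub_le`.  `res_tendsto`: `resN (Z (j k) (i+1)) (f k) ≤ ‖f k - f0‖ +
resN (tail g (m (i+1) (j k))) f0`, `m (i+1) (j k) ≥ j k i → ∞`, `S.tails f0`.
-/

namespace C2N

open Filter Topology Set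

variable {X : Type*} [NormedAddCommGroup X] [NormedSpace ℝ X]
variable {C B R : ℝ} {g : ℕ → X →L[ℝ] ℝ}

namespace Sys

/-- the weak limits exist -/
theorem exists_lims (S : Sys C g B R) {U : Ultrafilter ℕ} {n : ℕ} {x : ℕ → ℕ → X}
    (hb : ∀ᶠ k in (U : Filter ℕ), ∀ l ≤ n, ‖x k l‖ ≤ R) :
    ∃ a : ℕ → X, ∀ l ≤ n, WLim U (fun k => x k l) (a l) := by
  classical
  have h1 : ∀ l, ∃ a : X, l ≤ n → WLim U (fun k => x k l) a := by
    intro l
    by_cases hl : l ≤ n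
    · have hR : 0 ≤ R := S.hR
      obtain ⟨a, ha⟩ := S.wlim U (fun k => if ‖x k l‖ ≤ R then x k l else 0) R (fun k => by
        split_ifs with h
        · exact h
        · simpa using hR)
      refine ⟨a, fun _ => ha.congr ?_⟩
      filter_upwards [hb] with k hk
      rw [if_pos (hk l hl)]
    · exact ⟨0, fun h => absurd h hl⟩
  choose a ha using h1
  exact ⟨a, fun l hl => ha l hl⟩

/-- the quadratic piece is continuous in `f` -/
theorem Th_tendsto (S : Sys C g B R) {γ : ℝ} (hγ : 0 ≤ γ) (n : ℕ) (j : ℕ → ℕ) {U : Ultrafilter ℕ}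
    {f : ℕ → X →L[ℝ] ℝ} {f0 : X →L[ℝ] ℝ} (hf : Tendsto f U (𝓝 f0)) :
    Tendsto (fun k => S.Th γ n j (f k)) U (𝓝 (S.Th γ n j f0)) := by
  rw [tendsto_iff_norm_sub_tendsto_zero]
  have h1 : Tendsto (fun k => S.dd j n / 2 * (γ * ‖f k - f0‖)) U (𝓝 0) := by
    have h2 := tendsto_iff_norm_sub_tendsto_zero.mp hf
    simpa using (h2.const_mul γ).const_mul (S.dd j n / 2)
  refine squeeze_zero (fun k => norm_nonneg _) (fun k => ?_) h1
  rw [Real.norm_eq_abs]
  have hd := S.dd_pos j n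
  refine (theta_lip hd.le (mul_nonneg hγ (resN_nonneg _ _))
    (mul_nonneg hγ (resN_nonneg _ _))).trans ?_
  rw [← mul_sub, abs_mul, abs_of_nonneg hγ]
  have h3 := abs_resN_sub_le (S.Z j n) (f k) f0
  gcongr

/-- along diverging labels the restricted norms tend to zero -/
theorem res_tendsto (S : Sys C g B R) {γ : ℝ} (hγ : 0 ≤ γ) {i : ℕ} {U : Ultrafilter ℕ}
    {j : ℕ → ℕ → ℕ} (hj : Tendsto (fun k => j k i) U atTop)
    {f : ℕ → X →L[ℝ] ℝ} {f0 : X →L[ℝ] ℝ} (hf : Tendsto f U (𝓝 f0)) :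
    Tendsto (fun k => γ * resN (S.Z (j k) (i + 1)) (f k)) U (𝓝 0) := by
  have h1 := tendsto_iff_norm_sub_tendsto_zero.mp hf
  have hm : Tendsto (fun k => S.m (i + 1) (j k)) U atTop :=
    tendsto_atTop_mono (fun k => S.m_label i (j k)) hj
  have h2 : Tendsto (fun k => resN (tail g (S.m (i + 1) (j k))) f0) U (𝓝 0) :=
    (S.tails f0).comp hm
  have h3 : Tendsto (fun k => γ * (‖f k - f0‖ + resN (tail g (S.m (i + 1) (j k))) f0)) U (𝓝 0) := by
    simpa using (h1.add h2).const_mul γ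
  refine squeeze_zero (fun k => mul_nonneg hγ (resN_nonneg _ _)) (fun k => ?_) h3
  have h4 : resN (S.Z (j k) (i + 1)) (f k) ≤
      ‖f k - f0‖ + resN (tail g (S.m (i + 1) (j k))) f0 := by
    have h5 := resN_add_le (S.Z (j k) (i + 1)) (f k - f0) f0
    rw [sub_add_cancel] at h5
    exact h5.trans (add_le_add (resN_le_norm _ _) le_rfl)
  exact mul_le_mul_of_nonneg_left h4 hγ

end Sys

end C2N
end

section

set_option autoImplicit false

/-!
8.2 of paper 371.  `0 ≤ Sf f = val ≤ γ(R+1)‖f‖ - bet ≤ B - 1 - bet` gives `bet n j ≤ B-1`, so after one more step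
`bet ≤ B - 1 + 1/64 ≤ B`.  Suppose `τ = γ resN ≥ 3 d`, `d = dd j n`.  There is `z ∈ Z j n` with `A z ≤ d` and
`f z ≥ (2/3) d resN` (`exists_norming` with `e = resN/21`, scale by `7d/10`: `A^2 ≤ 2‖z‖^2 ≤ 0.98 d^2`; if `resN = 0`
then `τ = 0 < 3d`).  `v = x n + z`; `A (v - c) ≤ A z + A (x n - c) ≤ d + r`; label by `covering`; `Chain.extend`.
The value of the prolonged node is `≥ part + γ f z - d^2 - (d+r)^2/16 ≥ part + (2/3)τ d - (9/8)d^2 > part + Th =
val` by `theta_big` (`(d+r)^2 ≤ 2 d^2`), contradiction with `le_Sf`.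
-/

namespace C2N

open Filter Topology Set

variable {X : Type*} [NormedAddCommGroup X] [NormedSpace ℝ X]
variable {C B R : ℝ} {g : ℕ → X →L[ℝ] ℝ}

namespace Sys

/-- a prolongation direction -/
private theorem exists_dir (S : Sys C g B R) {f : X →L[ℝ] ℝ} {n : ℕ} {j : ℕ → ℕ} :
    ∃ z ∈ S.Z j n, S.A z ≤ S.dd j n ∧ 2 / 3 * S.dd j n * resN (S.Z j n) f ≤ f z := by
  have hd := S.dd_pos j n
  rcases (resN_nonneg (S.Z j n) f).eq_or_lt with h0 | hpos
  · refine ⟨0, Submodule.zero_mem _, ?_, ?_⟩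
    · rw [S.kadec.zero]; exact hd.le
    · rw [← h0]; simp
  obtain ⟨z, hz, hz1, hz2⟩ := exists_norming (S.Z j n) f
    (e := resN (S.Z j n) f / 21) (by positivity)
  refine ⟨(7 / 10 * S.dd j n) • z, Submodule.smul_mem _ _ hz, ?_, ?_⟩
  · have h1 := S.kadec.ge ((7 / 10 * S.dd j n) • z)
    rw [norm_smul, Real.norm_eq_abs, abs_of_pos (by positivity)] at h1
    have h2 : (7 / 10 * S.dd j n * ‖z‖) ^ 2 ≤ (7 / 10 * S.dd j n * 1) ^ 2 := by
      have := norm_nonneg z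
      gcongr
    have h3 : S.A ((7 / 10 * S.dd j n) • z) ^ 2 ≤ S.dd j n ^ 2 := by nlinarith
    exact (abs_le_of_sq_le_sq' h3 hd.le).2
  · rw [map_smul, smul_eq_mul]
    calc 2 / 3 * S.dd j n * resN (S.Z j n) f =
          7 / 10 * S.dd j n * (resN (S.Z j n) f - resN (S.Z j n) f / 21) := by ring
      _ ≤ 7 / 10 * S.dd j n * f z := by gcongr

/-- 8.2 of paper 371 -/
theorem opt_small (S : Sys C g B R) {γ ρ : ℝ} (hγ : 0 ≤ γ) (hρ : γ * (R + 1) * ρ ≤ B - 1)
    {f : X →L[ℝ] ℝ} (hf : ‖f‖ ≤ ρ) {n : ℕ} {j : ℕ → ℕ} {x : ℕ → X} (h : S.Adm n j x)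
    (hopt : S.val γ n j x f = S.Sf γ f) : γ * resN (S.Z j n) f < 3 * S.dd j n := by
  by_contra hcon
  push Not at hcon
  have hd := S.dd_pos j n
  have hd8 := S.dd_le j n
  have hbet : S.bet n j ≤ B - 1 := by
    have h1 := S.val_le hγ h f
    have h2 := S.Sf_nonneg hγ f
    have h3 : γ * (R + 1) * ‖f‖ ≤ γ * (R + 1) * ρ := by
      have := mul_nonneg hγ (show (0 : ℝ) ≤ R + 1 by linarith [S.hR])
      gcongr
    rw [hopt] at h1
    linarith
  obtain ⟨z, hz, hAz, hfz⟩ := exists_dir S (f := f) (n := n) (j := j)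
  set v : X := x n + z with hv
  have hv1 : v - x n ∈ S.Z j n := by rw [hv, add_sub_cancel_left]; exact hz
  have hv2 : S.A (v - S.c j n) ≤ S.dd j n + S.r j n := by
    have e1 : v - S.c j n = z + (x n - S.c j n) := by rw [hv]; abel
    rw [e1]
    exact (S.kadec.add_le _ _).trans (add_le_add hAz (h.1.near le_rfl))
  obtain ⟨k, hk⟩ := S.covering n v
  have hch := h.1.extend hv1 hv2 hk.le
  set j' := Function.update j n k with hj'
  set x' := Function.update x (n + 1) v with hx'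
  have hjj : ∀ l < n, j l = j' l := fun l hl => by
    rw [hj', Function.update_of_ne (by omega)]
  have hxx : ∀ l ≤ n, x l = x' l := fun l hl => by
    rw [hx', Function.update_of_ne (by omega)]
  have hx1 : x' (n + 1) = v := by rw [hx', Function.update_self]
  have hbet' : S.bet (n + 1) j' ≤ B := by
    rw [bet_succ, ← S.bet_congr hjj, ← S.dd_congr hjj]
    nlinarith
  have hadm : S.Adm (n + 1) j' x' := ⟨hch, hbet'⟩
  have hle := S.le_Sf hγ hadm f
  have hpart : S.part γ (n + 1) j' x' f = S.part γ n j x f + γ * f z -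
      (S.dd j n ^ 2 + S.A (v - S.c j n) ^ 2 / 16) := by
    have e1 : S.part γ n j x f = S.part γ n j' x' f :=
      S.part_congr (fun l hl => hjj l (by omega)) hxx
    rw [e1]
    unfold part
    rw [Finset.sum_range_succ, hx1, ← S.dd_congr hjj, ← S.c_congr hjj, ← hxx n le_rfl, hv, map_add]
    ring
  have hAv : S.A (v - S.c j n) ^ 2 ≤ (S.dd j n + S.dd j n / 32) ^ 2 := by
    have h1 := S.kadec.nonneg (v - S.c j n)
    have h2 := S.r_le' j n
    have h3 : S.A (v - S.c j n) ≤ S.dd j n + S.dd j n / 32 := hv2.trans (by linarith)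
    gcongr
  have hTh := S.Th_nonneg hγ (n + 1) j' f
  have hbig := theta_big hd hcon
  have hγf : 2 / 3 * (γ * resN (S.Z j n) f) * S.dd j n ≤ γ * f z := by
    calc 2 / 3 * (γ * resN (S.Z j n) f) * S.dd j n =
          γ * (2 / 3 * S.dd j n * resN (S.Z j n) f) := by ring
      _ ≤ γ * f z := by gcongr
  have hval : S.val γ n j x f = S.part γ n j x f +
      theta (S.dd j n) (γ * resN (S.Z j n) f) := rfl
  have hval' : S.val γ (n + 1) j' x' f = S.part γ (n + 1) j' x' f + S.Th γ (n + 1) j' f := rfl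
  nlinarith

end Sys

end C2N
end

section

set_option autoImplicit false

/-!
Section 9, CASE I of paper 371.  Eventually `Adm i t (x k)` and `val (n k) (j k) (x k) (f k) = val i t (x k) (f k)`
(`Adm.congr`, `val_congr`).  Weak limits `a` (`exists_lims`, bounds from `Adm.bound`), `Adm i t a` (`chain_lim`).
`val i t (x k) (f k) → Sf f0`, `Th → Th`, so `part i t (x k) (f k) → Sf f0 - Th i t f0 ≤ part i t a f0` (`part_lim`);
so `val i t a f0 ≥ Sf f0`, equality by `le_Sf`.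
-/

namespace C2N

open Filter Topology Set

variable {X : Type*} [NormedAddCommGroup X] [NormedSpace ℝ X]
variable {C B R : ℝ} {g : ℕ → X →L[ℝ] ℝ}

namespace Sys

/-- CASE I of the key lemma. -/
theorem key_caseI (S : Sys C g B R) {γ : ℝ} (hγ : 0 ≤ γ) {U : Ultrafilter ℕ} {n : ℕ → ℕ}
    {j : ℕ → ℕ → ℕ} {x : ℕ → ℕ → X} (h : ∀ k, S.Adm (n k) (j k) (x k))
    {f : ℕ → X →L[ℝ] ℝ} {f0 : X →L[ℝ] ℝ} (hf : Tendsto f U (𝓝 f0)) {i : ℕ} {t : ℕ → ℕ}
    (hU : ∀ᶠ k in (U : Filter ℕ), i ≤ n k ∧ ∀ l < i, j k l = t l)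
    (hval : Tendsto (fun k => S.val γ (n k) (j k) (x k) (f k)) U (𝓝 (S.Sf γ f0)))
    (hn : ∀ᶠ k in (U : Filter ℕ), n k = i) :
    (∃ a, S.Adm i t a ∧ S.val γ i t a f0 = S.Sf γ f0) ∧
      ∀ᶠ k in (U : Filter ℕ), S.Adm i t (x k) ∧
        S.val γ (n k) (j k) (x k) (f k) ≤ S.val γ i t (x k) (f k) := by
  have hev : ∀ᶠ k in (U : Filter ℕ), S.Adm i t (x k) ∧
      S.val γ (n k) (j k) (x k) (f k) = S.val γ i t (x k) (f k) := by
    filter_upwards [hU, hn] with k hk1 hk2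
    have h1 := h k
    rw [hk2] at h1
    refine ⟨h1.congr hk1.2 (fun l _ => rfl), ?_⟩
    rw [hk2]
    exact S.val_congr hk1.2 (fun l _ => rfl)
  have hb : ∀ᶠ k in (U : Filter ℕ), ∀ l ≤ i, ‖x k l‖ ≤ R :=
    hev.mono fun k hk l hl => hk.1.bound hl
  obtain ⟨a, ha⟩ := S.exists_lims hb
  have hch : S.Chain i t a := S.chain_lim (hev.mono fun k hk => hk.1.1) ha
  obtain ⟨k0, hk0, -⟩ := hev.exists
  have hadm : S.Adm i t a := ⟨hch, hk0.2⟩
  have hTh := S.Th_tendsto hγ i t hf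
  have hv : Tendsto (fun k => S.part γ i t (x k) (f k)) U (𝓝 (S.Sf γ f0 - S.Th γ i t f0)) := by
    have h1 := hval.sub hTh
    refine h1.congr' ?_
    filter_upwards [hev] with k hk
    rw [hk.2]
    unfold val
    ring
  have h2 := S.part_lim hγ ha hb hf hv
  refine ⟨⟨a, hadm, le_antisymm (S.le_Sf hγ hadm f0) ?_⟩, hev.mono fun k hk => ⟨hk.1, hk.2.le⟩⟩
  unfold val
  linarith

/-- no infinite limit history -/
theorem no_limit (S : Sys C g B R) {U : Ultrafilter ℕ} {n : ℕ → ℕ} {j : ℕ → ℕ → ℕ}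
    {x : ℕ → ℕ → X} (h : ∀ k, S.Adm (n k) (j k) (x k)) :
    ¬ ∃ t : ℕ → ℕ, ∀ i, ∀ᶠ k in (U : Filter ℕ), i ≤ n k ∧ ∀ l < i, j k l = t l := by
  rintro ⟨t, ht⟩
  refine S.wellfounded ⟨t, fun i => ?_⟩
  obtain ⟨k, hk1, hk2⟩ := (ht i).exists
  have h1 := ((h k).mono hk1).congr hk2 (fun l _ => rfl)
  exact ⟨⟨x k, h1.1⟩, h1.2⟩

end Sys

end C2N
end

section

set_option autoImplicit false

/-!
Section 9, CASE II of paper 371.  Eventually `Adm (i+1) (j k) (x k)` and `part (i+1) (j k) = part (i+1) t` (`part_congr`).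
`rest_le` with `n = i+1`: `val_k - part (i+1) t (x k) (f k) ≤ 3 C τ_k^2`, `τ_k → 0` (`res_tendsto`).  `part_k` is bounded (above by
`γ R‖f k‖`, below by `val_k - 3Cτ_k^2`), let `v` be its limit along `U`: `Sf f0 ≤ v ≤ part (i+1) t a f0` (`part_lim`) with `a`
the weak limits of `x k l`, `l ≤ i+1`.  `covering` gives `k'`.  `Chain i t a` (`chain_lim`) and the two step conditions
(`WLim.mem`, `Kadec.lsc_le`) give by `Chain.extend` a chain of length `i+1` for `t' = update t i k'` (`update a (i+1) (a (i+1)) = a`);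
`bet (i+1) t' = bet (i+1) (j k) ≤ B`.  `part (i+1) t' = part (i+1) t` (labels `< i` only).  So
`Sf f0 ≤ v ≤ part (i+1) t' a f0 ≤ val (i+1) t' a f0 ≤ Sf f0`: equality everywhere, `Th (i+1) t' f0 = 0`, i.e.
`theta (dd) (γ resN) = 0`, hence `γ resN = 0` (`dd > 0`); `part_lim_eq` gives norm convergence for `l = 1..i+1`, and `l = 0` is clear
(`x k 0 = 0`, `a 0 = 0`).
-/

namespace C2N

open Filter Topology Set

variable {X : Type*} [NormedAddCommGroup X] [NormedSpace ℝ X]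
variable {C B R : ℝ} {g : ℕ → X →L[ℝ] ℝ}

namespace Sys

private theorem theta_eq_zero {d t : ℝ} (hd : 0 < d) (h : theta d t = 0) : t = 0 := by
  by_cases h1 : t ≤ 8 * d
  · rw [theta_eq h1] at h
    have h2 : t ^ 2 = 0 := by linarith
    exact pow_eq_zero_iff (two_ne_zero) |>.mp h2
  · rw [theta_eq' h1] at h
    push Not at h1
    exfalso
    nlinarith [mul_pos hd (sub_pos.2 h1), mul_pos hd hd]

/-- `bet (i+1)` only depends on the labels below `i` -/
private theorem bet_succ_congr (S : Sys C g B R) {i : ℕ} {j j' : ℕ → ℕ} (h : ∀ l < i, j l = j' l) :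
    S.bet (i + 1) j = S.bet (i + 1) j' := by
  rw [bet_succ, bet_succ, S.bet_congr h, S.dd_congr h]

/-- CASE II of the key lemma, first part: the limit chain, prolonged by a label `k'` covering the last
point, is optimal; the quadratic piece vanishes, and the points converge in norm. -/
theorem key_caseII_limit (S : Sys C g B R) {γ : ℝ} (hγ : 0 ≤ γ) {U : Ultrafilter ℕ} {n : ℕ → ℕ}
    {j : ℕ → ℕ → ℕ} {x : ℕ → ℕ → X} (h : ∀ k, S.Adm (n k) (j k) (x k))
    {f : ℕ → X →L[ℝ] ℝ} {f0 : X →L[ℝ] ℝ} (hf : Tendsto f U (𝓝 f0)) {i : ℕ} {t : ℕ → ℕ}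
    (hU : ∀ᶠ k in (U : Filter ℕ), i ≤ n k ∧ ∀ l < i, j k l = t l)
    (hval : Tendsto (fun k => S.val γ (n k) (j k) (x k) (f k)) U (𝓝 (S.Sf γ f0)))
    (hn : ∀ᶠ k in (U : Filter ℕ), i < n k) (hj : Tendsto (fun k => j k i) U atTop) :
    ∃ (a : ℕ → X) (k' : ℕ), S.A (a (i + 1) - S.y k') < (1 / 2 : ℝ) ^ (i + 4) * S.w (S.y k') ∧
      S.Adm (i + 1) (Function.update t i k') a ∧
      S.val γ (i + 1) (Function.update t i k') a f0 = S.Sf γ f0 ∧
      γ * resN (S.Z (Function.update t i k') (i + 1)) f0 = 0 ∧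
      ∀ l ≤ i + 1, Tendsto (fun k => x k l) U (𝓝 (a l)) := by
  have hadm : ∀ᶠ k in (U : Filter ℕ), S.Adm (i + 1) (j k) (x k) := by
    filter_upwards [hn] with k hk
    exact (h k).mono hk
  have hpart : ∀ᶠ k in (U : Filter ℕ), S.part γ (i + 1) (j k) (x k) (f k) =
      S.part γ (i + 1) t (x k) (f k) := by
    filter_upwards [hU] with k hk
    exact S.part_congr (fun l hl => hk.2 l (by omega)) (fun l _ => rfl)
  have hτ := S.res_tendsto hγ hj hf
  have hτ2 : Tendsto (fun k => 3 * C * (γ * resN (S.Z (j k) (i + 1)) (f k)) ^ 2) U (𝓝 0) := by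
    have := (hτ.pow 2).const_mul (3 * C)
    simpa using this
  have hrest : ∀ᶠ k in (U : Filter ℕ), S.val γ (n k) (j k) (x k) (f k) -
      3 * C * (γ * resN (S.Z (j k) (i + 1)) (f k)) ^ 2 ≤ S.part γ (i + 1) t (x k) (f k) := by
    filter_upwards [hn, hpart] with k hk hp
    have h1 := S.rest_le hγ (show i + 1 ≤ n k from hk) (h k) (f k)
    rw [hp] at h1
    linarith
  have hb : ∀ᶠ k in (U : Filter ℕ), ∀ l ≤ i + 1, ‖x k l‖ ≤ R := by
    filter_upwards [hadm] with k hk l hl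
    exact hk.bound hl
  obtain ⟨a, ha⟩ := S.exists_lims hb
  have hlow : Tendsto (fun k => S.val γ (n k) (j k) (x k) (f k) -
      3 * C * (γ * resN (S.Z (j k) (i + 1)) (f k)) ^ 2) U (𝓝 (S.Sf γ f0)) := by
    have := hval.sub hτ2
    rwa [sub_zero] at this
  have hup : ∀ᶠ k in (U : Filter ℕ), S.part γ (i + 1) t (x k) (f k) ≤ γ * ((‖f0‖ + 1) * R) := by
    have h1 : ∀ᶠ k in (U : Filter ℕ), ‖f k‖ ≤ ‖f0‖ + 1 :=
      (hf.norm.eventually (gt_mem_nhds (lt_add_one _))).mono fun k hk => hk.le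
    filter_upwards [h1, hb] with k hk1 hk2
    unfold part
    have h2 : f k (x k (i + 1)) ≤ (‖f0‖ + 1) * R := by
      have h3 := (f k).le_opNorm (x k (i + 1))
      rw [Real.norm_eq_abs] at h3
      have h4 := hk2 (i + 1) le_rfl
      calc f k (x k (i + 1)) ≤ |f k (x k (i + 1))| := le_abs_self _
        _ ≤ ‖f k‖ * ‖x k (i + 1)‖ := h3
        _ ≤ (‖f0‖ + 1) * R := by gcongr
    have h5 : 0 ≤ ∑ l ∈ Finset.range (i + 1), (S.dd t l ^ 2 + S.A (x k (l + 1) - S.c t l) ^ 2 / 16) :=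
      Finset.sum_nonneg fun l _ => by positivity
    have h6 : γ * f k (x k (i + 1)) ≤ γ * ((‖f0‖ + 1) * R) := by gcongr
    linarith
  obtain ⟨v, -, -, hv⟩ := exists_ulim (U := U) (r := fun k => S.part γ (i + 1) t (x k) (f k))
    (a := S.Sf γ f0 - 1) (b := γ * ((‖f0‖ + 1) * R)) (by
      have h1 : ∀ᶠ k in (U : Filter ℕ), S.Sf γ f0 - 1 < S.val γ (n k) (j k) (x k) (f k) -
          3 * C * (γ * resN (S.Z (j k) (i + 1)) (f k)) ^ 2 :=
        hlow.eventually (lt_mem_nhds (sub_one_lt _))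
      filter_upwards [h1, hrest, hup] with k hk1 hk2 hk3
      exact ⟨hk1.le.trans hk2, hk3⟩)
  have hv1 : S.Sf γ f0 ≤ v := le_of_tendsto_of_tendsto hlow hv hrest
  have hv2 : v ≤ S.part γ (i + 1) t a f0 := S.part_lim hγ ha hb hf hv
  obtain ⟨k', hk'⟩ := S.covering i (a (i + 1))
  have hct : ∀ l < i, Function.update t i k' l = t l := fun l hl =>
    Function.update_of_ne (by omega) _ _
  -- the limit chain
  have hstep : ∀ᶠ k in (U : Filter ℕ), x k (i + 1) - x k i ∈ S.Z t i ∧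
      S.A (x k (i + 1) - S.c t i) ≤ S.dd t i + S.r t i := by
    filter_upwards [hadm, hU] with k hk hk2
    have h1 := hk.1.2 i (Nat.lt_succ_self i)
    have h2 : x k (i + 1) - x k i ∈ S.Z (j k) i := h1.1
    have h3 : S.A (x k (i + 1) - S.c (j k) i) ≤ S.dd (j k) i + S.r (j k) i := h1.2.1
    rw [S.Z_congr hk2.2] at h2
    rw [S.c_congr hk2.2, S.dd_congr hk2.2, S.r_congr hk2.2] at h3
    exact ⟨h2, h3⟩
  have hchi : S.Chain i t a := by
    refine S.chain_lim (U := U) (x := x) ?_ (fun l hl => ha l (by omega))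
    filter_upwards [hadm, hU] with k hk hk2
    exact (hk.1.mono (Nat.le_succ i)).congr hk2.2 (fun l _ => rfl)
  have hz : a (i + 1) - a i ∈ S.Z t i :=
    WLim.mem ((ha (i + 1) le_rfl).sub (ha i (Nat.le_succ i))) _ tail_closed
      (hstep.mono fun k hk => hk.1)
  have hA : S.A (a (i + 1) - S.c t i) ≤ S.dd t i + S.r t i :=
    S.kadec.lsc_le (ha (i + 1) le_rfl) (hstep.mono fun k hk => hk.2)
  have hch : S.Chain (i + 1) (Function.update t i k') a := by
    have := hchi.extend hz hA hk'.le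
    rwa [Function.update_eq_self] at this
  have hbet : S.bet (i + 1) (Function.update t i k') ≤ B := by
    obtain ⟨k, hk1, hk2⟩ := (hadm.and hU).exists
    have h1 : S.bet (i + 1) (Function.update t i k') = S.bet (i + 1) (j k) :=
      bet_succ_congr S fun l hl => (hct l hl).trans (hk2.2 l hl).symm
    rw [h1]
    exact hk1.2
  have hAdm : S.Adm (i + 1) (Function.update t i k') a := ⟨hch, hbet⟩
  have hpt : S.part γ (i + 1) (Function.update t i k') a f0 = S.part γ (i + 1) t a f0 :=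
    S.part_congr (fun l hl => hct l (by omega)) (fun l _ => rfl)
  have hle := S.le_Sf hγ hAdm f0
  have hTh0 := S.Th_nonneg hγ (i + 1) (Function.update t i k') f0
  have hvaleq : S.val γ (i + 1) (Function.update t i k') a f0 =
      S.part γ (i + 1) t a f0 + S.Th γ (i + 1) (Function.update t i k') f0 := by
    rw [← hpt]; rfl
  have hTh : S.Th γ (i + 1) (Function.update t i k') f0 = 0 := by
    rw [hvaleq] at hle
    linarith
  have hveq : v = S.part γ (i + 1) t a f0 := by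
    rw [hvaleq] at hle
    linarith
  have hvalSf : S.val γ (i + 1) (Function.update t i k') a f0 = S.Sf γ f0 := by
    rw [hvaleq] at hle ⊢
    linarith
  refine ⟨a, k', hk', hAdm, hvalSf, ?_, ?_⟩
  · exact theta_eq_zero (S.dd_pos _ _) hTh
  · have hconv := S.part_lim_eq hγ ha hb hf (by rw [← hveq]; exact hv)
    intro l hl
    cases l with
    | zero =>
      have h0 : a 0 = 0 := hch.1
      rw [h0]
      refine tendsto_const_nhds.congr' ?_
      filter_upwards [hadm] with k hk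
      exact hk.1.1.symm
    | succ l => exact hconv l (by omega)

end Sys

end C2N
end

section

set_option autoImplicit false

/-!
Section 9, (B) CASE II of paper 371.  Take `a, k'` from `key_caseII_limit`, `t' = update t i k'`.  Eventually
`A (x k (i+1) - y k') < (1/2)^(i+4) w (y k')` (norm convergence, `A` continuous), so `Chain (i+1) t' (x k)`
(`Chain.extend`, the step conditions of `x k` for the labels `j k`, which agree with `t` below `i`), `Adm`.
Put `τ_k = γ resN (Z (j k) (i+1)) (f k) → 0` (`res_tendsto`).  `dd (j k) (i+1) = d (y (j k i))` is bounded below: eventually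
`≥ d (a (i+1)) / 2` (`‖x k (i+1) - y (j k i)‖ ≤ r ≤ dd/32`, `d_lip`, norm convergence).  So eventually
`9 C τ_k^2 ≤ dd^2` and `rest_le'` gives `val_k ≤ part (i+1) (j k) (x k) (f k) + τ_k^2/32`.  Let `τ' = γ resN (Z t' (i+1)) (f k) → 0`
(`γ resN (Z t' (i+1)) f0 = 0`), so eventually `τ' ≤ 8 dd t' (i+1)` and `Th (i+1) t' (f k) = τ'^2/32` (`theta_eq`).  Eventually
`m (i+1) t' ≤ j k i ≤ m (i+1) (j k)`, so `τ_k ≤ τ'`.  Hence `val_k ≤ part (i+1) t' (x k) (f k) + Th (i+1) t' (f k)`.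
-/

namespace C2N

open Filter Topology Set

variable {X : Type*} [NormedAddCommGroup X] [NormedSpace ℝ X]
variable {C B R : ℝ} {g : ℕ → X →L[ℝ] ℝ}

namespace Sys

/-- CASE II of the key lemma, second part. -/
theorem key_caseII (S : Sys C g B R) {γ : ℝ} (hγ : 0 ≤ γ) {U : Ultrafilter ℕ} {n : ℕ → ℕ}
    {j : ℕ → ℕ → ℕ} {x : ℕ → ℕ → X} (h : ∀ k, S.Adm (n k) (j k) (x k))
    {f : ℕ → X →L[ℝ] ℝ} {f0 : X →L[ℝ] ℝ} (hf : Tendsto f U (𝓝 f0)) {i : ℕ} {t : ℕ → ℕ}
    (hU : ∀ᶠ k in (U : Filter ℕ), i ≤ n k ∧ ∀ l < i, j k l = t l)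
    (hval : Tendsto (fun k => S.val γ (n k) (j k) (x k) (f k)) U (𝓝 (S.Sf γ f0)))
    (hn : ∀ᶠ k in (U : Filter ℕ), i < n k) (hj : Tendsto (fun k => j k i) U atTop) :
    ∃ k' : ℕ, (∃ a, S.Adm (i + 1) (Function.update t i k') a ∧
        S.val γ (i + 1) (Function.update t i k') a f0 = S.Sf γ f0) ∧
      ∀ᶠ k in (U : Filter ℕ), S.Adm (i + 1) (Function.update t i k') (x k) ∧
        S.val γ (n k) (j k) (x k) (f k) ≤
          S.val γ (i + 1) (Function.update t i k') (x k) (f k) := by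
  have hC : 1 ≤ C := S.twoS.one_le
  obtain ⟨a, k', hk', hadm, hvala, hres, hnorm⟩ := S.key_caseII_limit hγ h hf hU hval hn hj
  refine ⟨k', ⟨a, hadm, hvala⟩, ?_⟩
  have htt : ∀ l < i, t l = Function.update t i k' l := fun l hl => by
    rw [Function.update_of_ne (by omega)]
  have hxi := hnorm (i + 1) le_rfl
  -- 1. the label `k'` covers the points
  have e1 : ∀ᶠ k in (U : Filter ℕ), S.A (x k (i + 1) - S.y k') <
      (1 / 2 : ℝ) ^ (i + 4) * S.w (S.y k') := by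
    have h1 : Tendsto (fun k => S.A (x k (i + 1) - S.y k')) U (𝓝 (S.A (a (i + 1) - S.y k'))) :=
      (S.kadec.continuous.tendsto _).comp (hxi.sub_const _)
    exact h1.eventually_lt_const hk'
  -- 2. the lower bound for the scales
  have hda := S.d_pos (a (i + 1))
  have e2 : ∀ᶠ k in (U : Filter ℕ), ‖x k (i + 1) - a (i + 1)‖ < S.d (a (i + 1)) :=
    (tendsto_iff_norm_sub_tendsto_zero.mp hxi).eventually_lt_const hda
  have hτ := S.res_tendsto hγ hj hf
  have e3 : ∀ᶠ k in (U : Filter ℕ), 9 * C * (γ * resN (S.Z (j k) (i + 1)) (f k)) ^ 2 <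
      (S.d (a (i + 1)) / 2) ^ 2 := by
    have h1 : Tendsto (fun k => 9 * C * (γ * resN (S.Z (j k) (i + 1)) (f k)) ^ 2) U (𝓝 0) := by
      simpa using (hτ.pow 2).const_mul (9 * C)
    exact h1.eventually_lt_const (by positivity)
  -- 3. the quadratic piece at `t'`
  have e4 : ∀ᶠ k in (U : Filter ℕ),
      γ * resN (S.Z (Function.update t i k') (i + 1)) (f k) <
        8 * S.dd (Function.update t i k') (i + 1) := by
    have h1 : Tendsto (fun k => γ * resN (S.Z (Function.update t i k') (i + 1)) (f k)) U (𝓝 0) := by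
      have h2 : Tendsto (fun k => γ * ‖f k - f0‖) U (𝓝 0) := by
        simpa using (tendsto_iff_norm_sub_tendsto_zero.mp hf).const_mul γ
      refine squeeze_zero (fun k => mul_nonneg hγ (resN_nonneg _ _)) (fun k => ?_) h2
      have h3 := abs_resN_sub_le (S.Z (Function.update t i k') (i + 1)) (f k) f0
      have h4 := mul_le_mul_of_nonneg_left ((le_abs_self _).trans h3) hγ
      rw [mul_sub, hres, sub_zero] at h4
      exact h4
    have h5 := S.dd_pos (Function.update t i k') (i + 1)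
    exact h1.eventually_lt_const (by positivity)
  have e5 : ∀ᶠ k in (U : Filter ℕ), S.m (i + 1) (Function.update t i k') ≤ j k i :=
    hj.eventually_ge_atTop _
  filter_upwards [hU, hn, e1, e2, e3, e4, e5] with k hU hn e1 e2 e3 e4 e5
  have hjt := hU.2
  have hAdm : S.Adm (i + 1) (j k) (x k) := (h k).mono hn
  have hch : S.Chain i t (x k) := (hAdm.1.mono (Nat.le_succ i)).congr hjt (fun l _ => rfl)
  have hstep := hAdm.1.2 i (Nat.lt_succ_self i)
  have hs1 : x k (i + 1) - x k i ∈ S.Z t i := by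
    rw [← S.Z_congr hjt]; exact hstep.1
  have hs2 : S.A (x k (i + 1) - S.c t i) ≤ S.dd t i + S.r t i := by
    rw [← S.c_congr hjt, ← S.dd_congr hjt, ← S.r_congr hjt]; exact hstep.2.1
  have hch' : S.Chain (i + 1) (Function.update t i k') (x k) := by
    have h1 := hch.extend hs1 hs2 e1.le
    rwa [Function.update_eq_self] at h1
  have hAdm' : S.Adm (i + 1) (Function.update t i k') (x k) := by
    refine ⟨hch', ?_⟩
    have h1 := hAdm.2
    rw [bet_succ, S.bet_congr hjt, S.dd_congr hjt] at h1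
    rw [bet_succ, ← S.bet_congr htt, ← S.dd_congr htt]
    exact h1
  refine ⟨hAdm', ?_⟩
  -- the scale of the label `j k i`
  have hdd : S.d (a (i + 1)) / 2 ≤ S.dd (j k) (i + 1) := by
    have h1 : ‖x k (i + 1) - S.c (j k) (i + 1)‖ ≤ S.dd (j k) (i + 1) / 32 :=
      ((S.kadec.le _).trans (hAdm.1.near le_rfl)).trans (S.r_le' _ _)
    have h2 := S.d_lip (a (i + 1)) (S.c (j k) (i + 1))
    have h3 : S.d (S.c (j k) (i + 1)) = S.dd (j k) (i + 1) := rfl
    have h4 : ‖a (i + 1) - S.c (j k) (i + 1)‖ ≤ ‖x k (i + 1) - a (i + 1)‖ +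
        ‖x k (i + 1) - S.c (j k) (i + 1)‖ := by
      have : a (i + 1) - S.c (j k) (i + 1) =
        (x k (i + 1) - S.c (j k) (i + 1)) - (x k (i + 1) - a (i + 1)) := by abel
      rw [this]
      refine (norm_sub_le _ _).trans ?_
      linarith
    rw [h3] at h2
    have h5 := (abs_le.mp h2).2
    have h6 := S.dd_pos (j k) (i + 1)
    linarith
  have hsmall : 9 * C * (γ * resN (S.Z (j k) (i + 1)) (f k)) ^ 2 ≤ S.dd (j k) (i + 1) ^ 2 := by
    refine e3.le.trans ?_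
    gcongr
  have hrest := S.rest_le' hγ hn (h k) (f k) hsmall
  have hpart : S.part γ (i + 1) (j k) (x k) (f k) =
      S.part γ (i + 1) (Function.update t i k') (x k) (f k) :=
    S.part_congr (fun l hl => (hjt l (by omega)).trans (htt l (by omega))) (fun l _ => rfl)
  have hTh : S.Th γ (i + 1) (Function.update t i k') (f k) =
      (γ * resN (S.Z (Function.update t i k') (i + 1)) (f k)) ^ 2 / 32 := theta_eq e4.le
  have hττ : γ * resN (S.Z (j k) (i + 1)) (f k) ≤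
      γ * resN (S.Z (Function.update t i k') (i + 1)) (f k) := by
    refine mul_le_mul_of_nonneg_left ?_ hγ
    exact resN_mono (tail_anti (e5.trans (S.m_label i (j k)))) (f k)
  have hτ0 : 0 ≤ γ * resN (S.Z (j k) (i + 1)) (f k) := mul_nonneg hγ (resN_nonneg _ _)
  have hsq : (γ * resN (S.Z (j k) (i + 1)) (f k)) ^ 2 ≤
      (γ * resN (S.Z (Function.update t i k') (i + 1)) (f k)) ^ 2 := by gcongr
  have hval' : S.val γ (i + 1) (Function.update t i k') (x k) (f k) =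
      S.part γ (i + 1) (Function.update t i k') (x k) (f k) +
        S.Th γ (i + 1) (Function.update t i k') (f k) := rfl
  rw [hval', hTh, ← hpart]
  linarith

end Sys

end C2N
end

section

set_option autoImplicit false

namespace C2N

open Filter Topology Set

variable {X : Type*} [NormedAddCommGroup X] [NormedSpace ℝ X]
variable {C B R : ℝ} {g : ℕ → X →L[ℝ] ℝ}

namespace Sys

/-- KEY LEMMA of section 9. -/
theorem key (S : Sys C g B R) {γ : ℝ} (hγ : 0 ≤ γ) {U : Ultrafilter ℕ} {n : ℕ → ℕ}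
    {j : ℕ → ℕ → ℕ} {x : ℕ → ℕ → X} (h : ∀ k, S.Adm (n k) (j k) (x k))
    {f : ℕ → X →L[ℝ] ℝ} {f0 : X →L[ℝ] ℝ} (hf : Tendsto f U (𝓝 f0))
    (hval : Tendsto (fun k => S.val γ (n k) (j k) (x k) (f k)) U (𝓝 (S.Sf γ f0))) :
    ∃ (i : ℕ) (t : ℕ → ℕ), (∃ a, S.Adm i t a ∧ S.val γ i t a f0 = S.Sf γ f0) ∧
      ∀ᶠ k in (U : Filter ℕ), S.Adm i t (x k) ∧
        S.val γ (n k) (j k) (x k) (f k) ≤ S.val γ i t (x k) (f k) := by
  obtain ⟨i, t, hU, hn | ⟨hn, hj⟩⟩ := dichotomy U n j (S.no_limit h)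
  · exact ⟨i, t, S.key_caseI hγ h hf hU hval hn⟩
  · obtain ⟨k', hk'⟩ := S.key_caseII hγ h hf hU hval hn hj
    exact ⟨i + 1, _, hk'⟩

/-- (A): the supremum is attained -/
theorem attained (S : Sys C g B R) {γ : ℝ} (hγ : 0 ≤ γ) (f : X →L[ℝ] ℝ) :
    ∃ n j x, S.Adm n j x ∧ S.val γ n j x f = S.Sf γ f := by
  choose n j x h hv using fun k : ℕ => S.exists_near_Sf γ f (e := 1 / ((k : ℝ) + 1)) (by positivity)
  have hU : ((hyperfilter ℕ : Ultrafilter ℕ) : Filter ℕ) ≤ atTop := by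
    rw [← Nat.cofinite_eq_atTop]
    exact hyperfilter_le_cofinite
  have hval : Tendsto (fun k => S.val γ (n k) (j k) (x k) f) (hyperfilter ℕ : Ultrafilter ℕ)
      (𝓝 (S.Sf γ f)) := by
    have h1 : Tendsto (fun k : ℕ => S.Sf γ f - 1 / ((k : ℝ) + 1)) atTop (𝓝 (S.Sf γ f - 0)) :=
      tendsto_const_nhds.sub tendsto_one_div_add_atTop_nhds_zero_nat
    rw [sub_zero] at h1
    exact tendsto_of_tendsto_of_tendsto_of_le_of_le (h1.mono_left hU) tendsto_const_nhds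
      (fun k => hv k) (fun k => S.le_Sf hγ (h k) f)
  obtain ⟨i, t, ⟨a, ha, hva⟩, -⟩ := S.key hγ (U := hyperfilter ℕ) h (tendsto_const_nhds (x := f)) hval
  exact ⟨i, t, a, ha, hva⟩

/-- (B): locally bounded optimal nodes -/
theorem locally_bounded (S : Sys C g B R) {γ : ℝ} (hγ : 0 ≤ γ) (f0 : X →L[ℝ] ℝ) :
    ∃ (M : ℕ) (d0 δ : ℝ), 0 < d0 ∧ 0 < δ ∧ ∀ f : X →L[ℝ] ℝ, ‖f - f0‖ < δ →
      ∃ n j x, S.Adm n j x ∧ S.val γ n j x f = S.Sf γ f ∧ S.m n j ≤ M ∧ d0 ≤ S.dd j n := by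
  by_contra hcon
  push Not at hcon
  choose f hf hno using fun k : ℕ => hcon k (1 / ((k : ℝ) + 1)) (1 / ((k : ℝ) + 1))
    (by positivity) (by positivity)
  choose n j x h hv using fun k : ℕ => S.attained hγ (f k)
  have hU : ((hyperfilter ℕ : Ultrafilter ℕ) : Filter ℕ) ≤ atTop := by
    rw [← Nat.cofinite_eq_atTop]
    exact hyperfilter_le_cofinite
  have hlim : Tendsto f atTop (𝓝 f0) := by
    rw [tendsto_iff_norm_sub_tendsto_zero]
    exact squeeze_zero (fun k => norm_nonneg _) (fun k => (hf k).le)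
      tendsto_one_div_add_atTop_nhds_zero_nat
  have hcont : Continuous (S.Sf γ) := by
    rw [Metric.continuous_iff]
    intro b e he
    have hK : 0 ≤ γ * (R + 1) := mul_nonneg hγ (by linarith [S.hR])
    refine ⟨e / (γ * (R + 1) + 1), by positivity, fun a ha => ?_⟩
    rw [Real.dist_eq]
    rw [dist_eq_norm] at ha
    rw [lt_div_iff₀ (by positivity)] at ha
    have h1 := S.Sf_lip hγ a b
    nlinarith [norm_nonneg (a - b)]
  have hval : Tendsto (fun k => S.val γ (n k) (j k) (x k) (f k)) (hyperfilter ℕ : Ultrafilter ℕ)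
      (𝓝 (S.Sf γ f0)) := by
    simp only [hv]
    exact ((hcont.tendsto f0).comp hlim).mono_left hU
  obtain ⟨i, t, -, hev⟩ := S.key hγ (U := hyperfilter ℕ) h (hlim.mono_left hU) hval
  have h1 : ∀ᶠ k in ((hyperfilter ℕ : Ultrafilter ℕ) : Filter ℕ), S.m i t ≤ k :=
    hU (eventually_ge_atTop _)
  have h2 : ∀ᶠ k : ℕ in ((hyperfilter ℕ : Ultrafilter ℕ) : Filter ℕ),
      1 / ((k : ℝ) + 1) < S.dd t i :=
    hU ((tendsto_one_div_add_atTop_nhds_zero_nat (𝕜 := ℝ)).eventually_lt_const (S.dd_pos t i))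
  obtain ⟨k, ⟨hk1, hk2⟩, hk3, hk4⟩ := (hev.and (h1.and h2)).exists
  have h3 : S.val γ i t (x k) (f k) = S.Sf γ (f k) :=
    le_antisymm (S.le_Sf hγ hk1 _) ((hv k).symm.le.trans hk2)
  exact absurd (hno k i t (x k) hk1 h3 hk3) (not_lt.mpr hk4.le)

end Sys

end C2N
end

section

set_option autoImplicit false

/-!
9.1 of paper 371.  `locally_bounded` at `f0` gives `M, d0, δ0`.  `δ = min δ0, (ρ-‖f0‖), d0/γ`.  For `h = (1/2)(f+f')` take the optimal
`(n, j, x)`; `γ resN (Z) h < 3 d` (`opt_small`), `d = dd j n ≥ d0`, so `γ resN f, γ resN f' ≤ 3d + γ 2δ ≤ 8 d` and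
`Th = (γ resN)^2/32` at `f, f', h` (`theta_eq`).  `Sf f ≥ val f`, `Sf f' ≥ val f'` (`le_Sf`), `part` is affine in `f`,
`TwoS.resN_convex` for `Z j n = tail g (m n j)`, and `resN (tail g M) ≤ resN (tail g (m n j))` (`m n j ≤ M`).
-/

namespace C2N

open Filter Topology Set

variable {X : Type*} [NormedAddCommGroup X] [NormedSpace ℝ X]
variable {C B R : ℝ} {g : ℕ → X →L[ℝ] ℝ}

namespace Sys

/-- 9.1, Theorem D: growth -/
theorem growth (S : Sys C g B R) {γ ρ : ℝ} (hγ : 0 < γ) (hρ : γ * (R + 1) * ρ ≤ B - 1)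
    (f0 : X →L[ℝ] ℝ) (hf0 : ‖f0‖ < ρ) :
    ∃ (M : ℕ) (δ : ℝ), 0 < δ ∧ ∀ f f' : X →L[ℝ] ℝ, ‖f - f0‖ < δ → ‖f' - f0‖ < δ →
      S.Sf γ ((1 / 2 : ℝ) • (f + f')) ≤ (S.Sf γ f + S.Sf γ f') / 2 -
        γ ^ 2 / (128 * C) * resN (tail g M) (f - f') ^ 2 := by
  obtain ⟨M, d0, δ0, hd0, hδ0, hloc⟩ := S.locally_bounded hγ.le f0
  have hC : 1 ≤ C := S.twoS.one_le
  refine ⟨M, min (min δ0 (ρ - ‖f0‖)) (d0 / γ), ?_, fun f f' hf hf' => ?_⟩
  · exact lt_min (lt_min hδ0 (by linarith)) (by positivity)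
  set δ := min (min δ0 (ρ - ‖f0‖)) (d0 / γ) with hδ
  have hδ1 : δ ≤ δ0 := (min_le_left _ _).trans (min_le_left _ _)
  have hδ2 : δ ≤ ρ - ‖f0‖ := (min_le_left _ _).trans (min_le_right _ _)
  have hδ3 : γ * δ ≤ d0 := by
    have h1 : δ ≤ d0 / γ := min_le_right _ _
    rw [le_div_iff₀ hγ] at h1
    linarith
  set h : X →L[ℝ] ℝ := (1 / 2 : ℝ) • (f + f') with hh
  have hhf0 : ‖h - f0‖ < δ := by
    have e : h - f0 = (1 / 2 : ℝ) • ((f - f0) + (f' - f0)) := by
      rw [hh]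
      ext y
      simp
      ring
    rw [e, norm_smul, Real.norm_of_nonneg (by norm_num)]
    have h1 := norm_add_le (f - f0) (f' - f0)
    linarith
  have hhρ : ‖h‖ ≤ ρ := by
    have h1 := norm_add_le (h - f0) f0
    rw [sub_add_cancel] at h1
    linarith
  obtain ⟨n, j, x, hadm, hopt, hm, hd⟩ := hloc h (hhf0.trans_le hδ1)
  have hsm := S.opt_small hγ.le hρ hhρ hadm hopt
  have hdp := S.dd_pos j n
  have hbig : ∀ f1 : X →L[ℝ] ℝ, ‖f1 - f0‖ < δ →
      γ * resN (S.Z j n) f1 ≤ 8 * S.dd j n := by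
    intro f1 hf1
    have h1 := le_of_abs_le (abs_resN_sub_le (S.Z j n) f1 h)
    have h2 : ‖f1 - h‖ ≤ 2 * δ := by
      have h3 := norm_sub_le (f1 - f0) (h - f0)
      rw [sub_sub_sub_cancel_right] at h3
      linarith
    have h3 : γ * resN (S.Z j n) f1 ≤ γ * (resN (S.Z j n) h + 2 * δ) := by
      gcongr
      linarith
    nlinarith
  have e0 : S.Sf γ h = S.part γ n j x h + (γ * resN (S.Z j n) h) ^ 2 / 32 := by
    rw [← hopt]
    unfold val Th
    rw [theta_eq (by linarith)]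
  have e1 : S.part γ n j x f + (γ * resN (S.Z j n) f) ^ 2 / 32 ≤ S.Sf γ f := by
    have h1 := S.le_Sf hγ.le hadm f
    unfold val Th at h1
    rwa [theta_eq (hbig f hf)] at h1
  have e2 : S.part γ n j x f' + (γ * resN (S.Z j n) f') ^ 2 / 32 ≤ S.Sf γ f' := by
    have h1 := S.le_Sf hγ.le hadm f'
    unfold val Th at h1
    rwa [theta_eq (hbig f' hf')] at h1
  have e3 : S.part γ n j x h = (S.part γ n j x f + S.part γ n j x f') / 2 := by
    unfold part
    rw [hh]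
    simp only [FunLike.coe_smul, FunLike.coe_add, Pi.smul_apply, Pi.add_apply,
      smul_eq_mul]
    ring
  have e4 := S.twoS.resN_convex (S.Z j n) f f'
  rw [← hh] at e4
  have e5 : resN (tail g M) (f - f') ≤ resN (S.Z j n) (f - f') :=
    resN_mono (tail_anti hm) _
  have e6 : resN (tail g M) (f - f') ^ 2 ≤ resN (S.Z j n) (f - f') ^ 2 := by
    have := resN_nonneg (tail g M) (f - f')
    gcongr
  have e7 : γ ^ 2 / (128 * C) * resN (tail g M) (f - f') ^ 2 ≤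
      γ ^ 2 / (128 * C) * resN (S.Z j n) (f - f') ^ 2 := by
    have : 0 ≤ γ ^ 2 / (128 * C) := by positivity
    gcongr
  have e8 : γ ^ 2 / 32 * resN (S.Z j n) h ^ 2 ≤
      γ ^ 2 / 32 * ((resN (S.Z j n) f ^ 2 + resN (S.Z j n) f' ^ 2) / 2 -
        resN (S.Z j n) (f - f') ^ 2 / (4 * C)) := by
    gcongr
  have e9 : γ ^ 2 / 32 * (resN (S.Z j n) (f - f') ^ 2 / (4 * C)) =
      γ ^ 2 / (128 * C) * resN (S.Z j n) (f - f') ^ 2 := by
    field_simp
    ring
  rw [e0, e3]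
  nlinarith

end Sys

end C2N
end

section

set_option autoImplicit false

/-!
9.1 of paper 371.  `B ≥ 2` with `B ≥ 512 C ρ^2 (R+1)^2 Λ`, `γ = (B-1)/(ρ(R+1))`, `S = Sf / B`: `(B-1)^2/B ≥ B/4`.
Uses `Sf_nonneg`, `Sf_upper`, `Sf_lip`, `Sf_convex`, `growth`.
-/

namespace C2N

open Filter Topology Set

variable {X : Type*} [NormedAddCommGroup X] [NormedSpace ℝ X]

/-- Section 9, normalised: for every `Λ` there is a convex functional on the dual with growth
constant `Λ` in tail directions. -/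
theorem exists_Stilde {C R : ℝ} {g : ℕ → X →L[ℝ] ℝ} (hC : 1 ≤ C) (hR : 0 ≤ R)
    (hsys : ∀ B : ℝ, 2 ≤ B → Nonempty (Sys C g B R)) (ρ Λ : ℝ) (hρ : 0 < ρ) :
    ∃ S : (X →L[ℝ] ℝ) → ℝ, (∀ f, 0 ≤ S f) ∧ (∀ f, S f ≤ ‖f‖ / ρ) ∧
      (∀ f f', |S f - S f'| ≤ ‖f - f'‖ / ρ) ∧
      (∀ f f', S ((1 / 2 : ℝ) • (f + f')) ≤ (S f + S f') / 2) ∧
      ∀ f0 : X →L[ℝ] ℝ, ‖f0‖ < ρ → ∃ (M : ℕ) (δ : ℝ), 0 < δ ∧ ∀ f f' : X →L[ℝ] ℝ,
        ‖f - f0‖ < δ → ‖f' - f0‖ < δ →
        S ((1 / 2 : ℝ) • (f + f')) ≤ (S f + S f') / 2 - Λ * resN (tail g M) (f - f') ^ 2 := by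
  have hR1 : 0 < R + 1 := by linarith
  have hC0 : 0 < C := by linarith
  have hK0 : 0 < 512 * C * ρ ^ 2 * (R + 1) ^ 2 := by positivity
  set K : ℝ := 512 * C * ρ ^ 2 * (R + 1) ^ 2 with hK
  have hB2 : (2 : ℝ) ≤ 2 + K * |Λ| := by
    have := mul_nonneg hK0.le (abs_nonneg Λ)
    linarith
  obtain ⟨S⟩ := hsys _ hB2
  have hBK : K * Λ ≤ 2 + K * |Λ| := by
    have := mul_le_mul_of_nonneg_left (le_abs_self Λ) hK0.le
    linarith
  revert S
  generalize 2 + K * |Λ| = B at hB2 hBK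
  intro S
  have hB0 : 0 < B := by linarith
  have hγ : 0 < (B - 1) / (ρ * (R + 1)) := div_pos (by linarith) (by positivity)
  have hγ1 : (B - 1) / (ρ * (R + 1)) * (R + 1) = (B - 1) / ρ := by field_simp
  have hγ2 : (B - 1) / (ρ * (R + 1)) * (R + 1) * ρ = B - 1 := by field_simp
  have hup : ∀ t : ℝ, 0 ≤ t → (B - 1) / ρ * t / B ≤ t / ρ := by
    intro t ht
    have e : (B - 1) / ρ * t / B = t / ρ * ((B - 1) / B) := by ring
    rw [e]
    have h1 : (B - 1) / B ≤ 1 := by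
      rw [div_le_one hB0]
      linarith
    have h2 : 0 ≤ t / ρ := div_nonneg ht hρ.le
    nlinarith
  set γ : ℝ := (B - 1) / (ρ * (R + 1)) with hγdef
  have hgam : Λ ≤ γ ^ 2 / (128 * C) / B := by
    have e : γ ^ 2 / (128 * C) / B = 4 * (B - 1) ^ 2 / B / K := by
      rw [hγdef, hK]
      field_simp
      ring
    rw [e, le_div_iff₀ hK0, le_div_iff₀ hB0]
    have h1 : Λ * K * B ≤ B * B := by
      have := mul_le_mul_of_nonneg_right hBK hB0.le
      linarith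
    nlinarith
  refine ⟨fun f => S.Sf γ f / B, fun f => div_nonneg (S.Sf_nonneg hγ.le f) hB0.le, fun f => ?_,
    fun f f' => ?_, fun f f' => ?_, fun f0 hf0 => ?_⟩
  · refine le_trans (div_le_div_of_nonneg_right (S.Sf_upper hγ.le f) hB0.le) ?_
    rw [hγ1]
    exact hup _ (norm_nonneg _)
  · beta_reduce
    rw [← sub_div, abs_div, abs_of_pos hB0]
    refine le_trans (div_le_div_of_nonneg_right (S.Sf_lip hγ.le f f') hB0.le) ?_
    rw [hγ1]
    exact hup _ (norm_nonneg _)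
  · beta_reduce
    refine le_trans (div_le_div_of_nonneg_right (S.Sf_convex hγ.le f f') hB0.le) (le_of_eq ?_)
    ring
  · obtain ⟨M, δ, hδ, h⟩ := S.growth hγ hγ2.le f0 hf0
    refine ⟨M, δ, hδ, fun f f' h1 h2 => ?_⟩
    beta_reduce
    refine le_trans (div_le_div_of_nonneg_right (h f f' h1 h2) hB0.le) ?_
    have h3 := mul_le_mul_of_nonneg_right hgam (sq_nonneg (resN (tail g M) (f - f')))
    have e : ((S.Sf γ f + S.Sf γ f') / 2 - γ ^ 2 / (128 * C) * resN (tail g M) (f - f') ^ 2) / B =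
        (S.Sf γ f / B + S.Sf γ f' / B) / 2 -
          γ ^ 2 / (128 * C) / B * resN (tail g M) (f - f') ^ 2 := by ring
    rw [e]
    linarith

end C2N
end

section

set_option autoImplicit false

/-!
Section 10 of paper 371.  `Φ f = ‖f‖^2 + ∑' l, (1/2)^(l+1) S_l f` with `S_l` from `exists_Stilde` with `ρ = 4`, `Λ = 4^l`.
Summable since `0 ≤ S_l f ≤ ‖f‖/4`.  Continuity: uniform Lipschitz constant `1/4` of the sum.  Convexity:
`TwoS.dual_convex`.  Given `K` choose `l` with `(1/2)^(l+1) 4^l ≥ K` and use the growth of `S_l` at `f0`.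
-/

namespace C2N

open Filter Topology Set

variable {X : Type*} [NormedAddCommGroup X] [NormedSpace ℝ X]

private theorem hasSum_half : HasSum (fun l : ℕ => (1 / 2 : ℝ) ^ (l + 1)) 1 := by
  have h := hasSum_geometric_two.mul_left (1 / 2 : ℝ)
  have e1 : (fun l : ℕ => (1 / 2 : ℝ) * (1 / 2) ^ l) = fun l : ℕ => (1 / 2 : ℝ) ^ (l + 1) := by
    funext l
    rw [pow_succ]; ring
  rw [e1] at h
  simpa using h

/-- the dual functional `F* f = ‖f‖^2 + ∑ 2^{-l-1} S_l f` -/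
theorem exists_Fstar {C R : ℝ} {P : X → X →L[ℝ] ℝ} (h2 : TwoS C P) {g : ℕ → X →L[ℝ] ℝ}
    (hR : 0 ≤ R) (hsys : ∀ B : ℝ, 2 ≤ B → Nonempty (Sys C g B R)) :
    ∃ Φ : (X →L[ℝ] ℝ) → ℝ, Continuous Φ ∧ (∀ f, ‖f‖ ^ 2 ≤ Φ f) ∧
      (∀ f, Φ f ≤ ‖f‖ ^ 2 + ‖f‖ / 4) ∧
      (∀ f f', Φ ((1 / 2 : ℝ) • (f + f')) ≤ (Φ f + Φ f') / 2 - 1 / (4 * C) * ‖f - f'‖ ^ 2) ∧
      ∀ f0 : X →L[ℝ] ℝ, ‖f0‖ < 4 → ∀ K : ℝ, ∃ (M : ℕ) (δ : ℝ), 0 < δ ∧ ∀ f f' : X →L[ℝ] ℝ,
        ‖f - f0‖ < δ → ‖f' - f0‖ < δ →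
        Φ ((1 / 2 : ℝ) • (f + f')) ≤ (Φ f + Φ f') / 2 - K * resN (tail g M) (f - f') ^ 2 := by
  have hS := fun l : ℕ => exists_Stilde h2.one_le hR hsys 4 ((4 : ℝ) ^ l) (by norm_num)
  choose S hS0 hSup hSlip hSconv hSgr using hS
  have hw0 : ∀ l : ℕ, (0 : ℝ) < (1 / 2 : ℝ) ^ (l + 1) := fun l => by positivity
  have hsm : ∀ f, Summable fun l : ℕ => (1 / 2 : ℝ) ^ (l + 1) * S l f := by
    intro f
    refine Summable.of_nonneg_of_le (fun l => mul_nonneg (hw0 l).le (hS0 l f)) (fun l => ?_)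
      (hasSum_half.summable.mul_right (‖f‖ / 4))
    exact mul_le_mul_of_nonneg_left (hSup l f) (hw0 l).le
  have hdual : ∀ f f' : X →L[ℝ] ℝ, ‖(1 / 2 : ℝ) • (f + f')‖ ^ 2 ≤
      (‖f‖ ^ 2 + ‖f'‖ ^ 2) / 2 - 1 / (4 * C) * ‖f - f'‖ ^ 2 := by
    intro f f'
    refine (h2.dual_convex f f').trans (le_of_eq ?_)
    ring
  have hcvx : ∀ f f' : X →L[ℝ] ℝ, ∑' l : ℕ, (1 / 2 : ℝ) ^ (l + 1) * S l ((1 / 2 : ℝ) • (f + f')) ≤
      (∑' l : ℕ, (1 / 2 : ℝ) ^ (l + 1) * S l f + ∑' l : ℕ, (1 / 2 : ℝ) ^ (l + 1) * S l f') / 2 := by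
    intro f f'
    have e1 : (∑' l : ℕ, (1 / 2 : ℝ) ^ (l + 1) * S l f +
        ∑' l : ℕ, (1 / 2 : ℝ) ^ (l + 1) * S l f') / 2 =
        ∑' l : ℕ, ((1 / 2 : ℝ) ^ (l + 1) * S l f + (1 / 2 : ℝ) ^ (l + 1) * S l f') / 2 := by
      rw [← (hsm f).tsum_add (hsm f'), tsum_div_const]
    rw [e1]
    refine (hsm _).tsum_le_tsum (fun l => ?_) (((hsm f).add (hsm f')).div_const 2)
    have := mul_le_mul_of_nonneg_left (hSconv l f f') (hw0 l).le
    linarith
  refine ⟨fun f => ‖f‖ ^ 2 + ∑' l : ℕ, (1 / 2 : ℝ) ^ (l + 1) * S l f, ?_, ?_, ?_, ?_, ?_⟩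
  · refine (continuous_norm.pow 2).add ?_
    have hlip : LipschitzWith (Real.toNNReal (1 / 4))
        (fun f => ∑' l : ℕ, (1 / 2 : ℝ) ^ (l + 1) * S l f) := by
      refine LipschitzWith.of_dist_le_mul fun f f' => ?_
      rw [Real.dist_eq, dist_eq_norm, Real.coe_toNNReal _ (by norm_num),
        ← (hsm f).tsum_sub (hsm f')]
      have hb : ∀ l : ℕ, ‖(1 / 2 : ℝ) ^ (l + 1) * S l f - (1 / 2 : ℝ) ^ (l + 1) * S l f'‖ ≤
          (1 / 2 : ℝ) ^ (l + 1) * (‖f - f'‖ / 4) := by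
        intro l
        rw [← mul_sub, norm_mul, Real.norm_eq_abs, Real.norm_eq_abs, abs_of_pos (hw0 l)]
        exact mul_le_mul_of_nonneg_left (hSlip l f f') (hw0 l).le
      have h3 := tsum_of_norm_bounded (hasSum_half.mul_right (‖f - f'‖ / 4)) hb
      rw [Real.norm_eq_abs] at h3
      linarith
    exact hlip.continuous
  · intro f
    have : 0 ≤ ∑' l : ℕ, (1 / 2 : ℝ) ^ (l + 1) * S l f :=
      tsum_nonneg fun l => mul_nonneg (hw0 l).le (hS0 l f)
    show ‖f‖ ^ 2 ≤ ‖f‖ ^ 2 + ∑' l : ℕ, (1 / 2 : ℝ) ^ (l + 1) * S l f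
    linarith
  · intro f
    have h3 : ∑' l : ℕ, (1 / 2 : ℝ) ^ (l + 1) * S l f ≤
        ∑' l : ℕ, (1 / 2 : ℝ) ^ (l + 1) * (‖f‖ / 4) :=
      (hsm f).tsum_le_tsum (fun l => mul_le_mul_of_nonneg_left (hSup l f) (hw0 l).le)
        (hasSum_half.summable.mul_right (‖f‖ / 4))
    rw [(hasSum_half.mul_right (‖f‖ / 4)).tsum_eq] at h3
    show ‖f‖ ^ 2 + ∑' l : ℕ, (1 / 2 : ℝ) ^ (l + 1) * S l f ≤ ‖f‖ ^ 2 + ‖f‖ / 4
    linarith
  · intro f f'
    have h3 := hdual f f'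
    have h4 := hcvx f f'
    beta_reduce
    linarith
  · intro f0 hf0 K
    obtain ⟨l, hl⟩ := pow_unbounded_of_one_lt (2 * K) (by norm_num : (1 : ℝ) < 2)
    have hKl : K ≤ (1 / 2 : ℝ) ^ (l + 1) * 4 ^ l := by
      have e1 : (1 / 2 : ℝ) ^ (l + 1) * 4 ^ l = 2 ^ l / 2 := by
        rw [pow_succ, show (4 : ℝ) = 2 * 2 by norm_num, mul_pow]
        have : (1 / 2 : ℝ) ^ l * 2 ^ l = 1 := by rw [← mul_pow]; norm_num
        calc (1 / 2 : ℝ) ^ l * (1 / 2) * (2 ^ l * 2 ^ l) =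
            ((1 / 2 : ℝ) ^ l * 2 ^ l) * 2 ^ l / 2 := by ring
          _ = 2 ^ l / 2 := by rw [this, one_mul]
      rw [e1]
      linarith
    obtain ⟨M, δ, hδ, hg⟩ := hSgr l f0 hf0
    refine ⟨M, δ, hδ, fun f f' h5 h6 => ?_⟩
    have h7 := hg f f' h5 h6
    set r := resN (tail g M) (f - f') ^ 2 with hr
    have hr0 : 0 ≤ r := sq_nonneg _
    have hsingle : HasSum (fun i : ℕ => if i = l then (1 / 2 : ℝ) ^ (l + 1) * 4 ^ l * r else 0)
        ((1 / 2 : ℝ) ^ (l + 1) * 4 ^ l * r) := hasSum_ite_eq l _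
    have h8 : ∑' i : ℕ, (1 / 2 : ℝ) ^ (i + 1) * S i ((1 / 2 : ℝ) • (f + f')) ≤
        (∑' i : ℕ, (1 / 2 : ℝ) ^ (i + 1) * S i f + ∑' i : ℕ, (1 / 2 : ℝ) ^ (i + 1) * S i f') / 2 -
        (1 / 2 : ℝ) ^ (l + 1) * 4 ^ l * r := by
      have hs2 : HasSum (fun i : ℕ => ((1 / 2 : ℝ) ^ (i + 1) * S i f +
          (1 / 2 : ℝ) ^ (i + 1) * S i f') / 2 -
          (if i = l then (1 / 2 : ℝ) ^ (l + 1) * 4 ^ l * r else 0))
          ((∑' i : ℕ, (1 / 2 : ℝ) ^ (i + 1) * S i f +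
            ∑' i : ℕ, (1 / 2 : ℝ) ^ (i + 1) * S i f') / 2 -
            (1 / 2 : ℝ) ^ (l + 1) * 4 ^ l * r) :=
        (((hsm f).hasSum.add (hsm f').hasSum).div_const 2).sub hsingle
      rw [← hs2.tsum_eq]
      refine (hsm _).tsum_le_tsum (fun i => ?_) hs2.summable
      by_cases hi : i = l
      · subst hi
        rw [if_pos rfl]
        have := mul_le_mul_of_nonneg_left h7 (hw0 i).le
        linarith
      · rw [if_neg hi]
        have := mul_le_mul_of_nonneg_left (hSconv i f f') (hw0 i).le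
        linarith
    have h9 := hdual f f'
    have h10 : 0 ≤ 1 / (4 * C) * ‖f - f'‖ ^ 2 := by
      have := h2.one_le
      positivity
    have h11 : K * r ≤ (1 / 2 : ℝ) ^ (l + 1) * 4 ^ l * r := mul_le_mul_of_nonneg_right hKl hr0
    beta_reduce
    linarith

end C2N
end

section

set_option autoImplicit false

namespace C2N

open Filter Topology Set

variable {X : Type*} [NormedAddCommGroup X] [NormedSpace ℝ X]

end C2N
end

section

set_option autoImplicit false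

namespace C2N

open Filter Topology Set

universe u

/-- final assembly in a space with `(2S)` -/
theorem hasC2Norm_of_twoS {X : Type*} [NormedAddCommGroup X] [NormedSpace ℝ X] [CompleteSpace X]
    [TopologicalSpace.SeparableSpace X] {C : ℝ} {P : X → X →L[ℝ] ℝ} (h2 : TwoS C P)
    (hb : HasC2Bump X) (hl : ¬ ContainsL2 X) : HasC2Norm X := by
  obtain ⟨b, hbC, hb0, R, hR, hbR⟩ := bump_normalize hb
  have hy : DenseRange (TopologicalSpace.denseSeq X) := TopologicalSpace.denseRange_denseSeq X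
  set y := TopologicalSpace.denseSeq X with hydef
  obtain ⟨A, hA⟩ := exists_kadec hy
  have hwl := wlimExists_of_twoS h2
  have hg := tails_of_twoS h2 hy
  have hsys : ∀ B : ℝ, 2 ≤ B → Nonempty (Sys C (fun j => P (y j)) B R) := fun B hB =>
    exists_sys h2 hg hwl hA hy hl b hbC hb0 R hR hbR B hB
  obtain ⟨Φ, f1, f2, f3, f4, f5⟩ := exists_Fstar h2 hR.le hsys
  obtain ⟨F, p, L, hL, q1, q2, q3, q4, q5, q6⟩ := exists_F h2.one_le Φ f1 f2 f3 f4 f5
  obtain ⟨G, q, hG, hFG, hdir, hTS⟩ := exists_smoothing hL ⟨q1, q2⟩ q6 y (1 / 2) (by norm_num)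
  have hC2 := contDiffOn_of_TS hwl hL hG hTS hy hdir
  have hconv : ConvexOn ℝ univ G := quad_convex hG.lower
  have hcont : Continuous G := hG.continuous hL.le
  have hF0 : F 0 ≤ 0 := by simpa using q3 0
  refine gauge_C2 (fun x => G x + G (-x)) ?_ ?_ ?_ 3 (7 / 2) ?_ ?_ ?_
  · refine hconv.add ?_
    have := hconv.comp_linearMap (-LinearMap.id : X →ₗ[ℝ] X)
    simpa [Function.comp_def] using this
  · exact hcont.add (hcont.comp continuous_neg)
  · intro x
    simp only [neg_neg]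
    ring
  · have := (hFG 0).2
    simp only [neg_zero]
    linarith
  · intro x hx
    by_contra hcon
    push Not at hcon
    have h1 := q4 x (by linarith)
    have h2' := q4 (-x) (by rw [norm_neg]; linarith)
    rw [norm_neg] at h2'
    have h3 := (hFG x).1
    have h4 := (hFG (-x)).1
    nlinarith
  · have h72 : (4 : ℝ) - 1 / 2 = 7 / 2 := by norm_num
    rw [h72] at hC2
    refine hC2.add (hC2.comp contDiff_neg.contDiffOn ?_)
    intro x hx
    simpa using hx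

/-- THEOREM 1 of paper 371. -/
theorem theorem1 {X : Type u} [NormedAddCommGroup X] [NormedSpace ℝ X] [CompleteSpace X]
    [TopologicalSpace.SeparableSpace X] (hb : HasC2Bump X) (h0 : ¬ ContainsC0 X)
    (hl : ¬ ContainsL2 X) : HasC2Norm X := by
  obtain ⟨β, b1, b2, b3, ⟨R, hR, b4⟩, K, hK, b5⟩ := exists_bounded_bump hb h0
  obtain ⟨Y, i1, i2, e, C, P, h2⟩ := exists_twoS_model β b2 b3 R hR b4 K hK b5
  have hY : CompleteSpace Y := by
    exact (completeSpace_congr (e := e.toEquiv) e.isUniformEmbedding).mp inferInstance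
  have hYs : TopologicalSpace.SeparableSpace Y :=
    e.surjective.denseRange.separableSpace e.continuous
  have hYb : HasC2Bump Y := hb.of_equiv e.symm
  have hYl : ¬ ContainsL2 Y := by
    intro h
    obtain ⟨K', hK', hb'⟩ : ∃ c : ℝ, 0 < c ∧ ∀ y : Y, c * ‖y‖ ≤ ‖e.symm y‖ := by
      refine ⟨1 / (‖(e : X →L[ℝ] Y)‖ + 1), by positivity, fun y => ?_⟩
      have h1 := (e : X →L[ℝ] Y).le_opNorm (e.symm y)
      simp only [ContinuousLinearEquiv.coe_coe, ContinuousLinearEquiv.apply_symm_apply] at h1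
      rw [one_div, inv_mul_le_iff₀ (by positivity)]
      nlinarith [norm_nonneg (e.symm y)]
    exact hl (h.of_embed (e.symm : Y →L[ℝ] X) K' hK' hb')
  exact (hasC2Norm_of_twoS h2 hYb hYl).of_equiv e

/-- THEOREM 2 of paper 371. -/
theorem theorem2 {X : Type u} [NormedAddCommGroup X] [NormedSpace ℝ X] [CompleteSpace X]
    (hinf : ¬ FiniteDimensional ℝ X) (hb : HasC2Bump X) :
    ∃ V : Submodule ℝ X, IsClosed (V : Set X) ∧ ¬ FiniteDimensional ℝ V ∧ HasC2Norm V := by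
  by_cases h0 : ContainsC0 X
  · exact c0_subspace h0
  by_cases hl : ContainsL2 X
  · exact l2_subspace hl
  obtain ⟨Y, hYc, hYi, hYs⟩ := exists_separable_subspace hinf
  have hYcomp : CompleteSpace Y := hYc.completeSpace_coe
  refine ⟨Y, hYc, hYi, theorem1 (hb.restrict Y) (fun h => h0 ?_) (fun h => hl ?_)⟩
  · exact h.of_embed Y.subtypeL 1 one_pos (fun x => by simp)
  · exact h.of_embed Y.subtypeL 1 one_pos (fun x => by simp)

end C2N
end
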