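import Pool.Agent.Lib.MP_55041d_an.h32b.Defs
import Pool.Agent.Lib.MP_55041d_an.h32b.Main

section

set_option autoImplicit false

namespace C2N

open Filter Topology Set ZeroAtInfty

variable {X : Type*} [NormedAddCommGroup X] [NormedSpace ℝ X]

theorem c0_tendsto (a : C₀(ℕ, ℝ)) : Tendsto (fun n => a n) atTop (𝓝 0) := by
  have := a.zero_at_infty'
  rw [cocompact_eq_cofinite, Nat.cofinite_eq_atTop] at this
  exact this

theorem c0_abs_le (a : C₀(ℕ, ℝ)) (n : ℕ) : |a n| ≤ ‖a‖ := by
  have := BoundedContinuousFunction.norm_coe_le_norm a.toBCF n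
  simpa using this

theorem c0_norm_le (a : C₀(ℕ, ℝ)) {M : ℝ} (hM : 0 ≤ M) (h : ∀ n, |a n| ≤ M) : ‖a‖ ≤ M := by
  rw [← ZeroAtInftyContinuousMap.norm_toBCF_eq_norm]
  exact (BoundedContinuousFunction.norm_le hM).mpr (fun n => by simpa using h n)

/-- an isomorphic embedding of `c_0` from a `c_0`-sequence -/
theorem c0_embed [CompleteSpace X] (h : ContainsC0 X) :
    ∃ (T : C₀(ℕ, ℝ) →L[ℝ] X) (c : ℝ), 0 < c ∧ ∀ a, c * ‖a‖ ≤ ‖T a‖ := by
  obtain ⟨u, c, C, hc, hC, h1, h2⟩ := h
  have hcau : ∀ a : C₀(ℕ, ℝ), CauchySeq (fun N => ∑ n ∈ Finset.range N, a n • u n) := by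
    intro a
    rw [Metric.cauchySeq_iff']
    intro e he
    obtain ⟨N, hN⟩ := (Metric.tendsto_atTop.mp (c0_tendsto a)) (e / (2 * C)) (by positivity)
    refine ⟨N, fun n hn => ?_⟩
    rw [dist_eq_norm, ← Finset.sum_sdiff (Finset.range_mono hn), add_sub_cancel_right]
    have h3 := h1 (Finset.range n \ Finset.range N) (fun n => a n) (e / (2 * C)) (by positivity)
      (fun i hi => by
        rw [Finset.mem_sdiff, Finset.mem_range, Finset.mem_range, not_lt] at hi
        have := hN i hi.2
        rw [dist_zero_right, Real.norm_eq_abs] at this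
        exact this.le)
    have h4 : C * (e / (2 * C)) = e / 2 := by field_simp
    rw [h4] at h3
    linarith
  choose T hT using fun a => cauchySeq_tendsto_of_complete (hcau a)
  have hbound : ∀ a, ‖T a‖ ≤ C * ‖a‖ := by
    intro a
    refine le_of_tendsto (hT a).norm (Eventually.of_forall fun N => ?_)
    exact h1 _ (fun n => a n) ‖a‖ (norm_nonneg _) (fun i _ => c0_abs_le a i)
  let L : C₀(ℕ, ℝ) →ₗ[ℝ] X :=
    { toFun := T
      map_add' := fun a b => by
        refine tendsto_nhds_unique (hT (a + b)) ?_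
        have := (hT a).add (hT b)
        refine this.congr (fun N => ?_)
        rw [← Finset.sum_add_distrib]
        refine Finset.sum_congr rfl (fun n _ => ?_)
        rw [← add_smul]
        rfl
      map_smul' := fun r a => by
        refine tendsto_nhds_unique (hT (r • a)) ?_
        have := (hT a).const_smul r
        refine this.congr (fun N => ?_)
        rw [Finset.smul_sum]
        refine Finset.sum_congr rfl (fun n _ => ?_)
        rw [smul_smul]
        rfl }
  refine ⟨L.mkContinuous C hbound, c, hc, fun a => ?_⟩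
  have hLa : (L.mkContinuous C hbound) a = T a := rfl
  rw [hLa]
  have h3 : ∀ i, |a i| ≤ c⁻¹ * ‖T a‖ := by
    intro i
    have h4 : c * |a i| ≤ ‖T a‖ := by
      refine ge_of_tendsto (hT a).norm ?_
      filter_upwards [eventually_gt_atTop i] with N hN
      exact h2 _ (fun n => a n) i (Finset.mem_range.mpr hN)
    rw [← div_eq_inv_mul, le_div_iff₀ hc]
    linarith
  have h4 := c0_norm_le a (by positivity) h3
  rw [← div_eq_inv_mul, le_div_iff₀ hc] at h4
  linarith

end C2N
end

section

set_option autoImplicit false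

namespace C2N

open ZeroAtInfty

theorem theorem1' {X : Type*} [NormedAddCommGroup X] [NormedSpace ℝ X] [CompleteSpace X]
    [TopologicalSpace.SeparableSpace X] (hb : HasC2Bump X) (h0 : ¬ Embeds C₀(ℕ, ℝ) X)
    (h2 : ¬ Embeds (lp (fun _ : ℕ => ℝ) 2) X) : HasC2Norm X :=
  theorem1 hb (fun h => h0 (c0_embed h)) (fun h => h2 (l2_embed h))

end C2N
end
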