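import Mathlib

set_option autoImplicit false

/-!
# Definitions used in the statements of the hand-ins of MP_55041d_an
-/

namespace C2N

/-- `N` is an equivalent norm on `X`. -/
structure EquivNorm {X : Type*} [NormedAddCommGroup X] [NormedSpace ℝ X] (N : X → ℝ) : Prop where
  add_le : ∀ x y, N (x + y) ≤ N x + N y
  smul : ∀ (r : ℝ) (x : X), N (r • x) = |r| * N x
  equiv : ∃ c C : ℝ, 0 < c ∧ 0 < C ∧ ∀ x, c * ‖x‖ ≤ N x ∧ N x ≤ C * ‖x‖

/-- `X` has an equivalent norm that is `C^2`-smooth away from the origin. -/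
def HasC2Norm (X : Type*) [NormedAddCommGroup X] [NormedSpace ℝ X] : Prop :=
  ∃ N : X → ℝ, EquivNorm N ∧ ContDiffOn ℝ 2 N {0}ᶜ

/-- `X` has a `C^2`-smooth bump function: `C^2`-smooth, bounded nonempty support. -/
def HasC2Bump (X : Type*) [NormedAddCommGroup X] [NormedSpace ℝ X] : Prop :=
  ∃ b : X → ℝ, ContDiff ℝ 2 b ∧ Bornology.IsBounded (tsupport b) ∧ (tsupport b).Nonempty

/-- `Y` embeds isomorphically into `X`. -/
def Embeds (Y X : Type*) [NormedAddCommGroup Y] [NormedSpace ℝ Y] [NormedAddCommGroup X]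
    [NormedSpace ℝ X] : Prop :=
  ∃ (T : Y →L[ℝ] X) (c : ℝ), 0 < c ∧ ∀ y, c * ‖y‖ ≤ ‖T y‖

end C2N
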